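import Pool.Agent.W_d1cfb0_h59.NormalAll

/-!
# Capturing a small cube

Proof. `X = f '' ccub c s`. Let `M = {z | SuppIn z (O n) ∧ f * sc c s hs z * f⁻¹ ∈ H}`, a closed
group by `closedGroup_conj_sc`. Let `R = {g | SuppIn g (O n) ∧ ∀ z ∈ M, g * z * g⁻¹ ∈ M ∧
g⁻¹ * z * g ∈ M}`, a closed group by `closedGroup_normalizer`. Claim `G ⊆ R`: let `t ∈ G` and
`a ∈ H` from the hypothesis, `w = f * sc c s hs t * f⁻¹`. For `z ∈ M` the element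
`x = f * sc c s hs z * f⁻¹ ∈ H` has support in `f '' cub c s ⊆ X` (`sc_suppIn`, `SuppIn.conj`), so
`f * sc c s hs (t * z * t⁻¹) * f⁻¹ = w * x * w⁻¹ = a * x * a⁻¹ ∈ H` (`sc_mul`, `sc_inv`). For the
inverse: `w⁻¹ * x * w` has support in `X` too, and
`a * (w⁻¹ * x * w) * a⁻¹ = w * (w⁻¹ * x * w) * w⁻¹ = x`, so
`w⁻¹ * x * w = a⁻¹ * x * a ∈ H`. By `hG.gen` all `d` with `IsD d` are in `R`, so `M` is normalized
by `IsD`. By `exists_sc` there is `t₀` in `IsD` with `sc c s hs t₀ = y`; `t₀ ≠ 1` (`sc_one`),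
`t₀ ∈ M` by `hyH`. By `normal_all`, `M` contains all elements of `IsD`. Let now `z` be `Sm` with
`CS z (cub c s)`; by `exists_sc`, `z = sc c s hs t` with `IsD t`, so `t ∈ M`, i.e.
`f * z * f⁻¹ ∈ H`.
-/

namespace Pool.Agent.W_d1cfb0_h59

open MeasureTheory Pool.Agent.W_MP_d1cfb0_an

theorem capture_cube {n : ℕ} (hn : 2 ≤ n) {G : Set (E n ≃ₜ E n)} (hG : Gen n G)
    {H : Set (E n ≃ₜ E n)} (hH : ClosedGroup n H) {f : E n ≃ₜ E n} (hf : IsM f) {c : E n} {s : ℝ}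
    (hs : 0 < s) (hc : ccub c s ⊆ O n)
    (hw : ∀ t ∈ G, ∃ a ∈ H, ∀ z : E n ≃ₜ E n, SuppIn z (f '' ccub c s) →
      a * z * a⁻¹ = (f * sc c s hs t * f⁻¹) * z * (f * sc c s hs t * f⁻¹)⁻¹)
    {y : E n ≃ₜ E n} (hy : Sm y) (hyc : CS y (cub c s)) (hy1 : y ≠ 1) (hyH : f * y * f⁻¹ ∈ H) :
    Capt {z | SuppIn z (O n) ∧ f * z * f⁻¹ ∈ H} (cub c s) := by
  have hcO : cub c s ⊆ O n := (cub_subset_ccub c s).trans hc
  have hfO : SuppIn f (O n) := hf.suppIn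
  obtain ⟨M, hM⟩ : ∃ M : Set (E n ≃ₜ E n),
      M = {z | SuppIn z (O n) ∧ f * sc c s hs z * f⁻¹ ∈ H} := ⟨_, rfl⟩
  have memM : ∀ z, z ∈ M ↔ SuppIn z (O n) ∧ f * sc c s hs z * f⁻¹ ∈ H := by
    intro z
    rw [hM]
    rfl
  have cM : ClosedGroup n M := by
    rw [hM]
    exact closedGroup_conj_sc hH hfO c s hs hcO
  have cR := closedGroup_normalizer cM
  have hGR : G ⊆ {g | SuppIn g (O n) ∧ ∀ z ∈ M, g * z * g⁻¹ ∈ M ∧ g⁻¹ * z * g ∈ M} := by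
    intro t ht
    obtain ⟨a, haH, ha⟩ := hw t ht
    have htO := hG.supp t ht
    refine ⟨htO, ?_⟩
    intro z hz
    obtain ⟨hzO, hzH⟩ := (memM z).1 hz
    have hsupp : ∀ z' : E n ≃ₜ E n, SuppIn z' (O n) →
        SuppIn (f * sc c s hs z' * f⁻¹) (f '' ccub c s) := by
      intro z' hz'
      exact ((sc_suppIn (c := c) (hs := hs) hz').conj f).mono
        (Set.image_mono (cub_subset_ccub c s))
    have h1 : f * sc c s hs (t * z * t⁻¹) * f⁻¹ =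
        (f * sc c s hs t * f⁻¹) * (f * sc c s hs z * f⁻¹) * (f * sc c s hs t * f⁻¹)⁻¹ := by
      rw [sc_mul, sc_mul, sc_inv]
      group
    have h3 : f * sc c s hs (t⁻¹ * z * t) * f⁻¹ =
        (f * sc c s hs t * f⁻¹)⁻¹ * (f * sc c s hs z * f⁻¹) * (f * sc c s hs t * f⁻¹) := by
      rw [sc_mul, sc_mul, sc_inv]
      group
    have hO1 : SuppIn (t * z * t⁻¹) (O n) := (htO.mul hzO).mul htO.inv
    have hO2 : SuppIn (t⁻¹ * z * t) (O n) := (htO.inv.mul hzO).mul htO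
    refine ⟨(memM _).2 ⟨hO1, ?_⟩, (memM _).2 ⟨hO2, ?_⟩⟩
    · have h2 : a * (f * sc c s hs z * f⁻¹) * a⁻¹ ∈ H :=
        hH.mul_mem _ (hH.mul_mem _ haH _ hzH) _ (hH.inv_mem _ haH)
      rw [ha _ (hsupp z hzO)] at h2
      rw [h1]
      exact h2
    · have h4 := ha _ (hsupp _ hO2)
      have h5 : f * sc c s hs (t⁻¹ * z * t) * f⁻¹ = a⁻¹ * (f * sc c s hs z * f⁻¹) * a := by
        have h6 : a * (f * sc c s hs (t⁻¹ * z * t) * f⁻¹) * a⁻¹ = f * sc c s hs z * f⁻¹ := by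
          rw [h4, h3]
          group
        calc f * sc c s hs (t⁻¹ * z * t) * f⁻¹
            = a⁻¹ * (a * (f * sc c s hs (t⁻¹ * z * t) * f⁻¹) * a⁻¹) * a := by group
          _ = a⁻¹ * (f * sc c s hs z * f⁻¹) * a := by rw [h6]
      rw [h5]
      exact hH.mul_mem _ (hH.mul_mem _ (hH.inv_mem _ haH) _ hzH) _ haH
  have hnorm : ∀ d, IsD d → ∀ z ∈ M, d * z * d⁻¹ ∈ M :=
    fun d hd z hz => ((hG.gen _ cR hGR d hd).2 z hz).1
  obtain ⟨t₀, ht₀, ht₀y⟩ := exists_sc c s hs hy hyc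
  have ht1 : t₀ ≠ 1 := by
    rintro rfl
    exact hy1 (by rw [← ht₀y, sc_one])
  have htM : t₀ ∈ M := (memM _).2 ⟨ht₀.2.suppIn, by rw [ht₀y]; exact hyH⟩
  have hall := normal_all hn cM hnorm ht₀ ht1 htM
  intro z hz hzc
  obtain ⟨t, ht, htz⟩ := exists_sc c s hs hz hzc
  have h := ((memM _).1 (hall t ht)).2
  rw [htz] at h
  exact ⟨(hzc.mono hcO).suppIn, h⟩

end Pool.Agent.W_d1cfb0_h59
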