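import Pool.Agent.W_d1cfb0_h59.Basic2

/-!
# A dense sequence

Proof. Let `C = ccub 0 (1/2) : Set (E n)`, a compact set. The map
`f ↦ (restriction of f to C, restriction of f⁻¹ to C)` from `{f // IsM f}` to
`C(C, E n) × C(C, E n)` (bundled continuous maps on the compact metric space `C`, with the uniform
distance). This product is second countable (`ContinuousMap` second countability for compact
metrizable source and second countable target: instance in
`Mathlib.Topology.ContinuousMap.SecondCountableSpace`), so the range of the map is a separable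
metric space: there is a sequence `F k` of elements of `{f // IsM f}` (nonempty, `isM_one`) whose
images are dense in the range (`TopologicalSpace.exists_countable_dense` /
`TopologicalSpace.denseSeq` for the subtype given by the range, or
`TopologicalSpace.IsSeparable`). Off `C` all `f` in `IsM` and their inverses are the identity
(`O n ⊆ C`), so distance `< ε` on `C` (`ContinuousMap.dist_lt_iff`) gives distance `< ε`
everywhere.
-/

namespace Pool.Agent.W_d1cfb0_h59

open MeasureTheory Pool.Agent.W_MP_d1cfb0_an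

theorem exists_dense_seq (n : ℕ) : ∃ F : ℕ → (E n ≃ₜ E n), (∀ k, IsM (F k)) ∧
    ∀ f : E n ≃ₜ E n, IsM f → ∀ ε : ℝ, 0 < ε → ∃ k, ∀ x,
      dist (F k x) (f x) < ε ∧ dist ((F k)⁻¹ x) (f⁻¹ x) < ε := by
  have hcomp : IsCompact (ccub 0 (1 / 2) : Set (E n)) := isCompact_ccub 0 (1 / 2)
  have : CompactSpace (ccub 0 (1 / 2) : Set (E n)) := isCompact_iff_compactSpace.1 hcomp
  obtain ⟨Φ, hΦ⟩ : ∃ Φ : {f : E n ≃ₜ E n // IsM f} →
      C((ccub 0 (1 / 2) : Set (E n)), E n) × C((ccub 0 (1 / 2) : Set (E n)), E n),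
      ∀ f, Φ f = (⟨fun x => f.1 x, f.1.continuous.comp continuous_subtype_val⟩,
        ⟨fun x => f.1⁻¹ x, (f.1⁻¹).continuous.comp continuous_subtype_val⟩) := ⟨_, fun _ => rfl⟩
  have : Nonempty (Set.range Φ) := ⟨⟨_, ⟨⟨1, isM_one⟩, rfl⟩⟩⟩
  obtain ⟨u, hu⟩ := TopologicalSpace.exists_dense_seq (Set.range Φ)
  choose G hG using fun k => (u k).2
  refine ⟨fun k => (G k).1, fun k => (G k).2, fun f hf ε hε => ?_⟩
  obtain ⟨k, hk⟩ := hu.exists_dist_lt ⟨Φ ⟨f, hf⟩, ⟨_, rfl⟩⟩ hε
  refine ⟨k, fun x => ?_⟩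
  have h1 : dist (Φ (G k)) (Φ ⟨f, hf⟩) < ε := by
    rw [dist_comm, hG k]
    exact hk
  rw [Prod.dist_eq, max_lt_iff, hΦ, hΦ] at h1
  by_cases hx : x ∈ (ccub 0 (1 / 2) : Set (E n))
  · exact ⟨(ContinuousMap.dist_lt_iff hε).1 h1.1 ⟨x, hx⟩,
      (ContinuousMap.dist_lt_iff hε).1 h1.2 ⟨x, hx⟩⟩
  · have hxO : x ∉ O n := fun h2 => hx (by
      rw [O_eq_cub] at h2
      exact cub_subset_ccub _ _ h2)
    rw [(G k).2.suppIn x hxO, hf.suppIn x hxO, (G k).2.suppIn.inv x hxO, hf.suppIn.inv x hxO,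
      dist_self]
    exact ⟨hε, hε⟩

end Pool.Agent.W_d1cfb0_h59
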