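import Pool.Agent.W_d1cfb0_h59.Basic2

/-!
# Covering a compact set of small volume by few small cubes

Proof. By outer regularity there is an open `U ⊇ Z`, `U ⊆ O n`, with `volume U < v`
(`Set.exists_isOpen_lt_of_lt`, intersect with `O n`). There is `δ > 0` such that
`dist x z ≤ δ`, `z ∈ Z` imply `x ∈ U` (`IsCompact.exists_cthickening_subset_open`). Let
`s > 0` be small: `s < s₀`, `4 n s < δ`, `4 s < δ`. For `m : Fin n → ℤ` let `c_m = (s m_l)_l` and
`D_m = {x | ∀ l, s m_l - s/2 ≤ x l < s m_l + s/2}` (half open, pairwise disjoint, covering `E n`,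
volume `s ^ n`). Let `F` be the set of `m` such that `D_m ∩ Z` is nonempty; it is finite (`Z` is
bounded; or because of the volume bound). For `m ∈ F`, every point of `ccub c_m s` is at distance
`≤ n (2 s) < δ` from a point of `Z`, so `ccub c_m s ⊆ U ⊆ O n`, in particular `D_m ⊆ U`, so
`card F * s ^ n ≤ volume U < v`. `Z ⊆ ⋃ D_m ⊆ ⋃ cub c_m s` (over `m ∈ F`). With `J = card F`:
`J (2 s) ^ n = 2 ^ n J s ^ n < 2 ^ n v`. Number `F` by `Fin J` (`Finset.equivFin`).
-/

namespace Pool.Agent.W_d1cfb0_h59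

open MeasureTheory Pool.Agent.W_MP_d1cfb0_an

/-- The grid index of a point. -/
noncomputable def gridcover_m {n : ℕ} (s : ℝ) (x : E n) : Fin n → ℤ := fun l => ⌊x l / s + 1 / 2⌋

theorem gridcover_m_iff {n : ℕ} {s : ℝ} (hs : 0 < s) (x : E n) (m : Fin n → ℤ) :
    gridcover_m s x = m ↔ ∀ l, s * m l - s / 2 ≤ x l ∧ x l < s * m l + s / 2 := by
  have h1 : gridcover_m s x = m ↔ ∀ l, ⌊x l / s + 1 / 2⌋ = m l :=
    ⟨fun h l => congrFun h l, fun h => funext h⟩
  rw [h1]
  refine forall_congr' fun l => ?_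
  rw [Int.floor_eq_iff]
  have e1 : x l = s * (x l / s) := by field_simp
  constructor
  · rintro ⟨h2, h3⟩
    constructor
    · nlinarith
    · nlinarith
  · rintro ⟨h2, h3⟩
    constructor
    · by_contra hc
      rw [not_le] at hc
      nlinarith
    · by_contra hc
      rw [not_lt] at hc
      nlinarith

theorem gridcover_eq_image {n : ℕ} {s : ℝ} (hs : 0 < s) (m : Fin n → ℤ) :
    {x : E n | gridcover_m s x = m} = (WithLp.toLp 2) ''
      (Set.univ.pi fun l : Fin n => Set.Ico (s * m l - s / 2) (s * m l + s / 2)) := by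
  ext x
  rw [Set.mem_ofPred_eq, gridcover_m_iff hs]
  constructor
  · intro h
    exact ⟨x.ofLp, fun l _ => h l, rfl⟩
  · rintro ⟨y, hy, rfl⟩ l
    exact hy l (Set.mem_univ l)

theorem gridcover_volume {n : ℕ} {s : ℝ} (hs : 0 < s) (m : Fin n → ℤ) :
    volume {x : E n | gridcover_m s x = m} = ENNReal.ofReal (s ^ n) := by
  rw [gridcover_eq_image hs, volume_toLp_pi _ fun i => measurableSet_Ico]
  simp only [Real.volume_Ico]
  have h : ∀ l : Fin n, s * (m l : ℝ) + s / 2 - (s * m l - s / 2) = s := fun l => by ring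
  simp only [h, Finset.prod_const, Finset.card_univ, Fintype.card_fin]
  rw [ENNReal.ofReal_pow hs.le]

theorem gridcover_measurable {n : ℕ} {s : ℝ} (m : Fin n → ℤ) :
    MeasurableSet {x : E n | gridcover_m s x = m} := by
  have h1 : {x : E n | gridcover_m s x = m} =
      ⋂ l : Fin n, (fun x : E n => ⌊x l / s + 1 / 2⌋) ⁻¹' {m l} := by
    ext x
    simp only [Set.mem_ofPred_eq, Set.mem_iInter, Set.mem_preimage, Set.mem_singleton_iff]
    exact ⟨fun h l => congrFun h l, fun h => funext h⟩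
  rw [h1]
  refine MeasurableSet.iInter fun l => ?_
  have h2 : Measurable fun x : E n => x l / s + 1 / 2 :=
    (by fun_prop : Continuous fun x : E n => x l / s + 1 / 2).measurable
  exact (Int.measurable_floor.comp h2) (measurableSet_singleton _)

theorem grid_cover {n : ℕ} {Z : Set (E n)} (hZ : IsCompact Z) (hZO : Z ⊆ O n) {v : ℝ}
    (hv : volume Z < ENNReal.ofReal v) {s₀ : ℝ} (hs₀ : 0 < s₀) :
    ∃ (s : ℝ) (J : ℕ) (c : Fin J → E n), 0 < s ∧ s < s₀ ∧ Z ⊆ ⋃ l, cub (c l) s ∧
      (∀ l, ccub (c l) s ⊆ O n) ∧ (J : ℝ) * (2 * s) ^ n < 2 ^ n * v := by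
  obtain ⟨U₀, hZU₀, hU₀, hU₀v⟩ := Set.exists_isOpen_lt_of_lt Z _ hv
  have hOo : IsOpen (O n) := by
    rw [O_eq_cub]
    exact isOpen_cub _ _
  set U := U₀ ∩ O n with hU
  have hUo : IsOpen U := hU₀.inter hOo
  have hZU : Z ⊆ U := fun z hz => ⟨hZU₀ hz, hZO hz⟩
  obtain ⟨δ, hδ, hδU⟩ := hZ.exists_cthickening_subset_open hUo hZU
  have hn : (0 : ℝ) ≤ n := Nat.cast_nonneg n
  set s : ℝ := min (s₀ / 2) (δ / (2 * (n + 1))) with hs
  have hs0 : 0 < s := lt_min (by positivity) (by positivity)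
  have hs1 : s < s₀ := (min_le_left _ _).trans_lt (half_lt_self hs₀)
  have hs2 : (n : ℝ) * (3 * s / 2) ≤ δ := by
    have h1 : s ≤ δ / (2 * (n + 1)) := min_le_right _ _
    rw [le_div_iff₀ (by positivity)] at h1
    nlinarith
  -- the finite set of indices
  have hfin : (gridcover_m s '' Z).Finite := by
    have h1 : gridcover_m s '' Z ⊆
        Set.univ.pi fun _ : Fin n => Set.Icc ⌊-(1 / 2) / s + 1 / 2⌋ ⌊(1 / 2) / s + 1 / 2⌋ := by
      rintro _ ⟨z, hz, rfl⟩ l _
      have h2 := hZO hz l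
      rw [abs_lt] at h2
      constructor
      · apply Int.floor_le_floor
        have h3 : -(1 / 2) / s ≤ z l / s := div_le_div_of_nonneg_right h2.1.le hs0.le
        linarith
      · apply Int.floor_le_floor
        have h3 : z l / s ≤ (1 / 2) / s := div_le_div_of_nonneg_right h2.2.le hs0.le
        linarith
    exact (Set.Finite.pi' fun _ => Set.finite_Icc _ _).subset
      (fun f hf l => h1 hf l (Set.mem_univ l))
  set F : Finset (Fin n → ℤ) := hfin.toFinset with hF
  have hcov : ∀ m ∈ F, ccub (WithLp.toLp 2 fun l => s * (m l : ℝ)) s ⊆ U := by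
    intro m hm x hx
    rw [hF, Set.Finite.mem_toFinset] at hm
    obtain ⟨z, hz, hzm⟩ := hm
    rw [gridcover_m_iff hs0] at hzm
    apply hδU
    refine Metric.mem_cthickening_of_dist_le x z δ Z hz ?_
    have h1 : x ∈ ccub z (3 * s / 2) := by
      intro l
      have h2 := hx l
      have h3 := hzm l
      have h4 : (WithLp.toLp 2 fun l => s * (m l : ℝ) : E n) l = s * (m l : ℝ) := rfl
      rw [h4, abs_le] at h2
      rw [abs_le]
      constructor <;> linarith [h2.1, h2.2, h3.1, h3.2]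
    exact (dist_le_of_mem_ccub h1 (by positivity)).trans hs2
  have hD : ∀ m ∈ F, {x : E n | gridcover_m s x = m} ⊆ U := by
    intro m hm x hx
    apply hcov m hm
    rw [Set.mem_ofPred_eq, gridcover_m_iff hs0] at hx
    intro l
    have h3 := hx l
    have h4 : (WithLp.toLp 2 fun l => s * (m l : ℝ) : E n) l = s * (m l : ℝ) := rfl
    rw [h4, abs_le]
    constructor <;> linarith [h3.1, h3.2]
  have hcard : (F.card : ℝ) * s ^ n < v := by
    have h1 : volume (⋃ m ∈ F, {x : E n | gridcover_m s x = m}) ≤ volume U :=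
      measure_mono (Set.iUnion₂_subset hD)
    rw [measure_biUnion_finset ?_ fun m _ => gridcover_measurable m] at h1
    · simp only [gridcover_volume hs0] at h1
      rw [Finset.sum_const, nsmul_eq_mul] at h1
      have h2 : volume U ≤ volume U₀ := measure_mono Set.inter_subset_left
      have h3 := (h1.trans h2).trans_lt hU₀v
      rw [← ENNReal.ofReal_natCast, ← ENNReal.ofReal_mul (Nat.cast_nonneg _)] at h3
      exact (ENNReal.ofReal_lt_ofReal_iff'.1 h3).1
    · intro m _ m' _ hmm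
      refine Set.disjoint_left.2 fun x hx hx' => hmm ?_
      rw [Set.mem_ofPred_eq] at hx hx'
      rw [← hx, ← hx']
  refine ⟨s, F.card, fun j => WithLp.toLp 2 fun l => s * ((F.equivFin.symm j).1 l : ℝ), hs0, hs1,
    ?_, ?_, ?_⟩
  · intro z hz
    have hm : gridcover_m s z ∈ F := by
      rw [hF, Set.Finite.mem_toFinset]
      exact ⟨z, hz, rfl⟩
    rw [Set.mem_iUnion]
    refine ⟨F.equivFin ⟨_, hm⟩, ?_⟩
    beta_reduce
    rw [Equiv.symm_apply_apply]
    have h3 := (gridcover_m_iff hs0 z _).1 rfl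
    intro l
    have h4 : (WithLp.toLp 2 fun l => s * (gridcover_m s z l : ℝ) : E n) l =
      s * (gridcover_m s z l : ℝ) := rfl
    rw [h4, abs_lt]
    constructor <;> linarith [(h3 l).1, (h3 l).2]
  · intro j
    exact (hcov _ (F.equivFin.symm j).2).trans Set.inter_subset_right
  · rw [mul_pow]
    have h5 : (0 : ℝ) < 2 ^ n := by positivity
    nlinarith

end Pool.Agent.W_d1cfb0_h59
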