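import Pool.Agent.W_d1cfb0_h59.Basic2

/-!
# Packing disjoint small cubes

Proof. Let `R_k = (1/2)^(k+4)` and let `P_k` be the point with all coordinates `0` except the
coordinate `0`, which is `1/4 - (1/2)^(k+2)`. The cubes `cub P_k R_k` are pairwise disjoint (look at
the coordinate `0`: for `k < k'` the centres differ by at least `(1/2)^(k+3)` and
`R_k + R_k' ≤ (1/2)^(k+4) + (1/2)^(k+5) < (1/2)^(k+3)`) and contained in `O n`
(`|1/4 - (1/2)^(k+2)| + R_k ≤ 1/4 + 1/16 < 1/2`). In `cub P_k R_k` let `M = ⌊R_k / h k⌋₊ ≥ 1`; for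
`m : Fin n → Fin M` the cubes with centres `P_k + (-R_k + (2 m_l + 1) h k)_l` and half side `h k`
are pairwise disjoint (open cubes), contained in `cub P_k R_k`, and their number is
`M ^ n ≥ (R_k / (2 h k)) ^ n ≥ N k` (`⌊t⌋ ≥ t / 2` for `t ≥ 1`; the hypothesis says
`N k ≤ (R_k / (2 h k)) ^ n`). So there is an injection `Fin (N k) → (Fin n → Fin M)`
(`Function.Embedding.nonempty_of_card_le`).
-/

namespace Pool.Agent.W_d1cfb0_h59

open MeasureTheory Pool.Agent.W_MP_d1cfb0_an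

theorem packing {n : ℕ} (hn : 2 ≤ n) (N : ℕ → ℕ) (h : ℕ → ℝ) (hh : ∀ k, 0 < h k)
    (hh1 : ∀ k, h k ≤ (1 / 2) ^ (k + 4))
    (hN : ∀ k, (N k : ℝ) * (2 * h k) ^ n ≤ ((1 / 2) ^ (k + 4)) ^ n) :
    ∃ x : (Σ k, Fin (N k)) → E n, (∀ q, cub (x q) (h q.1) ⊆ O n) ∧
      ∀ q q', q ≠ q' → Disjoint (cub (x q) (h q.1)) (cub (x q') (h q'.1)) := by
  classical
  set R : ℕ → ℝ := fun k => (1 / 2) ^ (k + 4) with hRdef
  have hR : ∀ k, 0 < R k := fun k => by rw [hRdef]; positivity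
  set M : ℕ → ℕ := fun k => ⌊R k / h k⌋₊ with hMdef
  have hq1 : ∀ k, 1 ≤ R k / h k := fun k => by
    rw [le_div_iff₀ (hh k), one_mul]
    exact hh1 k
  have hM1 : ∀ k, (M k : ℝ) * h k ≤ R k := fun k => by
    rw [← le_div_iff₀ (hh k)]
    exact Nat.floor_le (by linarith [hq1 k])
  have hM2 : ∀ k, R k ≤ (M k : ℝ) * (2 * h k) := fun k => by
    have h1 : R k / h k < (M k : ℝ) + 1 := Nat.lt_floor_add_one _
    have h2 : 1 ≤ M k := Nat.le_floor (by exact_mod_cast hq1 k)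
    have h3 : (1 : ℝ) ≤ M k := by exact_mod_cast h2
    rw [div_lt_iff₀ (hh k)] at h1
    have h4 := hh k
    nlinarith
  have hcard : ∀ k, N k ≤ (M k) ^ n := fun k => by
    have h1 : (N k : ℝ) * (2 * h k) ^ n ≤ ((M k : ℝ) ^ n) * (2 * h k) ^ n := by
      rw [← mul_pow]
      refine (hN k).trans ?_
      exact pow_le_pow_left₀ (hR k).le (hM2 k) n
    have h2 : (0 : ℝ) < (2 * h k) ^ n := by
      have := hh k
      positivity
    have h3 := le_of_mul_le_mul_right h1 h2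
    exact_mod_cast h3
  have hinj : ∀ k, ∃ ψ : Fin (N k) → (Fin n → Fin (M k)), Function.Injective ψ := fun k => by
    have h1 : Fintype.card (Fin (N k)) ≤ Fintype.card (Fin n → Fin (M k)) := by
      rw [Fintype.card_fin, Fintype.card_fun, Fintype.card_fin, Fintype.card_fin]
      exact hcard k
    obtain ⟨e⟩ := Function.Embedding.nonempty_of_card_le h1
    exact ⟨e, e.injective⟩
  choose ψ hψ using hinj
  set i0 : Fin n := ⟨0, by omega⟩ with hi0
  set P : ℕ → Fin n → ℝ := fun k l => if l = i0 then 1 / 4 - (1 / 2) ^ (k + 2) else 0 with hP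
  set x : (Σ k, Fin (N k)) → E n := fun q =>
    WithLp.toLp 2 fun l => P q.1 l + (-R q.1 + (2 * ((ψ q.1 q.2 l : ℕ) : ℝ) + 1) * h q.1) with hx
  have hxl : ∀ q l, x q l =
      P q.1 l + (-R q.1 + (2 * ((ψ q.1 q.2 l : ℕ) : ℝ) + 1) * h q.1) := fun q l => rfl
  have key1 : ∀ q y, y ∈ cub (x q) (h q.1) → ∀ l,
      P q.1 l - R q.1 + 2 * ((ψ q.1 q.2 l : ℕ) : ℝ) * h q.1 < y l ∧
      y l < P q.1 l - R q.1 + (2 * ((ψ q.1 q.2 l : ℕ) : ℝ) + 2) * h q.1 := by
    intro q y hy l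
    have h1 := abs_lt.1 (hy l)
    rw [hxl] at h1
    constructor <;> nlinarith [h1.1, h1.2]
  have key2 : ∀ q y, y ∈ cub (x q) (h q.1) → ∀ l, |y l - P q.1 l| < R q.1 := by
    intro q y hy l
    obtain ⟨h1, h2⟩ := key1 q y hy l
    have h3 : ((ψ q.1 q.2 l : ℕ) : ℝ) + 1 ≤ M q.1 := by exact_mod_cast (ψ q.1 q.2 l).2
    have h4 := hM1 q.1
    have h5 := hh q.1
    have h6 : (0 : ℝ) ≤ ((ψ q.1 q.2 l : ℕ) : ℝ) := Nat.cast_nonneg _
    have h7 : 0 ≤ ((ψ q.1 q.2 l : ℕ) : ℝ) * h q.1 := mul_nonneg h6 h5.le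
    have h8 : (((ψ q.1 q.2 l : ℕ) : ℝ) + 1) * h q.1 ≤ R q.1 :=
      (mul_le_mul_of_nonneg_right h3 h5.le).trans h4
    rw [abs_lt]
    constructor <;> nlinarith
  have hpow : ∀ k : ℕ, (1 / 2 : ℝ) ^ (k + 4) ≤ 1 / 16 := fun k => by
    rw [pow_add]
    have : (1 / 2 : ℝ) ^ k ≤ 1 := pow_le_one₀ (by norm_num) (by norm_num)
    norm_num
    linarith
  have hpow2 : ∀ k : ℕ, (1 / 2 : ℝ) ^ (k + 2) ≤ 1 / 4 := fun k => by
    rw [pow_add]
    have : (1 / 2 : ℝ) ^ k ≤ 1 := pow_le_one₀ (by norm_num) (by norm_num)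
    norm_num
    linarith
  have hpow0 : ∀ k : ℕ, (0 : ℝ) < (1 / 2 : ℝ) ^ k := fun k => by positivity
  have hdis : ∀ k k' : ℕ, k < k' → ∀ t : ℝ, |t - (1 / 4 - (1 / 2) ^ (k + 2))| < R k →
      |t - (1 / 4 - (1 / 2) ^ (k' + 2))| < R k' → False := by
    intro k k' hk t h1 h2
    obtain ⟨d, rfl⟩ : ∃ d, k' = k + 1 + d := ⟨k' - (k + 1), by omega⟩
    have e1 : (1 / 2 : ℝ) ^ (k + 1 + d + 2) = (1 / 2) ^ k * (1 / 2) ^ d * (1 / 8) := by ring
    have e2 : (1 / 2 : ℝ) ^ (k + 2) = (1 / 2) ^ k * (1 / 4) := by ring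
    have e3 : R k = (1 / 2) ^ k * (1 / 16) := by rw [hRdef]; ring
    have e4 : R (k + 1 + d) = (1 / 2) ^ k * (1 / 2) ^ d * (1 / 32) := by rw [hRdef]; ring
    rw [e1, e4, abs_lt] at h2
    rw [e2, e3, abs_lt] at h1
    have h3 := hpow0 k
    have h4 : (1 / 2 : ℝ) ^ d ≤ 1 := pow_le_one₀ (by norm_num) (by norm_num)
    have h5 : (1 / 2 : ℝ) ^ k * (1 / 2) ^ d ≤ (1 / 2) ^ k := by nlinarith
    linarith [h1.1, h1.2, h2.1, h2.2]
  refine ⟨x, ?_, ?_⟩
  · intro q y hy l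
    have h1 := abs_lt.1 (key2 q y hy l)
    have h2 : R q.1 ≤ 1 / 16 := hpow q.1
    have h3 := hpow2 q.1
    have h4 := hpow0 (q.1 + 2)
    have h5 : 0 ≤ P q.1 l ∧ P q.1 l ≤ 1 / 4 := by
      simp only [hP]
      split_ifs
      · constructor <;> linarith
      · constructor <;> norm_num
    rw [abs_lt]
    constructor <;> linarith [h1.1, h1.2, h5.1, h5.2]
  · rintro ⟨k, a⟩ ⟨k', a'⟩ hne
    rw [Set.disjoint_left]
    intro y hy hy'
    rcases lt_trichotomy k k' with hk | hk | hk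
    · refine hdis k k' hk (y i0) ?_ ?_
      · have := key2 _ y hy i0
        simpa only [hP, if_true] using this
      · have := key2 _ y hy' i0
        simpa only [hP, if_true] using this
    · subst hk
      have haa : a ≠ a' := fun h => hne (by rw [h])
      have h1 : ψ k a ≠ ψ k a' := fun h => haa (hψ k h)
      obtain ⟨l, hl⟩ := Function.ne_iff.1 h1
      have h2 := key1 _ y hy l
      have h3 := key1 _ y hy' l
      simp only at h2 h3
      have h4 : (ψ k a l : ℕ) ≠ (ψ k a' l : ℕ) := fun h => hl (Fin.ext h)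
      have h5 := hh k
      rcases lt_or_gt_of_ne h4 with h | h
      · have h6 : ((ψ k a l : ℕ) : ℝ) + 1 ≤ ((ψ k a' l : ℕ) : ℝ) := by exact_mod_cast h
        nlinarith [h2.2, h3.1]
      · have h6 : ((ψ k a' l : ℕ) : ℝ) + 1 ≤ ((ψ k a l : ℕ) : ℝ) := by exact_mod_cast h
        nlinarith [h2.1, h3.2]
    · refine hdis k' k hk (y i0) ?_ ?_
      · have := key2 _ y hy' i0
        simpa only [hP, if_true] using this
      · have := key2 _ y hy i0
        simpa only [hP, if_true] using this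

end Pool.Agent.W_d1cfb0_h59
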