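import Pool.Agent.W_d1cfb0_h59.Swap

/-!
# Storing infinitely many homeomorphisms in one

Proof. Fix `q` and write `B_q = ccub (x q) (h q / 4)`. `squeeze` gives `d_q` in `IsD` with
`d_q '' X q ⊆ cub (x q) (h q / 4) ⊆ B_q`. Let `t_q = d_q * w q * d_q⁻¹`; it is measure preserving
with support in `d_q '' X q ⊆ B_q` (`SuppIn.conj`). Let `S_q = sc (x q) (h q) _ d` with `d` from
`exists_swap`: it is in `IsD` (`sc_isD`), has support in `cub (x q) (h q)`, and
`S_q '' B_q` is disjoint from `B_q` because `B_q = aff (x q) (h q) '' Q n (1/8)` (`aff_mem`: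
`2 h (1/8) = h / 4`).
`u`: apply `exists_iprod` (in `W_MP_d1cfb0_an.IProd`) to `t` and `B` (closed, pairwise disjoint,
subsets of the disjoint cubes). The set of `q` with a displacement `≥ ε` of `t q` is finite, since
`dist (t q y) y ≤ 2 n h q` (both points in `B_q` or `t q y = y`; `dist_le_of_mem_ccub`) and
`hsmall`. `SuppIn u (O n)` since off all `B_q ⊆ O n` it is the identity.
Let `H` be a closed group containing `IsD` and `u`, fix `q`, and put `a' = u * S_q * u⁻¹ * S_q⁻¹`,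
`a = d_q⁻¹ * a' * d_q ∈ H`.
Claim: `a' y = t_q y` for `y ∈ B_q`. `S_q⁻¹ y` is in the open cell `cub (x q) (h q)` and not in
`B_q` (else `y ∈ S_q '' B_q`); it is in no other `B_q'` (disjoint cells); so `u⁻¹` fixes it (`u`
fixes it), `S_q` brings it back to `y`, and `u y = t_q y`. So `a' = t_q` on `B_q`, and since
`t_q '' B_q = B_q`, `a'⁻¹ = t_q⁻¹` on `B_q` and `a' '' B_q = B_q`. Hence for every `x'` with support
in `B_q`: `a' * x' * a'⁻¹ = t_q * x' * t_q⁻¹` (check on points of `B_q` and on points off `B_q`,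
where both are the identity). Now if `z` has support in `X q` then `x' = d_q * z * d_q⁻¹` has
support in `d_q '' X q ⊆ B_q` and `a * z * a⁻¹ = d_q⁻¹ * (a' * x' * a'⁻¹) * d_q =
d_q⁻¹ * (t_q * x' * t_q⁻¹) * d_q = w q * z * (w q)⁻¹`.
-/

namespace Pool.Agent.W_d1cfb0_h59

open MeasureTheory Pool.Agent.W_MP_d1cfb0_an

theorem store_conj {n : ℕ} {a t x' : E n ≃ₜ E n} {B : Set (E n)} (ht : SuppIn t B)
    (ha : ∀ y ∈ B, a y = t y) (hx : SuppIn x' B) : a * x' * a⁻¹ = t * x' * t⁻¹ := by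
  ext1 y
  rw [mul_apply', mul_apply', mul_apply', mul_apply']
  by_cases hy : y ∈ B
  · have h1 : t⁻¹ y ∈ B := ht.inv.mem_of_mem hy
    have h2 : a⁻¹ y = t⁻¹ y := by
      apply a.injective
      rw [apply_inv_self', ha _ h1, apply_inv_self']
    rw [h2]
    exact ha _ (hx.mem_of_mem h1)
  · have h1 : a⁻¹ y ∉ B := by
      intro h
      apply hy
      have h2 := ha _ h
      rw [apply_inv_self'] at h2
      rw [h2]
      exact ht.mem_of_mem h
    rw [hx _ h1, apply_inv_self', ht.inv y hy, hx y hy, ht y hy]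

theorem exists_store {n : ℕ} (hn : 2 ≤ n) {ι : Type} [Countable ι] (w : ι → (E n ≃ₜ E n))
    (X : ι → Set (E n)) (x : ι → E n) (h : ι → ℝ) (hh : ∀ q, 0 < h q)
    (hcell : ∀ q, cub (x q) (h q) ⊆ O n)
    (hdisj : ∀ q q', q ≠ q' → Disjoint (cub (x q) (h q)) (cub (x q') (h q')))
    (hsmall : ∀ ε : ℝ, 0 < ε → {q | ε ≤ h q}.Finite)
    (hw : ∀ q, MeasurePreserving (w q) volume volume) (hwX : ∀ q, SuppIn (w q) (X q))
    (hX : ∀ q, IsCompact (X q)) (hXO : ∀ q, X q ⊆ O n)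
    (hXc : ∀ q, IsPreconnected (O n \ X q))
    (hv : ∀ q, volume (X q) < volume (cub (x q) (h q / 4))) :
    ∃ u : E n ≃ₜ E n, MeasurePreserving u volume volume ∧ SuppIn u (O n) ∧
      ∀ H : Set (E n ≃ₜ E n), ClosedGroup n H → (∀ d, IsD d → d ∈ H) → u ∈ H →
        ∀ q, ∃ a ∈ H, ∀ z : E n ≃ₜ E n, SuppIn z (X q) → a * z * a⁻¹ = w q * z * (w q)⁻¹ := by
  have hBcell : ∀ q, ccub (x q) (h q / 4) ⊆ cub (x q) (h q) := fun q =>
    ccub_subset_cub (by linarith [hh q])
  have hBO : ∀ q, ccub (x q) (h q / 4) ⊆ O n := fun q => (hBcell q).trans (hcell q)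
  have hsq : ∀ q, ∃ d : E n ≃ₜ E n, IsD d ∧ d '' X q ⊆ cub (x q) (h q / 4) := fun q =>
    squeeze hn (hX q) (hXO q) (hXc q) (isOpen_cub _ _)
      ((cub_subset_ccub _ _).trans (hBO q)) (convex_cub _ _).isPreconnected (hv q)
  choose d hd hdX using hsq
  obtain ⟨d0, hd0, hd0Q⟩ := exists_swap hn
  have htB : ∀ q, SuppIn (d q * w q * (d q)⁻¹) (ccub (x q) (h q / 4)) := fun q =>
    ((hwX q).conj (d q)).mono ((hdX q).trans (cub_subset_ccub _ _))
  obtain ⟨u, hu1, hu2, hu3⟩ := exists_iprod (fun q => d q * w q * (d q)⁻¹)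
    (fun q => ccub (x q) (h q / 4)) (fun q => (isClosed_ccub _ _).measurableSet)
    (fun q q' hqq => (hdisj q q' hqq).mono (hBcell q) (hBcell q'))
    htB (by
      intro ε hε
      have hn0 : (0 : ℝ) < n := by
        have : 0 < n := by omega
        exact_mod_cast this
      refine (hsmall (ε / n) (by positivity)).subset ?_
      rintro q ⟨y, hy⟩
      rw [Set.mem_ofPred_eq, div_le_iff₀ hn0]
      by_cases hyB : y ∈ ccub (x q) (h q / 4)
      · have h1 : (d q * w q * (d q)⁻¹) y ∈ ccub (x q) (h q / 4) := (htB q).mem_of_mem hyB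
        have h2 := dist_le_of_mem_ccub hyB (by linarith [hh q])
        have h3 := dist_le_of_mem_ccub h1 (by linarith [hh q])
        have h4 := dist_triangle_right ((d q * w q * (d q)⁻¹) y) y (x q)
        have h5 : 0 < (n : ℝ) * h q := mul_pos hn0 (hh q)
        nlinarith
      · rw [htB q y hyB, dist_self] at hy
        linarith)
    (fun q => mp_mul (mp_mul (hd q).1.mp (hw q)) (mp_inv (hd q).1.mp))
  refine ⟨u, hu3, fun y hy => hu2 y fun q hq => hy (hBO q hq), ?_⟩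
  intro H hH hDH huH q
  have hS : IsD (sc (x q) (h q) (hh q) d0) := sc_isD hd0 (hcell q)
  have hSs : SuppIn (sc (x q) (h q) (hh q) d0) (cub (x q) (h q)) := sc_suppIn hd0.2.suppIn
  have hSB : ∀ y ∈ ccub (x q) (h q / 4),
      sc (x q) (h q) (hh q) d0 y ∉ ccub (x q) (h q / 4) := by
    intro y hy
    have e1 : h q / 4 = 2 * h q * (1 / 8) := by ring
    rw [e1] at hy ⊢
    have h1 : (aff (x q) (h q) (hh q))⁻¹ y ∈ Q n (1 / 8) := by
      rw [← aff_mem (x q) (h q) (hh q), apply_inv_self']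
      exact hy
    unfold sc
    rw [mul_apply', mul_apply', aff_mem]
    exact Set.disjoint_left.1 hd0Q ⟨_, h1, rfl⟩
  have ha' : ∀ y ∈ ccub (x q) (h q / 4),
      (u * sc (x q) (h q) (hh q) d0 * u⁻¹ * (sc (x q) (h q) (hh q) d0)⁻¹) y =
        (d q * w q * (d q)⁻¹) y := by
    intro y hy
    rw [mul_apply', mul_apply', mul_apply']
    have h1 : (sc (x q) (h q) (hh q) d0)⁻¹ y ∈ cub (x q) (h q) :=
      hSs.inv.mem_of_mem (hBcell q hy)
    have h2 : (sc (x q) (h q) (hh q) d0)⁻¹ y ∉ ccub (x q) (h q / 4) := by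
      intro h3
      have h4 := hSB _ h3
      rw [apply_inv_self'] at h4
      exact h4 hy
    have h3 : u ((sc (x q) (h q) (hh q) d0)⁻¹ y) = (sc (x q) (h q) (hh q) d0)⁻¹ y := by
      refine hu2 _ fun q' hq' => ?_
      by_cases hqq : q' = q
      · subst hqq
        exact h2 hq'
      · exact Set.disjoint_left.1 (hdisj q' q hqq) (hBcell q' hq') h1
    have h4 : u⁻¹ ((sc (x q) (h q) (hh q) d0)⁻¹ y) = (sc (x q) (h q) (hh q) d0)⁻¹ y := by
      apply u.injective
      rw [apply_inv_self', h3]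
    rw [h4, apply_inv_self']
    exact hu1 q y hy
  refine ⟨(d q)⁻¹ * (u * sc (x q) (h q) (hh q) d0 * u⁻¹ * (sc (x q) (h q) (hh q) d0)⁻¹) * d q,
    ?_, ?_⟩
  · have h1 := hDH _ (hd q)
    have h2 := hDH _ hS
    exact hH.mul_mem _ (hH.mul_mem _ (hH.inv_mem _ h1) _
      (hH.mul_mem _ (hH.mul_mem _ (hH.mul_mem _ huH _ h2) _ (hH.inv_mem _ huH)) _
        (hH.inv_mem _ h2))) _ h1
  · intro z hz
    have h1 : SuppIn (d q * z * (d q)⁻¹) (ccub (x q) (h q / 4)) :=
      (hz.conj (d q)).mono ((hdX q).trans (cub_subset_ccub _ _))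
    have h2 := store_conj (htB q) ha' h1
    generalize u * sc (x q) (h q) (hh q) d0 * u⁻¹ * (sc (x q) (h q) (hh q) d0)⁻¹ = a' at h2
    have e1 : (d q)⁻¹ * a' * d q * z * ((d q)⁻¹ * a' * d q)⁻¹ =
        (d q)⁻¹ * (a' * (d q * z * (d q)⁻¹) * a'⁻¹) * d q := by group
    rw [e1, h2]
    group

end Pool.Agent.W_d1cfb0_h59
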