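import Pool.Agent.W_d1cfb0_h59.PartialSmooth
import Pool.Agent.W_d1cfb0_h59.CaptureCube
import Pool.Agent.W_d1cfb0_h59.Store
import Pool.Agent.W_d1cfb0_h59.DenseSeq
import Pool.Agent.W_d1cfb0_h59.GridCover
import Pool.Agent.W_d1cfb0_h59.Packing

/-!
# One homeomorphism which stores everything
-/

namespace Pool.Agent.W_d1cfb0_h59

open MeasureTheory Pool.Agent.W_MP_d1cfb0_an

/-- Conjugation by two maps which agree on the support. -/
theorem partU_conj_eq {n : ℕ} {f σ z : E n ≃ₜ E n} {B : Set (E n)} (h : ∀ x ∈ B, f x = σ x)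
    (hz : SuppIn z B) : f * z * f⁻¹ = σ * z * σ⁻¹ := by
  ext1 x
  rw [mul_apply', mul_apply', mul_apply', mul_apply']
  by_cases hx : f⁻¹ x ∈ B
  · have h1 : σ (f⁻¹ x) = x := by rw [← h _ hx, apply_inv_self']
    have h2 : σ⁻¹ x = f⁻¹ x := by
      apply σ.injective
      rw [apply_inv_self', h1]
    rw [h2]
    exact h _ (hz.mem_of_mem hx)
  · have h1 : σ⁻¹ x ∉ B := by
      intro h2
      apply hx
      have h3 : f (σ⁻¹ x) = x := by rw [h _ h2, apply_inv_self']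
      have h4 : f⁻¹ x = σ⁻¹ x := by
        apply f.injective
        rw [apply_inv_self', h3]
      rw [h4]
      exact h2
    rw [hz _ hx, hz _ h1, apply_inv_self', apply_inv_self']

/-- Spreading of capture along a connected set. -/
theorem partU_spread {n : ℕ} (hn : 2 ≤ n) {H : Set (E n ≃ₜ E n)} {S : Set (E n)}
    (hS : IsPreconnected S) {ι₁ ι₂ : Type} {U : ι₁ → Set (E n)} {V : ι₂ → Set (E n)}
    (hU : ∀ l, IsOpen (U l)) (hV : ∀ l, IsOpen (V l)) (hUc : ∀ l, Capt H (U l))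
    (hVc : ∀ l, ∀ y, Sm y → CS y (V l) → y ≠ 1 → y ∈ H → Capt H (V l))
    (hcov : S ⊆ (⋃ l, U l) ∪ ⋃ l, V l) (hne : (S ∩ ⋃ l, U l).Nonempty) :
    ∀ x ∈ S, ∃ w : Set (E n), IsOpen w ∧ x ∈ w ∧ Capt H w := by
  by_contra hcon
  push Not at hcon
  obtain ⟨x₀, hx₀, hno⟩ := hcon
  set A : Set (E n) := ⋃₀ {w | IsOpen w ∧ Capt H w} with hA
  set B : Set (E n) := ⋃ l : {l : ι₂ // ¬ Capt H (V l)}, V l with hB
  have hAo : IsOpen A := isOpen_sUnion fun w hw => hw.1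
  have hBo : IsOpen B := isOpen_iUnion fun l => hV l
  have hSAB : S ⊆ A ∪ B := by
    intro x hx
    rcases hcov hx with h1 | h1
    · obtain ⟨l, hl⟩ := Set.mem_iUnion.1 h1
      exact Or.inl ⟨U l, ⟨hU l, hUc l⟩, hl⟩
    · obtain ⟨l, hl⟩ := Set.mem_iUnion.1 h1
      by_cases h2 : Capt H (V l)
      · exact Or.inl ⟨V l, ⟨hV l, h2⟩, hl⟩
      · exact Or.inr (Set.mem_iUnion.2 ⟨⟨l, h2⟩, hl⟩)
  have hSA : (S ∩ A).Nonempty := by
    obtain ⟨x, hx, hx'⟩ := hne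
    obtain ⟨l, hl⟩ := Set.mem_iUnion.1 hx'
    exact ⟨x, hx, U l, ⟨hU l, hUc l⟩, hl⟩
  have hSB : (S ∩ B).Nonempty := by
    refine ⟨x₀, hx₀, ?_⟩
    rcases hSAB hx₀ with h1 | h1
    · obtain ⟨w, hw, hxw⟩ := h1
      exact absurd hw.2 (hno w hw.1 hxw)
    · exact h1
  obtain ⟨x, _, hxA, hxB⟩ := hS A B hAo hBo hSAB hSA hSB
  obtain ⟨w, hw, hxw⟩ := hxA
  obtain ⟨l, hl⟩ := Set.mem_iUnion.1 hxB
  obtain ⟨y, hy1, hy2, hy3⟩ := exists_nontrivial hn (hw.1.inter (hV l)) ⟨x, hxw, hl⟩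
  exact l.2 (hVc l y hy1 (hy2.mono Set.inter_subset_right) hy3
    (hw.2 y hy1 (hy2.mono Set.inter_subset_left)))

/-- Continuity of conjugation in the conjugating map. -/
theorem partU_conj_close {n : ℕ} {f s : E n ≃ₜ E n} (hf : SuppIn f (O n)) (hs : SuppIn s (O n))
    {ε : ℝ} (hε : 0 < ε) : ∃ δ : ℝ, 0 < δ ∧ ∀ f₂ : E n ≃ₜ E n,
      (∀ x, dist (f₂ x) (f x) < δ ∧ dist (f₂⁻¹ x) (f⁻¹ x) < δ) →
      ∀ x, dist ((f₂ * s * f₂⁻¹) x) ((f * s * f⁻¹) x) < ε := by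
  have h1 : UniformContinuous (f * s : E n ≃ₜ E n) :=
    SuppIn.uniformContinuous_of_cube (hf.mul hs)
  obtain ⟨δ, hδ, h2⟩ := Metric.uniformContinuous_iff.1 h1 (ε / 2) (half_pos hε)
  refine ⟨min δ (ε / 2), lt_min hδ (half_pos hε), fun f₂ h x => ?_⟩
  have h3 := (h (s (f₂⁻¹ x))).1
  have h4 := h2 ((h x).2.trans_le (min_le_left _ _))
  rw [mul_apply', mul_apply'] at h4
  rw [mul_apply', mul_apply', mul_apply', mul_apply']
  have h5 := dist_triangle (f₂ (s (f₂⁻¹ x))) (f (s (f₂⁻¹ x))) (f (s (f⁻¹ x)))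
  have h6 := min_le_right δ (ε / 2)
  linarith

theorem partU_conj_inv {n : ℕ} (f s : E n ≃ₜ E n) : (f * s * f⁻¹)⁻¹ = f * s⁻¹ * f⁻¹ := by
  group

/-- The data for one approximation. -/
structure PUData (n : ℕ) (f : E n ≃ₜ E n) (ε v s₀ ρ : ℝ) where
  f' : E n ≃ₜ E n
  J₁ : ℕ
  c₁ : Fin J₁ → E n
  r₁ : ℝ
  s : ℝ
  J : ℕ
  c : Fin J → E n
  hf' : IsM f'
  near : ∀ x, dist (f' x) (f x) < ε ∧ dist (f'⁻¹ x) (f⁻¹ x) < ε
  sub₁ : ∀ l, ccub (c₁ l) r₁ ⊆ O n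
  sm : ∀ l, ∃ σ : E n ≃ₜ E n, IsD σ ∧ ∀ x ∈ ccub (c₁ l) r₁, f' x = σ x
  hs : 0 < s
  hs₀ : s < s₀
  sub : ∀ l, ccub (c l) s ⊆ O n
  hJ : (J : ℝ) * (2 * s) ^ n < 2 ^ n * v
  cov : Q n ρ ⊆ (⋃ l, cub (c₁ l) r₁) ∪ ⋃ l, cub (c l) s
  ne : (Q n ρ ∩ ⋃ l, cub (c₁ l) r₁).Nonempty

theorem exists_puData {n : ℕ} (hn : 2 ≤ n) {f : E n ≃ₜ E n} (hf : IsM f) {ε v s₀ ρ : ℝ}
    (hε : 0 < ε) (hv : 0 < v) (hs₀ : 0 < s₀) (hρ : 0 < ρ) (hρ1 : ρ < 1 / 2)
    (hvρ : v < (2 * ρ) ^ n) : Nonempty (PUData n f ε v s₀ ρ) := by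
  obtain ⟨f', J₁, c₁, r₁, h1, h2, h3, h4, h5, h6⟩ := partial_smooth hn hf hε hv
  set Z : Set (E n) := Q n ρ \ ⋃ l, cub (c₁ l) r₁ with hZ
  have hZc : IsCompact Z := by
    rw [hZ, Q_eq_ccub]
    exact (isCompact_ccub _ _).diff (isOpen_iUnion fun l => isOpen_cub _ _)
  have hZO : Z ⊆ O n := Set.sdiff_subset.trans (Q_subset_O hρ1)
  have hZv : volume Z < ENNReal.ofReal v :=
    (measure_mono (Set.sdiff_subset_sdiff_left (Q_subset_O hρ1))).trans_lt h6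
  obtain ⟨s, J, c, g1, g2, g3, g4, g5⟩ := grid_cover hZc hZO hZv hs₀
  refine ⟨⟨f', J₁, c₁, r₁, s, J, c, h1, h2, h4, h5, g1, g2, g4, g5, ?_, ?_⟩⟩
  · intro x hx
    by_cases h : x ∈ ⋃ l, cub (c₁ l) r₁
    · exact Or.inl h
    · exact Or.inr (g3 ⟨hx, h⟩)
  · by_contra hne
    rw [Set.not_nonempty_iff_eq_empty] at hne
    have h7 : Z = Q n ρ := by
      rw [hZ]
      exact (Set.disjoint_iff_inter_eq_empty.2 hne).sdiff_eq_left
    rw [h7, Q_eq_ccub, volume_ccub _ hρ.le, ENNReal.ofReal_lt_ofReal_iff hv] at hZv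
    linarith

theorem PUData.capt {n : ℕ} (hn : 2 ≤ n) {G : Set (E n ≃ₜ E n)} (hG : Gen n G) {f : E n ≃ₜ E n}
    {ε v s₀ ρ : ℝ} (D : PUData n f ε v s₀ ρ) (hρ : 0 < ρ) (hρ1 : ρ < 1 / 2)
    {H : Set (E n ≃ₜ E n)} (hH : ClosedGroup n H) (hD : ∀ d, IsD d → d ∈ H)
    (hw : ∀ l, ∀ t ∈ G, ∃ a ∈ H, ∀ z : E n ≃ₜ E n, SuppIn z (D.f' '' ccub (D.c l) D.s) →
      a * z * a⁻¹ = (D.f' * sc (D.c l) D.s D.hs t * D.f'⁻¹) * z *
        (D.f' * sc (D.c l) D.s D.hs t * D.f'⁻¹)⁻¹) :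
    ∀ d, Sm d → SuppIn d (Q n ρ) → D.f' * d * D.f'⁻¹ ∈ H := by
  have hH' := closedGroup_conj hH D.hf'.suppIn
  have hQ : IsPreconnected (Q n ρ) := by
    rw [Q_eq_ccub]
    exact (convex_ccub _ _).isPreconnected
  have h1 := partU_spread hn (H := {z | SuppIn z (O n) ∧ D.f' * z * D.f'⁻¹ ∈ H}) hQ
    (U := fun l => cub (D.c₁ l) D.r₁) (V := fun l => cub (D.c l) D.s)
    (fun l => isOpen_cub _ _) (fun l => isOpen_cub _ _) ?_ ?_ D.cov D.ne
  · intro d hd hds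
    exact (sf hn hH' hρ hρ1 h1 d hd hds).2
  · intro l z hz hzc
    have h2 : CS z (O n) := hzc.mono ((cub_subset_ccub _ _).trans (D.sub₁ l))
    obtain ⟨σ, hσ, hσ'⟩ := D.sm l
    refine ⟨h2.suppIn, ?_⟩
    rw [partU_conj_eq hσ' (hzc.suppIn.mono (cub_subset_ccub _ _))]
    exact hD _ ((hσ.mul ⟨hz, h2⟩).mul hσ.inv)
  · intro l y hy hyc hy1 hyH
    exact capture_cube hn hG hH D.hf' D.hs (D.sub l) (hw l) hy hyc hy1 hyH.2

theorem partU {n : ℕ} (hn : 2 ≤ n) {G : Set (E n ≃ₜ E n)} (hG : Gen n G) :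
    ∃ u : E n ≃ₜ E n, MeasurePreserving u volume volume ∧ SuppIn u (O n) ∧
      ∀ H : Set (E n ≃ₜ E n), ClosedGroup n H → G ⊆ H → u ∈ H →
        ∀ f, IsM f → ∀ s, IsD s → f * s * f⁻¹ ∈ H := by
  obtain ⟨F, hF, hFd⟩ := exists_dense_seq n
  obtain ⟨g, t, ht⟩ : ∃ (g : ℕ) (t : Fin g → (E n ≃ₜ E n)), Set.range t = G := by
    have := hG.fin.fintype
    refine ⟨Fintype.card G, fun i => ((Fintype.equivFin G).symm i : E n ≃ₜ E n), ?_⟩
    ext x
    constructor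
    · rintro ⟨i, rfl⟩
      exact ((Fintype.equivFin G).symm i).2
    · intro hx
      exact ⟨Fintype.equivFin G ⟨x, hx⟩, by simp⟩
  -- the data
  set R : ℕ → ℝ := fun k => (1 / 2) ^ (k + 4) with hR
  have hRpos : ∀ k, 0 < R k := fun k => by rw [hR]; positivity
  have hR1 : ∀ k, R k ≤ 1 / 16 := by
    intro k
    have h1 : R k = (1 / 2) ^ k * (1 / 16) := by
      rw [hR]
      ring
    rw [h1]
    have h2 : ((1 : ℝ) / 2) ^ k ≤ 1 := pow_le_one₀ (by norm_num) (by norm_num)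
    linarith
  set v : ℕ → ℝ := fun k => R k ^ n / ((g + 1) * 10 ^ n) with hv
  have hvpos : ∀ k, 0 < v k := fun k => by
    rw [hv]
    have := hRpos k
    positivity
  set ρ : ℕ → ℝ := fun k => 1 / 2 - 1 / (k + 4) with hρ
  have hρ4 : ∀ k, 1 / 4 ≤ ρ k := by
    intro k
    have h1 : (1 : ℝ) / (k + 4) ≤ 1 / 4 :=
      one_div_le_one_div_of_le (by norm_num) (by linarith [Nat.cast_nonneg (α := ℝ) k])
    have h2 : ρ k = 1 / 2 - 1 / (k + 4) := rfl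
    linarith
  have hρ1 : ∀ k, ρ k < 1 / 2 := by
    intro k
    have h1 : (0 : ℝ) < 1 / (k + 4) := by positivity
    have h2 : ρ k = 1 / 2 - 1 / (k + 4) := rfl
    linarith
  have hρ0 : ∀ k, 0 < ρ k := fun k => lt_of_lt_of_le (by norm_num) (hρ4 k)
  have hvρ : ∀ k, v k < (2 * ρ k) ^ n := by
    intro k
    have h1 : v k ≤ R k ^ n := by
      rw [hv]
      refine div_le_self (by have := hRpos k; positivity) ?_
      have h2 : (1 : ℝ) ≤ 10 ^ n := one_le_pow₀ (by norm_num)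
      have h3 : (0 : ℝ) ≤ g := Nat.cast_nonneg g
      nlinarith
    refine h1.trans_lt (pow_lt_pow_left₀ ?_ (hRpos k).le (by omega))
    have h3 := hR1 k
    have h4 := hρ4 k
    linarith
  have hdata : ∀ k : ℕ, Nonempty (PUData n (F k.unpair.1) (1 / (k + 1)) (v k) (R k / 5) (ρ k)) :=
    fun k => exists_puData hn (hF _) (by positivity) (hvpos k) (by have := hRpos k; positivity)
      (hρ0 k) (hρ1 k) (hvρ k)
  obtain ⟨D⟩ : Nonempty (∀ k : ℕ,
      PUData n (F k.unpair.1) (1 / (k + 1)) (v k) (R k / 5) (ρ k)) :=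
    ⟨fun k => (hdata k).some⟩
  -- packing
  obtain ⟨x, hx1, hx2⟩ := packing hn (fun k => (D k).J * g) (fun k => 5 * (D k).s)
    (fun k => by have := (D k).hs; positivity) (fun k => by
      have h1 := (D k).hs₀
      show 5 * (D k).s ≤ R k
      linarith) (fun k => by
      have h1 := (D k).hJ
      have h2 : (0 : ℝ) ≤ g := Nat.cast_nonneg g
      show (((D k).J * g : ℕ) : ℝ) * (2 * (5 * (D k).s)) ^ n ≤ R k ^ n
      have h3 : (((D k).J * g : ℕ) : ℝ) * (2 * (5 * (D k).s)) ^ n =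
          g * 5 ^ n * (((D k).J : ℝ) * (2 * (D k).s) ^ n) := by
        have h4 : 2 * (5 * (D k).s) = 5 * (2 * (D k).s) := by ring
        rw [h4, mul_pow 5]
        push_cast
        ring
      rw [h3]
      have h5 : g * 5 ^ n * (((D k).J : ℝ) * (2 * (D k).s) ^ n) ≤ g * 5 ^ n * (2 ^ n * v k) :=
        mul_le_mul_of_nonneg_left h1.le (by positivity)
      refine h5.trans ?_
      have h6 : (g : ℝ) * 5 ^ n * (2 ^ n * v k) = R k ^ n * (g / (g + 1)) := by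
        have h7 : (10 : ℝ) ^ n = 5 ^ n * 2 ^ n := by
          rw [← mul_pow]
          norm_num
        show (g : ℝ) * 5 ^ n * (2 ^ n * (R k ^ n / ((g + 1) * 10 ^ n))) = _
        rw [h7]
        field_simp
      rw [h6]
      refine mul_le_of_le_one_right (by have := hRpos k; positivity) ?_
      rw [div_le_one (by positivity)]
      linarith)
  -- storage
  set lq : ∀ q : (Σ k : ℕ, Fin ((D k).J * g)), Fin (D q.1).J := fun q => (finProdFinEquiv.symm q.2).1 with hlq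
  set tq : (Σ k : ℕ, Fin ((D k).J * g)) → Fin g := fun q => (finProdFinEquiv.symm q.2).2 with htq
  have htG : ∀ i, t i ∈ G := fun i => ht ▸ Set.mem_range_self i
  obtain ⟨u, hu1, hu2, hu3⟩ := exists_store hn
    (fun q : (Σ k : ℕ, Fin ((D k).J * g)) => (D q.1).f' * sc ((D q.1).c (lq q)) (D q.1).s (D q.1).hs (t (tq q)) *
      (D q.1).f'⁻¹)
    (fun q : (Σ k : ℕ, Fin ((D k).J * g)) => (D q.1).f' '' ccub ((D q.1).c (lq q)) (D q.1).s) x
    (fun q : (Σ k : ℕ, Fin ((D k).J * g)) => 5 * (D q.1).s) (fun q => by have := (D q.1).hs; positivity) hx1 hx2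
    (by
      intro ε hε
      have h1 : ∀ q : (Σ k : ℕ, Fin ((D k).J * g)), ε ≤ 5 * (D q.1).s → q.1 < ⌈1 / ε⌉₊ := by
        intro q hq
        by_contra hc
        rw [not_lt] at hc
        have h2 : 1 / ε ≤ q.1 := (Nat.le_ceil _).trans (by exact_mod_cast hc)
        have h3 := (D q.1).hs₀
        have h4 : R q.1 < 1 / ((q.1 : ℝ) + 4) := by
          have h5 : ((q.1 + 4 : ℕ) : ℝ) < 2 ^ (q.1 + 4) := by
            exact_mod_cast Nat.lt_two_pow_self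
          have h6 : R q.1 = 1 / 2 ^ (q.1 + 4) := by
            show ((1 : ℝ) / 2) ^ (q.1 + 4) = _
            rw [one_div_pow]
          rw [h6]
          refine one_div_lt_one_div_of_lt (by positivity) ?_
          push_cast at h5
          linarith
        rw [div_le_iff₀ hε] at h2
        have h7 : 5 * (D q.1).s < 1 / ((q.1 : ℝ) + 4) := by linarith
        rw [lt_div_iff₀ (by positivity)] at h7
        nlinarith
      have h8 : {q : (Σ k : ℕ, Fin ((D k).J * g)) | ε ≤ 5 * (D q.1).s} ⊆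
          ⋃ k ∈ Finset.range ⌈1 / ε⌉₊, Set.range (fun m => (⟨k, m⟩ : (Σ k : ℕ, Fin ((D k).J * g)))) := by
        intro q hq
        rw [Set.mem_iUnion₂]
        exact ⟨q.1, Finset.mem_range.2 (h1 q hq), q.2, rfl⟩
      refine Set.Finite.subset ?_ h8
      exact Set.Finite.biUnion (Finset.finite_toSet _) fun k _ => Set.finite_range _)
    (fun q => mp_mul (mp_mul (D q.1).hf'.1 (sc_mp (hG.mp _ (htG _)))) (mp_inv (D q.1).hf'.1))
    (fun q => ((sc_suppIn (hG.supp _ (htG _))).mono (cub_subset_ccub _ _)).conj _)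
    (fun q => (isCompact_ccub _ _).image (D q.1).f'.continuous)
    (fun q => by
      rintro _ ⟨y, hy, rfl⟩
      exact (D q.1).hf'.mem_O ((D q.1).sub _ hy))
    (fun q => by
      have h1 : O n \ (D q.1).f' '' ccub ((D q.1).c (lq q)) (D q.1).s =
          (D q.1).f' '' (O n \ ccub ((D q.1).c (lq q)) (D q.1).s) := by
        rw [Set.image_sdiff (D q.1).f'.injective, (D q.1).hf'.image_O]
      rw [h1]
      exact (conn_O_diff hn (D q.1).hs.le ((D q.1).sub _)).image _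
        (D q.1).f'.continuous.continuousOn)
    (fun q => by
      have hs := (D q.1).hs
      rw [mp_volume_image (D q.1).hf'.1, volume_ccub _ hs.le, volume_cub _ (by positivity)]
      rw [ENNReal.ofReal_lt_ofReal_iff (by positivity)]
      exact pow_lt_pow_left₀ (by linarith) (by positivity) (by omega))
  refine ⟨u, hu1, hu2, fun H hH hGH huH f hf s hs => ?_⟩
  have hD : ∀ d, IsD d → d ∈ H := hG.gen H hH hGH
  have hcapt : ∀ k, ∀ d, Sm d → SuppIn d (Q n (ρ k)) → (D k).f' * d * (D k).f'⁻¹ ∈ H := by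
    intro k
    refine (D k).capt hn hG (hρ0 k) (hρ1 k) hH hD ?_
    intro l τ hτ
    rw [← ht] at hτ
    obtain ⟨i, rfl⟩ := hτ
    have h1 := hu3 H hH hD huH ⟨k, finProdFinEquiv (l, i)⟩
    have h2 : lq ⟨k, finProdFinEquiv (l, i)⟩ = l := by
      rw [hlq]
      simp
    have h3 : tq ⟨k, finProdFinEquiv (l, i)⟩ = i := by
      rw [htq]
      simp
    rw [h2, h3] at h1
    exact h1
  obtain ⟨ρ', hρ'0, hρ'1, hsρ⟩ := hs.isM.exists_Q
  refine hH.closed _ (hs.isM.conj hf).suppIn ?_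
  intro ε hε
  obtain ⟨δ₁, hδ₁, hc₁⟩ := partU_conj_close hf.suppIn hs.isM.suppIn hε
  obtain ⟨δ₂, hδ₂, hc₂⟩ := partU_conj_close hf.suppIn hs.inv.isM.suppIn hε
  set δ := min δ₁ δ₂ with hδ
  have hδ0 : 0 < δ := lt_min hδ₁ hδ₂
  obtain ⟨i, hi⟩ := hFd f hf (δ / 2) (half_pos hδ0)
  obtain ⟨m, hm⟩ := exists_nat_gt (max (2 / δ) (1 / (1 / 2 - ρ')))
  have hm1 : 2 / δ < m := (le_max_left _ _).trans_lt hm
  have hm2 : 1 / (1 / 2 - ρ') < m := (le_max_right _ _).trans_lt hm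
  set k := Nat.pair i m with hk
  have hkm : (m : ℝ) ≤ k := by exact_mod_cast Nat.right_le_pair i m
  have hki : k.unpair.1 = i := by rw [hk, Nat.unpair_pair]
  have hk1 : (1 : ℝ) / (k + 1) < δ / 2 := by
    rw [div_lt_iff₀ (by positivity)]
    rw [div_lt_iff₀ hδ0] at hm1
    nlinarith
  have hk2 : ρ' ≤ ρ k := by
    have h1 : (0 : ℝ) < 1 / 2 - ρ' := by linarith
    rw [div_lt_iff₀ h1] at hm2
    have h2 : (1 : ℝ) / (k + 4) ≤ 1 / 2 - ρ' := by
      rw [div_le_iff₀ (by positivity)]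
      nlinarith
    have h3 : ρ k = 1 / 2 - 1 / (k + 4) := rfl
    linarith
  have hsk : SuppIn s (Q n (ρ k)) := by
    refine hsρ.mono ?_
    rw [Q_eq_ccub, Q_eq_ccub]
    exact ccub_mono hk2
  have hclose : ∀ y, dist ((D k).f' y) (f y) < δ ∧ dist ((D k).f'⁻¹ y) (f⁻¹ y) < δ := by
    intro y
    have h1 := (D k).near y
    have h2 := hi y
    rw [← hki] at h2
    have h3 := dist_triangle ((D k).f' y) (F k.unpair.1 y) (f y)
    have h4 := dist_triangle ((D k).f'⁻¹ y) ((F k.unpair.1)⁻¹ y) (f⁻¹ y)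
    constructor <;> linarith [h1.1, h1.2, h2.1, h2.2]
  refine ⟨(D k).f' * s * (D k).f'⁻¹, hcapt k s hs.1 hsk, fun y => ⟨?_, ?_⟩⟩
  · exact hc₁ _ (fun z => ⟨(hclose z).1.trans_le (min_le_left _ _),
      (hclose z).2.trans_le (min_le_left _ _)⟩) y
  · rw [partU_conj_inv, partU_conj_inv]
    exact hc₂ _ (fun z => ⟨(hclose z).1.trans_le (min_le_right _ _),
      (hclose z).2.trans_le (min_le_right _ _)⟩) y

end Pool.Agent.W_d1cfb0_h59
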