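import Pool.Agent.W_d1cfb0_h59.AllNormal
import Pool.Agent.W_d1cfb0_h59.PartU

/-!
# The closed group generated by `G` and `u` contains `IsM`

Proof. Let `F = {g | ∃ f s, IsM f ∧ IsD s ∧ g = f * s * f⁻¹}` and let `N` be the closed group of
`closedGroup_closure F` (all elements of `F` have support in `O n`). `N ⊆ H`: the elements of `F`
are in `H` by `hu`, so `Subgroup.closure F` is (`Subgroup.closure_induction` with the group laws
of `hH`), and `H` is closed (`hH.closed`). `IsD s → s ∈ N` (`f = 1`). `N` is normalized by `IsM`: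
let `f'` be in `IsM`. Conjugation by `f'` maps `F` to `F` (`IsM.mul`), so it maps
`Subgroup.closure F` to itself (`Subgroup.closure_induction`). If `h ∈ N` is a uniform limit (with
inverses) of `g ∈ Subgroup.closure F`, then `f' h f'⁻¹` is the uniform limit of `f' g f'⁻¹` by
uniform continuity of `f'` (`SuppIn.uniformContinuous_of_cube`). Now `all_of_normal`.
-/

namespace Pool.Agent.W_d1cfb0_h59

open MeasureTheory Pool.Agent.W_MP_d1cfb0_an

theorem allm_conj_dist {n : ℕ} {f h : E n ≃ₜ E n} (hf : SuppIn f (O n)) {ε : ℝ} (hε : 0 < ε) :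
    ∃ δ : ℝ, 0 < δ ∧ ∀ g : E n ≃ₜ E n, (∀ x, dist (g x) (h x) < δ ∧ dist (g⁻¹ x) (h⁻¹ x) < δ) →
      ∀ x, dist ((f * g * f⁻¹) x) ((f * h * f⁻¹) x) < ε ∧
        dist ((f * g * f⁻¹)⁻¹ x) ((f * h * f⁻¹)⁻¹ x) < ε := by
  obtain ⟨δ, hδ, h1⟩ := Metric.uniformContinuous_iff.1 hf.uniformContinuous_of_cube ε hε
  refine ⟨δ, hδ, fun g hg x => ⟨?_, ?_⟩⟩
  · exact h1 (hg (f⁻¹ x)).1
  · have e1 : ∀ k : E n ≃ₜ E n, (f * k * f⁻¹)⁻¹ = f * k⁻¹ * f⁻¹ := fun k => by group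
    rw [e1, e1]
    exact h1 (hg (f⁻¹ x)).2

theorem all_isM {n : ℕ} (hn : 2 ≤ n) {H : Set (E n ≃ₜ E n)} (hH : ClosedGroup n H)
    (hu : ∀ f, IsM f → ∀ s, IsD s → f * s * f⁻¹ ∈ H) : ∀ f, IsM f → f ∈ H := by
  set F : Set (E n ≃ₜ E n) := {g | ∃ f s, IsM f ∧ IsD s ∧ g = f * s * f⁻¹} with hF
  have hFs : ∀ g ∈ F, SuppIn g (O n) := by
    rintro g ⟨f, s, hf, hs, rfl⟩
    exact (hs.isM.conj hf).suppIn
  set N : Set (E n ≃ₜ E n) := {h | SuppIn h (O n) ∧ ∀ ε : ℝ, 0 < ε → ∃ g ∈ Subgroup.closure F,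
      ∀ x, dist (g x) (h x) < ε ∧ dist (g⁻¹ x) (h⁻¹ x) < ε} with hNdef
  have hN : ClosedGroup n N := closedGroup_closure F hFs
  have hcl : ∀ g ∈ Subgroup.closure F, g ∈ H := by
    intro g hg
    induction hg using Subgroup.closure_induction with
    | mem x hx =>
      obtain ⟨f, s, hf, hs, rfl⟩ := hx
      exact hu f hf s hs
    | one => exact hH.one_mem
    | mul x y _ _ hx hy => exact hH.mul_mem x hx y hy
    | inv x _ hx => exact hH.inv_mem x hx
  have hNH : ∀ h ∈ N, h ∈ H := by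
    rintro h ⟨hs, hh⟩
    refine hH.closed h hs fun ε hε => ?_
    obtain ⟨g, hg, hgx⟩ := hh ε hε
    exact ⟨g, hcl g hg, hgx⟩
  have hclN : ∀ g ∈ F, g ∈ N := by
    intro g hg
    refine ⟨hFs g hg, fun ε hε => ⟨g, Subgroup.subset_closure hg, fun x => ?_⟩⟩
    rw [dist_self, dist_self]
    exact ⟨hε, hε⟩
  have hD : ∀ d, IsD d → d ∈ N := by
    intro d hd
    exact hclN d ⟨1, d, isD_one.isM, hd, by group⟩
  have hconj : ∀ f, IsM f → ∀ g ∈ Subgroup.closure F, f * g * f⁻¹ ∈ Subgroup.closure F := by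
    intro f hf g hg
    induction hg using Subgroup.closure_induction with
    | mem x hx =>
      obtain ⟨f1, s, hf1, hs, rfl⟩ := hx
      exact Subgroup.subset_closure ⟨f * f1, s, hf.mul hf1, hs, by group⟩
    | one =>
      have e : f * 1 * f⁻¹ = 1 := by group
      rw [e]
      exact one_mem _
    | mul x y _ _ hx hy =>
      have e : f * (x * y) * f⁻¹ = (f * x * f⁻¹) * (f * y * f⁻¹) := by group
      rw [e]
      exact mul_mem hx hy
    | inv x _ hx =>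
      have e : f * x⁻¹ * f⁻¹ = (f * x * f⁻¹)⁻¹ := by group
      rw [e]
      exact inv_mem hx
  have hnorm : ∀ f, IsM f → ∀ g ∈ N, f * g * f⁻¹ ∈ N := by
    rintro f hf h ⟨hs, hh⟩
    refine ⟨(hf.suppIn.mul hs).mul hf.suppIn.inv, fun ε hε => ?_⟩
    obtain ⟨δ, hδ, h1⟩ := allm_conj_dist (h := h) hf.suppIn hε
    obtain ⟨g, hg, hgx⟩ := hh δ hδ
    exact ⟨f * g * f⁻¹, hconj f hf g hg, h1 g hgx⟩
  intro f hf
  exact hNH f (all_of_normal hn hN hD hnorm f hf)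

end Pool.Agent.W_d1cfb0_h59
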