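import Pool.Agent.W_d1cfb0_h59.Basic2

/-!
# Complements of boxes are connected

`conn_box_diff`. `U = obx l u`, `C = bx a b`. `U \ C` is the union over the coordinates `m` of the
convex sets `{x ∈ U | x m < a m}` and `{x ∈ U | b m < x m}`. The set `S = {x ∈ U | x i < a i}` is
convex and nonempty. Let `x ∈ U \ C`; it is in one of these sets `T`. If `T` belongs to a
coordinate `m ≠ i`, replace the `i`-th coordinate of `x` by a number in `(l i, min (a i) (u i))`
(`upd`): the new point is in `T ∩ S`. If `T = {b i < x i}`, replace the `j`-th coordinate of `x` by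
a number in `(l j, min (a j) (u j))`: the new point is in `T ∩ T'` with `T' = {x ∈ U | x j < a j}`,
and `T'` meets `S` as before. So every point is in a preconnected subset of `U \ C` which contains
`S` (`IsPreconnected.union`); use `isPreconnected_of_forall`.

`conn_O_diff`. A closed cube contained in the open cube `O n` (`ccub c s`, `0 ≤ s`): apply
`conn_box_diff` with `l = -1/2`, `u = 1/2`, `a = c - s`, `b = c + s`; `l i < a i` because the point
`upd c i (c i - s)` is in `ccub c s ⊆ O n`. If `n ≥ 2` take `i = 0`, `j = 1`.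
-/

namespace Pool.Agent.W_d1cfb0_h59

open MeasureTheory Pool.Agent.W_MP_d1cfb0_an

theorem conn_convex_obx {n : ℕ} (l u : Fin n → ℝ) : Convex ℝ (obx l u : Set (E n)) := by
  intro x hx y hy s t hs ht hst j
  have h := (convex_Ioo (l j) (u j)) (hx j) (hy j) hs ht hst
  rw [PiLp.add_apply, PiLp.smul_apply, PiLp.smul_apply]
  exact h

theorem conn_upd {n : ℕ} {l u : Fin n → ℝ} {y : E n} (hy : y ∈ obx l u) (i : Fin n) {t w : ℝ}
    (h1 : l i < t) (h2 : t < w) : upd y i t ∈ obx l (Function.update u i w) := by
  intro j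
  by_cases h : j = i
  · subst h
    rw [upd_same, Function.update_self]
    exact ⟨h1, h2⟩
  · rw [upd_ne _ h, Function.update_of_ne h]
    exact hy j

theorem conn_upd' {n : ℕ} {l u : Fin n → ℝ} {y : E n} (hy : y ∈ obx l u) (i : Fin n) {t : ℝ}
    (h1 : l i < t) (h2 : t < u i) : upd y i t ∈ obx l u := by
  have h := conn_upd hy i h1 h2
  rwa [Function.update_eq_self] at h

theorem conn_lo_subset {n : ℕ} {l u a b : Fin n → ℝ} (m : Fin n) :
    (obx l (Function.update u m (min (a m) (u m))) : Set (E n)) ⊆ obx l u \ bx a b := by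
  intro x hx
  refine ⟨fun j => ⟨(hx j).1, ?_⟩, fun hb => ?_⟩
  · have h := (hx j).2
    by_cases hj : j = m
    · subst hj
      rw [Function.update_self] at h
      exact h.trans_le (min_le_right _ _)
    · rwa [Function.update_of_ne hj] at h
  · have h := (hx m).2
    rw [Function.update_self] at h
    exact absurd (h.trans_le (min_le_left _ _)) (not_lt.2 (hb m).1)

theorem conn_hi_subset {n : ℕ} {l u a b : Fin n → ℝ} (m : Fin n) :
    (obx (Function.update l m (max (b m) (l m))) u : Set (E n)) ⊆ obx l u \ bx a b := by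
  intro x hx
  refine ⟨fun j => ⟨?_, (hx j).2⟩, fun hb => ?_⟩
  · have h := (hx j).1
    by_cases hj : j = m
    · subst hj
      rw [Function.update_self] at h
      exact (le_max_right _ _).trans_lt h
    · rwa [Function.update_of_ne hj] at h
  · have h := (hx m).1
    rw [Function.update_self] at h
    exact absurd ((le_max_left _ _).trans_lt h) (not_lt.2 (hb m).2)

theorem conn_box_diff {n : ℕ} {i j : Fin n} (hij : i ≠ j) {l u a b : Fin n → ℝ}
    (hlu : ∀ m, l m < u m) (hi : l i < a i) (hj : l j < a j) :
    IsPreconnected ((obx l u : Set (E n)) \ bx a b) := by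
  classical
  set Lo : Fin n → Set (E n) := fun m => obx l (Function.update u m (min (a m) (u m))) with hLo
  set Hi : Fin n → Set (E n) := fun m => obx (Function.update l m (max (b m) (l m))) u with hHi
  have hLoC : ∀ m, IsPreconnected (Lo m) := fun m => (conn_convex_obx _ _).isPreconnected
  have hHiC : ∀ m, IsPreconnected (Hi m) := fun m => (conn_convex_obx _ _).isPreconnected
  have hLoS : ∀ m, Lo m ⊆ obx l u \ bx a b := fun m => conn_lo_subset m
  have hHiS : ∀ m, Hi m ⊆ obx l u \ bx a b := fun m => conn_hi_subset m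
  have hti : ∀ m, l m < a m → ∃ t, l m < t ∧ t < min (a m) (u m) :=
    fun m hm => exists_between (lt_min hm (hlu m))
  obtain ⟨ti, hti1, hti2⟩ := hti i hi
  obtain ⟨tj, htj1, htj2⟩ := hti j hj
  -- a point of `Lo i`
  obtain ⟨x0, hx0⟩ : ∃ x0 : E n, x0 ∈ Lo i := by
    refine ⟨upd (WithLp.toLp 2 fun m => (l m + u m) / 2) i ti, conn_upd ?_ i hti1 hti2⟩
    intro m
    have hm := hlu m
    constructor
    · show l m < (l m + u m) / 2
      linarith
    · show (l m + u m) / 2 < u m
      linarith
  refine isPreconnected_of_forall x0 fun y hy => ?_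
  have hyU := hy.1
  obtain ⟨m, hm⟩ : ∃ m, ¬ (a m ≤ y m ∧ y m ≤ b m) := by
    by_contra hcon
    push Not at hcon
    exact hy.2 fun m => hcon m
  rcases not_and_or.1 hm with hm | hm
  · have hym : y m < a m := not_le.1 hm
    have hyT : y ∈ Lo m := by
      intro k
      refine ⟨(hyU k).1, ?_⟩
      by_cases hk : k = m
      · subst hk
        rw [Function.update_self]
        exact lt_min hym (hyU k).2
      · rw [Function.update_of_ne hk]
        exact (hyU k).2
    by_cases hmi : m = i
    · subst hmi
      exact ⟨Lo m, hLoS m, hx0, hyT, hLoC m⟩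
    · have hz1 : upd y i ti ∈ Lo m := by
        refine conn_upd' hyT i hti1 ?_
        rw [Function.update_of_ne (Ne.symm hmi)]
        exact hti2.trans_le (min_le_right _ _)
      have hz2 : upd y i ti ∈ Lo i := conn_upd hyU i hti1 hti2
      exact ⟨Lo m ∪ Lo i, Set.union_subset (hLoS m) (hLoS i), Or.inr hx0, Or.inl hyT,
        IsPreconnected.union _ hz1 hz2 (hLoC m) (hLoC i)⟩
  · have hym : b m < y m := not_le.1 hm
    have hyT : y ∈ Hi m := by
      intro k
      refine ⟨?_, (hyU k).2⟩
      by_cases hk : k = m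
      · subst hk
        rw [Function.update_self]
        exact max_lt hym (hyU k).1
      · rw [Function.update_of_ne hk]
        exact (hyU k).1
    by_cases hmi : m = i
    · have hmj : j ≠ m := fun h => hij (h.trans hmi).symm
      have hz1 : upd y j tj ∈ Hi m := by
        refine conn_upd' hyT j ?_ (htj2.trans_le (min_le_right _ _))
        rw [Function.update_of_ne hmj]
        exact htj1
      have hz2 : upd y j tj ∈ Lo j := conn_upd hyU j htj1 htj2
      have hw1 : upd (upd y j tj) i ti ∈ Lo j := by
        refine conn_upd' hz2 i hti1 ?_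
        rw [Function.update_of_ne hij]
        exact hti2.trans_le (min_le_right _ _)
      have hw2 : upd (upd y j tj) i ti ∈ Lo i :=
        conn_upd (hLoS j hz2).1 i hti1 hti2
      have hc1 : IsPreconnected (Hi m ∪ Lo j) :=
        IsPreconnected.union _ hz1 hz2 (hHiC m) (hLoC j)
      exact ⟨Hi m ∪ Lo j ∪ Lo i,
        Set.union_subset (Set.union_subset (hHiS m) (hLoS j)) (hLoS i), Or.inr hx0,
        Or.inl (Or.inl hyT), IsPreconnected.union _ (Or.inr hw1) hw2 hc1 (hLoC i)⟩
    · have hz1 : upd y i ti ∈ Hi m := by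
        refine conn_upd' hyT i ?_ (hti2.trans_le (min_le_right _ _))
        rw [Function.update_of_ne (Ne.symm hmi)]
        exact hti1
      have hz2 : upd y i ti ∈ Lo i := conn_upd hyU i hti1 hti2
      exact ⟨Hi m ∪ Lo i, Set.union_subset (hHiS m) (hLoS i), Or.inr hx0, Or.inl hyT,
        IsPreconnected.union _ hz1 hz2 (hHiC m) (hLoC i)⟩

theorem conn_O_diff {n : ℕ} (hn : 2 ≤ n) {c : E n} {s : ℝ} (hs : 0 ≤ s) (h : ccub c s ⊆ O n) :
    IsPreconnected (O n \ ccub c s) := by
  have hO : O n = obx (fun _ => -(1 / 2)) fun _ => 1 / 2 := by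
    ext x
    exact forall_congr' fun i => abs_lt
  have hC : ccub c s = bx (fun m => c m - s) fun m => c m + s := by
    ext x
    refine forall_congr' fun m => ?_
    rw [abs_le]
    constructor
    · rintro ⟨h1, h2⟩
      exact ⟨by linarith, by linarith⟩
    · rintro ⟨h1, h2⟩
      exact ⟨by linarith, by linarith⟩
  have hl : ∀ i : Fin n, -(1 / 2) < c i - s := by
    intro i
    have h1 : upd c i (c i - s) ∈ ccub c s := by
      intro j
      by_cases hj : j = i
      · subst hj
        rw [upd_same, sub_sub_cancel_left, abs_neg, abs_of_nonneg hs]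
      · rw [upd_ne _ hj, sub_self, abs_zero]
        exact hs
    have h2 := h h1 i
    rw [upd_same] at h2
    exact (abs_lt.1 h2).1
  rw [hO, hC]
  have h0 : 0 < n := by omega
  have h1 : 1 < n := by omega
  refine conn_box_diff (i := ⟨0, h0⟩) (j := ⟨1, h1⟩) ?_ (fun m => by norm_num) (hl _) (hl _)
  intro hcon
  have := congrArg Fin.val hcon
  simp at this

end Pool.Agent.W_d1cfb0_h59
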