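import Pool.Agent.W_d1cfb0_h59.BoxSquash

/-!
# Contraction of a cube into a small cube

Proof. Enlarge `ρ₀ < 1/2` so that `|v i| < ρ₀` for all `i` (this makes the claim stronger), choose
`ρ₀ < ρ₁ < 1/2`, and make `δ` smaller so that `[v i - δ, v i + δ] ⊆ (-ρ₀, ρ₀)` for all `i`.
Claim for `m ≤ n`: there are `e`, `ρ` with `Dn 1 e ρ`, `SuppIn e (ccub 0 ρ₁)` and for
`x ∈ Q n ρ₀`: `e x ∈ Q n ρ₀` and `|e x i - v i| < δ` for all `i < m`. `m = 0`: `e = 1`.
Step: compose (`Dn.mul`) with two maps of `box_squash` in the coordinate `i = m`, with `p' = -ρ₁`,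
`q' = ρ₁`, `p = -ρ₀`, `q = ρ₀` in the coordinates `j ≠ i`:
first with `p' i = -ρ₁`, `q' i = v i + δ / 2`, `a = -ρ₀`, `a' = v i - δ / 2` (it does not move
points with `x i ≥ v i + δ/2`, and `x i ≥ -ρ₀` gives `e x i ≥ v i - δ / 2`; points with
`x i ≤ v i + δ/2` stay `≤ v i + δ / 2` since the support box is mapped to itself), then with
`p' i = v i - 3 δ / 4`, `q' i = ρ₁`, `a = ρ₀`, `a' = v i + 3 δ / 4` (then `x i ≤ ρ₀` gives
`e x i ≤ v i + 3 δ / 4`, and points with `x i ≥ v i - δ / 2 ≥ v i - 3 δ / 4` stay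
`≥ v i - 3 δ / 4`: either in the support box, mapped to itself, or fixed). The other coordinates
are not changed. Use `K = ccub 0 ρ₁`, which is compact and contained in `O n`.
-/

namespace Pool.Agent.W_d1cfb0_h59

open MeasureTheory Pool.Agent.W_MP_d1cfb0_an

theorem contract_step {n : ℕ} {ρ₀ ρ₁ : ℝ} (h0 : 0 < ρ₀) (h01 : ρ₀ < ρ₁) {v : E n} {δ : ℝ}
    (hδ : 0 < δ) (hv1 : ∀ i, -ρ₀ ≤ v i - δ) (hv2 : ∀ i, v i + δ ≤ ρ₀) (i : Fin n) :
    ∃ (e : E n ≃ₜ E n) (ρ : E n → ℝ), Dn 1 e ρ ∧ SuppIn e (Q n ρ₁) ∧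
      (∀ x j, j ≠ i → e x j = x j) ∧ ∀ x ∈ Q n ρ₀, e x ∈ Q n ρ₀ ∧ |e x i - v i| < δ := by
  have hvi1 := hv1 i
  have hvi2 := hv2 i
  obtain ⟨e1, r1, hD1, hS1, hn1, hm1⟩ := box_squash (n := n) i (p' := fun _ => -ρ₁)
    (p := fun _ => -ρ₀) (q := fun _ => ρ₀) (q' := Function.update (fun _ => ρ₁) i (v i + δ / 2))
    (a := -ρ₀) (a' := v i - δ / 2) (fun _ _ => by linarith) (fun _ _ => by linarith)
    (fun j hj => by rw [Function.update_of_ne hj]; exact h01) (by linarith)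
    (by rw [Function.update_self]; linarith) (by linarith)
    (by rw [Function.update_self]; linarith)
  obtain ⟨e2, r2, hD2, hS2, hn2, hm2⟩ := box_squash (n := n) i
    (p' := Function.update (fun _ => -ρ₁) i (v i - 3 * δ / 4))
    (p := fun _ => -ρ₀) (q := fun _ => ρ₀) (q' := fun _ => ρ₁)
    (a := ρ₀) (a' := v i + 3 * δ / 4)
    (fun j hj => by rw [Function.update_of_ne hj]; linarith) (fun _ _ => by linarith)
    (fun _ _ => h01) (by rw [Function.update_self]; linarith) h01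
    (by rw [Function.update_self]; linarith) (by linarith)
  have hb1 : bx (fun _ => -ρ₁) (Function.update (fun _ => ρ₁) i (v i + δ / 2)) ⊆ Q n ρ₁ := by
    intro x hx j
    have h := hx j
    rw [abs_le]
    refine ⟨h.1, ?_⟩
    by_cases hj : j = i
    · subst hj
      rw [Function.update_self] at h
      linarith [h.2]
    · rw [Function.update_of_ne hj] at h
      exact h.2
  have hb2 : bx (Function.update (fun _ => -ρ₁) i (v i - 3 * δ / 4)) (fun _ => ρ₁) ⊆ Q n ρ₁ := by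
    intro x hx j
    have h := hx j
    rw [abs_le]
    refine ⟨?_, h.2⟩
    by_cases hj : j = i
    · subst hj
      rw [Function.update_self] at h
      linarith [h.1]
    · rw [Function.update_of_ne hj] at h
      exact h.1
  refine ⟨e2 * e1, _, hD1.mul hD2, (hS2.mono hb2).mul (hS1.mono hb1), ?_, ?_⟩
  · intro x j hj
    rw [mul_apply', hn2 _ _ hj, hn1 _ _ hj]
  · intro x hx
    have hx' : ∀ j, -ρ₀ ≤ x j ∧ x j ≤ ρ₀ := fun j => abs_le.1 (hx j)
    have h1 : v i - δ / 2 ≤ e1 x i := (hm1 x fun j _ => hx' j).1 (hx' i).1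
    have h2 : e1 x i ≤ ρ₀ := by
      by_cases hb : x ∈ bx (fun _ => -ρ₁) (Function.update (fun _ => ρ₁) i (v i + δ / 2))
      · have h3 := (hS1.mem_of_mem hb i).2
        rw [Function.update_self] at h3
        linarith
      · rw [hS1 x hb]
        exact (hx' i).2
    have hx1 : ∀ j, -ρ₀ ≤ e1 x j ∧ e1 x j ≤ ρ₀ := by
      intro j
      by_cases hj : j = i
      · subst hj
        exact ⟨by linarith, h2⟩
      · rw [hn1 _ _ hj]
        exact hx' j
    have h3 : e2 (e1 x) i ≤ v i + 3 * δ / 4 := (hm2 (e1 x) fun j _ => hx1 j).2 h2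
    have h4 : v i - 3 * δ / 4 ≤ e2 (e1 x) i := by
      by_cases hb : e1 x ∈ bx (Function.update (fun _ => -ρ₁) i (v i - 3 * δ / 4)) (fun _ => ρ₁)
      · have h5 := (hS2.mem_of_mem hb i).1
        rw [Function.update_self] at h5
        exact h5
      · rw [hS2 _ hb]
        linarith
    rw [mul_apply']
    constructor
    · intro j
      rw [abs_le]
      by_cases hj : j = i
      · subst hj
        constructor <;> linarith
      · rw [hn2 _ _ hj]
        exact hx1 j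
    · rw [abs_lt]
      constructor <;> linarith

theorem contract_aux {n : ℕ} {ρ₀ ρ₁ : ℝ} (h0 : 0 < ρ₀) (h01 : ρ₀ < ρ₁) {v : E n} {δ : ℝ}
    (hδ : 0 < δ) (hv1 : ∀ i, -ρ₀ ≤ v i - δ) (hv2 : ∀ i, v i + δ ≤ ρ₀) (m : ℕ) :
    ∃ (e : E n ≃ₜ E n) (ρ : E n → ℝ), Dn 1 e ρ ∧ SuppIn e (Q n ρ₁) ∧
      ∀ x ∈ Q n ρ₀, e x ∈ Q n ρ₀ ∧ ∀ i : Fin n, i.1 < m → |e x i - v i| < δ := by
  induction m with
  | zero =>
    exact ⟨1, _, dn_one, suppIn_one _, fun x hx => ⟨hx, fun i hi => absurd hi (Nat.not_lt_zero _)⟩⟩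
  | succ m ih =>
    obtain ⟨e, ρ, hD, hS, he⟩ := ih
    by_cases hm : m < n
    · obtain ⟨f, σ, hD', hS', hf, hf'⟩ := contract_step h0 h01 hδ hv1 hv2 ⟨m, hm⟩
      refine ⟨f * e, _, hD.mul hD', hS'.mul hS, ?_⟩
      intro x hx
      obtain ⟨hx1, hx2⟩ := he x hx
      obtain ⟨hx3, hx4⟩ := hf' _ hx1
      rw [mul_apply']
      refine ⟨hx3, ?_⟩
      intro i hi
      by_cases h : i = ⟨m, hm⟩
      · subst h
        exact hx4
      · rw [hf _ _ h]
        refine hx2 i ?_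
        have : i.1 ≠ m := fun h' => h (Fin.ext h')
        omega
    · refine ⟨e, ρ, hD, hS, ?_⟩
      intro x hx
      refine ⟨(he x hx).1, fun i hi => (he x hx).2 i ?_⟩
      have := i.2
      omega

theorem contract {n : ℕ} {ρ₀ : ℝ} (h0 : 0 < ρ₀) (h1 : ρ₀ < 1 / 2) {v : E n} (hv : v ∈ O n)
    {δ : ℝ} (hδ : 0 < δ) :
    ∃ (e : E n ≃ₜ E n) (ρ : E n → ℝ) (K : Set (E n)), Dn 1 e ρ ∧ IsCompact K ∧ K ⊆ O n ∧
      SuppIn e K ∧ e '' Q n ρ₀ ⊆ cub v δ := by
  obtain ⟨s, hs0, hs1, hs2⟩ := exists_ccub_of_compact (n := n) (c := 0) (r := 1 / 2)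
    (K := {v}) isCompact_singleton (by norm_num)
    (by rw [← O_eq_cub]; exact Set.singleton_subset_iff.2 hv)
  have hvs : ∀ i, |v i| ≤ s := by
    intro i
    have := hs2 (Set.mem_singleton v) i
    simpa using this
  set m : ℝ := max ρ₀ s with hm
  have hm1 : ρ₀ ≤ m := le_max_left _ _
  have hm2 : s ≤ m := le_max_right _ _
  have hm3 : m < 1 / 2 := max_lt h1 hs1
  set R : ℝ := (m + 1 / 2) / 2 with hR
  have hR1 : m < R := by rw [hR]; linarith
  have hR2 : R < 1 / 2 := by rw [hR]; linarith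
  set R' : ℝ := (R + 1 / 2) / 2 with hR'
  have hR3 : R < R' := by rw [hR']; linarith
  have hR4 : R' < 1 / 2 := by rw [hR']; linarith
  have hδ' : 0 < min δ (R - m) := lt_min hδ (by linarith)
  obtain ⟨e, ρ, hD, hS, he⟩ := contract_aux (n := n) (v := v) (by linarith : 0 < R) hR3 hδ'
    (fun i => by
      have h3 := (abs_le.1 (hvs i)).1
      have h4 := min_le_right δ (R - m)
      linarith)
    (fun i => by
      have h3 := (abs_le.1 (hvs i)).2
      have h4 := min_le_right δ (R - m)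
      linarith) n
  refine ⟨e, ρ, Q n R', hD, ?_, Q_subset_O hR4, hS, ?_⟩
  · rw [Q_eq_ccub]
    exact isCompact_ccub _ _
  · rintro _ ⟨x, hx, rfl⟩ i
    have hx' : x ∈ Q n R := fun j => (hx j).trans (by linarith)
    exact lt_of_lt_of_le ((he x hx').2 i i.2) (min_le_left _ _)

end Pool.Agent.W_d1cfb0_h59
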