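import Pool.Agent.W_d1cfb0_h59.GS
import Pool.Agent.W_d1cfb0_h59.Contract
import Pool.Agent.W_d1cfb0_h59.Conn

/-!
# Squeezing a compact set into an open set of larger volume

Proof. `W` has positive volume, so it is nonempty; let `v ∈ W`, `ccub v δ ⊆ W`, `δ > 0`
(`exists_ccub_subset`). `X ⊆ Q n ρ₀` for some `0 < ρ₀ < 1/2` (`exists_ccub_of_compact`, `O_eq_cub`,
`Q_eq_ccub`). `contract` (with `δ / 2`) gives `e, ρ, K` with `e '' X ⊆ e '' Q n ρ₀ ⊆ cub v (δ/2)`.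
Let `Ω₁ = O n \ e '' X`, `Ω₂ = W`. `Ω₁` is open; it is preconnected, because `e '' O n = O n`
(`SuppIn.image_eq`) and `Ω₁ = e '' (O n \ X)`. `K ⊆ O n = Ω₁ ∪ e '' X`. `Ω₁ ∩ Ω₂ = W \ e '' X` is
nonempty: it contains the point `v + (3 δ / 4) e_0` (`n ≥ 1`). Volume:
`volume (W \ e '' X) + volume (e '' X) = volume W > volume X`. By `gs` there are `ψ, θ` and
`d = θ * ψ * e` is `Sm`; `CS d (O n)` by `CS.mul`, `CS.mono` (`e` has support `K ⊆ O n`). For
`x ∈ X`: `ψ (e x) = e x` (`e x ∉ Ω₁`) and `θ (e x) ∈ W` since `e x ∈ W` (`SuppIn.mem_of_mem`).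
-/

namespace Pool.Agent.W_d1cfb0_h59

open MeasureTheory Pool.Agent.W_MP_d1cfb0_an

theorem squeeze {n : ℕ} (hn : 2 ≤ n) {X : Set (E n)} (hX : IsCompact X) (hXO : X ⊆ O n)
    (hXc : IsPreconnected (O n \ X)) {W : Set (E n)} (hW : IsOpen W) (hWO : W ⊆ O n)
    (hWc : IsPreconnected W) (hv : volume X < volume W) :
    ∃ d : E n ≃ₜ E n, IsD d ∧ d '' X ⊆ W := by
  have hn0 : 0 < n := by omega
  have hWne : W.Nonempty := by
    rw [Set.nonempty_iff_ne_empty]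
    rintro rfl
    simp at hv
  obtain ⟨v, hvW⟩ := hWne
  obtain ⟨δ, hδ, hδW⟩ := exists_ccub_subset hW hvW
  have hXO' : X ⊆ cub 0 (1 / 2) := by
    rw [← O_eq_cub]
    exact hXO
  obtain ⟨ρ₀, h0, h1, hX0⟩ := exists_ccub_of_compact hX (by norm_num) hXO'
  obtain ⟨e, ρ, K, he, hK, hKO, heK, him⟩ := contract h0 h1 (hWO hvW) (half_pos hδ)
  have hXW : e '' X ⊆ cub v (δ / 2) :=
    (Set.image_mono (by rw [Q_eq_ccub]; exact hX0)).trans him
  have hXW2 : e '' X ⊆ W :=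
    hXW.trans ((cub_mono (by linarith)).trans ((cub_subset_ccub v δ).trans hδW))
  have heO : e '' O n = O n := SuppIn.image_eq heK hKO
  have hO1 : O n \ e '' X = e '' (O n \ X) := by
    rw [Set.image_sdiff e.injective, heO]
  have hIX : IsCompact (e '' X) := hX.image e.continuous
  have hOo : IsOpen (O n) := by
    rw [O_eq_cub]
    exact isOpen_cub _ _
  have hΩ1 : IsOpen (O n \ e '' X) := hOo.sdiff hIX.isClosed
  have hΩ1c : IsPreconnected (O n \ e '' X) := by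
    rw [hO1]
    exact hXc.image _ e.continuous.continuousOn
  have hinter : (O n \ e '' X) ∩ W = W \ e '' X := by
    ext x
    constructor
    · rintro ⟨⟨_, h⟩, hw⟩
      exact ⟨hw, h⟩
    · rintro ⟨hw, h⟩
      exact ⟨⟨hWO hw, h⟩, hw⟩
  have hne : ((O n \ e '' X) ∩ W).Nonempty := by
    rw [hinter]
    refine ⟨upd v ⟨0, hn0⟩ (v ⟨0, hn0⟩ + 3 * δ / 4), ?_, ?_⟩
    · apply hδW
      intro i
      by_cases hi : i = ⟨0, hn0⟩
      · subst hi
        rw [upd_same, abs_le]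
        constructor <;> linarith
      · rw [upd_ne _ hi, sub_self, abs_zero]
        exact hδ.le
    · intro h
      have h2 := hXW h ⟨0, hn0⟩
      rw [upd_same, abs_lt] at h2
      linarith [h2.2]
  have hvol : volume X < volume ((O n \ e '' X) ∩ W) + volume (e '' X) := by
    rw [hinter]
    refine lt_of_lt_of_le hv ?_
    calc volume W ≤ volume ((W \ e '' X) ∪ e '' X) := by
          refine measure_mono fun x hx => ?_
          by_cases h : x ∈ e '' X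
          · exact Or.inr h
          · exact Or.inl ⟨hx, h⟩
      _ ≤ _ := measure_union_le _ _
  have hKX : K ⊆ (O n \ e '' X) ∪ e '' X := by
    intro x hx
    by_cases h : x ∈ e '' X
    · exact Or.inr h
    · exact Or.inl ⟨hKO hx, h⟩
  obtain ⟨ψ, θ, hψ, hθ, hS⟩ := gs he hK heK hX hΩ1 hΩ1c hW hWc
    (Set.disjoint_left.2 fun x hx h => h.2 hx) hKX hXW2 hne hvol
  refine ⟨θ * ψ * e, ⟨hS, ?_⟩, ?_⟩
  · exact ((hθ.mono hWO).mul (hψ.mono Set.sdiff_subset)).mul ⟨K, hK, hKO, heK⟩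
  · rintro _ ⟨x, hx, rfl⟩
    show θ (ψ (e x)) ∈ W
    have h2 : ψ (e x) = e x := hψ.suppIn (e x) (fun h => h.2 ⟨x, hx, rfl⟩)
    rw [h2]
    exact hθ.suppIn.mem_of_mem (hXW2 ⟨x, hx, rfl⟩)

end Pool.Agent.W_d1cfb0_h59
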