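import Pool.Agent.W_d1cfb0_h59.Shrink
import Pool.Agent.W_d1cfb0_h59.Squeeze

/-!
# A closed group containing `IsD` and normalized by `IsM` contains `IsM`

Proof. Write `f ≡ g` for `g⁻¹ * f ∈ N`. (a) If `f₁⁻¹ * f ∈ N`, `f, f₁` in `IsM`, `d` in `IsD`, then
`(d * f₁ * d⁻¹)⁻¹ * f ∈ N`: it equals `d * (f₁⁻¹ * d⁻¹ * f₁) * (f₁⁻¹ * f)`. (b) `≡` is transitive.
Let `f` be in `IsM`. Let `S` be the set of real `v ≥ 0` for which there are `f₁` in `IsM` with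
`f₁⁻¹ * f ∈ N` and a compact `X ⊆ O n` with `O n \ X` preconnected, `SuppIn f₁ X`,
`volume X ≤ ofReal v`. `(2 ρ) ^ n ∈ S` where `f` has support in `Q n ρ`, `ρ < 1/2` (`f₁ = f`,
`X = Q n ρ = ccub 0 ρ`, `conn_O_diff`). Let `V = sInf S`, `0 ≤ V < 1`.
Claim `V = 0`. Suppose `V > 0`. Let `β₀ = V ^ (1/n) / 2 ∈ (0, 1/2)`, `r = min β₀ (1/2 - β₀) / 8`,
`κ = (r / (4 n)) ^ n * 2 ^ (n - 2) > 0`. For `β > β₀` close to `β₀` we have `4 r ≤ β`,
`4 r ≤ 1/2 - β`, `(2 β) ^ n - κ < V` (continuity of `β ↦ (2 β)^n` at `β₀`), and `V < (2 β) ^ n`.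
(To avoid roots: by continuity and monotonicity of `β ↦ (2 β)^n` on `[0, 1/2]` and the intermediate
value theorem there is `β₀` with `(2 β₀)^n = V`.) Fix such `β`. There is `v ∈ S`, `v < (2 β) ^ n`
(`exists_lt_of_csInf_lt`), with `f₁`, `X`. `squeeze` with `W = cub 0 β` (`volume_cub`) gives `d` in
`IsD` with `d '' X ⊆ cub 0 β`; `f₂ = d * f₁ * d⁻¹` has support in the compact set `d '' X`, so in
`ccub 0 β' = Q n β'` for some `β' < β` (`exists_ccub_of_compact`). `shrink` gives `f₃`, `X₃` with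
`f₃⁻¹ * f₂ ∈ N`, `volume X₃ ≤ ofReal ((2 β)^n - κ)`. By (a), (b) `f₃⁻¹ * f ∈ N`, so
`max 0 ((2 β)^n - κ) ∈ S`, but it is `< V`, a contradiction.
So `V = 0`. We show `f ∈ N` by `hN.closed`. Let `ε > 0`; by uniform continuity of `f⁻¹`
(`SuppIn.uniformContinuous_of_cube`) there is `0 < δ ≤ ε` such that `dist x y < δ` implies
`dist (f⁻¹ x) (f⁻¹ y) < ε`. Choose `0 < s < 1/2` with `2 n s < δ`. There is `v ∈ S` with
`v < (2 s) ^ n`, with `f₁`, `X`; `squeeze` with `W = cub 0 s` gives `d`; `g = d * f₁ * d⁻¹` has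
support in `cub 0 s`, so `dist (g x) x < δ` and `dist (g⁻¹ x) x < δ` for all `x`
(`dist_le_of_mem_ccub` twice). `m = g⁻¹ * f ∈ N` by (a). `dist (m x) (f x) =
dist (g⁻¹ (f x)) (f x) < ε` and `dist (m⁻¹ x) (f⁻¹ x) = dist (f⁻¹ (g x)) (f⁻¹ x) < ε`.
(`i = 0`, `j = 1` as elements of `Fin n` in `shrink`.)
-/

namespace Pool.Agent.W_d1cfb0_h59

open MeasureTheory Pool.Agent.W_MP_d1cfb0_an

theorem allnormal_conj {n : ℕ} {N : Set (E n ≃ₜ E n)} (hN : ClosedGroup n N)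
    (hD : ∀ d, IsD d → d ∈ N) (hnorm : ∀ f, IsM f → ∀ g ∈ N, f * g * f⁻¹ ∈ N)
    {f f₁ d : E n ≃ₜ E n} (h₁ : IsM f₁) (hd : IsD d) (h : f₁⁻¹ * f ∈ N) :
    (d * f₁ * d⁻¹)⁻¹ * f ∈ N := by
  have e : (d * f₁ * d⁻¹)⁻¹ * f = d * (f₁⁻¹ * d⁻¹ * f₁⁻¹⁻¹) * (f₁⁻¹ * f) := by group
  rw [e]
  exact hN.mul_mem _ (hN.mul_mem _ (hD d hd) _
    (hnorm _ h₁.inv _ (hN.inv_mem _ (hD d hd)))) _ h

theorem allnormal_dist {n : ℕ} {g : E n ≃ₜ E n} {s δ : ℝ} (hs : 0 < s) (hδ : 2 * n * s < δ)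
    (hg : SuppIn g (cub 0 s)) (x : E n) : dist (g x) x < δ := by
  by_cases hx : x ∈ cub 0 s
  · have h1 := dist_le_of_mem_ccub (cub_subset_ccub _ _ (hg.mem_of_mem hx)) hs.le
    have h2 := dist_le_of_mem_ccub (cub_subset_ccub _ _ hx) hs.le
    have h3 := dist_triangle_right (g x) x 0
    linarith
  · rw [hg x hx, dist_self]
    have : 0 ≤ 2 * (n : ℝ) * s := by positivity
    linarith

theorem all_of_normal {n : ℕ} (hn : 2 ≤ n) {N : Set (E n ≃ₜ E n)} (hN : ClosedGroup n N)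
    (hD : ∀ d, IsD d → d ∈ N) (hnorm : ∀ f, IsM f → ∀ g ∈ N, f * g * f⁻¹ ∈ N) :
    ∀ f, IsM f → f ∈ N := by
  intro f hf
  have hn0 : n ≠ 0 := by omega
  set S : Set ℝ := {v | 0 ≤ v ∧ ∃ f₁ : E n ≃ₜ E n, IsM f₁ ∧ f₁⁻¹ * f ∈ N ∧ ∃ X : Set (E n),
    IsCompact X ∧ X ⊆ O n ∧ IsPreconnected (O n \ X) ∧ SuppIn f₁ X ∧
      volume X ≤ ENNReal.ofReal v} with hS
  obtain ⟨ρ, hρ0, hρ1, hρs⟩ := hf.exists_Q
  have hmem : (2 * ρ) ^ n ∈ S := by
    refine ⟨by positivity, f, hf, ?_, Q n ρ, ?_, Q_subset_O hρ1, ?_, hρs, ?_⟩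
    · rw [inv_mul_cancel]
      exact hN.one_mem
    · rw [Q_eq_ccub]
      exact isCompact_ccub _ _
    · have h1 : ccub (0 : E n) ρ ⊆ O n := by
        rw [← Q_eq_ccub]
        exact Q_subset_O hρ1
      rw [Q_eq_ccub]
      exact conn_O_diff hn hρ0.le h1
    · rw [Q_eq_ccub, volume_ccub _ hρ0.le]
  have hne : S.Nonempty := ⟨_, hmem⟩
  have hbdd : BddBelow S := ⟨0, fun v hv => hv.1⟩
  set V := sInf S with hV
  have hV0 : 0 ≤ V := le_csInf hne fun v hv => hv.1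
  have hV1 : V < 1 :=
    (csInf_le hbdd hmem).trans_lt (pow_lt_one₀ (by positivity) (by linarith) hn0)
  -- the squeezed representative
  have key : ∀ β : ℝ, 0 < β → β < 1 / 2 → V < (2 * β) ^ n →
      ∃ f₂ : E n ≃ₜ E n, IsM f₂ ∧ f₂⁻¹ * f ∈ N ∧
        ∃ K : Set (E n), IsCompact K ∧ K ⊆ cub 0 β ∧ SuppIn f₂ K := by
    intro β hβ0 hβ1 hβ
    obtain ⟨v, ⟨_, f₁, hf₁, hf₁N, X, hX, hXO, hXc, hXs, hXv⟩, hvlt⟩ :=
      exists_lt_of_csInf_lt hne hβ
    have hWO : cub (0 : E n) β ⊆ O n := by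
      rw [O_eq_cub]
      exact cub_mono hβ1.le
    have hvol : volume X < volume (cub (0 : E n) β) := by
      rw [volume_cub _ hβ0.le]
      exact hXv.trans_lt ((ENNReal.ofReal_lt_ofReal_iff (by positivity)).2 hvlt)
    obtain ⟨d, hd, hdX⟩ := squeeze hn hX hXO hXc (isOpen_cub 0 β) hWO
      (convex_cub (0 : E n) β).isPreconnected hvol
    exact ⟨d * f₁ * d⁻¹, hf₁.conj hd.isM, allnormal_conj hN hD hnorm hf₁ hd hf₁N, d '' X,
      hX.image d.continuous, hdX, hXs.conj d⟩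
  -- the infimum is zero
  have hVz : V = 0 := by
    by_contra hVne
    have hVpos : 0 < V := lt_of_le_of_ne hV0 (Ne.symm hVne)
    set β₀ : ℝ := V ^ ((n : ℝ)⁻¹) / 2 with hβ₀
    have hninv : 0 < (n : ℝ)⁻¹ := by positivity
    have hβ₀0 : 0 < β₀ := by
      have := Real.rpow_pos_of_pos hVpos ((n : ℝ)⁻¹)
      positivity
    have hβ₀1 : β₀ < 1 / 2 := by
      have := Real.rpow_lt_one hV0 hV1 hninv
      rw [hβ₀]
      linarith
    have hβ₀V : (2 * β₀) ^ n = V := by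
      rw [hβ₀, mul_div_cancel₀ _ (two_ne_zero)]
      exact Real.rpow_inv_natCast_pow hV0 hn0
    set r : ℝ := min β₀ (1 / 2 - β₀) / 8 with hr
    have hr0 : 0 < r := by
      have : 0 < min β₀ (1 / 2 - β₀) := lt_min hβ₀0 (by linarith)
      positivity
    have hr1 : 8 * r ≤ β₀ := by
      have := min_le_left β₀ (1 / 2 - β₀)
      rw [hr]
      linarith
    have hr2 : 8 * r ≤ 1 / 2 - β₀ := by
      have := min_le_right β₀ (1 / 2 - β₀)
      rw [hr]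
      linarith
    set κ : ℝ := (r / (4 * n)) ^ n * 2 ^ (n - 2) with hκ
    have hκ0 : 0 < κ := by positivity
    have hcont : Filter.Tendsto (fun β : ℝ => (2 * β) ^ n) (nhds β₀) (nhds V) := by
      have h1 : Continuous fun β : ℝ => (2 * β) ^ n := by fun_prop
      have h2 := h1.tendsto β₀
      rwa [hβ₀V] at h2
    have hev1 := hcont.eventually (gt_mem_nhds (show V < V + κ by linarith))
    have hev2 := eventually_lt_nhds (show β₀ < β₀ + 4 * r by linarith)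
    have hev3 := (hev1.and hev2).filter_mono (nhdsWithin_le_nhds (s := Set.Ioi β₀))
    obtain ⟨β, ⟨hβ1, hβ2⟩, hβ3⟩ := (hev3.and self_mem_nhdsWithin).exists
    have hβ4 : β₀ < β := hβ3
    have hβV : V < (2 * β) ^ n := by
      rw [← hβ₀V]
      exact pow_lt_pow_left₀ (by linarith) (by positivity) hn0
    obtain ⟨f₂, hf₂, hf₂N, K, hK, hKβ, hKs⟩ := key β (by linarith) (by linarith) hβV
    obtain ⟨β', _, hβ', hKβ'⟩ := exists_ccub_of_compact hK (by linarith) hKβ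
    have hsupp : SuppIn f₂ (Q n β') := by
      rw [Q_eq_ccub]
      exact hKs.mono hKβ'
    have hij : (⟨0, by omega⟩ : Fin n) ≠ ⟨1, by omega⟩ := by
      intro h
      simpa using congrArg Fin.val h
    obtain ⟨f₃, hf₃, hf₃N, X₃, hX₃, hX₃O, hX₃c, hX₃s, hX₃v⟩ :=
      shrink hij hr0 (by linarith : 4 * r ≤ β) (by linarith : 4 * r ≤ 1 / 2 - β) hβ' hN hD hnorm
        hf₂.1 hsupp
    have hmem3 : max 0 ((2 * β) ^ n - κ) ∈ S := by
      refine ⟨le_max_left _ _, f₃, hf₃, ?_, X₃, hX₃, hX₃O, hX₃c, hX₃s,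
        hX₃v.trans (ENNReal.ofReal_le_ofReal (le_max_right _ _))⟩
      have e : f₃⁻¹ * f = (f₃⁻¹ * f₂) * (f₂⁻¹ * f) := by group
      rw [e]
      exact hN.mul_mem _ hf₃N _ hf₂N
    have hle := csInf_le hbdd hmem3
    have hlt : max 0 ((2 * β) ^ n - κ) < V := max_lt hVpos (by linarith)
    exact absurd hle (not_le.2 hlt)
  -- approximation
  refine hN.closed f hf.suppIn ?_
  intro ε hε
  have huc := SuppIn.uniformContinuous_of_cube hf.suppIn.inv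
  obtain ⟨δ₀, hδ₀, hδ⟩ := Metric.uniformContinuous_iff.1 huc ε hε
  have hnpos : (0 : ℝ) < n := by
    have : 0 < n := by omega
    exact_mod_cast this
  set δ := min δ₀ ε with hδdef
  have hδ0 : 0 < δ := lt_min hδ₀ hε
  set s := min (1 / 4) (δ / (4 * n)) with hs
  have hs0 : 0 < s := lt_min (by norm_num) (by positivity)
  have hs1 : s < 1 / 2 := (min_le_left _ _).trans_lt (by norm_num)
  have hs2 : 2 * n * s < δ := by
    have h1 : s ≤ δ / (4 * n) := min_le_right _ _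
    have h2 : 2 * n * s ≤ 2 * n * (δ / (4 * n)) := by gcongr
    have h3 : 2 * n * (δ / (4 * n)) = δ / 2 := by
      field_simp
      ring
    linarith
  obtain ⟨g, hg, hgN, K, _, hKs, hgs⟩ := key s hs0 hs1 (by rw [hVz]; positivity)
  have hgs' : SuppIn g (cub 0 s) := hgs.mono hKs
  refine ⟨g⁻¹ * f, hgN, fun x => ⟨?_, ?_⟩⟩
  · rw [mul_apply']
    exact (allnormal_dist hs0 hs2 hgs'.inv (f x)).trans_le (min_le_right _ _)
  · rw [mul_inv_rev, inv_inv, mul_apply']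
    exact hδ ((allnormal_dist hs0 hs2 hgs' x).trans_le (min_le_left _ _))

end Pool.Agent.W_d1cfb0_h59
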