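import Pool.Agent.W_d1cfb0_h59.Basic2

/-!
# Antiderivatives in one coordinate

`A x = ∫ t in 0..(x i), a (upd x i t)`.

Proof. `HasPart i A a`: `A (upd x i s) = ∫ t in 0..s, a (upd x i t)` (`upd_upd`, `upd_same`), use
`intervalIntegral.integral_hasDerivAt_right` / `Continuous.deriv_integral`.
`k = 0`: continuity of the parametric integral with continuous limits
(`intervalIntegral.continuous_parametric_intervalIntegral_of_continuous`).
`k = 1`: put `v ↦ w(v) = v - v i • e_i`. The derivative of `A` at `x` is
`v ↦ a x * v i + ∫ t in 0..(x i), Da(upd x i t) (w v)`. One way: write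
`A x = (x i) * ∫ s in 0..1, a (upd x i (s * x i))`; the integrand is a `C^1` function of `(s, x)`
on the compact interval, so differentiate under the integral sign
(`hasFDerivAt_integral_of_dominated_of_fderiv_le` / `intervalIntegral.hasFDerivAt_integral_of_dominated_of_fderiv_le`,
bounds on compact sets), with continuous derivative
(`intervalIntegral.continuous_parametric_intervalIntegral_of_continuous`), hence `C^1`
(`contDiff_one_iff_fderiv` or `contDiff_one_iff_hasFDerivAt`).
-/

namespace Pool.Agent.W_d1cfb0_h59

open MeasureTheory Pool.Agent.W_MP_d1cfb0_an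

/-- The integrand after scaling. -/
noncomputable def antideriv_F {n : ℕ} (i : Fin n) (a : E n → ℝ) (x : E n) (s : ℝ) : ℝ :=
  a (upd x i (s * x i))

theorem antideriv_contDiff_F {n : ℕ} (i : Fin n) {k : WithTop ℕ∞} {a : E n → ℝ}
    (ha : ContDiff ℝ k a) : ContDiff ℝ k (Function.uncurry (antideriv_F i a)) := by
  have h1 : Function.uncurry (antideriv_F i a) =
      a ∘ (fun p : E n × ℝ => upd p.1 i p.2) ∘ fun p : E n × ℝ => (p.1, p.2 * p.1 i) := by
    funext p
    rfl
  rw [h1]
  refine ha.comp ((contDiff_upd i).comp ?_)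
  fun_prop

/-- The parametric integral of a `C^1` function is `C^1`. -/
theorem antideriv_param {n : ℕ} {F : E n → ℝ → ℝ} (hF : ContDiff ℝ 1 (Function.uncurry F)) :
    ContDiff ℝ 1 fun x => ∫ s in (0 : ℝ)..1, F x s := by
  set F' : E n → ℝ → (E n →L[ℝ] ℝ) := fun x s => fderiv ℝ (fun y => F y s) x with hF'
  have hc : Continuous (Function.uncurry F') := by
    have h1 : ContDiff ℝ 0 fun p : E n × ℝ =>
        fderiv ℝ ((fun (q : E n × ℝ) (y : E n) => F y q.2) p) ((fun q : E n × ℝ => q.1) p) := by
      refine ContDiff.fderiv (m := 1) ?_ contDiff_fst (by norm_num)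
      have h2 : Function.uncurry (fun (q : E n × ℝ) (y : E n) => F y q.2) =
          Function.uncurry F ∘ fun r : (E n × ℝ) × E n => (r.2, r.1.2) := by
        funext r
        rfl
      rw [h2]
      refine hF.comp ?_
      fun_prop
    exact h1.continuous
  have hd : ∀ (x : E n) (s : ℝ), HasFDerivAt (fun y => F y s) (F' x s) x := by
    intro x s
    have h1 : ContDiff ℝ 1 fun y => F y s := by
      have h2 : (fun y => F y s) = Function.uncurry F ∘ fun y : E n => (y, s) := by
        funext r
        rfl
      rw [h2]
      refine hF.comp ?_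
      fun_prop
    exact (h1.differentiable (by norm_num) x).hasFDerivAt
  rw [contDiff_one_iff_hasFDerivAt]
  refine ⟨fun x => ∫ s in (0 : ℝ)..1, F' x s,
    intervalIntegral.continuous_parametric_intervalIntegral_of_continuous' hc 0 1, ?_⟩
  intro x
  have hK : IsCompact (Metric.closedBall x 1 ×ˢ Set.Icc (0 : ℝ) 1) :=
    (isCompact_closedBall x 1).prod isCompact_Icc
  obtain ⟨C, hC⟩ := hK.exists_bound_of_continuousOn hc.continuousOn
  have hFx : ∀ y, Continuous (F y) := by
    intro y
    exact hF.continuous.comp (by fun_prop : Continuous fun s : ℝ => (y, s))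
  have hF'x : ∀ y, Continuous (F' y) := by
    intro y
    exact hc.comp (by fun_prop : Continuous fun s : ℝ => (y, s))
  refine intervalIntegral.hasFDerivAt_integral_of_dominated_of_fderiv_le (bound := fun _ => C)
    (Metric.closedBall_mem_nhds x one_pos) ?_ ?_ ?_ ?_ ?_ ?_
  · exact Filter.Eventually.of_forall fun y => (hFx y).aestronglyMeasurable
  · exact (hFx x).intervalIntegrable _ _
  · exact (hF'x x).aestronglyMeasurable
  · refine Filter.Eventually.of_forall fun t ht y hy => ?_
    rw [Set.uIoc_of_le zero_le_one] at ht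
    exact hC (y, t) ⟨hy, ht.1.le, ht.2⟩
  · exact intervalIntegrable_const
  · exact Filter.Eventually.of_forall fun t _ y _ => hd y t

theorem exists_antideriv {n : ℕ} (i : Fin n) {k : WithTop ℕ∞} (hk : k = 0 ∨ k = 1)
    {a : E n → ℝ} (ha : ContDiff ℝ k a) : ∃ A : E n → ℝ, ContDiff ℝ k A ∧ HasPart i A a := by
  refine ⟨fun x => x i * ∫ s in (0 : ℝ)..1, antideriv_F i a x s, ?_, ?_⟩
  · have h1 : ContDiff ℝ k fun x : E n => x i := by fun_prop
    refine h1.mul ?_
    rcases hk with rfl | rfl
    · rw [contDiff_zero]
      exact intervalIntegral.continuous_parametric_intervalIntegral_of_continuous'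
        (antideriv_contDiff_F i ha).continuous 0 1
    · exact antideriv_param (antideriv_contDiff_F i ha)
  · intro x
    have hcl : Continuous fun u : ℝ => a (upd x i u) :=
      ha.continuous.comp ((continuous_upd i).comp
        (by fun_prop : Continuous fun u : ℝ => (x, u)))
    have h1 : (fun t : ℝ => (upd x i t) i * ∫ s in (0 : ℝ)..1, antideriv_F i a (upd x i t) s) =
        fun t : ℝ => ∫ u in (0 : ℝ)..t, a (upd x i u) := by
      funext t
      unfold antideriv_F
      simp only [upd_upd, upd_same]
      have h2 := intervalIntegral.smul_integral_comp_mul_right (a := 0) (b := 1)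
        (f := fun u : ℝ => a (upd x i u)) t
      rw [smul_eq_mul, zero_mul, one_mul] at h2
      exact h2
    show HasDerivAt (fun t : ℝ => (upd x i t) i *
      ∫ s in (0 : ℝ)..1, antideriv_F i a (upd x i t) s) (a x) (x i)
    rw [h1]
    have h3 := intervalIntegral.integral_hasDerivAt_right (hcl.intervalIntegrable 0 (x i))
      (hcl.stronglyMeasurableAtFilter _ _) hcl.continuousAt
    rw [upd_self] at h3
    exact h3

end Pool.Agent.W_d1cfb0_h59
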