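import Pool.Agent.W_d1cfb0_h59.Defs

/-!
# Basic facts about the definitions
-/

namespace Pool.Agent.W_d1cfb0_h59

open MeasureTheory Pool.Agent.W_MP_d1cfb0_an

section Upd

variable {n : ℕ}

@[simp] theorem upd_same (x : E n) (i : Fin n) (t : ℝ) : upd x i t i = t := by
  simp [upd]

theorem upd_ne (x : E n) {i j : Fin n} (h : j ≠ i) (t : ℝ) : upd x i t j = x j := by
  simp [upd, h]

@[simp] theorem upd_self (x : E n) (i : Fin n) : upd x i (x i) = x := by
  simp [upd]

@[simp] theorem upd_upd (x : E n) (i : Fin n) (s t : ℝ) : upd (upd x i s) i t = upd x i t := by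
  ext j
  by_cases h : j = i
  · subst h
    simp
  · rw [upd_ne _ h, upd_ne _ h, upd_ne _ h]

theorem contDiff_upd {k : WithTop ℕ∞} (i : Fin n) :
    ContDiff ℝ k fun p : E n × ℝ => upd p.1 i p.2 := by
  unfold upd
  fun_prop

theorem continuous_upd (i : Fin n) : Continuous fun p : E n × ℝ => upd p.1 i p.2 :=
  (contDiff_upd (k := 0) i).continuous

theorem HasPart.line {i : Fin n} {F f : E n → ℝ} (h : HasPart i F f) (x : E n) (t : ℝ) :
    HasDerivAt (fun s : ℝ => F (upd x i s)) (f (upd x i t)) t := by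
  have h1 := h (upd x i t)
  simp only [upd_upd, upd_same] at h1
  exact h1

theorem hasPart_coord (i : Fin n) : HasPart i (fun x : E n => x i) fun _ => 1 := by
  intro x
  simp only [upd_same]
  exact hasDerivAt_id _

theorem HasPart.add {i : Fin n} {F f G g : E n → ℝ} (h : HasPart i F f) (h' : HasPart i G g) :
    HasPart i (F + G) (f + g) :=
  fun x => (h x).add (h' x)

theorem HasPart.const_smul {i : Fin n} {F f : E n → ℝ} (h : HasPart i F f) (a : ℝ) :
    HasPart i (a • F) (a • f) :=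
  fun x => (h x).const_mul a

theorem hasPart_of_contDiff {F : E n → ℝ} (hF : ContDiff ℝ 1 F) (i : Fin n) :
    HasPart i F fun x => fderiv ℝ F x (EuclideanSpace.single i 1) := by
  intro x
  have h1 : HasDerivAt (fun t : ℝ => upd x i t) (EuclideanSpace.single i (1 : ℝ)) (x i) := by
    unfold upd
    have h2 : HasDerivAt (fun t : ℝ => (t - x i)) 1 (x i) := (hasDerivAt_id _).sub_const _
    have h3 := (h2.smul_const (EuclideanSpace.single i (1 : ℝ))).const_add x
    rwa [one_smul] at h3
  have h4 : HasFDerivAt F (fderiv ℝ F x) (upd x i (x i)) := by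
    rw [upd_self]
    exact (hF.differentiable (by norm_num) x).hasFDerivAt
  exact h4.comp_hasDerivAt (x i) h1

end Upd

section Cubes

variable {n : ℕ} {c : E n} {r : ℝ}

theorem O_eq_cub (n : ℕ) : O n = cub 0 (1 / 2) := by
  ext x
  simp [O, cub]

theorem Q_eq_ccub (n : ℕ) (ρ : ℝ) : Q n ρ = ccub 0 ρ := by
  ext x
  simp [Q, ccub]

theorem isOpen_cub (c : E n) (r : ℝ) : IsOpen (cub c r) := by
  have h : cub c r = ⋂ i : Fin n, {x : E n | |x i - c i| < r} := by
    ext x
    simp [cub]
  rw [h]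
  exact isOpen_iInter_of_finite fun i => isOpen_lt (by fun_prop) continuous_const

theorem isClosed_ccub (c : E n) (r : ℝ) : IsClosed (ccub c r) := by
  have h : ccub c r = ⋂ i : Fin n, {x : E n | |x i - c i| ≤ r} := by
    ext x
    simp [ccub]
  rw [h]
  exact isClosed_iInter fun i => isClosed_le (by fun_prop) continuous_const

theorem cub_subset_ccub (c : E n) (r : ℝ) : cub c r ⊆ ccub c r := fun _ hx i => (hx i).le

theorem ccub_subset_cub {c : E n} {r s : ℝ} (h : r < s) : ccub c r ⊆ cub c s :=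
  fun _ hx i => (hx i).trans_lt h

theorem ccub_mono {c : E n} {r s : ℝ} (h : r ≤ s) : ccub c r ⊆ ccub c s :=
  fun _ hx i => (hx i).trans h

theorem cub_mono {c : E n} {r s : ℝ} (h : r ≤ s) : cub c r ⊆ cub c s :=
  fun _ hx i => (hx i).trans_le h

theorem mem_cub_self (hr : 0 < r) : c ∈ cub c r := fun i => by simpa using hr

theorem ccub_eq_image (c : E n) (r : ℝ) : ccub c r =
    (WithLp.toLp 2) '' (Set.univ.pi fun i : Fin n => Set.Icc (c i - r) (c i + r)) := by
  ext x
  simp only [ccub, Set.mem_ofPred_eq, Set.mem_image, Set.mem_univ_pi, Set.mem_Icc, abs_le]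
  constructor
  · intro h
    exact ⟨x.ofLp, fun i => ⟨by linarith [(h i).1], by linarith [(h i).2]⟩, rfl⟩
  · rintro ⟨y, hy, rfl⟩ i
    constructor
    · linarith [(hy i).1]
    · linarith [(hy i).2]

theorem isCompact_ccub (c : E n) (r : ℝ) : IsCompact (ccub c r) := by
  rw [ccub_eq_image]
  exact (isCompact_univ_pi fun _ => isCompact_Icc).image (PiLp.continuous_toLp 2 _)

theorem convex_cub (c : E n) (r : ℝ) : Convex ℝ (cub c r) := by
  intro x hx y hy s t hs ht hst i
  have h1 := hx i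
  have h2 := hy i
  have h3 : (s • x + t • y) i - c i = s * (x i - c i) + t * (y i - c i) := by
    simp only [PiLp.add_apply, PiLp.smul_apply, smul_eq_mul]
    linear_combination (c i) * hst
  rw [h3, abs_lt]
  rw [abs_lt] at h1 h2
  rcases hs.eq_or_lt with h0 | h0
  · rw [← h0] at hst ⊢
    have : t = 1 := by linarith
    rw [this]
    constructor <;> linarith
  · constructor <;> nlinarith

theorem convex_ccub (c : E n) (r : ℝ) : Convex ℝ (ccub c r) := by
  intro x hx y hy s t hs ht hst i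
  have h1 := hx i
  have h2 := hy i
  have h3 : (s • x + t • y) i - c i = s * (x i - c i) + t * (y i - c i) := by
    simp only [PiLp.add_apply, PiLp.smul_apply, smul_eq_mul]
    linear_combination (c i) * hst
  rw [h3, abs_le]
  rw [abs_le] at h1 h2
  constructor <;> nlinarith

theorem volume_toLp_pi (s : Fin n → Set ℝ) (hs : ∀ i, MeasurableSet (s i)) :
    volume ((WithLp.toLp 2) '' (Set.univ.pi s) : Set (E n)) = ∏ i, volume (s i) := by
  have h1 := (PiLp.volume_preserving_ofLp (Fin n)).measure_preimage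
    (MeasurableSet.univ_pi hs).nullMeasurableSet
  rw [volume_pi_pi] at h1
  rw [← h1]
  congr 1
  ext x
  constructor
  · rintro ⟨y, hy, rfl⟩
    exact hy
  · intro hx
    exact ⟨x.ofLp, hx, rfl⟩

theorem cub_eq_image (c : E n) (r : ℝ) : cub c r =
    (WithLp.toLp 2) '' (Set.univ.pi fun i : Fin n => Set.Ioo (c i - r) (c i + r)) := by
  ext x
  simp only [cub, Set.mem_ofPred_eq, Set.mem_image, Set.mem_univ_pi, Set.mem_Ioo, abs_lt]
  constructor
  · intro h
    exact ⟨x.ofLp, fun i => ⟨by linarith [(h i).1], by linarith [(h i).2]⟩, rfl⟩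
  · rintro ⟨y, hy, rfl⟩ i
    constructor
    · linarith [(hy i).1]
    · linarith [(hy i).2]

theorem volume_ccub (c : E n) (hr : 0 ≤ r) :
    volume (ccub c r) = ENNReal.ofReal ((2 * r) ^ n) := by
  rw [ccub_eq_image, volume_toLp_pi _ fun i => measurableSet_Icc]
  simp only [Real.volume_Icc]
  have h : ∀ i : Fin n, c i + r - (c i - r) = 2 * r := fun i => by ring
  simp only [h, Finset.prod_const, Finset.card_univ, Fintype.card_fin]
  rw [ENNReal.ofReal_pow (by positivity)]

theorem volume_cub (c : E n) (hr : 0 ≤ r) :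
    volume (cub c r) = ENNReal.ofReal ((2 * r) ^ n) := by
  rw [cub_eq_image, volume_toLp_pi _ fun i => measurableSet_Ioo]
  simp only [Real.volume_Ioo]
  have h : ∀ i : Fin n, c i + r - (c i - r) = 2 * r := fun i => by ring
  simp only [h, Finset.prod_const, Finset.card_univ, Fintype.card_fin]
  rw [ENNReal.ofReal_pow (by positivity)]

theorem dist_le_of_mem_ccub {x c : E n} {r : ℝ} (h : x ∈ ccub c r) (hr : 0 ≤ r) :
    dist x c ≤ n * r := by
  rw [EuclideanSpace.dist_eq]
  have h1 : ∀ i ∈ (Finset.univ : Finset (Fin n)), dist (x i) (c i) ^ 2 ≤ r ^ 2 := by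
    intro i _
    rw [Real.dist_eq]
    exact pow_le_pow_left₀ (abs_nonneg _) (h i) 2
  have h2 := Finset.sum_le_sum h1
  rw [Finset.sum_const, Finset.card_univ, Fintype.card_fin, nsmul_eq_mul] at h2
  refine Real.sqrt_le_iff.2 ⟨by positivity, h2.trans ?_⟩
  rcases Nat.eq_zero_or_pos n with h0 | h0
  · subst h0
    simp
  · have h3 : (1 : ℝ) ≤ n := by exact_mod_cast h0
    rw [mul_pow]
    exact mul_le_mul_of_nonneg_right (by nlinarith) (sq_nonneg _)

theorem abs_le_dist (x y : E n) (i : Fin n) : |x i - y i| ≤ dist x y := by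
  rw [dist_eq_norm, ← Real.norm_eq_abs, ← PiLp.sub_apply]
  exact PiLp.norm_apply_le (x - y) i

theorem ball_subset_cub (c : E n) (r : ℝ) : Metric.ball c r ⊆ cub c r :=
  fun x hx i => (abs_le_dist x c i).trans_lt hx

theorem closedBall_subset_ccub (c : E n) (r : ℝ) : Metric.closedBall c r ⊆ ccub c r :=
  fun x hx i => (abs_le_dist x c i).trans hx

theorem exists_ccub_subset {U : Set (E n)} (hU : IsOpen U) {x : E n} (hx : x ∈ U) :
    ∃ δ : ℝ, 0 < δ ∧ ccub x δ ⊆ U := by
  obtain ⟨ε, hε, h⟩ := Metric.isOpen_iff.1 hU x hx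
  refine ⟨ε / (n + 1), by positivity, fun y hy => h ?_⟩
  rw [Metric.mem_ball]
  refine (dist_le_of_mem_ccub hy (by positivity)).trans_lt ?_
  rw [mul_div_assoc', div_lt_iff₀ (by positivity)]
  nlinarith

theorem exists_ccub_of_compact {K : Set (E n)} (hK : IsCompact K) (hr : 0 < r)
    (h : K ⊆ cub c r) : ∃ s : ℝ, 0 < s ∧ s < r ∧ K ⊆ ccub c s := by
  have h1 : ∀ i : Fin n, ∃ s : ℝ, s < r ∧ ∀ x ∈ K, |x i - c i| ≤ s := by
    intro i
    rcases K.eq_empty_or_nonempty with h0 | h0
    · exact ⟨0, hr, by simp [h0]⟩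
    · obtain ⟨x0, hx0, hmax⟩ := hK.exists_isMaxOn h0
        (f := fun x : E n => |x i - c i|) (by fun_prop)
      exact ⟨_, h hx0 i, fun x hx => hmax hx⟩
  choose s hs1 hs2 using h1
  refine ⟨Finset.univ.sup' (Finset.univ_nonempty (α := Option (Fin n)))
    (fun o => o.elim (r / 2) s), ?_, ?_, ?_⟩
  · refine lt_of_lt_of_le (half_pos hr) ?_
    exact Finset.le_sup' (f := fun o : Option (Fin n) => o.elim (r / 2) s)
      (Finset.mem_univ none)
  · rw [Finset.sup'_lt_iff]
    rintro (_ | i) _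
    · exact half_lt_self hr
    · exact hs1 i
  · intro x hx i
    refine (hs2 i x hx).trans ?_
    exact Finset.le_sup' (f := fun o : Option (Fin n) => o.elim (r / 2) s)
      (Finset.mem_univ (some i))

theorem bx_eq_image (lo hi : Fin n → ℝ) : (bx lo hi : Set (E n)) =
    (WithLp.toLp 2) '' (Set.univ.pi fun i : Fin n => Set.Icc (lo i) (hi i)) := by
  ext x
  simp only [bx, Set.mem_ofPred_eq, Set.mem_image, Set.mem_univ_pi, Set.mem_Icc]
  constructor
  · intro h
    exact ⟨x.ofLp, h, rfl⟩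
  · rintro ⟨y, hy, rfl⟩ i
    exact hy i

theorem obx_eq_image (lo hi : Fin n → ℝ) : (obx lo hi : Set (E n)) =
    (WithLp.toLp 2) '' (Set.univ.pi fun i : Fin n => Set.Ioo (lo i) (hi i)) := by
  ext x
  simp only [obx, Set.mem_ofPred_eq, Set.mem_image, Set.mem_univ_pi, Set.mem_Ioo]
  constructor
  · intro h
    exact ⟨x.ofLp, h, rfl⟩
  · rintro ⟨y, hy, rfl⟩ i
    exact hy i

theorem isCompact_bx (lo hi : Fin n → ℝ) : IsCompact (bx lo hi : Set (E n)) := by
  rw [bx_eq_image]
  exact (isCompact_univ_pi fun _ => isCompact_Icc).image (PiLp.continuous_toLp 2 _)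

theorem isOpen_obx (lo hi : Fin n → ℝ) : IsOpen (obx lo hi : Set (E n)) := by
  have h : (obx lo hi : Set (E n)) =
      ⋂ i : Fin n, ({x : E n | lo i < x i} ∩ {x : E n | x i < hi i}) := by
    ext x
    simp [obx]
  rw [h]
  exact isOpen_iInter_of_finite fun i =>
    (isOpen_lt continuous_const (by fun_prop)).inter (isOpen_lt (by fun_prop) continuous_const)

theorem obx_subset_bx (lo hi : Fin n → ℝ) : (obx lo hi : Set (E n)) ⊆ bx lo hi :=
  fun _ hx i => ⟨(hx i).1.le, (hx i).2.le⟩

theorem volume_bx (lo hi : Fin n → ℝ) :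
    volume (bx lo hi : Set (E n)) = ∏ i, ENNReal.ofReal (hi i - lo i) := by
  rw [bx_eq_image, volume_toLp_pi _ fun i => measurableSet_Icc]
  simp only [Real.volume_Icc]

theorem volume_obx (lo hi : Fin n → ℝ) :
    volume (obx lo hi : Set (E n)) = ∏ i, ENNReal.ofReal (hi i - lo i) := by
  rw [obx_eq_image, volume_toLp_pi _ fun i => measurableSet_Ioo]
  simp only [Real.volume_Ioo]

theorem convex_obx (lo hi : Fin n → ℝ) : Convex ℝ (obx lo hi : Set (E n)) := by
  intro x hx y hy s t hs ht hst i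
  have h1 := hx i
  have h2 := hy i
  simp only [PiLp.add_apply, PiLp.smul_apply, smul_eq_mul]
  have e1 : s = 1 - t := by linarith
  subst e1
  rcases ht.eq_or_lt with h0 | h0
  · rw [← h0]
    constructor <;> linarith
  · constructor
    · nlinarith [mul_nonneg hs (sub_nonneg.2 h1.1.le), mul_pos h0 (sub_pos.2 h2.1)]
    · nlinarith [mul_nonneg hs (sub_nonneg.2 h1.2.le), mul_pos h0 (sub_pos.2 h2.2)]

theorem convex_bx (lo hi : Fin n → ℝ) : Convex ℝ (bx lo hi : Set (E n)) := by
  intro x hx y hy s t hs ht hst i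
  have h1 := hx i
  have h2 := hy i
  simp only [PiLp.add_apply, PiLp.smul_apply, smul_eq_mul]
  have e1 : s = 1 - t := by linarith
  subst e1
  constructor
  · nlinarith [mul_nonneg hs (sub_nonneg.2 h1.1), mul_nonneg ht (sub_nonneg.2 h2.1)]
  · nlinarith [mul_nonneg hs (sub_nonneg.2 h1.2), mul_nonneg ht (sub_nonneg.2 h2.2)]

end Cubes

end Pool.Agent.W_d1cfb0_h59
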