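import Pool.Agent.W_d1cfb0_h59.Basic

/-!
# Basic facts about the classes of homeomorphisms
-/

namespace Pool.Agent.W_d1cfb0_h59

open MeasureTheory Pool.Agent.W_MP_d1cfb0_an

section CSb

variable {n : ℕ} {g g' f : E n ≃ₜ E n} {w w' : Set (E n)}

theorem inv_eq_symm (g : E n ≃ₜ E n) : (g⁻¹ : E n ≃ₜ E n) = g.symm := rfl

theorem CS.suppIn (h : CS g w) : SuppIn g w := by
  obtain ⟨K, _, hK, hs⟩ := h
  exact hs.mono hK

theorem cS_one (w : Set (E n)) : CS (1 : E n ≃ₜ E n) w :=
  ⟨∅, isCompact_empty, Set.empty_subset _, suppIn_one _⟩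

theorem CS.inv (h : CS g w) : CS g⁻¹ w := by
  obtain ⟨K, hc, hK, hs⟩ := h
  exact ⟨K, hc, hK, hs.inv⟩

theorem CS.mul (h : CS g w) (h' : CS g' w) : CS (g * g') w := by
  obtain ⟨K, hc, hK, hs⟩ := h
  obtain ⟨K', hc', hK', hs'⟩ := h'
  exact ⟨K ∪ K', hc.union hc', Set.union_subset hK hK',
    (hs.mono Set.subset_union_left).mul (hs'.mono Set.subset_union_right)⟩

theorem CS.mono (h : CS g w) (hw : w ⊆ w') : CS g w' := by
  obtain ⟨K, hc, hK, hs⟩ := h
  exact ⟨K, hc, hK.trans hw, hs⟩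

theorem CS.conj (h : CS g w) (f : E n ≃ₜ E n) : CS (f * g * f⁻¹) (f '' w) := by
  obtain ⟨K, hc, hK, hs⟩ := h
  exact ⟨f '' K, hc.image f.continuous, Set.image_mono hK, hs.conj f⟩

theorem SuppIn.image_eq {g : E n ≃ₜ E n} {B : Set (E n)} (h : SuppIn g B) {w : Set (E n)}
    (hw : B ⊆ w) : g '' w = w := by
  have h1 := h.mono hw
  ext x
  constructor
  · rintro ⟨y, hy, rfl⟩
    exact h1.mem_of_mem hy
  · intro hx
    exact ⟨g⁻¹ x, h1.inv.mem_of_mem hx, apply_inv_self' g x⟩

theorem SuppIn.image_self {g : E n ≃ₜ E n} {B : Set (E n)} (h : SuppIn g B) : g '' B = B :=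
  SuppIn.image_eq h le_rfl

/-- The image of a set disjoint from the support. -/
theorem SuppIn.image_disj {g : E n ≃ₜ E n} {B w : Set (E n)} (h : SuppIn g B)
    (hw : Disjoint w B) : g '' w = w := by
  ext x
  constructor
  · rintro ⟨y, hy, rfl⟩
    rw [h y (Set.disjoint_left.1 hw hy)]
    exact hy
  · intro hx
    exact ⟨x, hx, h x (Set.disjoint_left.1 hw hx)⟩

end CSb

section Classes

variable {n : ℕ} {d d' f f' : E n ≃ₜ E n}

theorem mp_one : MeasurePreserving (1 : E n ≃ₜ E n) volume volume := MeasurePreserving.id _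

theorem mp_mul (h : MeasurePreserving d volume volume) (h' : MeasurePreserving d' volume volume) :
    MeasurePreserving (d * d' : E n ≃ₜ E n) volume volume := h.comp h'

theorem mp_inv (h : MeasurePreserving d volume volume) :
    MeasurePreserving (d⁻¹ : E n ≃ₜ E n) volume volume := by
  have h1 : MeasurePreserving d.toMeasurableEquiv volume volume := h
  exact h1.symm

theorem mp_volume_image (h : MeasurePreserving d volume volume) (s : Set (E n)) :
    volume (d '' s) = volume s := by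
  have h1 : MeasurePreserving d.toMeasurableEquiv volume volume := h
  have h2 := h1.measure_preimage_equiv (d '' s)
  rw [← h2]
  congr 1
  ext x
  constructor
  · rintro ⟨y, hy, hxy⟩
    have h3 : y = x := d.injective hxy
    rwa [← h3]
  · intro hx
    exact ⟨x, hx, rfl⟩

theorem sm_one : Sm (1 : E n ≃ₜ E n) where
  c := contDiff_id
  c' := contDiff_id
  mp := mp_one

theorem Sm.mul (h : Sm d) (h' : Sm d') : Sm (d * d') where
  c := h.c.comp h'.c
  c' := by
    rw [mul_inv_rev]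
    exact h'.c'.comp h.c'
  mp := mp_mul h.mp h'.mp

theorem Sm.inv (h : Sm d) : Sm d⁻¹ where
  c := h.c'
  c' := by
    rw [inv_inv]
    exact h.c
  mp := mp_inv h.mp

theorem isD_one : IsD (1 : E n ≃ₜ E n) := ⟨sm_one, cS_one _⟩

theorem IsD.mul (h : IsD d) (h' : IsD d') : IsD (d * d') := ⟨h.1.mul h'.1, h.2.mul h'.2⟩

theorem IsD.inv (h : IsD d) : IsD d⁻¹ := ⟨h.1.inv, h.2.inv⟩

theorem isM_one : IsM (1 : E n ≃ₜ E n) := ⟨mp_one, cS_one _⟩

theorem IsM.mul (h : IsM f) (h' : IsM f') : IsM (f * f') := ⟨mp_mul h.1 h'.1, h.2.mul h'.2⟩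

theorem IsM.inv (h : IsM f) : IsM f⁻¹ := ⟨mp_inv h.1, h.2.inv⟩

theorem IsD.isM (h : IsD d) : IsM d := ⟨h.1.mp, h.2⟩

theorem IsM.suppIn (h : IsM f) : SuppIn f (O n) := h.2.suppIn

theorem IsM.image_O (h : IsM f) : f '' O n = O n := SuppIn.image_eq h.suppIn le_rfl

theorem IsM.mem_O (h : IsM f) {x : E n} (hx : x ∈ O n) : f x ∈ O n := h.suppIn.mem_of_mem hx

theorem IsM.conj (h : IsM f) (h' : IsM f') : IsM (f' * f * f'⁻¹) := (h'.mul h).mul h'.inv

theorem IsM.exists_Q (h : IsM f) : ∃ ρ : ℝ, 0 < ρ ∧ ρ < 1 / 2 ∧ SuppIn f (Q n ρ) := by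
  obtain ⟨K, hK, hKO, hs⟩ := h.2
  rw [O_eq_cub] at hKO
  obtain ⟨s, hs0, hs1, hs2⟩ := exists_ccub_of_compact hK (by norm_num) hKO
  refine ⟨s, hs0, hs1, ?_⟩
  rw [Q_eq_ccub]
  exact hs.mono hs2

theorem isM_of_Q {ρ : ℝ} (hρ : ρ < 1 / 2) (h : MeasurePreserving f volume volume)
    (hs : SuppIn f (Q n ρ)) : IsM f :=
  ⟨h, Q n ρ, by rw [Q_eq_ccub]; exact isCompact_ccub _ _, Q_subset_O hρ, hs⟩

theorem cS_of_Q {ρ : ℝ} (hρ : ρ < 1 / 2) (hs : SuppIn f (Q n ρ)) : CS f (O n) :=
  ⟨Q n ρ, by rw [Q_eq_ccub]; exact isCompact_ccub _ _, Q_subset_O hρ, hs⟩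

end Classes

section Densities

variable {n : ℕ} {k : WithTop ℕ∞} {e e' : E n ≃ₜ E n} {ρ ρ' : E n → ℝ}

theorem dens_one : dens (fun _ : E n => (1 : ℝ)) = volume := by
  unfold dens
  simp

theorem measurable_ofReal_comp (h : Continuous ρ) : Measurable fun x => ENNReal.ofReal (ρ x) :=
  (ENNReal.continuous_ofReal.comp h).measurable

theorem dens_apply (ρ : E n → ℝ) {s : Set (E n)} (hs : MeasurableSet s) :
    dens ρ s = ∫⁻ x in s, ENNReal.ofReal (ρ x) := withDensity_apply _ hs

theorem map_withDensity_homeo (μ : Measure (E n)) (e : E n ≃ₜ E n) {f : E n → ENNReal}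
    (hf : Measurable f) :
    Measure.map e (μ.withDensity f) = (Measure.map e μ).withDensity fun y => f (e⁻¹ y) := by
  have hg : Measurable fun y => f (e⁻¹ y) := hf.comp (e⁻¹ : E n ≃ₜ E n).continuous.measurable
  ext s hs
  rw [Measure.map_apply e.continuous.measurable hs,
    withDensity_apply _ (e.continuous.measurable hs), withDensity_apply _ hs,
    setLIntegral_map hs hg e.continuous.measurable]
  refine lintegral_congr fun x => ?_
  rw [inv_apply_self']

/-- Push forward of a measure with density by a homeomorphism. -/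
theorem map_dens_mul (ρ : E n → ℝ) (hρ : Continuous ρ) (hρ0 : ∀ x, 0 ≤ ρ x) {ρ' : E n → ℝ}
    (hρ' : Continuous ρ') (hρ'0 : ∀ x, 0 ≤ ρ' x) (he : Measure.map e volume = dens ρ') :
    Measure.map e (dens ρ) = dens fun y => ρ (e⁻¹ y) * ρ' y := by
  have hg : Continuous fun y => ρ (e⁻¹ y) := hρ.comp (e⁻¹ : E n ≃ₜ E n).continuous
  unfold dens
  rw [map_withDensity_homeo _ _ (measurable_ofReal_comp hρ), he]
  unfold dens
  rw [← withDensity_mul _ (measurable_ofReal_comp hρ') (measurable_ofReal_comp hg)]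
  congr 1
  funext y
  rw [Pi.mul_apply, mul_comm, ENNReal.ofReal_mul (hρ0 _)]

/-- Inverting a density. -/
theorem map_eq_dens_inv (hρ : Continuous ρ) (hρ0 : ∀ x, 0 < ρ x)
    (he : Measure.map e (dens ρ) = volume) :
    Measure.map e volume = dens fun y => (ρ (e⁻¹ y))⁻¹ := by
  have hg : Continuous fun y => ρ (e⁻¹ y) := hρ.comp (e⁻¹ : E n ≃ₜ E n).continuous
  have hg' : Continuous fun y => (ρ (e⁻¹ y))⁻¹ := hg.inv₀ fun y => (hρ0 _).ne'
  have h1 : (Measure.map e volume).withDensity (fun y => ENNReal.ofReal (ρ (e⁻¹ y))) =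
      volume := by
    rw [← map_withDensity_homeo _ _ (measurable_ofReal_comp hρ)]
    exact he
  unfold dens
  nth_rewrite 2 [← h1]
  rw [← withDensity_mul _ (measurable_ofReal_comp hg) (measurable_ofReal_comp hg')]
  have h2 : ((fun y => ENNReal.ofReal (ρ (e⁻¹ y))) * fun y => ENNReal.ofReal (ρ (e⁻¹ y))⁻¹) =
      fun _ => 1 := by
    funext y
    rw [Pi.mul_apply, ← ENNReal.ofReal_mul (hρ0 _).le, mul_inv_cancel₀ (hρ0 _).ne',
      ENNReal.ofReal_one]
  rw [h2]
  exact (withDensity_one).symm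

theorem dn_one : Dn k (1 : E n ≃ₜ E n) fun _ => 1 where
  c := contDiff_id
  c' := contDiff_id
  d := contDiff_const
  pos _ := one_pos
  map := by
    rw [dens_one]
    exact Measure.map_id

theorem Dn.mul (h : Dn k e ρ) (h' : Dn k e' ρ') :
    Dn k (e' * e) fun y => ρ (e'⁻¹ y) * ρ' y where
  c := h'.c.comp h.c
  c' := by
    rw [mul_inv_rev]
    exact h.c'.comp h'.c'
  d := (h.d.comp h'.c').mul h'.d
  pos x := mul_pos (h.pos _) (h'.pos _)
  map := by
    have h1 : Measure.map (e' * e : E n ≃ₜ E n) volume =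
        Measure.map e' (Measure.map e (volume : Measure (E n))) :=
      (Measure.map_map e'.continuous.measurable e.continuous.measurable).symm
    rw [h1, h.map]
    exact map_dens_mul ρ h.d.continuous (fun x => (h.pos x).le) h'.d.continuous
      (fun x => (h'.pos x).le) h'.map

theorem Dn.inv (h : Dn k e ρ) : Dn k e⁻¹ fun x => (ρ (e x))⁻¹ where
  c := h.c'
  c' := by
    rw [inv_inv]
    exact h.c
  d := (h.d.comp h.c).inv fun x => (h.pos _).ne'
  pos x := inv_pos.2 (h.pos _)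
  map := by
    have h2 : Measure.map (e⁻¹ : E n ≃ₜ E n) (dens ρ) = volume := by
      rw [← h.map, Measure.map_map (e⁻¹ : E n ≃ₜ E n).continuous.measurable
        e.continuous.measurable]
      have h3 : ((e⁻¹ : E n ≃ₜ E n) : E n → E n) ∘ e = id := by
        funext x
        exact inv_apply_self' e x
      rw [h3, Measure.map_id]
    have h4 := map_eq_dens_inv h.d.continuous h.pos h2
    simpa only [inv_inv] using h4

theorem dn_of_mp {f : E n ≃ₜ E n} (hc : ContDiff ℝ k f)
    (hc' : ContDiff ℝ k (f⁻¹ : E n ≃ₜ E n)) (h : MeasurePreserving f volume volume) :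
    Dn k f fun _ => 1 where
  c := hc
  c' := hc'
  d := contDiff_const
  pos _ := one_pos
  map := by
    rw [dens_one]
    exact h.map_eq

theorem dn_zero_of_mp {f : E n ≃ₜ E n} (h : MeasurePreserving f volume volume) :
    Dn 0 f fun _ => 1 :=
  dn_of_mp (contDiff_zero.2 f.continuous) (contDiff_zero.2 (f⁻¹ : E n ≃ₜ E n).continuous) h

/-- The density is `1` on an open set all of whose measurable subsets have a preimage of the same
measure. -/
theorem Dn.eq_one (h : Dn k e ρ) {V : Set (E n)} (hV : IsOpen V)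
    (hp : ∀ s ⊆ V, MeasurableSet s → volume (e ⁻¹' s) = volume s) : ∀ x ∈ V, ρ x = 1 := by
  have h1 : ∀ s ⊆ V, MeasurableSet s → dens ρ s = volume s := by
    intro s hs hsm
    rw [← h.map, Measure.map_apply e.continuous.measurable hsm]
    exact hp s hs hsm
  have key : ∀ ρ₁ : E n → ℝ, Continuous ρ₁ → (∀ s ⊆ V, MeasurableSet s →
      ∫⁻ x in s, ENNReal.ofReal (ρ₁ x) = volume s) → ∀ x ∈ V, ¬ 1 < ρ₁ x := by
    intro ρ₁ hρ₁ hs x hx hlt
    obtain ⟨c, hc1, hc2⟩ := exists_between hlt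
    have hopen : IsOpen (V ∩ {y | c < ρ₁ y}) := hV.inter (isOpen_lt continuous_const hρ₁)
    obtain ⟨δ, hδ, hsub⟩ := exists_ccub_subset hopen (x := x) ⟨hx, hc2⟩
    have h2 := hs (ccub x δ) (fun y hy => (hsub hy).1) (isClosed_ccub _ _).measurableSet
    have h3 : ENNReal.ofReal c * volume (ccub x δ) ≤ ∫⁻ y in ccub x δ, ENNReal.ofReal (ρ₁ y) := by
      rw [← setLIntegral_const]
      exact setLIntegral_mono (measurable_ofReal_comp hρ₁)
        fun y hy => ENNReal.ofReal_le_ofReal (hsub hy).2.le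
    rw [h2, volume_ccub _ hδ.le] at h3
    have hpos : (0 : ℝ) < (2 * δ) ^ n := by positivity
    rw [← ENNReal.ofReal_mul (by linarith), ENNReal.ofReal_le_ofReal_iff hpos.le] at h3
    nlinarith
  have key' : ∀ ρ₁ : E n → ℝ, Continuous ρ₁ → (∀ y, 0 < ρ₁ y) → (∀ s ⊆ V, MeasurableSet s →
      ∫⁻ x in s, ENNReal.ofReal (ρ₁ x) = volume s) → ∀ x ∈ V, ¬ ρ₁ x < 1 := by
    intro ρ₁ hρ₁ hpos₁ hs x hx hlt
    obtain ⟨c, hc1, hc2⟩ := exists_between hlt
    have hc0 : 0 < c := (hpos₁ x).trans hc1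
    have hopen : IsOpen (V ∩ {y | ρ₁ y < c}) := hV.inter (isOpen_lt hρ₁ continuous_const)
    obtain ⟨δ, hδ, hsub⟩ := exists_ccub_subset hopen (x := x) ⟨hx, hc1⟩
    have h2 := hs (ccub x δ) (fun y hy => (hsub hy).1) (isClosed_ccub _ _).measurableSet
    have h3 : ∫⁻ y in ccub x δ, ENNReal.ofReal (ρ₁ y) ≤ ENNReal.ofReal c * volume (ccub x δ) := by
      rw [← setLIntegral_const]
      exact setLIntegral_mono measurable_const
        fun y hy => ENNReal.ofReal_le_ofReal (hsub hy).2.le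
    rw [h2, volume_ccub _ hδ.le] at h3
    have hpos : (0 : ℝ) < (2 * δ) ^ n := by positivity
    rw [← ENNReal.ofReal_mul hc0.le, ENNReal.ofReal_le_ofReal_iff (by positivity)] at h3
    nlinarith
  have h4 : ∀ s ⊆ V, MeasurableSet s → ∫⁻ x in s, ENNReal.ofReal (ρ x) = volume s := by
    intro s hs hsm
    rw [← dens_apply ρ hsm]
    exact h1 s hs hsm
  intro x hx
  exact le_antisymm (not_lt.1 (key ρ h.d.continuous h4 x hx))
    (not_lt.1 (key' ρ h.d.continuous h.pos h4 x hx))

/-- The density is `1` off a closed support. -/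
theorem Dn.eq_one_off (h : Dn k e ρ) {K : Set (E n)} (hK : IsClosed K) (hs : SuppIn e K) :
    ∀ x, x ∉ K → ρ x = 1 := by
  refine h.eq_one hK.isOpen_compl ?_
  intro s hsK _
  congr 1
  ext x
  constructor
  · intro hx
    have h1 : e x ∉ K := hsK hx
    have h2 := hs _ h1
    have h3 := e.injective h2
    rw [Set.mem_preimage, h3] at hx
    exact hx
  · intro hx
    have h1 : x ∉ K := hsK hx
    rw [Set.mem_preimage, hs x h1]
    exact hx

theorem Dn.sm (h : Dn 1 e fun _ => 1) : Sm e where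
  c := h.c
  c' := h.c'
  mp := ⟨e.continuous.measurable, by rw [h.map, dens_one]⟩

end Densities

section Aff

variable {n : ℕ} {c : E n} {s : ℝ} {hs : 0 < s} {t t' : E n ≃ₜ E n}

theorem aff_apply (c : E n) (s : ℝ) (hs : 0 < s) (x : E n) :
    aff c s hs x = c + (2 * s) • x := rfl

theorem aff_inv_apply (c : E n) (s : ℝ) (hs : 0 < s) (x : E n) :
    (aff c s hs)⁻¹ x = (2 * s)⁻¹ • (x - c) := by
  apply (aff c s hs).injective
  rw [apply_inv_self', aff_apply, smul_inv_smul₀ (by positivity), add_sub_cancel]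

theorem aff_mem (c : E n) (s : ℝ) (hs : 0 < s) {x : E n} {ρ : ℝ} :
    aff c s hs x ∈ ccub c (2 * s * ρ) ↔ x ∈ Q n ρ := by
  have h2 : (0 : ℝ) < 2 * s := by positivity
  have h : ∀ i, |aff c s hs x i - c i| = 2 * s * |x i| := by
    intro i
    rw [aff_apply, PiLp.add_apply, PiLp.smul_apply, smul_eq_mul, add_sub_cancel_left, abs_mul,
      abs_of_pos h2]
  constructor
  · intro hx i
    have h1 := hx i
    rw [h i] at h1
    exact le_of_mul_le_mul_left h1 h2
  · intro hx i
    rw [h i]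
    exact mul_le_mul_of_nonneg_left (hx i) h2.le

theorem aff_mem_cub (c : E n) (s : ℝ) (hs : 0 < s) {x : E n} :
    aff c s hs x ∈ cub c s ↔ x ∈ O n := by
  have h2 : (0 : ℝ) < 2 * s := by positivity
  have h : ∀ i, |aff c s hs x i - c i| = 2 * s * |x i| := by
    intro i
    rw [aff_apply, PiLp.add_apply, PiLp.smul_apply, smul_eq_mul, add_sub_cancel_left, abs_mul,
      abs_of_pos h2]
  constructor
  · intro hx i
    have h1 := hx i
    rw [h i] at h1
    by_contra hc
    rw [not_lt] at hc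
    nlinarith
  · intro hx i
    rw [h i]
    have h1 := hx i
    nlinarith

theorem aff_image_O (c : E n) (s : ℝ) (hs : 0 < s) : aff c s hs '' O n = cub c s := by
  ext x
  constructor
  · rintro ⟨y, hy, rfl⟩
    exact (aff_mem_cub c s hs).2 hy
  · intro hx
    refine ⟨(aff c s hs)⁻¹ x, ?_, apply_inv_self' _ x⟩
    rw [← aff_mem_cub c s hs, apply_inv_self']
    exact hx

theorem sc_mul : sc c s hs (t * t') = sc c s hs t * sc c s hs t' := by
  unfold sc
  group

theorem sc_one : sc c s hs (1 : E n ≃ₜ E n) = 1 := by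
  unfold sc
  group

theorem sc_inv : sc c s hs t⁻¹ = (sc c s hs t)⁻¹ := by
  unfold sc
  group

theorem sc_injective (c : E n) (s : ℝ) (hs : 0 < s) : Function.Injective (sc c s hs) := by
  intro t t' h
  unfold sc at h
  simpa using h

theorem sc_suppIn (h : SuppIn t (O n)) : SuppIn (sc c s hs t) (cub c s) := by
  have h1 := SuppIn.conj h (aff c s hs)
  rwa [aff_image_O] at h1

theorem sc_cS (h : CS t (O n)) : CS (sc c s hs t) (cub c s) := by
  have h1 := CS.conj h (aff c s hs)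
  rwa [aff_image_O] at h1

theorem contDiff_aff (c : E n) (s : ℝ) (hs : 0 < s) : ContDiff ℝ 1 (aff c s hs) := by
  have h : (aff c s hs : E n → E n) = fun x => c + (2 * s) • x := rfl
  rw [h]
  fun_prop

theorem contDiff_aff_inv (c : E n) (s : ℝ) (hs : 0 < s) :
    ContDiff ℝ 1 ((aff c s hs)⁻¹ : E n ≃ₜ E n) := by
  have h : ((aff c s hs)⁻¹ : E n ≃ₜ E n) = fun x => (2 * s)⁻¹ • (x - c) := by
    funext x
    exact aff_inv_apply c s hs x
  rw [h]
  fun_prop

theorem map_aff (c : E n) (s : ℝ) (hs : 0 < s) :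
    Measure.map (aff c s hs) (volume : Measure (E n)) =
      ENNReal.ofReal (((2 * s) ^ n)⁻¹) • volume := by
  have h : (aff c s hs : E n → E n) = (fun x => c + x) ∘ fun x => (2 * s) • x := rfl
  have h2 : (2 * s) ≠ 0 := by positivity
  rw [h, ← Measure.map_map (measurable_const_add c) (measurable_const_smul _),
    Measure.map_addHaar_smul _ h2, Measure.map_smul,
    (measurePreserving_add_left volume c).map_eq]
  congr 2
  rw [finrank_euclideanSpace, Fintype.card_fin, abs_of_pos (by positivity)]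

theorem sc_mp (h : MeasurePreserving t volume volume) :
    MeasurePreserving (sc c s hs t) volume volume := by
  have h1 := map_aff c s hs
  set κ : ENNReal := ENNReal.ofReal (((2 * s) ^ n)⁻¹) with hκ
  have hκ0 : κ ≠ 0 := by
    rw [hκ, Ne, ENNReal.ofReal_eq_zero, not_le]
    positivity
  have hκ1 : κ ≠ ⊤ := ENNReal.ofReal_ne_top
  have ma : Measurable (aff c s hs) := (aff c s hs).continuous.measurable
  have ma' : Measurable ((aff c s hs)⁻¹ : E n ≃ₜ E n) :=
    ((aff c s hs)⁻¹ : E n ≃ₜ E n).continuous.measurable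
  have h2 : Measure.map ((aff c s hs)⁻¹ : E n ≃ₜ E n) (volume : Measure (E n)) =
      κ⁻¹ • volume := by
    have h3 : (volume : Measure (E n)) = κ⁻¹ • Measure.map (aff c s hs) volume := by
      rw [h1, smul_smul, ENNReal.inv_mul_cancel hκ0 hκ1, one_smul]
    rw [h3, Measure.map_smul, Measure.map_map ma' ma]
    have h4 : ((aff c s hs)⁻¹ : E n ≃ₜ E n) ∘ (aff c s hs : E n → E n) = id := by
      funext x
      exact inv_apply_self' _ x
    rw [h4, Measure.map_id, ← h3]
  refine ⟨(sc c s hs t).continuous.measurable, ?_⟩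
  have h5 : (sc c s hs t : E n → E n) = (aff c s hs) ∘ t ∘ ((aff c s hs)⁻¹ : E n ≃ₜ E n) := rfl
  rw [h5, ← Measure.map_map ma (h.measurable.comp ma'), ← Measure.map_map h.measurable ma', h2,
    Measure.map_smul, Measure.map_smul, h.map_eq, h1, smul_smul,
    ENNReal.inv_mul_cancel hκ0 hκ1, one_smul]

theorem sc_sm (h : Sm t) : Sm (sc c s hs t) where
  c := (contDiff_aff c s hs).comp (h.c.comp (contDiff_aff_inv c s hs))
  c' := by
    rw [← sc_inv]
    exact (contDiff_aff c s hs).comp (h.c'.comp (contDiff_aff_inv c s hs))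
  mp := sc_mp h.mp

/-- Every diffeomorphism living in the cube is a scaled one. -/
theorem exists_sc (c : E n) (s : ℝ) (hs : 0 < s) {z : E n ≃ₜ E n} (h : Sm z)
    (hz : CS z (cub c s)) : ∃ t : E n ≃ₜ E n, IsD t ∧ sc c s hs t = z := by
  have h2 : (0 : ℝ) < 2 * s := by positivity
  set t : E n ≃ₜ E n := (aff c s hs)⁻¹ * z * aff c s hs with ht
  have h3 : sc c s hs t = z := by
    unfold sc
    rw [ht]
    group
  refine ⟨t, ⟨⟨?_, ?_, ?_⟩, ?_⟩, h3⟩
  · exact (contDiff_aff_inv c s hs).comp (h.c.comp (contDiff_aff c s hs))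
  · have h4 : t⁻¹ = (aff c s hs)⁻¹ * z⁻¹ * aff c s hs := by
      rw [ht]
      group
    rw [h4]
    exact (contDiff_aff_inv c s hs).comp (h.c'.comp (contDiff_aff c s hs))
  · have h5 := map_aff c s hs
    set κ : ENNReal := ENNReal.ofReal (((2 * s) ^ n)⁻¹) with hκ
    have hκ0 : κ ≠ 0 := by
      rw [hκ, Ne, ENNReal.ofReal_eq_zero, not_le]
      positivity
    have hκ1 : κ ≠ ⊤ := ENNReal.ofReal_ne_top
    have ma : Measurable (aff c s hs) := (aff c s hs).continuous.measurable
    have ma' : Measurable ((aff c s hs)⁻¹ : E n ≃ₜ E n) :=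
      ((aff c s hs)⁻¹ : E n ≃ₜ E n).continuous.measurable
    have h6 : Measure.map ((aff c s hs)⁻¹ : E n ≃ₜ E n) (volume : Measure (E n)) =
        κ⁻¹ • volume := by
      have h3 : (volume : Measure (E n)) = κ⁻¹ • Measure.map (aff c s hs) volume := by
        rw [h5, smul_smul, ENNReal.inv_mul_cancel hκ0 hκ1, one_smul]
      rw [h3, Measure.map_smul, Measure.map_map ma' ma]
      have h4 : ((aff c s hs)⁻¹ : E n ≃ₜ E n) ∘ (aff c s hs : E n → E n) = id := by
        funext x
        exact inv_apply_self' _ x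
      rw [h4, Measure.map_id, ← h3]
    refine ⟨t.continuous.measurable, ?_⟩
    have h7 : (t : E n → E n) = ((aff c s hs)⁻¹ : E n ≃ₜ E n) ∘ z ∘ (aff c s hs) := rfl
    rw [h7, ← Measure.map_map ma' (h.mp.measurable.comp ma),
      ← Measure.map_map h.mp.measurable ma, h5, Measure.map_smul, Measure.map_smul, h.mp.map_eq,
      h6, smul_smul, ENNReal.mul_inv_cancel hκ0 hκ1, one_smul]
  · have h8 := hz.conj (aff c s hs)⁻¹
    have h9 : ((aff c s hs)⁻¹ : E n ≃ₜ E n) '' cub c s = O n := by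
      rw [← aff_image_O c s hs, ← Set.image_comp]
      have h4 : ((aff c s hs)⁻¹ : E n ≃ₜ E n) ∘ (aff c s hs : E n → E n) = id := by
        funext x
        exact inv_apply_self' _ x
      rw [h4, Set.image_id]
    rw [h9, inv_inv] at h8
    exact h8

/-- Scaled versions of `IsD` are in `IsD` when the closed cube lies in `O n`. -/
theorem sc_isD (h : IsD t) (hc : cub c s ⊆ O n) : IsD (sc c s hs t) :=
  ⟨sc_sm h.1, (sc_cS h.2).mono hc⟩

end Aff

end Pool.Agent.W_d1cfb0_h59
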