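import Pool.Agent.W_d1cfb0_h59.DecBasic
import Pool.Agent.W_d1cfb0_h59.Antideriv

/-!
# Decomposition in a cube

There is a fixed bump `p` supported in the cube such that every `C^k` function `g` with compact
support in the cube is a sum of pieces plus a multiple of `p`.

Proof. Let `φ : ℝ → ℝ` be smooth, `φ ≥ 0`, supported in `[-r/2, r/2]`, `∫ φ = 1`
(`ContDiffBump.normed` in dimension one), `φ_l t = φ (t - c l)`, and `p x = ∏ l, φ_l (x l)`.
Let `g` be given; by `exists_ccub_of_compact` there is `s` with `r / 2 ≤ s < r` (enlarge `s`) such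
that `g = 0` off `ccub c s`; also `p = 0` off `ccub c s`.
Averages: for `u : E n → ℝ` of class `C^k`, zero off `ccub c s`, put
`(P_i u) x = φ_i (x i) * ∫ t, u (upd x i t)`, where the integral may be taken over the interval
`[c i - s, c i + s]`. `P_i u` is `C^k` and zero off `ccub c s`, and the function
`h x = ∫ t in (c i - s)..(x i), (u - P_i u) (upd x i t)`
satisfies `HasPart i h (u - P_i u)`, is `C^k`, and is zero off `ccub c s`: if `|x l - c l| > s` for
some `l ≠ i` the integrand is zero; if `x i ≤ c i - s` the integrand is zero on the range of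
integration; if `x i ≥ c i + s` then `h x` is the full integral of `(u - P_i u)` over the line,
which is `∫ u - (∫ φ_i) ∫ u = 0`. (For the regularity of `h` use `exists_antideriv` for
`u - P_i u`: `h x = A x - A (upd x i (c i - s))`, and `P_i u x = φ_i (x i) *
(A' (upd x i (c i + s)) - A' (upd x i (c i - s)))` with `A'` an antiderivative of `u`.) So
`u - P_i u` is a piece in `cub c r`.
Iterate over `i = 0, 1, …, n-1` (finite induction): let `u_0 = g`, `u_{i+1} = P_i u_i`. Claim:
`u_m x = (∏ l < m, φ_l (x l)) * G_m x` with `G_m` not depending on the coordinates `l < m`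
(`G_m (upd x l t) = G_m x`): indeed `P_m u_m x = φ_m (x m) * ∫ t, (∏ l < m, φ_l (x l)) *
G_m (upd x m t)`, so `G_{m+1} x = ∫ t, G_m (upd x m t)` (over the interval) which does not depend
on the coordinates `l ≤ m`. (`upd` in different coordinates commute.) Hence `u_n = γ • p` where
`γ` is the constant value of `G_n`, and `g - γ • p = ∑ (u_i - u_{i+1})` is in `Dec`.
-/

namespace Pool.Agent.W_d1cfb0_h59

open MeasureTheory Pool.Agent.W_MP_d1cfb0_an

section

variable {n : ℕ}

theorem boxdec_cont (i : Fin n) (x : E n) : Continuous fun t : ℝ => upd x i t :=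
  (continuous_upd i).comp (by fun_prop : Continuous fun t : ℝ => (x, t))

theorem boxdec_contDiff_const {k : WithTop ℕ∞} (i : Fin n) (s : ℝ) :
    ContDiff ℝ k fun x : E n => upd x i s :=
  (contDiff_upd i).comp (contDiff_id.prodMk contDiff_const)

theorem boxdec_ftc {A a : E n → ℝ} {i : Fin n} (hA : HasPart i A a) (ha : Continuous a)
    (x : E n) (p q : ℝ) : ∫ t in p..q, a (upd x i t) = A (upd x i q) - A (upd x i p) := by
  apply intervalIntegral.integral_eq_sub_of_hasDerivAt
  · intro t _
    exact hA.line x t
  · exact (ha.comp (boxdec_cont i x)).intervalIntegrable _ _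

theorem boxdec_upd_comm (x : E n) {i l : Fin n} (h : i ≠ l) (s t : ℝ) :
    upd (upd x i s) l t = upd (upd x l t) i s := by
  ext j
  by_cases h1 : j = l
  · subst h1
    rw [upd_same, upd_ne _ (Ne.symm h), upd_same]
  · rw [upd_ne _ h1]
    by_cases h2 : j = i
    · subst h2
      rw [upd_same, upd_same]
    · rw [upd_ne _ h2, upd_ne _ h2, upd_ne _ h1]

theorem boxdec_off {c x : E n} {s : ℝ} (h : x ∉ ccub c s) : ∃ l, s < |x l - c l| := by
  by_contra hcon
  push Not at hcon
  exact h hcon

theorem boxdec_not {c x : E n} {s : ℝ} {l : Fin n} (h : s < |x l - c l|) : x ∉ ccub c s :=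
  fun hx => absurd (hx l) (not_le.2 h)

/-- one averaging step -/
theorem boxdec_step {k : WithTop ℕ∞} (hk : k = 0 ∨ k = 1) (c : E n) {r s : ℝ}
    (hrs : r / 2 ≤ s) (hsr : s < r) (φ : ℝ → ℝ) (hφ : ContDiff ℝ k φ)
    (hφ0 : ∀ t, r / 2 ≤ |t| → φ t = 0) (hφ1 : ∀ b : ℝ, ∫ t in (b - r)..(b + r), φ (t - b) = 1)
    (u : E n → ℝ) (hu : ContDiff ℝ k u) (hz : ∀ x, x ∉ ccub c s → u x = 0) (i : Fin n) :
    ContDiff ℝ k (fun x : E n => φ (x i - c i) *
      ∫ t in (c i - r)..(c i + r), u (upd x i t)) ∧
    (∀ x, x ∉ ccub c s → φ (x i - c i) * (∫ t in (c i - r)..(c i + r), u (upd x i t)) = 0) ∧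
    Piece k (cub c r) (u - fun x : E n => φ (x i - c i) *
      ∫ t in (c i - r)..(c i + r), u (upd x i t)) := by
  obtain ⟨A, hA, hAu⟩ := exists_antideriv i hk hu
  have hI : ∀ x : E n, ∫ t in (c i - r)..(c i + r), u (upd x i t) =
      A (upd x i (c i + r)) - A (upd x i (c i - r)) := fun x => boxdec_ftc hAu hu.continuous x _ _
  have h1 : ContDiff ℝ k (fun x : E n => φ (x i - c i) *
      ∫ t in (c i - r)..(c i + r), u (upd x i t)) := by
    simp only [hI]
    refine ContDiff.mul ?_ ?_
    · exact hφ.comp (by fun_prop)
    · exact (hA.comp (boxdec_contDiff_const i _)).sub (hA.comp (boxdec_contDiff_const i _))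
  have h2 : ∀ x, x ∉ ccub c s →
      φ (x i - c i) * (∫ t in (c i - r)..(c i + r), u (upd x i t)) = 0 := by
    intro x hx
    obtain ⟨l, hl⟩ := boxdec_off hx
    by_cases hli : l = i
    · rw [hφ0 _ (by rw [← hli]; linarith), zero_mul]
    · have h3 : ∀ t, u (upd x i t) = 0 := by
        intro t
        apply hz
        apply boxdec_not (l := l)
        rw [upd_ne _ hli]
        exact hl
      simp only [h3, intervalIntegral.integral_zero, mul_zero]
  refine ⟨h1, h2, ?_⟩
  obtain ⟨w, hw⟩ : ∃ w : E n → ℝ, w = u - fun x : E n => φ (x i - c i) *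
      ∫ t in (c i - r)..(c i + r), u (upd x i t) := ⟨_, rfl⟩
  have hwC : ContDiff ℝ k w := by
    rw [hw]
    exact hu.sub h1
  have hw0 : ∀ x, x ∉ ccub c s → w x = 0 := by
    intro x hx
    rw [hw]
    show u x - φ (x i - c i) * (∫ t in (c i - r)..(c i + r), u (upd x i t)) = 0
    rw [hz x hx, h2 x hx, sub_zero]
  rw [← hw]
  obtain ⟨B, hB, hBw⟩ := exists_antideriv i hk hwC
  have hoff : ∀ x, x ∉ ccub c s → B x - B (upd x i (c i - r)) = 0 := by
    intro x hx
    have e1 : B x - B (upd x i (c i - r)) = ∫ t in (c i - r)..(x i), w (upd x i t) := by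
      rw [boxdec_ftc hBw hwC.continuous x, upd_self]
    rw [e1]
    obtain ⟨l, hl⟩ := boxdec_off hx
    by_cases hli : l = i
    · subst hli
      rcases lt_or_ge (x l) (c l) with hlt | hge
      · have hxl : x l < c l - s := by
          rw [abs_of_neg (by linarith)] at hl
          linarith
        rw [intervalIntegral.integral_congr (g := fun _ => (0 : ℝ)), intervalIntegral.integral_zero]
        intro t ht
        apply hw0
        apply boxdec_not (l := l)
        rw [upd_same]
        have h3 : t ≤ max (c l - r) (x l) := (Set.mem_uIcc.1 ht).elim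
          (fun h => h.2.trans (le_max_right _ _)) (fun h => h.2.trans (le_max_left _ _))
        have h4 : t < c l - s := h3.trans_lt (max_lt (by linarith) hxl)
        rw [lt_abs]
        right
        linarith
      · have hxl : c l + s < x l := by
          rw [abs_of_nonneg (by linarith)] at hl
          linarith
        have e2 : (∫ t in (c l - r)..(x l), w (upd x l t)) =
            (∫ t in (c l - r)..(c l + r), w (upd x l t)) +
              ∫ t in (c l + r)..(x l), w (upd x l t) := by
          rw [intervalIntegral.integral_add_adjacent_intervals]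
          · exact (hwC.continuous.comp (boxdec_cont l x)).intervalIntegrable _ _
          · exact (hwC.continuous.comp (boxdec_cont l x)).intervalIntegrable _ _
        have e3 : (∫ t in (c l + r)..(x l), w (upd x l t)) = 0 := by
          rw [intervalIntegral.integral_congr (g := fun _ => (0 : ℝ)),
            intervalIntegral.integral_zero]
          intro t ht
          apply hw0
          apply boxdec_not (l := l)
          rw [upd_same]
          have h3 : min (c l + r) (x l) ≤ t := (Set.mem_uIcc.1 ht).elim
            (fun h => (min_le_left _ _).trans h.1) (fun h => (min_le_right _ _).trans h.1)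
          have h4 : c l + s < t := (lt_min (by linarith) hxl).trans_le h3
          rw [lt_abs]
          left
          linarith
        have e4 : (∫ t in (c l - r)..(c l + r), w (upd x l t)) = 0 := by
          have e5 : ∀ t, w (upd x l t) = u (upd x l t) - φ (t - c l) *
              ∫ t' in (c l - r)..(c l + r), u (upd x l t') := by
            intro t
            rw [hw]
            show u (upd x l t) - _ = _
            simp only [upd_same, upd_upd]
          simp only [e5]
          rw [intervalIntegral.integral_sub, intervalIntegral.integral_mul_const, hφ1, one_mul,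
            sub_self]
          · exact (hu.continuous.comp (boxdec_cont l x)).intervalIntegrable _ _
          · refine Continuous.intervalIntegrable ?_ _ _
            exact (hφ.continuous.comp (by fun_prop)).mul continuous_const
        rw [e2, e3, e4, add_zero]
    · rw [intervalIntegral.integral_congr (g := fun _ => (0 : ℝ)), intervalIntegral.integral_zero]
      intro t _
      apply hw0
      apply boxdec_not (l := l)
      rw [upd_ne _ hli]
      exact hl
  have hts : tsupport (fun x : E n => B x - B (upd x i (c i - r))) ⊆ ccub c s := by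
    refine closure_minimal ?_ (isClosed_ccub c s)
    intro x hx
    by_contra hcon
    exact hx (hoff x hcon)
  refine ⟨i, fun x => B x - B (upd x i (c i - r)), ?_, hwC, ?_, ?_, ?_⟩
  · exact hB.sub (hB.comp (boxdec_contDiff_const i _))
  · intro x
    simp only [upd_upd]
    exact (hBw x).sub_const _
  · exact (isCompact_ccub c s).of_isClosed_subset (isClosed_tsupport _) hts
  · exact hts.trans (ccub_subset_cub hsr)

/-- a function which does not depend on any coordinate is constant -/
theorem boxdec_const (G : E n → ℝ) (hG : ∀ (l : Fin n) (x : E n) (t : ℝ), G (upd x l t) = G x)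
    (x y : E n) : G x = G y := by
  classical
  have key : ∀ T : Finset (Fin n),
      G (WithLp.toLp 2 fun l => if l ∈ T then y l else x l) = G x := by
    intro T
    induction T using Finset.induction_on with
    | empty =>
      congr 1
    | insert i T hi ih =>
      rw [← ih, ← hG i (WithLp.toLp 2 fun l => if l ∈ T then y l else x l) (y i)]
      congr 1
      ext j
      by_cases hj : j = i
      · subst hj
        rw [upd_same]
        simp
      · rw [upd_ne _ hj]
        simp [hj]
  rw [← key Finset.univ]
  congr 1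
  ext j
  simp

theorem boxdec_bump {r : ℝ} (hr : 0 < r) (k : WithTop ℕ∞) (hk : k = 0 ∨ k = 1) :
    ∃ φ : ℝ → ℝ, ContDiff ℝ k φ ∧ (∀ t, r / 2 ≤ |t| → φ t = 0) ∧
      ∀ b : ℝ, ∫ t in (b - r)..(b + r), φ (t - b) = 1 := by
  obtain ⟨f, hf⟩ : ∃ f : ContDiffBump (0 : ℝ), f.rOut = r / 2 :=
    ⟨⟨r / 4, r / 2, by linarith, by linarith⟩, rfl⟩
  have hsupp : Function.support (f.normed volume) = Metric.ball 0 (r / 2) := by
    rw [f.support_normed_eq, hf]
  refine ⟨f.normed volume, ?_, ?_, ?_⟩
  · have h1 : ContDiff ℝ ((1 : ℕ∞) : WithTop ℕ∞) (f.normed volume) := f.contDiff_normed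
    rcases hk with rfl | rfl
    · exact h1.of_le (by simp)
    · exact h1
  · intro t ht
    by_contra hcon
    have h1 : t ∈ Function.support (f.normed volume) := hcon
    rw [hsupp, Metric.mem_ball, Real.dist_eq, sub_zero] at h1
    linarith
  · intro b
    rw [intervalIntegral.integral_comp_sub_right (fun t => f.normed volume t) b]
    rw [intervalIntegral.integral_eq_integral_of_support_subset, f.integral_normed]
    rw [hsupp]
    intro t ht
    rw [Metric.mem_ball, Real.dist_eq, sub_zero, abs_lt] at ht
    constructor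
    · linarith [ht.1]
    · linarith [ht.2]

end

theorem box_dec {n : ℕ} {k : WithTop ℕ∞} (hk : k = 0 ∨ k = 1) (c : E n) {r : ℝ} (hr : 0 < r) :
    ∃ p : E n → ℝ, ContDiff ℝ k p ∧ HasCompactSupport p ∧ tsupport p ⊆ cub c r ∧
      ∀ g : E n → ℝ, ContDiff ℝ k g → HasCompactSupport g → tsupport g ⊆ cub c r →
        ∃ γ : ℝ, Dec k (cub c r) (g - γ • p) := by
  classical
  obtain ⟨φ, hφ, hφ0, hφ1⟩ := boxdec_bump hr k hk
  have hpC : ∀ S : Finset (Fin n), ContDiff ℝ k fun x : E n => ∏ l ∈ S, φ (x l - c l) := by
    intro S
    exact contDiff_prod fun l _ => hφ.comp (by fun_prop)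
  have hp0 : ∀ x, x ∉ ccub c (r / 2) → ∏ l, φ (x l - c l) = 0 := by
    intro x hx
    obtain ⟨l, hl⟩ := boxdec_off hx
    exact Finset.prod_eq_zero (Finset.mem_univ l) (hφ0 _ hl.le)
  have hpt : tsupport (fun x : E n => ∏ l, φ (x l - c l)) ⊆ ccub c (r / 2) := by
    refine closure_minimal ?_ (isClosed_ccub c _)
    intro x hx
    by_contra hcon
    exact hx (hp0 x hcon)
  refine ⟨fun x => ∏ l, φ (x l - c l), hpC _,
    (isCompact_ccub c _).of_isClosed_subset (isClosed_tsupport _) hpt,
    hpt.trans (ccub_subset_cub (half_lt_self hr)), ?_⟩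
  intro g hg hgc hgt
  obtain ⟨s0, hs0, hs0r, hs0g⟩ := exists_ccub_of_compact hgc hr hgt
  obtain ⟨s, hs⟩ : ∃ s, s = max s0 (r / 2) := ⟨_, rfl⟩
  have hsr : s < r := by
    rw [hs]
    exact max_lt hs0r (half_lt_self hr)
  have hrs : r / 2 ≤ s := by
    rw [hs]
    exact le_max_right _ _
  have hgz : ∀ x, x ∉ ccub c s → g x = 0 := by
    intro x hx
    apply image_eq_zero_of_notMem_tsupport
    intro hxt
    exact hx (ccub_mono (by rw [hs]; exact le_max_left _ _) (hs0g hxt))
  have key : ∀ S : Finset (Fin n), ∃ G : E n → ℝ,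
      (∀ l ∈ S, ∀ (x : E n) (t : ℝ), G (upd x l t) = G x) ∧
      ContDiff ℝ k (fun x : E n => (∏ l ∈ S, φ (x l - c l)) * G x) ∧
      (∀ x, x ∉ ccub c s → (∏ l ∈ S, φ (x l - c l)) * G x = 0) ∧
      Dec k (cub c r) (g - fun x : E n => (∏ l ∈ S, φ (x l - c l)) * G x) := by
    intro S
    induction S using Finset.induction_on with
    | empty =>
      refine ⟨g, by simp, by simpa using hg, by simpa using hgz, ?_⟩
      simpa using dec_zero k (cub c r)
    | insert i S hi ih =>
      obtain ⟨G, hG, hC, hz, hD⟩ := ih
      obtain ⟨a1, a2, a3⟩ := boxdec_step hk c hrs hsr φ hφ hφ0 hφ1 _ hC hz i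
      have e1 : ∀ x : E n, φ (x i - c i) * (∫ t in (c i - r)..(c i + r),
          (∏ l ∈ S, φ (upd x i t l - c l)) * G (upd x i t)) =
          (∏ l ∈ insert i S, φ (x l - c l)) *
            ∫ t in (c i - r)..(c i + r), G (upd x i t) := by
        intro x
        have e2 : ∀ t : ℝ, (∏ l ∈ S, φ (upd x i t l - c l)) = ∏ l ∈ S, φ (x l - c l) := by
          intro t
          refine Finset.prod_congr rfl fun l hl => ?_
          have hli : l ≠ i := by
            rintro rfl
            exact hi hl
          rw [upd_ne _ hli]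
        simp only [e2]
        rw [intervalIntegral.integral_const_mul, Finset.prod_insert hi]
        ring
      simp only [e1] at a1 a2 a3
      refine ⟨fun x => ∫ t in (c i - r)..(c i + r), G (upd x i t), ?_, a1, a2, ?_⟩
      · intro l hl x t
        rw [Finset.mem_insert] at hl
        by_cases hli : l = i
        · subst hli
          simp only [upd_upd]
        · have hlS := hl.resolve_left hli
          have e3 : ∀ t', G (upd (upd x l t) i t') = G (upd x i t') := by
            intro t'
            rw [boxdec_upd_comm x hli, hG l hlS]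
          simp only [e3]
      · have e4 := hD.add a3.dec
        rw [sub_add_sub_cancel] at e4
        exact e4
  obtain ⟨G, hG, -, -, hD⟩ := key Finset.univ
  refine ⟨G c, ?_⟩
  have e5 : (fun x : E n => (∏ l, φ (x l - c l)) * G x) =
      G c • fun x : E n => ∏ l, φ (x l - c l) := by
    funext x
    rw [boxdec_const G (fun l => hG l (Finset.mem_univ l)) x c]
    show _ = G c * _
    ring
  rw [← e5]
  exact hD

end Pool.Agent.W_d1cfb0_h59
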