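import Pool.Agent.W_d1cfb0_h59.Basic2

/-!
# Cut-off functions not depending on one coordinate

Proof. One-dimensional: for `p' < p ≤ q < q'` there is a smooth `φ : ℝ → [0, 1]` with `φ = 1` on
`[p, q]` and `φ = 0` off `(p', q')` (for instance
`Real.smoothTransition ((t - p')/(p - p')) * Real.smoothTransition ((q' - t)/(q' - q))`). Take
`χ x = ∏ j ∈ univ.erase i, φ_j (x j)`.
-/

namespace Pool.Agent.W_d1cfb0_h59

open MeasureTheory Pool.Agent.W_MP_d1cfb0_an

/-- the one-dimensional cut-off function -/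
noncomputable def cutoff_one (p' p q q' t : ℝ) : ℝ :=
  Real.smoothTransition ((t - p') / (p - p')) * Real.smoothTransition ((q' - t) / (q' - q))

theorem cutoff_one_contDiff (p' p q q' : ℝ) : ContDiff ℝ 1 (cutoff_one p' p q q') := by
  unfold cutoff_one
  refine ContDiff.mul ?_ ?_
  · refine Real.smoothTransition.contDiff.comp ?_
    fun_prop
  · refine Real.smoothTransition.contDiff.comp ?_
    fun_prop

theorem cutoff_one_nonneg (p' p q q' t : ℝ) : 0 ≤ cutoff_one p' p q q' t :=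
  mul_nonneg (Real.smoothTransition.nonneg _) (Real.smoothTransition.nonneg _)

theorem cutoff_one_le (p' p q q' t : ℝ) : cutoff_one p' p q q' t ≤ 1 :=
  mul_le_one₀ (Real.smoothTransition.le_one _) (Real.smoothTransition.nonneg _)
    (Real.smoothTransition.le_one _)

theorem cutoff_one_eq_one {p' p q q' t : ℝ} (h1 : p' < p) (h3 : q < q') (ht : p ≤ t ∧ t ≤ q) :
    cutoff_one p' p q q' t = 1 := by
  unfold cutoff_one
  rw [Real.smoothTransition.one_of_one_le, Real.smoothTransition.one_of_one_le, mul_one]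
  · rw [le_div_iff₀ (by linarith)]
    linarith [ht.2]
  · rw [le_div_iff₀ (by linarith)]
    linarith [ht.1]

theorem cutoff_one_eq_zero {p' p q q' t : ℝ} (h1 : p' < p) (h3 : q < q') (ht : t ≤ p' ∨ q' ≤ t) :
    cutoff_one p' p q q' t = 0 := by
  unfold cutoff_one
  rcases ht with ht | ht
  · rw [Real.smoothTransition.zero_of_nonpos, zero_mul]
    exact div_nonpos_of_nonpos_of_nonneg (by linarith) (by linarith)
  · rw [Real.smoothTransition.zero_of_nonpos (x := (q' - t) / (q' - q)), mul_zero]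
    exact div_nonpos_of_nonpos_of_nonneg (by linarith) (by linarith)

theorem exists_cutoff {n : ℕ} (i : Fin n) {p' p q q' : Fin n → ℝ} (h1 : ∀ j, j ≠ i → p' j < p j)
    (h2 : ∀ j, j ≠ i → p j ≤ q j) (h3 : ∀ j, j ≠ i → q j < q' j) :
    ∃ χ : E n → ℝ, ContDiff ℝ 1 χ ∧ (∀ x, 0 ≤ χ x) ∧ (∀ x, χ x ≤ 1) ∧
      (∀ x t, χ (upd x i t) = χ x) ∧ (∀ x, (∀ j, j ≠ i → p j ≤ x j ∧ x j ≤ q j) → χ x = 1) ∧
      ∀ x, (∃ j, j ≠ i ∧ (x j ≤ p' j ∨ q' j ≤ x j)) → χ x = 0 := by
  refine ⟨fun x => ∏ j ∈ Finset.univ.erase i, cutoff_one (p' j) (p j) (q j) (q' j) (x j),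
    ?_, ?_, ?_, ?_, ?_, ?_⟩
  · refine contDiff_prod fun j _ => ?_
    refine (cutoff_one_contDiff _ _ _ _).comp ?_
    fun_prop
  · exact fun x => Finset.prod_nonneg fun j _ => cutoff_one_nonneg _ _ _ _ _
  · exact fun x => Finset.prod_le_one (fun j _ => cutoff_one_nonneg _ _ _ _ _)
      fun j _ => cutoff_one_le _ _ _ _ _
  · intro x t
    refine Finset.prod_congr rfl fun j hj => ?_
    rw [upd_ne _ (Finset.ne_of_mem_erase hj)]
  · intro x hx
    refine Finset.prod_eq_one fun j hj => ?_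
    have hj' := Finset.ne_of_mem_erase hj
    exact cutoff_one_eq_one (h1 j hj') (h3 j hj') (hx j hj')
  · rintro x ⟨j, hj, hx⟩
    refine Finset.prod_eq_zero (Finset.mem_erase.2 ⟨hj, Finset.mem_univ j⟩) ?_
    exact cutoff_one_eq_zero (h1 j hj) (h3 j hj) hx

end Pool.Agent.W_d1cfb0_h59
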