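import Pool.Agent.W_d1cfb0_h59.Basic2

/-!
# One-dimensional diffeomorphisms moving a point

Proof. Say that `f : ℝ → ℝ` is good if it is `C^2`, `f' > 0`, and `f t = t` for `t ∉ [l, m]`.
Good functions are closed under composition (`(f ∘ g)' = f' (g t) g' t > 0`; if `t ∉ [l, m]` then
`g t = t`). For `x, y ∈ (l, m)` let `P x y` mean that some good `f` has `f x = y`. Use
`IsPreconnected.induction₂'` on the preconnected set `Ioo l m`: `P` is transitive (composition), and
for `x ∈ (l, m)` and `y` near `x` both `P x y` and `P y x` hold: let `φ` be a smooth bump with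
support in `(l, m)`, `φ = 1` on a neighbourhood of `x`, `|φ'| ≤ C` (compact support); for
`|κ| C < 1` the function `f t = t + κ φ t` is good, and takes `x` to `x + κ`, and `y` to `y + κ` for
`y` near `x`. With `κ = y - x` resp. `κ = x - y` this gives both for `y` near `x`.
-/

namespace Pool.Agent.W_d1cfb0_h59

open MeasureTheory Pool.Agent.W_MP_d1cfb0_an

/-- good functions -/
def LamGood (l m : ℝ) (f : ℝ → ℝ) : Prop :=
  ContDiff ℝ 2 f ∧ (∀ t, 0 < deriv f t) ∧ ∀ t, t ∉ Set.Icc l m → f t = t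

theorem lam_comp {l m : ℝ} {f g : ℝ → ℝ} (hf : LamGood l m f) (hg : LamGood l m g) :
    LamGood l m (f ∘ g) := by
  refine ⟨hf.1.comp hg.1, fun t => ?_, fun t ht => ?_⟩
  · have h1 : DifferentiableAt ℝ f (g t) := (hf.1.differentiable (by norm_num)).differentiableAt
    have h2 : DifferentiableAt ℝ g t := (hg.1.differentiable (by norm_num)).differentiableAt
    rw [deriv_comp t h1 h2]
    exact mul_pos (hf.2.1 _) (hg.2.1 _)
  · rw [Function.comp_apply, hg.2.2 t ht, hf.2.2 t ht]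

/-- small translations near a point -/
theorem lam_local {l m x : ℝ} (h1 : l < x) (h2 : x < m) :
    ∃ r δ : ℝ, 0 < r ∧ 0 < δ ∧ ∀ κ : ℝ, |κ| < δ → ∃ f : ℝ → ℝ, LamGood l m f ∧
      ∀ y, |y - x| < r → f y = y + κ := by
  obtain ⟨ρ, hρ⟩ : ∃ ρ, ρ = min (x - l) (m - x) / 2 := ⟨_, rfl⟩
  have hρ0 : 0 < ρ := by
    rw [hρ]
    exact half_pos (lt_min (sub_pos.2 h1) (sub_pos.2 h2))
  have hρ1 : ρ < x - l := by
    have := min_le_left (x - l) (m - x)
    have h3 : 0 < x - l := sub_pos.2 h1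
    rw [hρ]
    linarith
  have hρ2 : ρ < m - x := by
    have := min_le_right (x - l) (m - x)
    have h3 : 0 < m - x := sub_pos.2 h2
    rw [hρ]
    linarith
  let φ : ContDiffBump x := ⟨ρ / 2, ρ, half_pos hρ0, half_lt_self hρ0⟩
  have hφ : ContDiff ℝ 2 (φ : ℝ → ℝ) := φ.contDiff
  have hd : Differentiable ℝ (φ : ℝ → ℝ) := hφ.differentiable (by norm_num)
  have hcs : HasCompactSupport (deriv (φ : ℝ → ℝ)) := φ.hasCompactSupport.deriv
  have hcont : Continuous (deriv (φ : ℝ → ℝ)) := hφ.continuous_deriv (by norm_num)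
  obtain ⟨C, hC⟩ := hcont.bounded_above_of_compact_support hcs
  have hC0 : 0 ≤ C := (norm_nonneg _).trans (hC 0)
  refine ⟨ρ / 2, 1 / (C + 1), half_pos hρ0, by positivity, fun κ hκ => ?_⟩
  refine ⟨fun t => t + κ * φ t, ⟨contDiff_id.add (contDiff_const.mul hφ), fun t => ?_,
    fun t ht => ?_⟩, fun y hy => ?_⟩
  · have h3 : HasDerivAt (fun t => t + κ * φ t) (1 + κ * deriv φ t) t :=
      (hasDerivAt_id t).add ((hd t).hasDerivAt.const_mul κ)
    rw [h3.deriv]
    have h4 : |κ * deriv φ t| < 1 := by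
      rw [abs_mul]
      have h5 : |deriv φ t| ≤ C := hC t
      have h6 : |κ| * (C + 1) < 1 := (lt_div_iff₀ (by positivity)).1 hκ
      nlinarith [abs_nonneg κ, abs_nonneg (deriv φ t)]
    have := (abs_lt.1 h4).1
    linarith
  · have h3 : φ t = 0 := by
      apply φ.zero_of_le_dist
      show ρ ≤ dist t x
      rw [Real.dist_eq]
      by_contra h4
      rw [not_le, abs_lt] at h4
      apply ht
      constructor <;> linarith [h4.1, h4.2]
    show t + κ * φ t = t
    rw [h3, mul_zero, add_zero]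
  · have h3 : φ y = 1 := by
      apply φ.one_of_mem_closedBall
      rw [Metric.mem_closedBall, Real.dist_eq]
      exact hy.le
    show y + κ * φ y = y + κ
    rw [h3, mul_one]

theorem exists_lam {l m a a' : ℝ} (h1 : l < a) (h2 : a < m) (h3 : l < a') (h4 : a' < m) :
    ∃ f : ℝ → ℝ, ContDiff ℝ 2 f ∧ (∀ t, 0 < deriv f t) ∧ (∀ t, t ∉ Set.Icc l m → f t = t) ∧
      f a = a' := by
  have key : ∃ f : ℝ → ℝ, LamGood l m f ∧ f a = a' := by
    refine (isPreconnected_Ioo (a := l) (b := m)).induction₂'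
      (fun x y => ∃ f : ℝ → ℝ, LamGood l m f ∧ f x = y) ?_ ?_ ⟨h1, h2⟩ ⟨h3, h4⟩
    · intro x hx
      obtain ⟨r, δ, hr, hδ, h5⟩ := lam_local hx.1 hx.2
      have h6 : ∀ᶠ y in nhds x, |y - x| < min r δ := by
        have := Metric.ball_mem_nhds x (lt_min hr hδ)
        filter_upwards [this] with y hy
        rw [Metric.mem_ball, Real.dist_eq] at hy
        exact hy
      have h7 : ∀ᶠ y in nhdsWithin x (Set.Ioo l m), |y - x| < min r δ := nhdsWithin_le_nhds h6
      filter_upwards [h7] with y hy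
      have hyr : |y - x| < r := hy.trans_le (min_le_left _ _)
      have hyd : |y - x| < δ := hy.trans_le (min_le_right _ _)
      constructor
      · obtain ⟨f, hf, hf'⟩ := h5 (y - x) hyd
        refine ⟨f, hf, ?_⟩
        rw [hf' x (by rw [sub_self, abs_zero]; exact hr)]
        ring
      · obtain ⟨f, hf, hf'⟩ := h5 (x - y) (by rw [abs_sub_comm]; exact hyd)
        refine ⟨f, hf, ?_⟩
        rw [hf' y hyr]
        ring
    · rintro x y z - - - ⟨f, hf, rfl⟩ ⟨g, hg, rfl⟩
      exact ⟨g ∘ f, lam_comp hg hf, rfl⟩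
  obtain ⟨f, hf, hfa⟩ := key
  exact ⟨f, hf.1, hf.2.1, hf.2.2, hfa⟩

end Pool.Agent.W_d1cfb0_h59
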