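import Pool.Agent.W_d1cfb0_h59.Squash
import Pool.Agent.W_d1cfb0_h59.Cutoff
import Pool.Agent.W_d1cfb0_h59.Lam

/-!
# Compression of a box in one coordinate

Proof. `f` from `exists_lam` with `l = p' i`, `m = q' i`; `χ` from `exists_cutoff`;
`e`, `ρ` from `exists_squash` with `K = bx p' q'` (`isCompact_bx`): if `x ∉ bx p' q'` then either
`x i ∉ [p' i, q' i]`, so `f (x i) = x i`, or some `x j ∉ [p' j, q' j]` with `j ≠ i`, so `χ x = 0`.
`upd_ne` gives `e x j = x j` for `j ≠ i`. If `p j ≤ x j ≤ q j` for all `j ≠ i` then `χ x = 1` and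
`e x i = f (x i)`, and `f` is increasing with `f a = a'`.
-/

namespace Pool.Agent.W_d1cfb0_h59

open MeasureTheory Pool.Agent.W_MP_d1cfb0_an

theorem box_squash {n : ℕ} (i : Fin n) {p' p q q' : Fin n → ℝ} {a a' : ℝ}
    (h1 : ∀ j, j ≠ i → p' j < p j) (h2 : ∀ j, j ≠ i → p j ≤ q j) (h3 : ∀ j, j ≠ i → q j < q' j)
    (ha1 : p' i < a) (ha2 : a < q' i) (ha3 : p' i < a') (ha4 : a' < q' i) :
    ∃ (e : E n ≃ₜ E n) (ρ : E n → ℝ), Dn 1 e ρ ∧ SuppIn e (bx p' q') ∧
      (∀ x j, j ≠ i → e x j = x j) ∧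
      ∀ x, (∀ j, j ≠ i → p j ≤ x j ∧ x j ≤ q j) → (a ≤ x i → a' ≤ e x i) ∧
        (x i ≤ a → e x i ≤ a') := by
  obtain ⟨f, hf, hf', hfo, hfa⟩ := exists_lam ha1 ha2 ha3 ha4
  obtain ⟨χ, hχ, hχ0, hχ1, hχi, hχone, hχzero⟩ := exists_cutoff i h1 h2 h3
  have hsupp : ∀ x, x ∉ bx p' q' → χ x = 0 ∨ f (x i) = x i := by
    intro x hx
    simp only [bx, Set.mem_ofPred_eq, not_forall, not_and_or, not_le] at hx
    obtain ⟨j, hj⟩ := hx
    by_cases hji : j = i
    · subst hji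
      right
      refine hfo _ ?_
      rintro ⟨h4, h5⟩
      rcases hj with hj | hj
      · linarith
      · linarith
    · left
      refine hχzero x ⟨j, hji, ?_⟩
      rcases hj with hj | hj
      · exact Or.inl hj.le
      · exact Or.inr hj.le
  obtain ⟨e, ρ, hD, hS, he⟩ := exists_squash i hf hf' hχ hχ0 hχ1 hχi (isCompact_bx p' q') hsupp
  have hmono : StrictMono f := strictMono_of_deriv_pos hf'
  refine ⟨e, ρ, hD, hS, ?_, ?_⟩
  · intro x j hj
    rw [he x, upd_ne _ hj]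
  · intro x hx
    have h5 : e x i = f (x i) := by
      rw [he x, upd_same, hχone x hx]
      ring
    rw [h5, ← hfa]
    exact ⟨fun h6 => hmono.monotone h6, fun h6 => hmono.monotone h6⟩

end Pool.Agent.W_d1cfb0_h59
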