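import Pool.Agent.W_d1cfb0_h59.Basic2

/-!
# Closed groups obtained from closed groups

All maps in `ClosedGroup`s have support in `O n`, so they are uniformly continuous
(`SuppIn.uniformContinuous_of_cube` in `W_MP_d1cfb0_an.ClosureGroup`).

`closedGroup_Dbar`: `{d | IsD d}` is a subgroup (`isD_one`, `IsD.mul`, `IsD.inv`), so
`Subgroup.closure {d | IsD d}` has exactly the elements with `IsD` (`Subgroup.closure_induction`),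
and the claim is `closedGroup_closure {d | IsD d}` (rewrite the set).

`closedGroup_conj`: group laws are clear (`f * (z * z') * f⁻¹ = (f * z * f⁻¹) * (f * z' * f⁻¹)`,
`group`). Closedness: let `h` with support in `O n` be a limit of elements `z` of the set. Then
`f * h * f⁻¹` has support in `O n`, and it is a limit of the `f * z * f⁻¹ ∈ H`: with the uniform
continuity of `f`, `dist (f (z (f⁻¹ x))) (f (h (f⁻¹ x)))` is small when `z` is uniformly close to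
`h`; the inverse is `f * z⁻¹ * f⁻¹`. Use `hH.closed`.

`closedGroup_conj_sc`: the same with `f * sc c s hs z * f⁻¹`; note
`dist (sc z x) (sc h x) = 2 s * dist (z y) (h y)` with `y = (aff c s hs)⁻¹ x` (`aff_apply`), and
`sc_inv`; support: `sc_suppIn`, `f '' O n = O n`.

`closedGroup_normalizer`: the set of `g` with support in `O n` and
`g * z * g⁻¹ ∈ N`, `g⁻¹ * z * g ∈ N` for all `z ∈ N`. Closedness: if `g_m → h` uniformly with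
inverses then `g_m * z * g_m⁻¹ → h * z * h⁻¹` uniformly with inverses:
`dist (g (z (g⁻¹ x))) (h (z (h⁻¹ x))) ≤ dist (g (z (g⁻¹ x))) (h (z (g⁻¹ x))) +
dist (h (z (g⁻¹ x))) (h (z (h⁻¹ x)))`; the first is small, the second by uniform continuity of
`h ∘ z`. The same for the inverses and with `z⁻¹`.

`closedGroup_centralizer`: `{g ∈ H | T * g * T⁻¹ * g⁻¹ ∈ N}` is a closed group when `H`, `N` are
closed groups, `N` is normalized by `H`, `T ∈ H`. Product: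
`T g g' T⁻¹ g'⁻¹ g⁻¹ = (T g T⁻¹ g⁻¹) * (g (T g' T⁻¹ g'⁻¹) g⁻¹)`. Inverse:
`T g⁻¹ T⁻¹ g = (g⁻¹ (T g T⁻¹ g⁻¹) g)⁻¹`: indeed `g⁻¹ T g T⁻¹ = g⁻¹ (T g T⁻¹ g⁻¹) g` and
`T g⁻¹ T⁻¹ g = (g⁻¹ T g T⁻¹)⁻¹`. Closedness as before (`T g T⁻¹ g⁻¹` depends continuously on `g`).
-/

namespace Pool.Agent.W_d1cfb0_h59

open MeasureTheory Pool.Agent.W_MP_d1cfb0_an

/-- Uniform closeness of maps and inverses. -/
def CGLemmas_Clo {n : ℕ} (ε : ℝ) (g h : E n ≃ₜ E n) : Prop :=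
  ∀ x, dist (g x) (h x) < ε ∧ dist (g⁻¹ x) (h⁻¹ x) < ε

theorem CGLemmas_Clo.refl {n : ℕ} {ε : ℝ} (hε : 0 < ε) (g : E n ≃ₜ E n) : CGLemmas_Clo ε g g := by
  intro x
  rw [dist_self, dist_self]
  exact ⟨hε, hε⟩

theorem CGLemmas_Clo.inv {n : ℕ} {ε : ℝ} {g h : E n ≃ₜ E n} (hgh : CGLemmas_Clo ε g h) :
    CGLemmas_Clo ε g⁻¹ h⁻¹ := by
  intro x
  rw [inv_inv, inv_inv]
  exact ⟨(hgh x).2, (hgh x).1⟩

theorem CGLemmas_Clo.mono {n : ℕ} {ε ε' : ℝ} (he : ε ≤ ε') {g h : E n ≃ₜ E n}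
    (hgh : CGLemmas_Clo ε g h) : CGLemmas_Clo ε' g h :=
  fun x => ⟨(hgh x).1.trans_le he, (hgh x).2.trans_le he⟩

theorem CGLemmas_mul {n : ℕ} {h h' : E n ≃ₜ E n} (hs : SuppIn h (O n)) (hs' : SuppIn h' (O n))
    {ε : ℝ} (hε : 0 < ε) : ∃ δ : ℝ, 0 < δ ∧ ∀ g g' : E n ≃ₜ E n, CGLemmas_Clo δ g h →
      CGLemmas_Clo δ g' h' → CGLemmas_Clo ε (g * g') (h * h') := by
  obtain ⟨δ₁, hδ₁, h1⟩ := Metric.uniformContinuous_iff.1 hs.uniformContinuous_of_cube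
    (ε / 2) (half_pos hε)
  obtain ⟨δ₂, hδ₂, h2⟩ := Metric.uniformContinuous_iff.1 hs'.inv.uniformContinuous_of_cube
    (ε / 2) (half_pos hε)
  refine ⟨min (ε / 2) (min δ₁ δ₂), lt_min (half_pos hε) (lt_min hδ₁ hδ₂),
    fun g g' hg hg' x => ⟨?_, ?_⟩⟩
  · rw [mul_apply', mul_apply']
    have h3 : dist (g (g' x)) (h (g' x)) < ε / 2 := (hg (g' x)).1.trans_le (min_le_left _ _)
    have h4 : dist (h (g' x)) (h (h' x)) < ε / 2 :=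
      h1 ((hg' x).1.trans_le ((min_le_right _ _).trans (min_le_left _ _)))
    have h5 := dist_triangle (g (g' x)) (h (g' x)) (h (h' x))
    linarith
  · rw [mul_inv_rev, mul_inv_rev, mul_apply', mul_apply']
    have h3 : dist (g'⁻¹ (g⁻¹ x)) (h'⁻¹ (g⁻¹ x)) < ε / 2 :=
      (hg' (g⁻¹ x)).2.trans_le (min_le_left _ _)
    have h4 : dist (h'⁻¹ (g⁻¹ x)) (h'⁻¹ (h⁻¹ x)) < ε / 2 :=
      h2 ((hg x).2.trans_le ((min_le_right _ _).trans (min_le_right _ _)))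
    have h5 := dist_triangle (g'⁻¹ (g⁻¹ x)) (h'⁻¹ (g⁻¹ x)) (h'⁻¹ (h⁻¹ x))
    linarith

/-- `f * z * f'` depends continuously on `(f, z, f')`. -/
theorem CGLemmas_mul3 {n : ℕ} {f h f' : E n ≃ₜ E n} (hf : SuppIn f (O n)) (hs : SuppIn h (O n))
    (hf' : SuppIn f' (O n)) {ε : ℝ} (hε : 0 < ε) : ∃ δ : ℝ, 0 < δ ∧ ∀ g z g' : E n ≃ₜ E n,
      CGLemmas_Clo δ g f → CGLemmas_Clo δ z h → CGLemmas_Clo δ g' f' →
      CGLemmas_Clo ε (g * z * g') (f * h * f') := by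
  obtain ⟨δ₁, hδ₁, h1⟩ := CGLemmas_mul (hf.mul hs) hf' hε
  obtain ⟨δ₂, hδ₂, h2⟩ := CGLemmas_mul hf hs hδ₁
  refine ⟨min δ₁ δ₂, lt_min hδ₁ hδ₂, fun g z g' hg hz hg' => ?_⟩
  exact h1 _ _ (h2 _ _ (hg.mono (min_le_right _ _)) (hz.mono (min_le_right _ _)))
    (hg'.mono (min_le_left _ _))

theorem closedGroup_Dbar (n : ℕ) : ClosedGroup n (Dbar n) := by
  have h1 := closedGroup_closure (n := n) {d | IsD d} (fun g hg => hg.2.suppIn)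
  have h2 : ∀ g : E n ≃ₜ E n, g ∈ Subgroup.closure {d : E n ≃ₜ E n | IsD d} ↔ IsD g := by
    intro g
    constructor
    · intro hg
      induction hg using Subgroup.closure_induction with
      | mem x hx => exact hx
      | one => exact isD_one
      | mul x y _ _ hx hy => exact hx.mul hy
      | inv x _ hx => exact hx.inv
    · intro hg
      exact Subgroup.subset_closure hg
  have h3 : Dbar n = {h | SuppIn h (O n) ∧ ∀ ε : ℝ, 0 < ε →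
      ∃ g ∈ Subgroup.closure {d : E n ≃ₜ E n | IsD d},
      ∀ x, dist (g x) (h x) < ε ∧ dist (g⁻¹ x) (h⁻¹ x) < ε} := by
    ext h
    unfold Dbar
    constructor
    · rintro ⟨hs, hh⟩
      refine ⟨hs, fun ε hε => ?_⟩
      obtain ⟨d, hd, hdx⟩ := hh ε hε
      exact ⟨d, (h2 d).2 hd, hdx⟩
    · rintro ⟨hs, hh⟩
      refine ⟨hs, fun ε hε => ?_⟩
      obtain ⟨d, hd, hdx⟩ := hh ε hε
      exact ⟨d, (h2 d).1 hd, hdx⟩
  rw [h3]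
  exact h1

theorem mem_Dbar_of_isD {n : ℕ} {d : E n ≃ₜ E n} (h : IsD d) : d ∈ Dbar n :=
  ⟨h.2.suppIn, fun _ hε => ⟨d, h, CGLemmas_Clo.refl hε d⟩⟩

/-- A closed group containing `IsD` contains `Dbar`. -/
theorem Dbar_subset {n : ℕ} {H : Set (E n ≃ₜ E n)} (hH : ClosedGroup n H)
    (hD : ∀ d, IsD d → d ∈ H) : Dbar n ⊆ H := by
  rintro h ⟨hs, hh⟩
  refine hH.closed h hs fun ε hε => ?_
  obtain ⟨d, hd, hdx⟩ := hh ε hε
  exact ⟨d, hD d hd, hdx⟩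

theorem closedGroup_conj {n : ℕ} {H : Set (E n ≃ₜ E n)} (hH : ClosedGroup n H)
    {f : E n ≃ₜ E n} (hf : SuppIn f (O n)) :
    ClosedGroup n {z | SuppIn z (O n) ∧ f * z * f⁻¹ ∈ H} := by
  constructor
  · refine ⟨suppIn_one _, ?_⟩
    rw [mul_one, mul_inv_cancel]
    exact hH.one_mem
  · rintro g ⟨hg, hgH⟩ g' ⟨hg', hgH'⟩
    refine ⟨hg.mul hg', ?_⟩
    have e : f * (g * g') * f⁻¹ = (f * g * f⁻¹) * (f * g' * f⁻¹) := by group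
    rw [e]
    exact hH.mul_mem _ hgH _ hgH'
  · rintro g ⟨hg, hgH⟩
    refine ⟨hg.inv, ?_⟩
    have e : f * g⁻¹ * f⁻¹ = (f * g * f⁻¹)⁻¹ := by group
    rw [e]
    exact hH.inv_mem _ hgH
  · exact fun g hg => hg.1
  · intro h hs hh
    refine ⟨hs, hH.closed _ ((hf.mul hs).mul hf.inv) fun ε hε => ?_⟩
    obtain ⟨δ, hδ, h1⟩ := CGLemmas_mul3 hf hs hf.inv hε
    obtain ⟨z, ⟨hz, hzH⟩, hzx⟩ := hh δ hδ
    exact ⟨f * z * f⁻¹, hzH, h1 f z f⁻¹ (CGLemmas_Clo.refl hδ f) hzx (CGLemmas_Clo.refl hδ f⁻¹)⟩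

theorem CGLemmas_sc {n : ℕ} {c : E n} {s : ℝ} {hs : 0 < s} {z h : E n ≃ₜ E n} {δ ε : ℝ}
    (hδ : 2 * s * δ ≤ ε) (hz : CGLemmas_Clo δ z h) :
    CGLemmas_Clo ε (sc c s hs z) (sc c s hs h) := by
  have key : ∀ z h : E n ≃ₜ E n, (∀ x, dist (z x) (h x) < δ) →
      ∀ x, dist (sc c s hs z x) (sc c s hs h x) < ε := by
    intro z h hz x
    unfold sc
    rw [mul_apply', mul_apply', mul_apply', mul_apply', aff_apply, aff_apply, dist_add_left,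
      dist_smul₀, Real.norm_eq_abs, abs_of_pos (by positivity : (0 : ℝ) < 2 * s)]
    exact (mul_lt_mul_of_pos_left (hz _) (by positivity)).trans_le hδ
  intro x
  refine ⟨key z h (fun y => (hz y).1) x, ?_⟩
  rw [← sc_inv, ← sc_inv]
  exact key z⁻¹ h⁻¹ (fun y => (hz y).2) x

theorem closedGroup_conj_sc {n : ℕ} {H : Set (E n ≃ₜ E n)} (hH : ClosedGroup n H)
    {f : E n ≃ₜ E n} (hf : SuppIn f (O n)) (c : E n) (s : ℝ) (hs : 0 < s)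
    (hc : cub c s ⊆ O n) :
    ClosedGroup n {z | SuppIn z (O n) ∧ f * sc c s hs z * f⁻¹ ∈ H} := by
  have h0 := closedGroup_conj hH hf
  have hsupp : ∀ z : E n ≃ₜ E n, SuppIn z (O n) → SuppIn (sc c s hs z) (O n) :=
    fun z hz => (sc_suppIn hz).mono hc
  constructor
  · refine ⟨suppIn_one _, ?_⟩
    rw [sc_one, mul_one, mul_inv_cancel]
    exact hH.one_mem
  · rintro g ⟨hg, hgH⟩ g' ⟨hg', hgH'⟩
    refine ⟨hg.mul hg', ?_⟩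
    rw [sc_mul]
    exact (h0.mul_mem _ ⟨hsupp g hg, hgH⟩ _ ⟨hsupp g' hg', hgH'⟩).2
  · rintro g ⟨hg, hgH⟩
    refine ⟨hg.inv, ?_⟩
    rw [sc_inv]
    exact (h0.inv_mem _ ⟨hsupp g hg, hgH⟩).2
  · exact fun g hg => hg.1
  · intro h hsu hh
    refine ⟨hsu, (h0.closed _ (hsupp h hsu) fun ε hε => ?_).2⟩
    obtain ⟨z, ⟨hz, hzH⟩, hzx⟩ := hh (ε / (2 * s)) (by positivity)
    refine ⟨sc c s hs z, ⟨hsupp z hz, hzH⟩, CGLemmas_sc ?_ hzx⟩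
    rw [mul_div_cancel₀ _ (by positivity : (2 * s : ℝ) ≠ 0)]

theorem closedGroup_normalizer {n : ℕ} {N : Set (E n ≃ₜ E n)} (hN : ClosedGroup n N) :
    ClosedGroup n {g | SuppIn g (O n) ∧ ∀ z ∈ N, g * z * g⁻¹ ∈ N ∧ g⁻¹ * z * g ∈ N} := by
  constructor
  · refine ⟨suppIn_one _, fun z hz => ?_⟩
    rw [inv_one, one_mul, mul_one]
    exact ⟨hz, hz⟩
  · rintro g ⟨hg, hgH⟩ g' ⟨hg', hgH'⟩
    refine ⟨hg.mul hg', fun z hz => ⟨?_, ?_⟩⟩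
    · have e : g * g' * z * (g * g')⁻¹ = g * (g' * z * g'⁻¹) * g⁻¹ := by group
      rw [e]
      exact (hgH _ (hgH' z hz).1).1
    · have e : (g * g')⁻¹ * z * (g * g') = g'⁻¹ * (g⁻¹ * z * g) * g' := by group
      rw [e]
      exact (hgH' _ (hgH z hz).2).2
  · rintro g ⟨hg, hgH⟩
    refine ⟨hg.inv, fun z hz => ?_⟩
    rw [inv_inv]
    exact ⟨(hgH z hz).2, (hgH z hz).1⟩
  · exact fun g hg => hg.1
  · intro h hs hh
    refine ⟨hs, fun z hz => ?_⟩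
    have hzs := hN.supp z hz
    constructor
    · refine hN.closed _ ((hs.mul hzs).mul hs.inv) fun ε hε => ?_
      obtain ⟨δ, hδ, h1⟩ := CGLemmas_mul3 hs hzs hs.inv hε
      obtain ⟨g, ⟨hg, hgN⟩, hgx⟩ := hh δ hδ
      exact ⟨g * z * g⁻¹, (hgN z hz).1, h1 g z g⁻¹ hgx (CGLemmas_Clo.refl hδ z)
        (CGLemmas_Clo.inv hgx)⟩
    · refine hN.closed _ ((hs.inv.mul hzs).mul hs) fun ε hε => ?_
      obtain ⟨δ, hδ, h1⟩ := CGLemmas_mul3 hs.inv hzs hs hε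
      obtain ⟨g, ⟨hg, hgN⟩, hgx⟩ := hh δ hδ
      exact ⟨g⁻¹ * z * g, (hgN z hz).2, h1 g⁻¹ z g (CGLemmas_Clo.inv hgx)
        (CGLemmas_Clo.refl hδ z) hgx⟩

theorem closedGroup_centralizer {n : ℕ} {H N : Set (E n ≃ₜ E n)} (hH : ClosedGroup n H)
    (hN : ClosedGroup n N) (hnorm : ∀ g ∈ H, ∀ z ∈ N, g * z * g⁻¹ ∈ N) {T : E n ≃ₜ E n}
    (hT : T ∈ H) : ClosedGroup n {g | g ∈ H ∧ T * g * T⁻¹ * g⁻¹ ∈ N} := by
  constructor
  · refine ⟨hH.one_mem, ?_⟩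
    have e : T * 1 * T⁻¹ * (1 : E n ≃ₜ E n)⁻¹ = 1 := by group
    rw [e]
    exact hN.one_mem
  · rintro g ⟨hg, hgH⟩ g' ⟨hg', hgH'⟩
    refine ⟨hH.mul_mem _ hg _ hg', ?_⟩
    have e : T * (g * g') * T⁻¹ * (g * g')⁻¹ =
        (T * g * T⁻¹ * g⁻¹) * (g * (T * g' * T⁻¹ * g'⁻¹) * g⁻¹) := by group
    rw [e]
    exact hN.mul_mem _ hgH _ (hnorm g hg _ hgH')
  · rintro g ⟨hg, hgH⟩
    refine ⟨hH.inv_mem _ hg, ?_⟩
    have e : T * g⁻¹ * T⁻¹ * (g⁻¹)⁻¹ = (g⁻¹ * (T * g * T⁻¹ * g⁻¹) * (g⁻¹)⁻¹)⁻¹ := by group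
    rw [e]
    exact hN.inv_mem _ (hnorm _ (hH.inv_mem _ hg) _ hgH)
  · exact fun g hg => hH.supp g hg.1
  · intro h hs hh
    have hTs := hH.supp T hT
    refine ⟨hH.closed h hs fun ε hε => ?_, ?_⟩
    · obtain ⟨g, ⟨hg, _⟩, hgx⟩ := hh ε hε
      exact ⟨g, hg, hgx⟩
    · refine hN.closed _ (((hTs.mul hs).mul hTs.inv).mul hs.inv) fun ε hε => ?_
      obtain ⟨δ₁, hδ₁, h1⟩ := CGLemmas_mul ((hTs.mul hs).mul hTs.inv) hs.inv hε
      obtain ⟨δ₂, hδ₂, h2⟩ := CGLemmas_mul3 hTs hs hTs.inv hδ₁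
      obtain ⟨g, ⟨hg, hgN⟩, hgx⟩ := hh (min δ₁ δ₂) (lt_min hδ₁ hδ₂)
      have hgx' : CGLemmas_Clo (min δ₁ δ₂) g h := hgx
      refine ⟨T * g * T⁻¹ * g⁻¹, hgN, h1 _ _ (h2 T g T⁻¹ (CGLemmas_Clo.refl hδ₂ T)
        (hgx'.mono (min_le_right _ _)) (CGLemmas_Clo.refl hδ₂ T⁻¹))
        (hgx'.mono (min_le_left _ _)).inv⟩

end Pool.Agent.W_d1cfb0_h59
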