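import Pool.Agent.W_d1cfb0_h59.TwistApprox

/-!
# Local capture implies capture

`twist_mem_of_capt`. Let `H` be a closed group with `Capt H w`, `closedBall c r ⊆ w ∩ O n`. Then
every twist about `c` with profile vanishing from `r` on is in `H`: by `twist_approx` it is a limit
of elements `z` with `Sm z` and support in the compact set `closedBall c r`, which are in `H`;
use `hH.closed` (`suppIn_twist`).

`sf`. Let `d` be `Sm` with support in `Q n ρ`. By compactness (`lebesgue_number_lemma_of_metric`)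
there is `δ > 0` such that for every `x ∈ Q n ρ` the ball `ball x δ` is contained in some open `w`
with `Capt H w`; also make `δ` so small that `closedBall x δ ⊆ O n` for `x ∈ Q n ρ`
(`ρ < 1/2`, `closedBall_subset_ccub`). Let `η > 0`, and let `ε₀` be from `partA` (in
`W_MP_d1cfb0_an.PartA`), `e = min ε₀ δ / 2`. We get a list `l` of twists `d' : TD n` with centres in
`Q n ρ` and `lmap e l` is `η`-close to `d`, with inverses. Each
`d'.map e = twist d'.hij d'.c (prof bump e d'.τ)` is in `H` by `twist_mem_of_capt`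
(`prof_eq_zero isShape_bump`), so `lmap e l ∈ H` (induction on the list: `lmap` is defined in
`W_MP_d1cfb0_an.Words`). Now `hH.closed`.
-/

namespace Pool.Agent.W_d1cfb0_h59

open MeasureTheory Pool.Agent.W_MP_d1cfb0_an

theorem twist_mem_of_capt {n : ℕ} {H : Set (E n ≃ₜ E n)} (hH : ClosedGroup n H) {w : Set (E n)}
    (hw : Capt H w) {i j : Fin n} (hij : i ≠ j) (c : E n) (a : C(ℝ, ℝ)) {r : ℝ} (hr : 0 < r)
    (ha : ∀ u, r ≤ u → a u = 0) (hc : Metric.closedBall c r ⊆ w)
    (hcO : Metric.closedBall c r ⊆ O n) : twist hij c a ∈ H := by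
  refine hH.closed _ ((suppIn_twist hij c a ha).mono hcO) fun ε hε => ?_
  obtain ⟨z, hz1, hz2, hz3⟩ := twist_approx hij c a hr ha hε
  exact ⟨z, hw z hz1 ⟨_, isCompact_closedBall c r, hc, hz2⟩, hz3⟩

theorem lmap_mem_of_forall {n : ℕ} {H : Set (E n ≃ₜ E n)} (hH : ClosedGroup n H) (e : ℝ)
    (l : List (TD n)) (h : ∀ d ∈ l, d.map e ∈ H) : lmap e l ∈ H := by
  induction l with
  | nil => exact hH.one_mem
  | cons d l ih =>
    exact hH.mul_mem _ (h d (List.mem_cons_self ..)) _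
      (ih fun d' hd' => h d' (List.mem_cons_of_mem _ hd'))

theorem sf {n : ℕ} (hn : 2 ≤ n) {H : Set (E n ≃ₜ E n)} (hH : ClosedGroup n H) {ρ : ℝ}
    (hρ : 0 < ρ) (hρ1 : ρ < 1 / 2)
    (hc : ∀ x ∈ Q n ρ, ∃ w : Set (E n), IsOpen w ∧ x ∈ w ∧ Capt H w) (d : E n ≃ₜ E n)
    (hd : Sm d) (hds : SuppIn d (Q n ρ)) : d ∈ H := by
  have hQO : Q n ρ ⊆ O n := fun x hx i => (hx i).trans_lt hρ1
  have hcomp : IsCompact (Q n ρ) := by
    rw [Q_eq_ccub]
    exact isCompact_ccub _ _
  obtain ⟨δ, hδ, hleb⟩ := lebesgue_number_lemma_of_metric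
    (c := fun w : {w : Set (E n) // IsOpen w ∧ Capt H w} => (w : Set (E n))) hcomp
    (fun w => w.2.1) (fun x hx => by
      obtain ⟨w, hw1, hw2, hw3⟩ := hc x hx
      exact Set.mem_iUnion.2 ⟨⟨w, hw1, hw3⟩, hw2⟩)
  refine hH.closed d (hds.mono hQO) fun η hη => ?_
  obtain ⟨ε₀, hε₀, hpart⟩ := partA hn d hd.c hd.c' hd.mp hρ hds hη
  set e : ℝ := min (min ε₀ δ) (1 / 2 - ρ) / 2 with he
  have hm : 0 < min (min ε₀ δ) (1 / 2 - ρ) := lt_min (lt_min hε₀ hδ) (by linarith)
  have he0 : 0 < e := by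
    rw [he]
    linarith
  have he1 : e < ε₀ := by
    have : min (min ε₀ δ) (1 / 2 - ρ) ≤ ε₀ := (min_le_left _ _).trans (min_le_left _ _)
    rw [he]
    linarith
  have he2 : e < δ := by
    have : min (min ε₀ δ) (1 / 2 - ρ) ≤ δ := (min_le_left _ _).trans (min_le_right _ _)
    rw [he]
    linarith
  have he3 : e < 1 / 2 - ρ := by
    have : min (min ε₀ δ) (1 / 2 - ρ) ≤ 1 / 2 - ρ := min_le_right _ _
    rw [he]
    linarith
  obtain ⟨l, hl1, hl2⟩ := hpart e he0 he1
  refine ⟨lmap e l, lmap_mem_of_forall hH e l fun d' hd' => ?_, hl2⟩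
  obtain ⟨⟨w, hwo, hw⟩, hball⟩ := hleb d'.c (hl1 d' hd')
  refine twist_mem_of_capt hH hw d'.hij d'.c _ he0 (prof_eq_zero isShape_bump he0 _)
    ((Metric.closedBall_subset_ball he2).trans hball) ?_
  intro y hy i
  have h1 := abs_le_dist y d'.c i
  have h2 := hl1 d' hd' i
  have h3 : dist y d'.c ≤ e := hy
  have h4 : |y i| ≤ |y i - d'.c i| + |d'.c i| := by
    have := abs_add_le (y i - d'.c i) (d'.c i)
    rwa [sub_add_cancel] at this
  linarith

end Pool.Agent.W_d1cfb0_h59
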