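import Pool.Agent.W_d1cfb0_h59.CommLocal
import Pool.Agent.W_d1cfb0_h59.SF

/-!
# Elements with small support are central modulo `N`

Proof. By `comm_local` every `x ∈ O n` has a radius `s_x`. By the Lebesgue number lemma
(`lebesgue_number_lemma_of_metric` for the open cover by the balls `ball x s_x`, `x ∈ O n`, of the
compact `K`) there is `δ' > 0` such that for `c ∈ K` the ball `ball c δ'` is in some
`ball x s_x`. Let `δ = δ' / 4`. Let `c ∈ K`, `T` in `IsD` with support in `closedBall c δ`.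
`N` is normalized by `Dbar n`: the set `closedGroup_normalizer hN` is a closed group containing
`IsD` (use `hnorm` for `d` and for `d⁻¹`), so `Dbar_subset` applies. By `closedGroup_centralizer`
(with `H = Dbar n`, `closedGroup_Dbar`) the set `C = {g ∈ Dbar n | T g T⁻¹ g⁻¹ ∈ N}` is a closed
group. Claim: `IsD g → g ∈ C`; then `Dbar_subset` gives `Dbar n ⊆ C`. Let `g` be in `IsD`, with
support in `Q n ρ`, `0 < ρ < 1/2` (`IsM.exists_Q`). Use `sf` for the closed group `C`: it is enough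
that every `x ∈ Q n ρ` has an open neighbourhood `w` with `Capt C w`. Let `w = ball x (δ / 2)`
intersected with `O n`. Let `z` be `Sm` with `CS z w` (so `IsD z`). If `closedBall c δ` and `w` are
disjoint, then `T z T⁻¹ z⁻¹ = 1 ∈ N` (`SuppIn.comm`). Otherwise
`w ⊆ closedBall c (2 δ) ⊆ ball c δ' ⊆ closedBall x' s_{x'}` and the commutator is in `N` by
`comm_local`.
-/

namespace Pool.Agent.W_d1cfb0_h59

open MeasureTheory Pool.Agent.W_MP_d1cfb0_an

theorem central {n : ℕ} (hn : 2 ≤ n) {N : Set (E n ≃ₜ E n)} (hN : ClosedGroup n N)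
    (hnorm : ∀ d, IsD d → ∀ g ∈ N, d * g * d⁻¹ ∈ N) {y : E n ≃ₜ E n} (hy : IsD y) (hy1 : y ≠ 1)
    (hyN : y ∈ N) {K : Set (E n)} (hK : IsCompact K) (hKO : K ⊆ O n) :
    ∃ δ : ℝ, 0 < δ ∧ ∀ c ∈ K, ∀ T : E n ≃ₜ E n, IsD T → SuppIn T (Metric.closedBall c δ) →
      ∀ g ∈ Dbar n, T * g * T⁻¹ * g⁻¹ ∈ N := by
  have hloc : ∀ x ∈ O n, ∃ s : ℝ, 0 < s ∧ Metric.closedBall x s ⊆ O n ∧
      ∀ z₁ z₂ : E n ≃ₜ E n, IsD z₁ → IsD z₂ →
      SuppIn z₁ (Metric.closedBall x s) → SuppIn z₂ (Metric.closedBall x s) →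
      z₁ * z₂ * z₁⁻¹ * z₂⁻¹ ∈ N := fun x hx => comm_local hn hN hnorm hy hy1 hyN x hx
  choose! s hs0 hsO hsN using hloc
  obtain ⟨δ', hδ', hleb⟩ := lebesgue_number_lemma_of_metric (s := K)
    (c := fun x : O n => Metric.ball (x : E n) (s x)) hK (fun x => Metric.isOpen_ball) (by
      intro x hx
      exact Set.mem_iUnion.2 ⟨⟨x, hKO hx⟩, Metric.mem_ball_self (hs0 x (hKO hx))⟩)
  -- `N` is normalized by `Dbar n`
  have hnormD : ∀ g ∈ Dbar n, ∀ z ∈ N, g * z * g⁻¹ ∈ N := by
    have h1 := Dbar_subset (closedGroup_normalizer hN) (by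
      intro d hd
      refine ⟨hd.2.suppIn, fun z hz => ⟨hnorm d hd z hz, ?_⟩⟩
      have h2 := hnorm d⁻¹ hd.inv z hz
      rwa [inv_inv] at h2)
    intro g hg z hz
    exact ((h1 hg).2 z hz).1
  refine ⟨δ' / 4, by positivity, fun c hc T hT hTs => ?_⟩
  have hC := closedGroup_centralizer (closedGroup_Dbar n) hN hnormD (mem_Dbar_of_isD hT)
  have hsub : Dbar n ⊆ {g | g ∈ Dbar n ∧ T * g * T⁻¹ * g⁻¹ ∈ N} := by
    refine Dbar_subset hC ?_
    intro g hg
    obtain ⟨ρ, hρ0, hρ1, hgQ⟩ := hg.isM.exists_Q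
    refine sf hn hC hρ0 hρ1 ?_ g hg.1 hgQ
    intro x hx
    have hxO : x ∈ O n := Q_subset_O hρ1 hx
    have hOo : IsOpen (O n) := by
      rw [O_eq_cub]
      exact isOpen_cub _ _
    refine ⟨Metric.ball x (δ' / 8) ∩ O n, Metric.isOpen_ball.inter hOo,
      ⟨Metric.mem_ball_self (by positivity), hxO⟩, ?_⟩
    intro z hz hzs
    have hzD : IsD z := ⟨hz, hzs.mono Set.inter_subset_right⟩
    refine ⟨mem_Dbar_of_isD hzD, ?_⟩
    have hzs' : SuppIn z (Metric.ball x (δ' / 8)) := hzs.suppIn.mono Set.inter_subset_left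
    by_cases hdj : Disjoint (Metric.closedBall c (δ' / 4)) (Metric.ball x (δ' / 8))
    · have h1 : T * z = z * T := SuppIn.comm hTs hzs' hdj
      have e : T * z * T⁻¹ * z⁻¹ = 1 := by
        rw [h1]
        group
      rw [e]
      exact hN.one_mem
    · rw [Set.not_disjoint_iff] at hdj
      obtain ⟨p, hp1, hp2⟩ := hdj
      obtain ⟨⟨x', hx'⟩, hx'b⟩ := hleb c hc
      have hsub1 : Metric.closedBall c (δ' / 4) ⊆ Metric.closedBall x' (s x') := by
        intro q hq
        apply Metric.ball_subset_closedBall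
        apply hx'b
        rw [Metric.mem_closedBall] at hq
        rw [Metric.mem_ball]
        linarith
      have hsub2 : Metric.ball x (δ' / 8) ⊆ Metric.closedBall x' (s x') := by
        intro q hq
        apply Metric.ball_subset_closedBall
        apply hx'b
        rw [Metric.mem_closedBall] at hp1
        rw [Metric.mem_ball] at hp2 hq ⊢
        have h1 := dist_triangle q x c
        have h2 := dist_triangle_left x c p
        linarith
      exact hsN x' hx' T z hT hzD (hTs.mono hsub1) (hzs'.mono hsub2)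
  intro g hg
  exact (hsub hg).2

end Pool.Agent.W_d1cfb0_h59
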