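import Pool.Agent.W_d1cfb0_h59.Squeeze
import Pool.Agent.W_d1cfb0_h59.CGLemmas

/-!
# Commutators of elements with small support are in a normal closed group

`N` is a closed group normalized by `IsD`, containing a nontrivial `y` in `IsD`. Then every
`x ∈ O n` has a ball such that `z₁ z₂ z₁⁻¹ z₂⁻¹ ∈ N` for all `z₁, z₂` in `IsD` with support in this
ball.

Proof. There is `x₀` with `y x₀ ≠ x₀`; then `x₀ ∈ O n`. There is an open ball `B ∋ x₀` contained in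
`O n` with `y '' B` disjoint from `B`. (a) If `z₁, z₂` are in `IsD` with support in `B` then
`z₁ z₂ z₁⁻¹ z₂⁻¹ ∈ N`. Indeed let `w = z₁⁻¹`; `g := y * w * y⁻¹ * w⁻¹ ∈ N` (it is
`y * (w * y⁻¹ * w⁻¹)`, and `w y⁻¹ w⁻¹ ∈ N`). `w' = y w y⁻¹` has support in `y '' B`
(`SuppIn.conj`), disjoint from `B`, so it commutes with `w` and with `z₂` (`SuppIn.comm`).
`g = w' z₁`. The element `g z₂ g⁻¹ z₂⁻¹ = g * (z₂ * g⁻¹ * z₂⁻¹)` is in `N`, and it equals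
`w' z₁ z₂ z₁⁻¹ w'⁻¹ z₂⁻¹ = z₁ z₂ z₁⁻¹ z₂⁻¹` since `w'` commutes with `z₁ = w⁻¹` and `z₂`.
(b) Let `x ∈ O n`. Choose `s > 0` with `ccub x s ⊆ O n` and `(2 s) ^ n < volume B` (possible since
`volume B > 0`). `squeeze` (with `conn_O_diff`, `volume_ccub`; `B` is convex) gives `d` in `IsD`
with `d '' ccub x s ⊆ B`. Let `z₁, z₂` have support in `closedBall x s ⊆ ccub x s`. Then
`d z_i d⁻¹` are in `IsD` with support in `d '' ccub x s ⊆ B`, so their commutator is in `N` by (a),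
and conjugating back with `d⁻¹` gives `z₁ z₂ z₁⁻¹ z₂⁻¹ ∈ N`.
-/

namespace Pool.Agent.W_d1cfb0_h59

open MeasureTheory Pool.Agent.W_MP_d1cfb0_an

/-- Step (a): commutators of elements supported in a set displaced by `y`. -/
theorem commlocal_a {n : ℕ} {N : Set (E n ≃ₜ E n)} (hN : ClosedGroup n N)
    (hnorm : ∀ d, IsD d → ∀ g ∈ N, d * g * d⁻¹ ∈ N) {y : E n ≃ₜ E n}
    (hyN : y ∈ N) {B : Set (E n)} (hB : Disjoint (y '' B) B) {z₁ z₂ : E n ≃ₜ E n}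
    (h₁ : IsD z₁) (h₂ : IsD z₂) (s₁ : SuppIn z₁ B) (s₂ : SuppIn z₂ B) :
    z₁ * z₂ * z₁⁻¹ * z₂⁻¹ ∈ N := by
  set w' : E n ≃ₜ E n := y * z₁⁻¹ * y⁻¹ with hw'
  have hsw : SuppIn w' (y '' B) := s₁.inv.conj y
  have hc1 : Commute w' z₁ := hsw.comm s₁ hB
  have hc2 : Commute w' z₂ := hsw.comm s₂ hB
  have hg : w' * z₁ ∈ N := by
    have h3 := hN.mul_mem y hyN _ (hnorm z₁⁻¹ h₁.inv y⁻¹ (hN.inv_mem y hyN))
    have e : y * (z₁⁻¹ * y⁻¹ * z₁⁻¹⁻¹) = w' * z₁ := by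
      rw [hw', inv_inv]
      simp only [mul_assoc]
    rwa [e] at h3
  have h4 := hN.mul_mem _ hg _ (hnorm z₂ h₂ _ (hN.inv_mem _ hg))
  have hc3 : Commute w' (z₁ * z₂ * z₁⁻¹) := (hc1.mul_right hc2).mul_right hc1.inv_right
  have e : w' * z₁ * (z₂ * (w' * z₁)⁻¹ * z₂⁻¹) = z₁ * z₂ * z₁⁻¹ * z₂⁻¹ := by
    calc w' * z₁ * (z₂ * (w' * z₁)⁻¹ * z₂⁻¹)
        = (w' * (z₁ * z₂ * z₁⁻¹)) * w'⁻¹ * z₂⁻¹ := by
          rw [mul_inv_rev]
          simp only [mul_assoc]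
      _ = ((z₁ * z₂ * z₁⁻¹) * w') * w'⁻¹ * z₂⁻¹ := by rw [hc3.eq]
      _ = z₁ * z₂ * z₁⁻¹ * z₂⁻¹ := by rw [mul_inv_cancel_right]
  rwa [e] at h4

/-- A ball displaced by `y`. -/
theorem commlocal_ball {n : ℕ} {y : E n ≃ₜ E n} (hy : IsD y) (hy1 : y ≠ 1) :
    ∃ (x₀ : E n) (ε : ℝ), 0 < ε ∧ Metric.ball x₀ ε ⊆ O n ∧
      Disjoint (y '' Metric.ball x₀ ε) (Metric.ball x₀ ε) := by
  have h1 : ∃ x₀, y x₀ ≠ x₀ := by
    by_contra hc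
    push Not at hc
    exact hy1 (Homeomorph.ext hc)
  obtain ⟨x₀, hx₀⟩ := h1
  have hx₀O : x₀ ∈ O n := by
    by_contra hc
    exact hx₀ (hy.2.suppIn x₀ hc)
  obtain ⟨U, V, hU, hV, hUx, hVx, hUV⟩ := t2_separation hx₀.symm
  have hO : IsOpen (O n) := by
    rw [O_eq_cub]
    exact isOpen_cub _ _
  have hopen : IsOpen (U ∩ y ⁻¹' V ∩ O n) := (hU.inter (hV.preimage y.continuous)).inter hO
  obtain ⟨ε, hε, hsub⟩ := Metric.isOpen_iff.1 hopen x₀ ⟨⟨hUx, hVx⟩, hx₀O⟩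
  refine ⟨x₀, ε, hε, fun z hz => (hsub hz).2, ?_⟩
  rw [Set.disjoint_left]
  rintro _ ⟨z, hz, rfl⟩ hz2
  exact Set.disjoint_left.1 hUV (hsub hz2).1.1 (hsub hz).1.2

theorem comm_local {n : ℕ} (hn : 2 ≤ n) {N : Set (E n ≃ₜ E n)} (hN : ClosedGroup n N)
    (hnorm : ∀ d, IsD d → ∀ g ∈ N, d * g * d⁻¹ ∈ N) {y : E n ≃ₜ E n} (hy : IsD y) (hy1 : y ≠ 1)
    (hyN : y ∈ N) (x : E n) (hx : x ∈ O n) :
    ∃ s : ℝ, 0 < s ∧ Metric.closedBall x s ⊆ O n ∧ ∀ z₁ z₂ : E n ≃ₜ E n, IsD z₁ → IsD z₂ →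
      SuppIn z₁ (Metric.closedBall x s) → SuppIn z₂ (Metric.closedBall x s) →
      z₁ * z₂ * z₁⁻¹ * z₂⁻¹ ∈ N := by
  obtain ⟨x₀, ε, hε, hBO, hB⟩ := commlocal_ball hy hy1
  have hO : IsOpen (O n) := by
    rw [O_eq_cub]
    exact isOpen_cub _ _
  obtain ⟨δ, hδ, hδO⟩ := exists_ccub_subset hO hx
  have hvol : 0 < volume (Metric.ball x₀ ε) := Metric.measure_ball_pos volume x₀ hε
  have hcont : Continuous fun s : ℝ => ENNReal.ofReal ((2 * s) ^ n) :=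
    ENNReal.continuous_ofReal.comp (by fun_prop)
  have h0 : ENNReal.ofReal ((2 * (0 : ℝ)) ^ n) < volume (Metric.ball x₀ ε) := by
    rw [mul_zero, zero_pow (by omega), ENNReal.ofReal_zero]
    exact hvol
  have hev : ∀ᶠ s in nhds (0 : ℝ), ENNReal.ofReal ((2 * s) ^ n) < volume (Metric.ball x₀ ε) :=
    hcont.tendsto 0 |>.eventually_lt_const h0
  obtain ⟨r, hr, hrs⟩ := Metric.eventually_nhds_iff.1 hev
  set s : ℝ := min δ (r / 2) with hs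
  have hs0 : 0 < s := lt_min hδ (half_pos hr)
  have hsr : s < r := (min_le_right _ _).trans_lt (half_lt_self hr)
  have hsv : ENNReal.ofReal ((2 * s) ^ n) < volume (Metric.ball x₀ ε) := by
    apply hrs
    rw [dist_zero_right, Real.norm_eq_abs, abs_of_pos hs0]
    exact hsr
  have hsO : ccub x s ⊆ O n := (ccub_mono (min_le_left _ _)).trans hδO
  have hv : volume (ccub x s) < volume (Metric.ball x₀ ε) := by
    rw [volume_ccub x hs0.le]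
    exact hsv
  obtain ⟨d, hd, hdX⟩ := squeeze hn (isCompact_ccub x s) hsO (conn_O_diff hn hs0.le hsO)
    Metric.isOpen_ball hBO (convex_ball x₀ ε).isPreconnected hv
  refine ⟨s, hs0, (closedBall_subset_ccub x s).trans hsO, fun z₁ z₂ h₁ h₂ hz₁ hz₂ => ?_⟩
  have hsz : ∀ z : E n ≃ₜ E n, SuppIn z (Metric.closedBall x s) →
      SuppIn (d * z * d⁻¹) (Metric.ball x₀ ε) := fun z hz =>
    ((hz.mono (closedBall_subset_ccub x s)).conj d).mono hdX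
  have h5 := commlocal_a hN hnorm hyN hB ((hd.mul h₁).mul hd.inv) ((hd.mul h₂).mul hd.inv)
    (hsz z₁ hz₁) (hsz z₂ hz₂)
  have h6 := hnorm d⁻¹ hd.inv _ h5
  have e : d⁻¹ * (d * z₁ * d⁻¹ * (d * z₂ * d⁻¹) * (d * z₁ * d⁻¹)⁻¹ * (d * z₂ * d⁻¹)⁻¹) * d⁻¹⁻¹ =
      z₁ * z₂ * z₁⁻¹ * z₂⁻¹ := by group
  rwa [e] at h6

end Pool.Agent.W_d1cfb0_h59
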