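import Pool.Agent.W_d1cfb0_h59.Basic2

/-!
# Level equations along a line are solvable when the two functions agree off a compact set

`A` and `B` have partial derivatives `a > 0` and `b` in the direction `i` and agree off the compact
set `K`. Then for every `x` there is `t` with `B (upd x i t) = A x`.

Proof. `K` is bounded, so there is `R > |x i|` such that `|y i| < R` for all `y ∈ K`; hence
`upd x i R` and `upd x i (-R)` are not in `K`. The function `t ↦ A (upd x i t)` is strictly
increasing (`HasPart.line` and `strictMono_of_deriv_pos`), so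
`B (upd x i (-R)) = A (upd x i (-R)) ≤ A (upd x i (x i)) = A x ≤ A (upd x i R) = B (upd x i R)`
(`upd_self`). `t ↦ B (upd x i t)` is continuous (`HasPart.line`), so the intermediate value theorem
(`intermediate_value_Icc`) gives `t`.
-/

namespace Pool.Agent.W_d1cfb0_h59

open MeasureTheory Pool.Agent.W_MP_d1cfb0_an

theorem exists_level {n : ℕ} (i : Fin n) {A B a b : E n → ℝ} (hAa : HasPart i A a)
    (hBb : HasPart i B b) (ha0 : ∀ x, 0 < a x) {K : Set (E n)} (hK : IsCompact K)
    (hAB : ∀ x, x ∉ K → A x = B x) (x : E n) : ∃ t, B (upd x i t) = A x := by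
  obtain ⟨R0, hR0⟩ := hK.isBounded.exists_norm_le
  set R : ℝ := max R0 |x i| + 1 with hR
  have hRx : |x i| < R := lt_of_le_of_lt (le_max_right R0 |x i|) (by linarith)
  have hRK : ∀ y ∈ K, |y i| < R := by
    intro y hy
    have h1 : |y i| ≤ ‖y‖ := by
      have := PiLp.norm_apply_le y i
      rwa [Real.norm_eq_abs] at this
    exact lt_of_le_of_lt (h1.trans ((hR0 y hy).trans (le_max_left R0 |x i|))) (by linarith)
  have hRpos : 0 < R := lt_of_le_of_lt (abs_nonneg _) hRx
  have h1 : upd x i R ∉ K := by
    intro h
    have := hRK _ h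
    rw [upd_same, abs_of_pos hRpos] at this
    exact lt_irrefl _ this
  have h2 : upd x i (-R) ∉ K := by
    intro h
    have := hRK _ h
    rw [upd_same, abs_neg, abs_of_pos hRpos] at this
    exact lt_irrefl _ this
  have hmono : StrictMono fun t : ℝ => A (upd x i t) := by
    apply strictMono_of_deriv_pos
    intro t
    rw [(hAa.line x t).deriv]
    exact ha0 _
  have hcont : Continuous fun t : ℝ => B (upd x i t) :=
    continuous_iff_continuousAt.2 fun t => (hBb.line x t).continuousAt
  have h3 : A (upd x i (x i)) = A x := by rw [upd_self]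
  have h4 : B (upd x i (-R)) ≤ A x := by
    rw [← hAB _ h2, ← h3]
    exact hmono.monotone (by linarith [neg_abs_le (x i)])
  have h5 : A x ≤ B (upd x i R) := by
    rw [← hAB _ h1, ← h3]
    exact hmono.monotone (by linarith [le_abs_self (x i)])
  obtain ⟨t, -, ht⟩ := intermediate_value_Icc (by linarith : -R ≤ R) hcont.continuousOn ⟨h4, h5⟩
  exact ⟨t, ht⟩

end Pool.Agent.W_d1cfb0_h59
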