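import Pool.Agent.W_d1cfb0_h59.Basic2

/-!
# The coordinate map `ψ` with `B ∘ ψ = A` maps the measure with density `∂_i A` to the one with
density `∂_i B`

Proof. One-dimensional statement: let `α, β' : ℝ → ℝ` be continuous and positive, `Λ, M : ℝ → ℝ`
with derivatives `α`, `β'`, and `g : ℝ → ℝ` a bijection (continuous, increasing) with
`M (g t) = Λ t`; then for measurable `s` we have `∫⁻ t in g ⁻¹' s, ofReal (α t) =
∫⁻ t in s, ofReal (β' t)`. Indeed both sides are locally finite measures of `s` which agree on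
intervals `Ioc p q` (`g ⁻¹' (Ioc p q) = Ioc (g⁻¹ p) (g⁻¹ q)`, the integral is
`Λ (g⁻¹ q) - Λ (g⁻¹ p) = M q - M p`, `intervalIntegral.integral_eq_sub_of_hasDerivAt`), see
`Real.measure_ext_Ioo_rat` or `MeasureTheory.Measure.ext_of_Ioc`. Alternatively use the change of
variables formula `lintegral_image_eq_lintegral_abs_deriv_mul` (`g` has the derivative
`α t / β' (g t)`).
Then Fubini: `E n` is `ℝ × ℝ^(n-1)` by splitting off the coordinate `i`
(`MeasurableEquiv.piFinSuccAbove`, `volume_preserving_piFinSuccAbove`, for `n = m + 1`;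
`n = 0` has no `i`; and `PiLp.volume_preserving_ofLp`, `PiLp.volume_preserving_toLp` between
`E n` and `Fin n → ℝ`). In these coordinates `upd` changes the first factor only; `ψ` maps each
line to itself by a map `g` as above (`Λ t = A (upd x i t)`, `M t = B (upd x i t)`,
`g t = (ψ (upd x i t)) i`, `ψ (upd x i t) = upd x i (g t)`; continuity and bijectivity of `g` come
from the homeomorphism `ψ` and `ψ⁻¹`, monotonicity from that of `Λ` and `M`). So for measurable `S`
`dens a (ψ ⁻¹' S) = ∫⁻ y, ∫⁻ t, 1_S(ψ(t,y)) a(t,y) = ∫⁻ y, ∫⁻ t, 1_S(t,y) b(t,y) = dens b S`.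
-/

namespace Pool.Agent.W_d1cfb0_h59

open MeasureTheory Pool.Agent.W_MP_d1cfb0_an

theorem stepmeas_image {Λ α : ℝ → ℝ} (hΛ : ∀ t, HasDerivAt Λ (α t) t) (hα : ∀ t, 0 < α t)
    {s : Set ℝ} (hs : MeasurableSet s) :
    ∫⁻ t in s, ENNReal.ofReal (α t) = volume (Λ '' s) := by
  have hmono : StrictMono Λ := strictMono_of_deriv_pos fun t => by
    rw [(hΛ t).deriv]
    exact hα t
  have h := lintegral_image_eq_lintegral_abs_deriv_mul hs
    (fun x _ => (hΛ x).hasDerivWithinAt) hmono.injective.injOn (fun _ => 1)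
  rw [setLIntegral_const, one_mul] at h
  rw [h]
  refine lintegral_congr fun t => ?_
  rw [mul_one, abs_of_pos (hα t)]

theorem stepmeas_one {Λ M α β g : ℝ → ℝ} (hΛ : ∀ t, HasDerivAt Λ (α t) t)
    (hM : ∀ t, HasDerivAt M (β t) t) (hα : ∀ t, 0 < α t) (hβ : ∀ t, 0 < β t)
    (hg : ∀ t, M (g t) = Λ t) (hgs : Function.Surjective g) (hgm : Measurable g)
    {s : Set ℝ} (hs : MeasurableSet s) :
    ∫⁻ t in g ⁻¹' s, ENNReal.ofReal (α t) = ∫⁻ t in s, ENNReal.ofReal (β t) := by
  rw [stepmeas_image hΛ hα (hgm hs), stepmeas_image hM hβ hs]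
  congr 1
  have h1 : Λ = M ∘ g := funext fun t => (hg t).symm
  rw [h1, Set.image_comp, Set.image_preimage_eq s hgs]

/-- the line in the direction `i` -/
noncomputable def stepmeasL {m : ℕ} (i : Fin (m + 1)) (y : Fin m → ℝ) (t : ℝ) : E (m + 1) :=
  WithLp.toLp 2 (i.insertNth t y)

theorem stepmeas_upd {m : ℕ} (i : Fin (m + 1)) (y : Fin m → ℝ) (s t : ℝ) :
    upd (stepmeasL i y s) i t = stepmeasL i y t := by
  ext j
  rcases Fin.eq_self_or_eq_succAbove i j with rfl | ⟨k, rfl⟩
  · rw [upd_same]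
    simp [stepmeasL]
  · rw [upd_ne _ (Fin.succAbove_ne i k)]
    simp [stepmeasL]

theorem stepmeas_at {m : ℕ} (i : Fin (m + 1)) (y : Fin m → ℝ) (t : ℝ) :
    stepmeasL i y t i = t := by
  simp [stepmeasL]

theorem stepmeas_cont {m : ℕ} (i : Fin (m + 1)) (y : Fin m → ℝ) :
    Continuous (stepmeasL i y) := by
  have h : stepmeasL i y = fun t => upd (stepmeasL i y 0) i t := by
    funext t
    exact (stepmeas_upd i y 0 t).symm
  rw [h]
  exact (continuous_upd i).comp (by fun_prop : Continuous fun t : ℝ => (stepmeasL i y 0, t))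

theorem stepmeas_fubini {m : ℕ} (i : Fin (m + 1)) {f : E (m + 1) → ENNReal}
    (hf : Measurable f) : ∫⁻ x, f x = ∫⁻ y : Fin m → ℝ, ∫⁻ t : ℝ, f (stepmeasL i y t) := by
  have h1 : ∫⁻ x, f x = ∫⁻ z : Fin (m + 1) → ℝ, f (WithLp.toLp 2 z) :=
    ((PiLp.volume_preserving_toLp (Fin (m + 1))).lintegral_comp hf).symm
  have h2 := (MeasurePreserving.symm _
    (volume_preserving_piFinSuccAbove (fun _ : Fin (m + 1) => ℝ) i)).lintegral_comp
    (f := fun z : Fin (m + 1) → ℝ => f (WithLp.toLp 2 z))
    (hf.comp (PiLp.volume_preserving_toLp (Fin (m + 1))).measurable)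
  rw [h1, ← h2]
  exact lintegral_prod_symm' _ ((hf.comp
    (PiLp.volume_preserving_toLp (Fin (m + 1))).measurable).comp
      (MeasurableEquiv.piFinSuccAbove (fun _ : Fin (m + 1) => ℝ) i).symm.measurable)

theorem step_measure {n : ℕ} (i : Fin n) {A B a b : E n → ℝ} (hA : Continuous A)
    (hB : Continuous B) (hAa : HasPart i A a) (hBb : HasPart i B b) (ha : Continuous a)
    (hb : Continuous b) (ha0 : ∀ x, 0 < a x) (hb0 : ∀ x, 0 < b x) (ψ : E n ≃ₜ E n)
    (hψ : ∀ x, B (ψ x) = A x) (hψi : ∀ x, ∃ t, ψ x = upd x i t) :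
    Measure.map ψ (dens a) = dens b := by
  obtain ⟨m, rfl⟩ : ∃ m, n = m + 1 := ⟨n - 1, by have := i.isLt; omega⟩
  have hψ' : ∀ x, ψ x = upd x i (ψ x i) := by
    intro x
    obtain ⟨t, ht⟩ := hψi x
    have h1 : ψ x i = t := by rw [ht, upd_same]
    rw [h1]
    exact ht
  have hma := measurable_ofReal_comp ha
  have hmb := measurable_ofReal_comp hb
  ext S hS
  have hS' : MeasurableSet (ψ ⁻¹' S) := ψ.continuous.measurable hS
  rw [Measure.map_apply ψ.continuous.measurable hS, dens_apply _ hS', dens_apply _ hS,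
    ← lintegral_indicator hS', ← lintegral_indicator hS,
    stepmeas_fubini i (hma.indicator hS'), stepmeas_fubini i (hmb.indicator hS)]
  refine lintegral_congr fun y => ?_
  -- the map on the line
  have hL : ∀ t, ψ (stepmeasL i y t) = stepmeasL i y (ψ (stepmeasL i y t) i) := by
    intro t
    conv_lhs => rw [hψ']
    rw [stepmeas_upd]
  have hs : MeasurableSet (stepmeasL i y ⁻¹' S) := (stepmeas_cont i y).measurable hS
  have hgc : Continuous fun t => ψ (stepmeasL i y t) i := by
    have h1 : Continuous fun x : E (m + 1) => x i := by fun_prop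
    exact h1.comp (ψ.continuous.comp (stepmeas_cont i y))
  have hgs : Function.Surjective fun t => ψ (stepmeasL i y t) i := by
    intro t
    obtain ⟨x, hx⟩ := ψ.surjective (stepmeasL i y t)
    have h1 : x = stepmeasL i y (x i) := by
      have h2 := hψ' x
      have h3 : upd (ψ x) i (x i) = x := by
        rw [h2, upd_upd, upd_self]
      rw [hx, stepmeas_upd] at h3
      exact h3.symm
    refine ⟨x i, ?_⟩
    change ψ (stepmeasL i y (x i)) i = t
    rw [← h1, hx, stepmeas_at]
  have hder : ∀ {F f : E (m + 1) → ℝ}, HasPart i F f → ∀ t,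
      HasDerivAt (fun s => F (stepmeasL i y s)) (f (stepmeasL i y t)) t := by
    intro F f hF t
    have h1 := hF.line (stepmeasL i y 0) t
    simp only [stepmeas_upd] at h1
    exact h1
  have key := stepmeas_one (hder hAa) (hder hBb) (fun t => ha0 _) (fun t => hb0 _)
    (g := fun t => ψ (stepmeasL i y t) i) (fun t => by
      beta_reduce
      rw [← hL, hψ]) hgs hgc.measurable hs
  rw [← lintegral_indicator (hgc.measurable hs), ← lintegral_indicator hs] at key
  refine Eq.trans (lintegral_congr fun t => ?_) (key.trans (lintegral_congr fun t => ?_))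
  · by_cases h : ψ (stepmeasL i y t) ∈ S
    · rw [Set.indicator_of_mem (show stepmeasL i y t ∈ ψ ⁻¹' S from h),
        Set.indicator_of_mem]
      change stepmeasL i y (ψ (stepmeasL i y t) i) ∈ S
      rw [← hL]
      exact h
    · rw [Set.indicator_of_notMem (show stepmeasL i y t ∉ ψ ⁻¹' S from h),
        Set.indicator_of_notMem]
      change stepmeasL i y (ψ (stepmeasL i y t) i) ∉ S
      rw [← hL]
      exact h
  · rfl

end Pool.Agent.W_d1cfb0_h59
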