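import Pool.Agent.W_d1cfb0_h59.StepHomeo
import Pool.Agent.W_d1cfb0_h59.StepMeas
import Pool.Agent.W_d1cfb0_h59.StepLevel

/-!
# A piece has integral zero

Proof. `q = ∂_i h`, `h` compactly supported; then `q` is compactly supported too (off the closed set
`tsupport h` the function `h` vanishes locally, so `q = 0`) and continuous, hence bounded, say
`|q| ≤ C`. Take `δ > 0` with `δ C < 1` and apply `exists_level`, `step_homeo` (`k = 0`),
`step_measure` to `A x = x i`, `a = 1`, `B x = x i + δ h x`, `b = 1 + δ q`. We get `ψ` with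
`map ψ volume = dens (1 + δ q)` (`dens_one`), and `ψ x = x` off `K = tsupport h` (there
`B (ψ x) = A x = B x` and `B` is injective on the line). Choose a closed cube (or ball) `C' ⊇ K`;
`ψ ⁻¹' C' = C'`. So `volume C' = dens (1 + δ q) C'`, i.e. `∫ x in C', (1 + δ q x) = volume C'`,
so `δ ∫ x in C', q x = 0`, and `q = 0` off `C'`, so `∫ q = 0` (`setIntegral_eq_integral_of_forall_compl_eq_zero`).
(Alternatively use integration by parts for line derivatives in Mathlib.)
-/

namespace Pool.Agent.W_d1cfb0_h59

open MeasureTheory Pool.Agent.W_MP_d1cfb0_an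

/-- The integrals of the partial derivatives of functions with compact support vanish, and these
partial derivatives are integrable. -/
theorem pieceint_main {n : ℕ} {i : Fin n} {h q : E n → ℝ} (hc : Continuous h)
    (hq : Continuous q) (hp : HasPart i h q) (hs : HasCompactSupport h) :
    Integrable q ∧ ∫ x, q x = 0 := by
  have hq0 : ∀ x, x ∉ tsupport h → q x = 0 := by
    intro x hx
    have h1 : HasDerivAt (fun t : ℝ => h (upd x i t)) (q x) (x i) := hp x
    have h2 : Filter.Tendsto (fun t : ℝ => upd x i t) (nhds (x i)) (nhds x) := by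
      have h3 : Continuous fun t : ℝ => upd x i t :=
        (continuous_upd i).comp (by fun_prop : Continuous fun t : ℝ => (x, t))
      have h4 := h3.tendsto (x i)
      rwa [upd_self] at h4
    have h5 : ∀ᶠ y in nhds x, h y = 0 := by
      have h6 : (tsupport h)ᶜ ∈ nhds x := (isClosed_tsupport h).isOpen_compl.mem_nhds hx
      filter_upwards [h6] with y hy
      exact image_eq_zero_of_notMem_tsupport hy
    have h7 : (fun t : ℝ => h (upd x i t)) =ᶠ[nhds (x i)] fun _ => (0 : ℝ) := h2.eventually h5
    have h8 : HasDerivAt (fun t : ℝ => h (upd x i t)) 0 (x i) :=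
      (hasDerivAt_const (x i) (0 : ℝ)).congr_of_eventuallyEq h7
    exact h1.unique h8
  have hqs : HasCompactSupport q := HasCompactSupport.intro' hs (isClosed_tsupport h) hq0
  have hqi : Integrable q := hq.integrable_of_hasCompactSupport hqs
  have hhi : Integrable h := hc.integrable_of_hasCompactSupport hs
  refine ⟨hqi, ?_⟩
  have hline : ∀ x, HasLineDerivAt ℝ h (q x) x (EuclideanSpace.single i (1 : ℝ)) := by
    intro x
    have h1 : HasDerivAt (fun t : ℝ => h (upd x i t)) (q x) (x i + 0) := by
      rw [add_zero]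
      exact hp x
    have h2 := HasDerivAt.comp_const_add (x i) 0 h1
    have h3 : (fun t : ℝ => h (upd x i (x i + t))) =
        fun t : ℝ => h (x + t • EuclideanSpace.single i (1 : ℝ)) := by
      funext t
      unfold upd
      rw [add_sub_cancel_left]
    rw [h3] at h2
    exact h2
  have key := integral_bilinear_hasLineDerivAt_right_eq_neg_left_of_integrable
    (μ := (volume : Measure (E n))) (f := h) (f' := q) (g := fun _ => (1 : ℝ))
    (g' := fun _ => (0 : ℝ)) (v := EuclideanSpace.single i (1 : ℝ))
    (B := ContinuousLinearMap.mul ℝ ℝ) (by simpa using hqi) (by simp) (by simpa using hhi)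
    (fun x _ => hline x) (fun x _ => by
      unfold HasLineDerivAt
      exact hasDerivAt_const _ _)
  simpa using key.symm

theorem piece_integral {n : ℕ} {k : WithTop ℕ∞} (hk : k = 0 ∨ k = 1) {U : Set (E n)}
    {q : E n → ℝ} (h : Piece k U q) : ∫ x, q x = 0 := by
  obtain ⟨i, f, hf, hq, hp, hs, -⟩ := h
  exact (pieceint_main hf.continuous hq.continuous hp hs).2

theorem pieceint_integrable {n : ℕ} {k : WithTop ℕ∞} {U : Set (E n)}
    {q : E n → ℝ} (h : Piece k U q) : Integrable q := by
  obtain ⟨i, f, hf, hq, hp, hs, -⟩ := h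
  exact (pieceint_main hf.continuous hq.continuous hp hs).1

theorem dec_integral {n : ℕ} {k : WithTop ℕ∞} (hk : k = 0 ∨ k = 1) {U : Set (E n)}
    {g : E n → ℝ} (h : Dec k U g) : ∫ x, g x = 0 := by
  obtain ⟨L, hL, rfl⟩ := h
  have key : ∀ L : List (E n → ℝ), (∀ q ∈ L, Piece k U q) →
      Integrable L.sum ∧ ∫ x, L.sum x = 0 := by
    intro L
    induction L with
    | nil =>
      intro _
      rw [List.sum_nil]
      exact ⟨integrable_zero _ _ _, by simp⟩
    | cons q L ih =>
      intro hL
      have h1 := hL q List.mem_cons_self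
      obtain ⟨h2, h3⟩ := ih fun q' hq' => hL q' (List.mem_cons_of_mem _ hq')
      have h4 := pieceint_integrable h1
      rw [List.sum_cons]
      refine ⟨h4.add h2, ?_⟩
      have h5 : ∫ x, (q + L.sum) x = (∫ x, q x) + ∫ x, L.sum x := integral_add h4 h2
      rw [h5, piece_integral hk h1, h3, add_zero]
  exact (key L hL).2

end Pool.Agent.W_d1cfb0_h59
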