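import Pool.Agent.W_d1cfb0_h59.BoxDec
import Pool.Agent.W_d1cfb0_h59.PieceInt

/-!
# Decomposition in a connected open set

Proof. Let `Ω` be open and preconnected, `g` of class `C^k`, compactly supported in `Ω`, with
integral `0`. If `Ω` is empty then `g = 0` (`dec_zero`). Otherwise fix `x₀ ∈ Ω` and a cube
`cub x₀ r₀ ⊆ Ω` (`exists_ccub_subset`), and let `p₀` be the bump of `box_dec` for this cube.
Let `A` be the set of `x ∈ Ω` for which there is `r > 0` with `cub x r ⊆ Ω` such that every `C^k`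
function `g` with compact support and `tsupport g ⊆ cub x r` satisfies `∃ γ, Dec k Ω (g - γ • p₀)`.
* `x₀ ∈ A` (`box_dec`, `Dec.mono`).
* `A` is open: if `x ∈ A` with `r` and `y ∈ cub x (r/2)` then `cub y (r/2) ⊆ cub x r`, so `y ∈ A`.
* If `y ∈ Ω` is in the closure of `A` then `y ∈ A`: choose `cub y r ⊆ Ω`, `x ∈ A ∩ cub y r`, with
  its radius `s`; shrink `s` so that `cub x s ⊆ cub y r`. Let `p` be the bump of `box_dec` for
  `cub y r`, and let `p'` be a `C^k` bump with `tsupport p' ⊆ cub x s`, compact support, `p' ≥ 0`,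
  `∫ p' > 0` (a `ContDiffBump`). By `box_dec`, `Dec k Ω (p' - γ' • p)` and by `dec_integral`
  `γ' * ∫ p = ∫ p' ≠ 0`, so `γ' ≠ 0`. As `x ∈ A`, `Dec k Ω (p' - γ'' • p₀)`. Hence
  `Dec k Ω (p - (γ''/γ') • p₀)`, and for every `g` supported in `cub y r`:
  `g - γ • p ∈ Dec` gives `g - (γ γ''/γ') • p₀ ∈ Dec`. So `y ∈ A`.
By preconnectedness `A = Ω` (`IsPreconnected.subset_of_closure_inter_subset` or the definition).
Partition of unity: cover the compact set `tsupport g` by finitely many cubes `cub x_j (r_j)`,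
`x_j ∈ Ω` with `r_j` from `A`; there are smooth functions `χ_j` with
`tsupport χ_j ⊆ cub x_j r_j`, compact supports, `∑ χ_j = 1` on `tsupport g`
(`SmoothPartitionOfUnity.exists_isSubordinate`, or elementary: bumps `b_j ≥ 0` positive on smaller
cubes which still cover, and `χ_j = b_j / ∑ b_l` near `tsupport g`; it may be easier to do an
induction over the number of cubes, replacing `g` by `χ g` and `(1 - χ) g`). Then
`g = ∑ χ_j g`, each `χ_j g` is `C^k` with compact support in `cub x_j r_j`, so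
`Dec k Ω (χ_j g - γ_j • p₀)` and `Dec k Ω (g - γ • p₀)` with `γ = ∑ γ_j`. Taking integrals
(`dec_integral`), `0 = ∫ g = γ ∫ p₀`. If `∫ p₀ ≠ 0` then `γ = 0` and we are done. `∫ p₀ ≠ 0`:
otherwise `box_dec` and `dec_integral` would give `∫ g' = 0` for every bump `g'` supported in
`cub x₀ r₀`.
-/

namespace Pool.Agent.W_d1cfb0_h59

open MeasureTheory Pool.Agent.W_MP_d1cfb0_an

/-- A smooth bump supported in a cube. -/
theorem conndec_bump {n : ℕ} {k : WithTop ℕ∞} (hk : k = 0 ∨ k = 1) (x : E n) {r : ℝ}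
    (hr : 0 < r) :
    ∃ p : E n → ℝ, ContDiff ℝ k p ∧ HasCompactSupport p ∧ tsupport p ⊆ cub x r ∧
      (∀ y ∈ Metric.ball x (r / 4), p y = 1) ∧ 0 < ∫ y, p y := by
  let f : ContDiffBump x := ⟨r / 4, r / 2, by positivity, by linarith⟩
  refine ⟨f, ?_, f.hasCompactSupport, ?_, ?_, f.integral_pos⟩
  · rcases hk with rfl | rfl
    · exact f.contDiff (n := 0)
    · exact f.contDiff (n := 1)
  · rw [f.tsupport_eq]
    exact (Metric.closedBall_subset_ball (half_lt_self hr)).trans (ball_subset_cub x r)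
  · intro y hy
    exact f.one_of_mem_closedBall (Metric.ball_subset_closedBall hy)

/-- The integral of a continuous function with compact support times a bump. -/
theorem conndec_integral {n : ℕ} {k : WithTop ℕ∞} (hk : k = 0 ∨ k = 1) {U : Set (E n)}
    {g p : E n → ℝ} (hg : ContDiff ℝ k g) (hgc : HasCompactSupport g) (hp : ContDiff ℝ k p)
    (hpc : HasCompactSupport p) {γ : ℝ} (h : Dec k U (g - γ • p)) :
    ∫ x, g x = γ * ∫ x, p x := by
  have h1 := dec_integral hk h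
  have hgi : Integrable g := hg.continuous.integrable_of_hasCompactSupport hgc
  have hpi : Integrable p := hp.continuous.integrable_of_hasCompactSupport hpc
  have h2 : ∫ x, (g - γ • p) x = (∫ x, g x) - γ * ∫ x, p x := by
    have e : ∀ x, (g - γ • p) x = g x - γ * p x := fun x => rfl
    simp only [e]
    rw [integral_sub hgi (hpi.const_mul γ), integral_const_mul]
  rw [h2] at h1
  linarith

/-- The set of good points. -/
def conndec_A {n : ℕ} (k : WithTop ℕ∞) (Ω : Set (E n)) (p₀ : E n → ℝ) : Set (E n) :=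
  {x | ∃ r : ℝ, 0 < r ∧ cub x r ⊆ Ω ∧ ∀ g : E n → ℝ, ContDiff ℝ k g → HasCompactSupport g →
    tsupport g ⊆ cub x r → ∃ γ : ℝ, Dec k Ω (g - γ • p₀)}

theorem conndec_cub_sub {n : ℕ} {x y : E n} {r : ℝ} (h : y ∈ cub x (r / 2)) :
    cub y (r / 2) ⊆ cub x r := by
  intro z hz i
  have h1 := h i
  have h2 := hz i
  have h3 : z i - x i = (z i - y i) + (y i - x i) := by ring
  rw [h3]
  refine (abs_add_le _ _).trans_lt ?_
  linarith

theorem conndec_A_open {n : ℕ} (k : WithTop ℕ∞) (Ω : Set (E n)) (p₀ : E n → ℝ) :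
    IsOpen (conndec_A k Ω p₀) := by
  rw [isOpen_iff_mem_nhds]
  rintro x ⟨r, hr, hsub, hx⟩
  refine Filter.mem_of_superset ((isOpen_cub x (r / 2)).mem_nhds (mem_cub_self (half_pos hr))) ?_
  intro y hy
  have h1 := conndec_cub_sub hy
  exact ⟨r / 2, half_pos hr, h1.trans hsub, fun g hg hgc hgs => hx g hg hgc (hgs.trans h1)⟩

theorem conndec_A_closed {n : ℕ} {k : WithTop ℕ∞} (hk : k = 0 ∨ k = 1) {Ω : Set (E n)}
    (hΩ : IsOpen Ω) (p₀ : E n → ℝ) :
    closure (conndec_A k Ω p₀) ∩ Ω ⊆ conndec_A k Ω p₀ := by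
  rintro y ⟨hy, hyΩ⟩
  obtain ⟨r, hr, hsub⟩ := exists_ccub_subset hΩ hyΩ
  obtain ⟨x, hxy, s₀, hs₀, hs₀Ω, hxA⟩ :=
    mem_closure_iff.1 hy (cub y r) (isOpen_cub y r) (mem_cub_self hr)
  obtain ⟨s₁, hs₁, hs₁r⟩ := exists_ccub_subset (isOpen_cub y r) hxy
  obtain ⟨p', hp', hp'c, hp's, -, hp'i⟩ :=
    conndec_bump (k := k) hk x (lt_min hs₀ hs₁)
  obtain ⟨p, hp, hpc, hps, hdec⟩ := box_dec hk y hr
  have hsubs : cub y r ⊆ Ω := (cub_subset_ccub y r).trans hsub
  have hp'1 : tsupport p' ⊆ cub y r :=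
    hp's.trans ((cub_mono (min_le_right _ _)).trans ((cub_subset_ccub x s₁).trans hs₁r))
  have hp'2 : tsupport p' ⊆ cub x s₀ := hp's.trans (cub_mono (min_le_left _ _))
  obtain ⟨γ', hγ'⟩ := hdec p' hp' hp'c hp'1
  obtain ⟨γ'', hγ''⟩ := hxA p' hp' hp'c hp'2
  have hi := conndec_integral hk hp' hp'c hp hpc hγ'
  have hne : γ' ≠ 0 := by
    intro h0
    rw [h0, zero_mul] at hi
    rw [hi] at hp'i
    exact lt_irrefl _ hp'i
  have hpd : Dec k Ω (p - (γ'' / γ') • p₀) := by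
    have h1 := (hγ''.sub (hγ'.mono hsubs)).smul (1 / γ')
    have e : (1 / γ') • ((p' - γ'' • p₀) - (p' - γ' • p)) = p - (γ'' / γ') • p₀ := by
      funext z
      simp only [Pi.smul_apply, Pi.sub_apply, smul_eq_mul]
      field_simp
      ring
    rwa [e] at h1
  refine ⟨r, hr, hsubs, fun g hg hgc hgs => ?_⟩
  obtain ⟨γ, hγ⟩ := hdec g hg hgc hgs
  refine ⟨γ * (γ'' / γ'), ?_⟩
  have h1 := (hγ.mono hsubs).add (hpd.smul γ)
  have e : (g - γ • p) + γ • (p - (γ'' / γ') • p₀) = g - (γ * (γ'' / γ')) • p₀ := by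
    funext z
    simp only [Pi.smul_apply, Pi.sub_apply, Pi.add_apply, smul_eq_mul]
    ring
  rwa [e] at h1

/-- Decomposition by induction over a finite cover. -/
theorem conndec_cover {n : ℕ} {k : WithTop ℕ∞} (hk : k = 0 ∨ k = 1) {Ω : Set (E n)}
    {p₀ : E n → ℝ} {ρ : E n → ℝ}
    (hρ : ∀ x ∈ Ω, 0 < ρ x ∧ ∀ g : E n → ℝ, ContDiff ℝ k g → HasCompactSupport g →
      tsupport g ⊆ cub x (ρ x) → ∃ γ : ℝ, Dec k Ω (g - γ • p₀)) (t : Finset (E n)) :
    (∀ x ∈ t, x ∈ Ω) → ∀ g : E n → ℝ, ContDiff ℝ k g → HasCompactSupport g →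
      tsupport g ⊆ ⋃ x ∈ t, Metric.ball x (ρ x / 4) → ∃ γ : ℝ, Dec k Ω (g - γ • p₀) := by
  classical
  induction t using Finset.induction_on with
  | empty =>
    intro _ g _ _ hgs
    have h1 : tsupport g = ∅ := by
      refine Set.subset_empty_iff.1 ?_
      simpa using hgs
    have h2 : g = 0 := tsupport_eq_empty_iff.1 h1
    refine ⟨0, ?_⟩
    rw [h2, zero_smul, sub_zero]
    exact dec_zero k Ω
  | insert x t _ ih =>
    intro hΩ g hg hgc hgs
    obtain ⟨hx0, hx⟩ := hρ x (hΩ x (Finset.mem_insert_self x t))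
    obtain ⟨b, hb, hbc, hbs, hb1, -⟩ := conndec_bump (k := k) hk x hx0
    have hg1 : ContDiff ℝ k (b * g) := hb.mul hg
    have hg1c : HasCompactSupport (b * g) := hbc.mul_right
    have hg1s : tsupport (b * g) ⊆ cub x (ρ x) := (tsupport_mul_subset_left).trans hbs
    have hg2 : ContDiff ℝ k (g - b * g) := hg.sub hg1
    have hsup2 : Function.support (g - b * g) ⊆ tsupport g \ Metric.ball x (ρ x / 4) := by
      intro z hz
      refine ⟨subset_tsupport g ?_, fun hzb => hz ?_⟩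
      · intro h0
        apply hz
        simp only [Pi.sub_apply, Pi.mul_apply, h0]
        ring
      · simp only [Pi.sub_apply, Pi.mul_apply, hb1 z hzb]
        ring
    have hcl : IsClosed (tsupport g \ Metric.ball x (ρ x / 4)) :=
      (isClosed_tsupport g).sdiff Metric.isOpen_ball
    have hts2 : tsupport (g - b * g) ⊆ tsupport g \ Metric.ball x (ρ x / 4) :=
      closure_minimal hsup2 hcl
    have hg2c : HasCompactSupport (g - b * g) :=
      hgc.of_isClosed_subset (isClosed_tsupport _) (hts2.trans Set.sdiff_subset)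
    have hg2s : tsupport (g - b * g) ⊆ ⋃ y ∈ t, Metric.ball y (ρ y / 4) := by
      intro z hz
      obtain ⟨hz1, hz2⟩ := hts2 hz
      have h3 := hgs hz1
      simp only [Set.mem_iUnion, exists_prop, Finset.mem_insert] at h3 ⊢
      obtain ⟨y, hy | hy, hzy⟩ := h3
      · subst hy
        exact absurd hzy hz2
      · exact ⟨y, hy, hzy⟩
    obtain ⟨γ₁, hγ₁⟩ := hx (b * g) hg1 hg1c hg1s
    obtain ⟨γ₂, hγ₂⟩ := ih (fun y hy => hΩ y (Finset.mem_insert_of_mem hy)) _ hg2 hg2c hg2s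
    refine ⟨γ₁ + γ₂, ?_⟩
    have h1 := hγ₁.add hγ₂
    have e : (b * g - γ₁ • p₀) + (g - b * g - γ₂ • p₀) = g - (γ₁ + γ₂) • p₀ := by
      funext z
      simp only [Pi.smul_apply, Pi.sub_apply, Pi.add_apply, Pi.mul_apply, smul_eq_mul]
      ring
    rwa [e] at h1

theorem conn_dec {n : ℕ} {k : WithTop ℕ∞} (hk : k = 0 ∨ k = 1) {Ω : Set (E n)} (hΩ : IsOpen Ω)
    (hc : IsPreconnected Ω) {g : E n → ℝ} (hg : ContDiff ℝ k g) (hgc : HasCompactSupport g)
    (hgΩ : tsupport g ⊆ Ω) (h0 : ∫ x, g x = 0) : Dec k Ω g := by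
  rcases Ω.eq_empty_or_nonempty with hE | ⟨x₀, hx₀⟩
  · have h1 : g = 0 := by
      rw [← tsupport_eq_empty_iff]
      rw [hE] at hgΩ
      exact Set.subset_empty_iff.1 hgΩ
    rw [h1]
    exact dec_zero k Ω
  obtain ⟨r₀, hr₀, hsub⟩ := exists_ccub_subset hΩ hx₀
  have hsub' : cub x₀ r₀ ⊆ Ω := (cub_subset_ccub x₀ r₀).trans hsub
  obtain ⟨p₀, hp₀, hp₀c, hp₀s, hdec⟩ := box_dec hk x₀ hr₀
  have hx₀A : x₀ ∈ conndec_A k Ω p₀ := by
    refine ⟨r₀, hr₀, hsub', fun g hg hgc hgs => ?_⟩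
    obtain ⟨γ, hγ⟩ := hdec g hg hgc hgs
    exact ⟨γ, hγ.mono hsub'⟩
  have hA : Ω ⊆ conndec_A k Ω p₀ :=
    hc.subset_of_closure_inter_subset (conndec_A_open k Ω p₀) ⟨x₀, hx₀, hx₀A⟩
      (conndec_A_closed hk hΩ p₀)
  have hch : ∀ x : E n, ∃ ρ : ℝ, x ∈ Ω → 0 < ρ ∧ ∀ g : E n → ℝ, ContDiff ℝ k g →
      HasCompactSupport g → tsupport g ⊆ cub x ρ → ∃ γ : ℝ, Dec k Ω (g - γ • p₀) := by
    intro x
    by_cases hx : x ∈ Ω
    · obtain ⟨r, hr, -, h⟩ := hA hx
      exact ⟨r, fun _ => ⟨hr, h⟩⟩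
    · exact ⟨0, fun h => absurd h hx⟩
  choose ρ hρ using hch
  have hK : IsCompact (tsupport g) := hgc
  obtain ⟨t, ht1, ht2⟩ := hK.elim_nhds_subcover (fun x => Metric.ball x (ρ x / 4))
    (fun x hx => Metric.ball_mem_nhds x (by
      have := (hρ x (hgΩ hx)).1
      positivity))
  obtain ⟨γ, hγ⟩ := conndec_cover hk hρ t (fun x hx => hgΩ (ht1 x hx)) g hg hgc ht2
  have hi := conndec_integral hk hg hgc hp₀ hp₀c hγ
  have hp₀i : (∫ x, p₀ x) ≠ 0 := by
    intro h1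
    obtain ⟨p', hp', hp'c, hp's, -, hp'i⟩ := conndec_bump (k := k) hk x₀ hr₀
    obtain ⟨γ', hγ'⟩ := hdec p' hp' hp'c hp's
    have h2 := conndec_integral hk hp' hp'c hp₀ hp₀c hγ'
    rw [h1, mul_zero] at h2
    rw [h2] at hp'i
    exact lt_irrefl _ hp'i
  rw [h0] at hi
  have hγ0 : γ = 0 := by
    rcases mul_eq_zero.1 hi.symm with h | h
    · exact h
    · exact absurd h hp₀i
  rw [hγ0, zero_smul, sub_zero] at hγ
  exact hγ

end Pool.Agent.W_d1cfb0_h59
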