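import Pool.Agent.W_d1cfb0_h59.Basic2

/-!
# Closure properties of `Dec`

Proofs are immediate from the definitions: append lists, map over lists, `HasPart.const_smul`.
`Dec.smul`: if `q = ∂_i h` then `a • q = ∂_i (a • h)`, `tsupport (a • h) ⊆ tsupport h`.
`Dec.contDiff`, `Dec.support`: induction on the list; a piece `q` is `C^k`, and vanishes off
`tsupport h` (near a point off `tsupport h` the function `h` is zero, so its partial derivative
is zero). The union of the finitely many `tsupport h` is a compact subset of `U`.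
-/

namespace Pool.Agent.W_d1cfb0_h59

open MeasureTheory Pool.Agent.W_MP_d1cfb0_an

theorem dec_zero {n : ℕ} (k : WithTop ℕ∞) (U : Set (E n)) : Dec k U 0 :=
  ⟨[], fun q hq => absurd hq List.not_mem_nil, by simp⟩

theorem Piece.dec {n : ℕ} {k : WithTop ℕ∞} {U : Set (E n)} {q : E n → ℝ} (h : Piece k U q) :
    Dec k U q := by
  refine ⟨[q], ?_, by simp⟩
  intro q' hq'
  rw [List.mem_singleton] at hq'
  rw [hq']
  exact h

theorem Piece.smul {n : ℕ} {k : WithTop ℕ∞} {U : Set (E n)} {q : E n → ℝ} (h : Piece k U q)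
    (a : ℝ) : Piece k U (a • q) := by
  obtain ⟨i, f, h1, h2, h3, h4, h5⟩ := h
  refine ⟨i, a • f, ?_, ?_, h3.const_smul a, ?_, ?_⟩
  · exact contDiff_const.smul h1
  · exact contDiff_const.smul h2
  · exact h4.mono (Function.support_const_smul_subset a f)
  · exact (closure_mono (Function.support_const_smul_subset a f)).trans h5

theorem Dec.add {n : ℕ} {k : WithTop ℕ∞} {U : Set (E n)} {g g' : E n → ℝ} (h : Dec k U g)
    (h' : Dec k U g') : Dec k U (g + g') := by
  obtain ⟨L, hL, rfl⟩ := h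
  obtain ⟨L', hL', rfl⟩ := h'
  refine ⟨L ++ L', ?_, by rw [List.sum_append]⟩
  intro q hq
  rw [List.mem_append] at hq
  rcases hq with hq | hq
  · exact hL q hq
  · exact hL' q hq

theorem Dec.smul {n : ℕ} {k : WithTop ℕ∞} {U : Set (E n)} {g : E n → ℝ} (h : Dec k U g) (a : ℝ) :
    Dec k U (a • g) := by
  obtain ⟨L, hL, rfl⟩ := h
  refine ⟨L.map (a • ·), ?_, by rw [List.smul_sum]⟩
  intro q hq
  rw [List.mem_map] at hq
  obtain ⟨q', hq', rfl⟩ := hq
  exact (hL q' hq').smul a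

theorem Dec.sub {n : ℕ} {k : WithTop ℕ∞} {U : Set (E n)} {g g' : E n → ℝ} (h : Dec k U g)
    (h' : Dec k U g') : Dec k U (g - g') := by
  have h1 := h.add (h'.smul (-1))
  rwa [neg_one_smul, ← sub_eq_add_neg] at h1

theorem decbasic_piece_mono {n : ℕ} {k : WithTop ℕ∞} {U U' : Set (E n)} {q : E n → ℝ}
    (h : Piece k U q) (hU : U ⊆ U') : Piece k U' q := by
  obtain ⟨i, f, h1, h2, h3, h4, h5⟩ := h
  exact ⟨i, f, h1, h2, h3, h4, h5.trans hU⟩

theorem Dec.mono {n : ℕ} {k : WithTop ℕ∞} {U U' : Set (E n)} {g : E n → ℝ} (h : Dec k U g)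
    (hU : U ⊆ U') : Dec k U' g := by
  obtain ⟨L, hL, hg⟩ := h
  exact ⟨L, fun q hq => decbasic_piece_mono (hL q hq) hU, hg⟩

theorem Piece.eq_zero_off {n : ℕ} {k : WithTop ℕ∞} {U : Set (E n)} {q : E n → ℝ}
    (h : Piece k U q) : ∃ K : Set (E n), IsCompact K ∧ K ⊆ U ∧ ∀ x, x ∉ K → q x = 0 := by
  obtain ⟨i, f, h1, h2, h3, h4, h5⟩ := h
  refine ⟨tsupport f, h4, h5, fun x hx => ?_⟩
  have h6 : ∀ᶠ y in nhds x, f y = 0 := by
    have h7 : (tsupport f)ᶜ ∈ nhds x := (isClosed_tsupport f).isOpen_compl.mem_nhds hx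
    filter_upwards [h7] with y hy
    exact image_eq_zero_of_notMem_tsupport hy
  have h8 : Filter.Tendsto (fun t : ℝ => upd x i t) (nhds (x i)) (nhds x) := by
    have h9 : Continuous fun t : ℝ => upd x i t :=
      (continuous_upd i).comp (continuous_const.prodMk continuous_id)
    have h10 := h9.tendsto (x i)
    rwa [upd_self] at h10
  have h11 : (fun t : ℝ => f (upd x i t)) =ᶠ[nhds (x i)] fun _ => (0 : ℝ) := h8.eventually h6
  have h12 : HasDerivAt (fun t : ℝ => f (upd x i t)) 0 (x i) :=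
    (hasDerivAt_const (x i) (0 : ℝ)).congr_of_eventuallyEq h11
  exact (h3 x).unique h12

theorem Dec.eq_zero_off {n : ℕ} {k : WithTop ℕ∞} {U : Set (E n)} {g : E n → ℝ}
    (h : Dec k U g) : ∃ K : Set (E n), IsCompact K ∧ K ⊆ U ∧ ∀ x, x ∉ K → g x = 0 := by
  obtain ⟨L, hL, rfl⟩ := h
  induction L with
  | nil => exact ⟨∅, isCompact_empty, Set.empty_subset _, fun x _ => by simp⟩
  | cons q L ih =>
    obtain ⟨K, hK, hKU, hK0⟩ := ih fun q' hq' => hL q' (List.mem_cons_of_mem _ hq')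
    obtain ⟨K', hK', hKU', hK0'⟩ := (hL q List.mem_cons_self).eq_zero_off
    refine ⟨K' ∪ K, hK'.union hK, Set.union_subset hKU' hKU, fun x hx => ?_⟩
    rw [List.sum_cons, Pi.add_apply, hK0' x fun h => hx (Or.inl h), hK0 x fun h => hx (Or.inr h),
      add_zero]

theorem Dec.contDiff {n : ℕ} {k : WithTop ℕ∞} {U : Set (E n)} {g : E n → ℝ}
    (h : Dec k U g) : ContDiff ℝ k g := by
  obtain ⟨L, hL, rfl⟩ := h
  induction L with
  | nil =>
    rw [List.sum_nil]
    exact contDiff_const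
  | cons q L ih =>
    rw [List.sum_cons]
    obtain ⟨i, f, h1, h2, h3, h4, h5⟩ := hL q List.mem_cons_self
    exact h2.add (ih fun q' hq' => hL q' (List.mem_cons_of_mem _ hq'))

end Pool.Agent.W_d1cfb0_h59
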