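import Pool.Agent.W_MP_d1cfb0_an.Generators
import Pool.Agent.W_MP_d1cfb0_an.ClosureGroup
import Pool.Agent.W_MP_d1cfb0_an.Transfer

/-!
# Definitions for the general measure preserving homeomorphisms

`E n`, `O n` (open cube `(-1/2,1/2)^n`), `Q n ρ` (closed cube), `SuppIn g B` (`g = id` off `B`),
`ClosedGroup n H` are from `W_MP_d1cfb0_an`. Products of homeomorphisms are compositions,
`g⁻¹ = g.symm` (`mul_apply'`, `inv_apply_self'`, `apply_inv_self'` in `W_MP_d1cfb0_an.Twist`).
-/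

namespace Pool.Agent.W_d1cfb0_h59

open MeasureTheory Pool.Agent.W_MP_d1cfb0_an

/-- Replace the `i`-th coordinate of `x` by `t`. -/
noncomputable def upd {n : ℕ} (x : E n) (i : Fin n) (t : ℝ) : E n :=
  x + (t - x i) • EuclideanSpace.single i (1 : ℝ)

/-- `f` is the partial derivative of `F` in the direction `i`. -/
def HasPart {n : ℕ} (i : Fin n) (F f : E n → ℝ) : Prop :=
  ∀ x : E n, HasDerivAt (fun t : ℝ => F (upd x i t)) (f x) (x i)

/-- The open cube with centre `c` and half side `r`. -/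
def cub {n : ℕ} (c : E n) (r : ℝ) : Set (E n) := {x | ∀ i, |x i - c i| < r}

/-- The closed cube with centre `c` and half side `r`. -/
def ccub {n : ℕ} (c : E n) (r : ℝ) : Set (E n) := {x | ∀ i, |x i - c i| ≤ r}

/-- The closed box `∏ [lo j, hi j]`. -/
def bx {n : ℕ} (lo hi : Fin n → ℝ) : Set (E n) := {x | ∀ j, lo j ≤ x j ∧ x j ≤ hi j}

/-- The open box `∏ (lo j, hi j)`. -/
def obx {n : ℕ} (lo hi : Fin n → ℝ) : Set (E n) := {x | ∀ j, lo j < x j ∧ x j < hi j}

/-- The measure with density `ρ` with respect to Lebesgue measure. -/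
noncomputable def dens {n : ℕ} (ρ : E n → ℝ) : Measure (E n) :=
  (volume : Measure (E n)).withDensity fun x => ENNReal.ofReal (ρ x)

/-- `g` is the identity off some compact subset of `w`. -/
def CS {n : ℕ} (g : E n ≃ₜ E n) (w : Set (E n)) : Prop :=
  ∃ K : Set (E n), IsCompact K ∧ K ⊆ w ∧ SuppIn g K

/-- Measure preserving `C^1` diffeomorphisms. -/
structure Sm {n : ℕ} (d : E n ≃ₜ E n) : Prop where
  c : ContDiff ℝ 1 d
  c' : ContDiff ℝ 1 (d⁻¹ : E n ≃ₜ E n)
  mp : MeasurePreserving d volume volume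

/-- Measure preserving `C^1` diffeomorphisms with compact support in the open cube `O n`. -/
def IsD {n : ℕ} (d : E n ≃ₜ E n) : Prop := Sm d ∧ CS d (O n)

/-- Measure preserving homeomorphisms with compact support in the open cube `O n`. -/
def IsM {n : ℕ} (f : E n ≃ₜ E n) : Prop := MeasurePreserving f volume volume ∧ CS f (O n)

/-- `e` is a `C^k` diffeomorphism (a homeomorphism for `k = 0`) which maps Lebesgue measure to the
measure with the positive `C^k` density `ρ`. -/
structure Dn {n : ℕ} (k : WithTop ℕ∞) (e : E n ≃ₜ E n) (ρ : E n → ℝ) : Prop where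
  c : ContDiff ℝ k e
  c' : ContDiff ℝ k (e⁻¹ : E n ≃ₜ E n)
  d : ContDiff ℝ k ρ
  pos : ∀ x, 0 < ρ x
  map : Measure.map e volume = dens ρ

/-- `H` contains all measure preserving `C^1` diffeomorphisms with compact support in `w`. -/
def Capt {n : ℕ} (H : Set (E n ≃ₜ E n)) (w : Set (E n)) : Prop :=
  ∀ z : E n ≃ₜ E n, Sm z → CS z w → z ∈ H

/-- The affine map `x ↦ c + 2 s x`, which maps `O n` onto `cub c s`. -/
noncomputable def aff {n : ℕ} (c : E n) (s : ℝ) (hs : 0 < s) : E n ≃ₜ E n :=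
  (Homeomorph.smulOfNeZero (2 * s) (by positivity)).trans (Homeomorph.addLeft c)

/-- The conjugate of `t` by `aff c s`; if `t` lives in `O n` then this lives in `cub c s`. -/
noncomputable def sc {n : ℕ} (c : E n) (s : ℝ) (hs : 0 < s) (t : E n ≃ₜ E n) : E n ≃ₜ E n :=
  aff c s hs * t * (aff c s hs)⁻¹

/-- A finite set of measure preserving homeomorphisms of the cube which generates topologically
a group containing all elements of `IsD`. -/
structure Gen (n : ℕ) (G : Set (E n ≃ₜ E n)) : Prop where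
  fin : G.Finite
  supp : ∀ g ∈ G, SuppIn g (O n)
  mp : ∀ g ∈ G, MeasurePreserving g volume volume
  gen : ∀ H : Set (E n ≃ₜ E n), ClosedGroup n H → G ⊆ H → ∀ d, IsD d → d ∈ H

/-- The closure of `IsD` for uniform convergence of maps and inverses. -/
def Dbar (n : ℕ) : Set (E n ≃ₜ E n) :=
  {h | SuppIn h (O n) ∧ ∀ ε : ℝ, 0 < ε → ∃ d : E n ≃ₜ E n, IsD d ∧
    ∀ x, dist (d x) (h x) < ε ∧ dist (d⁻¹ x) (h⁻¹ x) < ε}

/-- `q = ∂_i h` with `h` compactly supported in `U`, both of class `C^k`. -/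
def Piece {n : ℕ} (k : WithTop ℕ∞) (U : Set (E n)) (q : E n → ℝ) : Prop :=
  ∃ (i : Fin n) (h : E n → ℝ), ContDiff ℝ k h ∧ ContDiff ℝ k q ∧ HasPart i h q ∧
    HasCompactSupport h ∧ tsupport h ⊆ U

/-- `g` is a finite sum of pieces. -/
def Dec {n : ℕ} (k : WithTop ℕ∞) (U : Set (E n)) (g : E n → ℝ) : Prop :=
  ∃ L : List (E n → ℝ), (∀ q ∈ L, Piece k U q) ∧ g = L.sum

end Pool.Agent.W_d1cfb0_h59
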