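import Pool.Agent.W_d1cfb0_h59.Basic2

/-!
# Extension by the identity

`C = [0,1]^n`, `h : C ≃ₜ C` fixes all points with some coordinate `0` or `1` and preserves the
volume of Borel sets. Then there is a measure preserving homeomorphism `g` of `E n` with support in
`O n` and `h p = g (p - ctr n) + ctr n` (`ctr n` is the centre `(1/2, …, 1/2)`, `ctr_apply`).

Proof. Define `h' x = h ⟨x, _⟩` for `x ∈ C` and `h' x = x` otherwise; similarly from `h⁻¹ = h.symm`.
`h'` is continuous: `C` is closed and `frontier C` consists of points with a coordinate `0` or `1`,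
where `h p = p` (`ContinuousOn` on `C` and on the closure of `Cᶜ`; `Continuous.if` /
`continuous_if'` / `IsClosed.continuous_piecewise`-type lemmas: on the closed set `C` the function
is `h`, on the closed set `closure Cᶜ` it is the identity, they agree on the intersection). Both
are inverse to each other. So `h' : E n ≃ₜ E n`. It preserves the volume: for measurable `A`,
`volume (h' '' A) = volume (h' '' (A ∩ C)) + volume (A \ C) = volume (A ∩ C) + volume (A \ C)`
(`h'` maps `C` onto `C` and `Cᶜ` onto `Cᶜ`), and `MeasurePreserving` follows by applying this to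
the preimage `A = h' ⁻¹' B`. Let `g x = h' (x + ctr n) - ctr n`. Support: if `x ∉ O n` then
`x + ctr n` is not in `(0,1)^n`, so it is off `C` or has a coordinate `0` or `1`.
-/

namespace Pool.Agent.W_d1cfb0_h59

open MeasureTheory Pool.Agent.W_MP_d1cfb0_an

open Classical in
/-- The extension by the identity of a self map of `C`. -/
noncomputable def extendcube_fun {n : ℕ} (C : Set (E n)) (k : C → C) (x : E n) : E n :=
  if hx : x ∈ C then (k ⟨x, hx⟩ : E n) else x

theorem extendcube_of_mem {n : ℕ} {C : Set (E n)} (k : C → C) {x : E n} (hx : x ∈ C) :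
    extendcube_fun C k x = k ⟨x, hx⟩ := dif_pos hx

theorem extendcube_of_not_mem {n : ℕ} {C : Set (E n)} (k : C → C) {x : E n} (hx : x ∉ C) :
    extendcube_fun C k x = x := dif_neg hx

theorem extendcube_mem_iff {n : ℕ} {C : Set (E n)} (k : C → C) {x : E n} :
    extendcube_fun C k x ∈ C ↔ x ∈ C := by
  by_cases hx : x ∈ C
  · rw [extendcube_of_mem k hx]
    exact ⟨fun _ => hx, fun _ => (k ⟨x, hx⟩).2⟩
  · rw [extendcube_of_not_mem k hx]

theorem extendcube_inv {n : ℕ} {C : Set (E n)} (h : C ≃ₜ C) (x : E n) :
    extendcube_fun C h.symm (extendcube_fun C h x) = x := by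
  by_cases hx : x ∈ C
  · rw [extendcube_of_mem h hx, extendcube_of_mem h.symm (h ⟨x, hx⟩).2]
    simp
  · rw [extendcube_of_not_mem h hx, extendcube_of_not_mem _ hx]

theorem extendcube_isClosed {n : ℕ} {C : Set (E n)}
    (hC : C = {x | ∀ i, x i ∈ Set.Icc (0 : ℝ) 1}) : IsClosed C := by
  have h : C = ⋂ i : Fin n, ({x : E n | 0 ≤ x i} ∩ {x : E n | x i ≤ 1}) := by
    ext x
    simp [hC]
  rw [h]
  exact isClosed_iInter fun i => (isClosed_le continuous_const (by fun_prop)).inter
    (isClosed_le (by fun_prop) continuous_const)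

theorem extendcube_edge {n : ℕ} {C : Set (E n)} (hC : C = {x | ∀ i, x i ∈ Set.Icc (0 : ℝ) 1})
    {x : E n} (hx : x ∈ C) (hx' : x ∈ closure Cᶜ) : ∃ i, x i = 0 ∨ x i = 1 := by
  by_contra hne
  push Not at hne
  have h1 : x ∈ (obx (fun _ => 0) (fun _ => 1) : Set (E n)) := by
    intro i
    have h2 := hx
    rw [hC] at h2
    exact ⟨lt_of_le_of_ne (h2 i).1 (hne i).1.symm, lt_of_le_of_ne (h2 i).2 (hne i).2⟩
  obtain ⟨y, hy1, hy2⟩ := mem_closure_iff.1 hx' _ (isOpen_obx _ _) h1
  apply hy2
  rw [hC]
  exact fun i => ⟨(hy1 i).1.le, (hy1 i).2.le⟩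

theorem extendcube_continuous {n : ℕ} {C : Set (E n)}
    (hC : C = {x | ∀ i, x i ∈ Set.Icc (0 : ℝ) 1}) {k : C → C} (hk : Continuous k)
    (hb : ∀ p : C, (∃ i, (p : E n) i = 0 ∨ (p : E n) i = 1) → k p = p) :
    Continuous (extendcube_fun C k) := by
  have h1 : ContinuousOn (extendcube_fun C k) C := by
    rw [continuousOn_iff_continuous_domRestrict]
    have h2 : C.domRestrict (extendcube_fun C k) = fun p : C => (k p : E n) := by
      funext p
      exact extendcube_of_mem k p.2
    rw [h2]
    exact continuous_subtype_val.comp hk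
  have h2 : ContinuousOn (extendcube_fun C k) (closure Cᶜ) := by
    refine continuousOn_id.congr fun x hx => ?_
    by_cases hxC : x ∈ C
    · rw [extendcube_of_mem k hxC, hb ⟨x, hxC⟩ (extendcube_edge hC hxC hx)]
      rfl
    · rw [extendcube_of_not_mem k hxC]
      rfl
  have h3 := h1.union_of_isClosed h2 (extendcube_isClosed hC) isClosed_closure
  have h4 : C ∪ closure Cᶜ = Set.univ := by
    rw [Set.eq_univ_iff_forall]
    intro x
    by_cases hx : x ∈ C
    · exact Or.inl hx
    · exact Or.inr (subset_closure hx)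
  rwa [h4, continuousOn_univ] at h3

theorem extend_cube {n : ℕ} (C : Set (E n)) (hC : C = {x | ∀ i, x i ∈ Set.Icc (0 : ℝ) 1})
    (h : C ≃ₜ C)
    (hv : ∀ A : Set (E n), MeasurableSet A → A ⊆ C →
      volume (Subtype.val '' (h '' (Subtype.val ⁻¹' A))) = volume A)
    (hb : ∀ p : C, (∃ i, (p : E n) i = 0 ∨ (p : E n) i = 1) → h p = p) :
    ∃ g : E n ≃ₜ E n, MeasurePreserving g volume volume ∧ SuppIn g (O n) ∧
      ∀ p : C, (h p : E n) = g ((p : E n) - ctr n) + ctr n := by
  have hb' : ∀ p : C, (∃ i, (p : E n) i = 0 ∨ (p : E n) i = 1) → h.symm p = p := by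
    intro p hp
    rw [h.symm_apply_eq]
    exact (hb p hp).symm
  have hCc : IsClosed C := extendcube_isClosed hC
  let H : E n ≃ₜ E n :=
    { toFun := extendcube_fun C h
      invFun := extendcube_fun C h.symm
      left_inv := extendcube_inv h
      right_inv := fun x => by
        have h1 := extendcube_inv h.symm x
        rwa [h.symm_symm] at h1
      continuous_toFun := extendcube_continuous hC h.continuous hb
      continuous_invFun := extendcube_continuous hC h.symm.continuous hb' }
  have hH : ∀ x, H x = extendcube_fun C h x := fun _ => rfl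
  have hmp : MeasurePreserving H volume volume := by
    refine ⟨H.continuous.measurable, ?_⟩
    ext B hB
    rw [Measure.map_apply H.continuous.measurable hB]
    have hA : MeasurableSet (H ⁻¹' B) := H.continuous.measurable hB
    have e1 := measure_inter_add_sdiff (μ := (volume : Measure (E n))) (H ⁻¹' B)
      hCc.measurableSet
    have e2 := measure_inter_add_sdiff (μ := (volume : Measure (E n))) B hCc.measurableSet
    have e3 : (H ⁻¹' B) \ C = B \ C := by
      ext x
      simp only [Set.mem_sdiff, Set.mem_preimage]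
      constructor
      · rintro ⟨h1, h2⟩
        rw [hH, extendcube_of_not_mem _ h2] at h1
        exact ⟨h1, h2⟩
      · rintro ⟨h1, h2⟩
        rw [hH, extendcube_of_not_mem _ h2]
        exact ⟨h1, h2⟩
    have e4 : volume ((H ⁻¹' B) ∩ C) = volume (B ∩ C) := by
      rw [← hv _ (hA.inter hCc.measurableSet) Set.inter_subset_right]
      congr 1
      ext y
      constructor
      · rintro ⟨q, ⟨p, hp, rfl⟩, rfl⟩
        obtain ⟨hp1, hp2⟩ := hp
        rw [Set.mem_preimage, hH, extendcube_of_mem _ hp2] at hp1
        exact ⟨hp1, (h p).2⟩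
      · rintro ⟨hy1, hy2⟩
        refine ⟨⟨y, hy2⟩, ⟨h.symm ⟨y, hy2⟩, ⟨?_, (h.symm ⟨y, hy2⟩).2⟩, ?_⟩, rfl⟩
        · rw [Set.mem_preimage, hH, extendcube_of_mem _ (h.symm ⟨y, hy2⟩).2]
          simpa using hy1
        · simp
    rw [← e1, ← e2, e3, e4]
  refine ⟨(Homeomorph.addRight (ctr n)).trans (H.trans (Homeomorph.subRight (ctr n))), ?_, ?_, ?_⟩
  · have t1 : MeasurePreserving (fun x : E n => x + ctr n) volume volume :=
      measurePreserving_add_right volume (ctr n)
    have t2 : MeasurePreserving (fun x : E n => x - ctr n) volume volume :=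
      measurePreserving_sub_right volume (ctr n)
    exact t2.comp (hmp.comp t1)
  · intro x hx
    change H (x + ctr n) - ctr n = x
    have h1 : H (x + ctr n) = x + ctr n := by
      rw [hH]
      by_cases h2 : x + ctr n ∈ C
      · rw [extendcube_of_mem _ h2, hb]
        by_contra hne
        push Not at hne
        apply hx
        intro i
        have h3 := h2
        rw [hC] at h3
        have h4 := h3 i
        have h5 := hne i
        simp only [PiLp.add_apply, ctr_apply, Set.mem_Icc] at h4 h5
        rw [abs_lt]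
        constructor
        · rcases h4.1.lt_or_eq with h6 | h6
          · linarith
          · exact absurd h6.symm h5.1
        · rcases h4.2.lt_or_eq with h6 | h6
          · linarith
          · exact absurd h6 h5.2
      · exact extendcube_of_not_mem _ h2
    rw [h1, add_sub_cancel_right]
  · intro p
    change (h p : E n) = H ((p : E n) - ctr n + ctr n) - ctr n + ctr n
    rw [sub_add_cancel, sub_add_cancel, hH, extendcube_of_mem _ p.2]

end Pool.Agent.W_d1cfb0_h59
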