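import Pool.Agent.W_d1cfb0_h59.Basic2

/-!
# From compactly supported homeomorphisms to all which are the identity off the open cube

Proof. Let `h` be measure preserving with `SuppIn h (O n)`. For `0 < s < 1` let `h_s = alex h s _`
(in `W_MP_d1cfb0_an.Words`: `x ↦ s • h (s⁻¹ • x)`). It is measure preserving (conjugation of `h` by
the linear map `x ↦ s • x`, which multiplies the measure by `s ^ n`:
`Measure.map_addHaar_smul` or `MeasureTheory.Measure.addHaar_preimage_smul` for the preimage of a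
measurable set). Its support is in `Q n (s / 2)`: if `x ∉ Q n (s/2)` then `s⁻¹ • x ∉ O n`. So
`IsM h_s` (`isM_of_Q`), `h_s ∈ H`. Uniform closeness as `s → 1`:
`dist (s • h (s⁻¹ • x)) (h x) ≤ dist (s • h (s⁻¹ • x)) (h (s⁻¹ • x)) + dist (h (s⁻¹ • x)) (h x)`.
For `x ∈ Q n (1/2)` (norm `≤ n`) and `s ≥ 1/2`: the first is `(1 - s) ‖h (s⁻¹ • x)‖ ≤
(1 - s) (2 n + n)`-like bounds (a point is moved at most by `2 n`), the second is small by uniform
continuity (`SuppIn.uniformContinuous_of_cube`, `‖s⁻¹ • x - x‖ ≤ (s⁻¹ - 1) n`). For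
`x ∉ Q n (1/2)` both `h_s x = x` and `h x = x`. The same for the inverse
(`alex_inv_apply`). Use `hH.closed`.
-/

namespace Pool.Agent.W_d1cfb0_h59

open MeasureTheory Pool.Agent.W_MP_d1cfb0_an

theorem scaleall_close {n : ℕ} {g : E n ≃ₜ E n} (hg : SuppIn g (O n)) {ε : ℝ} (hε : 0 < ε) :
    ∃ η : ℝ, 0 < η ∧ ∀ s : ℝ, 1 / 2 ≤ s → s < 1 → 1 - η ≤ s →
      ∀ x, dist (s • g (s⁻¹ • x)) (g x) < ε := by
  obtain ⟨δ, hδ, hu⟩ := Metric.uniformContinuous_iff.1 hg.uniformContinuous_of_cube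
    (ε / 2) (half_pos hε)
  have hm : 0 < min (ε / 2) δ := lt_min (half_pos hε) hδ
  refine ⟨min (ε / 2) δ / (n + 1), by positivity, fun s hs1 hs2 hs3 x => ?_⟩
  have hs0 : 0 < s := by linarith
  have hsi : 1 ≤ s⁻¹ := (one_le_inv₀ hs0).2 hs2.le
  have hsi2 : s⁻¹ ≤ 2 := by
    rw [inv_le_comm₀ hs0 (by norm_num)]
    linarith
  have hsi3 : s⁻¹ - 1 ≤ 2 * (1 - s) := by
    have h1 : s⁻¹ - 1 = s⁻¹ * (1 - s) := by
      field_simp
    rw [h1]
    exact mul_le_mul_of_nonneg_right hsi2 (by linarith)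
  have hn : (0 : ℝ) ≤ n := Nat.cast_nonneg n
  have hkey : (1 - s) * n < min (ε / 2) δ := by
    have h1 : 1 - s ≤ min (ε / 2) δ / (n + 1) := by linarith
    calc (1 - s) * n ≤ min (ε / 2) δ / (n + 1) * n := mul_le_mul_of_nonneg_right h1 hn
      _ < min (ε / 2) δ := by
        rw [div_mul_eq_mul_div, div_lt_iff₀ (by positivity)]
        nlinarith
  have hnorm : ∀ y : E n, y ∈ ccub (0 : E n) (1 / 2) → ‖y‖ ≤ n / 2 := by
    intro y hy
    have h1 := dist_le_of_mem_ccub hy (by norm_num)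
    rw [dist_zero_right] at h1
    linarith
  by_cases hx : x ∈ ccub (0 : E n) (1 / 2)
  · have hx1 : ‖x‖ ≤ n / 2 := hnorm x hx
    have h1 : dist (s⁻¹ • x) x < δ := by
      rw [dist_eq_norm]
      have h2 : s⁻¹ • x - x = (s⁻¹ - 1) • x := by
        rw [sub_smul, one_smul]
      rw [h2, norm_smul, Real.norm_eq_abs, abs_of_nonneg (by linarith)]
      calc (s⁻¹ - 1) * ‖x‖ ≤ (2 * (1 - s)) * (n / 2) :=
            mul_le_mul hsi3 hx1 (norm_nonneg _) (by linarith)
        _ = (1 - s) * n := by ring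
        _ < δ := hkey.trans_le (min_le_right _ _)
    have h2 : ‖g (s⁻¹ • x)‖ ≤ n := by
      by_cases h3 : s⁻¹ • x ∈ O n
      · have h4 : g (s⁻¹ • x) ∈ O n := hg.mem_of_mem h3
        rw [O_eq_cub] at h4
        have h5 := hnorm _ (cub_subset_ccub _ _ h4)
        linarith
      · rw [hg _ h3, norm_smul, Real.norm_eq_abs, abs_of_nonneg (by linarith)]
        calc s⁻¹ * ‖x‖ ≤ 2 * (n / 2) := mul_le_mul hsi2 hx1 (norm_nonneg _) (by norm_num)
          _ = n := by ring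
    have h3 : dist (s • g (s⁻¹ • x)) (g (s⁻¹ • x)) < ε / 2 := by
      rw [dist_eq_norm]
      have h4 : s • g (s⁻¹ • x) - g (s⁻¹ • x) = (-(1 - s)) • g (s⁻¹ • x) := by
        rw [neg_sub, sub_smul, one_smul]
      rw [h4, norm_smul, Real.norm_eq_abs, abs_neg, abs_of_nonneg (by linarith)]
      calc (1 - s) * ‖g (s⁻¹ • x)‖ ≤ (1 - s) * n := mul_le_mul_of_nonneg_left h2 (by linarith)
        _ < ε / 2 := hkey.trans_le (min_le_left _ _)
    have h4 : dist (g (s⁻¹ • x)) (g x) < ε / 2 := hu h1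
    have h5 := dist_triangle (s • g (s⁻¹ • x)) (g (s⁻¹ • x)) (g x)
    linarith
  · have h1 : x ∉ O n := by
      intro h2
      rw [O_eq_cub] at h2
      exact hx (cub_subset_ccub _ _ h2)
    have h2 : s⁻¹ • x ∉ O n := by
      intro h3
      apply h1
      rw [O_eq_cub] at h3 ⊢
      intro i
      have h4 := h3 i
      simp only [PiLp.smul_apply, smul_eq_mul, PiLp.zero_apply, sub_zero, abs_mul,
        abs_of_pos (inv_pos.2 hs0)] at h4 ⊢
      have h5 : |x i| ≤ s⁻¹ * |x i| := le_mul_of_one_le_left (abs_nonneg _) hsi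
      linarith
    rw [hg _ h2, hg _ h1, smul_inv_smul₀ hs0.ne', dist_self]
    exact hε

theorem scaleall_sc {n : ℕ} (h : E n ≃ₜ E n) (s : ℝ) (hs : 0 < s / 2) (x : E n) :
    sc 0 (s / 2) hs h x = s • h (s⁻¹ • x) := by
  have h1 : sc 0 (s / 2) hs h x =
      aff 0 (s / 2) hs (h ((aff (0 : E n) (s / 2) hs)⁻¹ x)) := rfl
  rw [h1, aff_inv_apply, aff_apply, mul_div_cancel₀ s (two_ne_zero), zero_add, sub_zero]

theorem all_mp {n : ℕ} {H : Set (E n ≃ₜ E n)} (hH : ClosedGroup n H)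
    (hM : ∀ f, IsM f → f ∈ H) (h : E n ≃ₜ E n) (hmp : MeasurePreserving h volume volume)
    (hs : SuppIn h (O n)) : h ∈ H := by
  refine hH.closed h hs fun ε hε => ?_
  obtain ⟨η, hη, h1⟩ := scaleall_close hs hε
  obtain ⟨η', hη', h2⟩ := scaleall_close hs.inv hε
  set s : ℝ := max (1 / 2) (1 - min η η') with hsdef
  have hs1 : 1 / 2 ≤ s := le_max_left _ _
  have hs2 : s < 1 := max_lt (by norm_num) (by linarith [lt_min hη hη'])
  have hs3 : 1 - min η η' ≤ s := le_max_right _ _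
  have hs4 : 1 - η ≤ s := by linarith [min_le_left η η']
  have hs5 : 1 - η' ≤ s := by linarith [min_le_right η η']
  have hs0 : 0 < s / 2 := by linarith
  refine ⟨sc 0 (s / 2) hs0 h, hM _ ?_, fun x => ⟨?_, ?_⟩⟩
  · refine isM_of_Q (ρ := s / 2) (by linarith) (sc_mp hmp) ?_
    rw [Q_eq_ccub]
    exact (sc_suppIn hs).mono (cub_subset_ccub _ _)
  · rw [scaleall_sc]
    exact h1 s hs1 hs2 hs4 x
  · rw [← sc_inv, scaleall_sc]
    exact h2 s hs1 hs2 hs5 x

end Pool.Agent.W_d1cfb0_h59
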