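import Pool.Agent.W_d1cfb0_h59.AllM
import Pool.Agent.W_d1cfb0_h59.ScaleAll
import Pool.Agent.W_d1cfb0_h59.ExtendCube

/-!
# The theorem for the cube

Finitely many measure preserving homeomorphisms of `[0,1]^n` generate a group whose closure contains
every measure preserving homeomorphism of the cube which fixes the boundary points.
-/

namespace Pool.Agent.W_d1cfb0_h59

open MeasureTheory Pool.Agent.W_MP_d1cfb0_an

theorem exists_gen {n : ℕ} (hn : 2 ≤ n) : ∃ G : Set (E n ≃ₜ E n), Gen n G := by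
  obtain ⟨G, hf, hG, hGH⟩ := exists_generators hn
  refine ⟨G, hf, fun g hg => (hG g hg).1, fun g hg => (hG g hg).2, fun H hH hGs d hd => ?_⟩
  obtain ⟨ρ, h0, h1, hs⟩ := hd.isM.exists_Q
  exact inner hn hH (hGH H hH hGs) d hd.1.c hd.1.c' hd.1.mp h0 h1 hs

theorem final_boundary (n : ℕ) (hn : 2 ≤ n) (C : Set (E n))
    (hC : C = {x | ∀ i, x i ∈ Set.Icc (0 : ℝ) 1}) :
    ∃ k : ℕ, ∃ T : Fin k → (C ≃ₜ C),
      (∀ i, ∀ A : Set (E n), MeasurableSet A → A ⊆ C →
        volume (Subtype.val '' ((T i) '' (Subtype.val ⁻¹' A))) = volume A) ∧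
      ∀ h : C ≃ₜ C, (∀ A : Set (E n), MeasurableSet A → A ⊆ C →
          volume (Subtype.val '' (h '' (Subtype.val ⁻¹' A))) = volume A) →
        (∀ p : C, (∃ i, (p : E n) i = 0 ∨ (p : E n) i = 1) → h p = p) →
        ∀ ε : ℝ, 0 < ε → ∃ g : C ≃ₜ C,
          (∀ S : Set (C ≃ₜ C), Homeomorph.refl C ∈ S → (∀ i, T i ∈ S) →
              (∀ f ∈ S, ∀ f' ∈ S, f.trans f' ∈ S) → (∀ f ∈ S, f.symm ∈ S) → g ∈ S) ∧
          ∀ p : C, dist (g p) (h p) < ε ∧ dist (g.symm p) (h.symm p) < ε := by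
  obtain ⟨G, hG⟩ := exists_gen hn
  obtain ⟨u, hump, hus, hu⟩ := partU hn hG
  have hfin : (insert u G).Finite := hG.fin.insert u
  obtain ⟨k, T, hT⟩ : ∃ (k : ℕ) (T : Fin k → (E n ≃ₜ E n)), Set.range T = insert u G := by
    have := hfin.fintype
    refine ⟨Fintype.card (insert u G : Set (E n ≃ₜ E n)),
      fun i => ((Fintype.equivFin (insert u G : Set (E n ≃ₜ E n))).symm i : E n ≃ₜ E n), ?_⟩
    ext g
    constructor
    · rintro ⟨i, rfl⟩
      exact ((Fintype.equivFin (insert u G : Set (E n ≃ₜ E n))).symm i).2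
    · intro hg
      exact ⟨Fintype.equivFin (insert u G : Set (E n ≃ₜ E n)) ⟨g, hg⟩, by simp⟩
  have hTs : ∀ g ∈ Set.range T, SuppIn g (O n) := by
    rw [hT]
    rintro g (rfl | hg)
    · exact hus
    · exact hG.supp g hg
  have hTm : ∀ g ∈ Set.range T, MeasurePreserving g volume volume := by
    rw [hT]
    rintro g (rfl | hg)
    · exact hump
    · exact hG.mp g hg
  obtain ⟨T', hT'1, hT'2⟩ := transfer C hC T (fun i => hTs _ (Set.mem_range_self i))
    (fun i => hTm _ (Set.mem_range_self i))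
  refine ⟨k, T', hT'1, ?_⟩
  intro h hhv hhb
  obtain ⟨g, hgmp, hgs, hgh⟩ := extend_cube C hC h hhv hhb
  have hcg := closedGroup_closure (Set.range T) hTs
  have hsub : Set.range T ⊆ {h | SuppIn h (O n) ∧ ∀ ε : ℝ, 0 < ε →
      ∃ g ∈ Subgroup.closure (Set.range T),
      ∀ x, dist (g x) (h x) < ε ∧ dist (g⁻¹ x) (h⁻¹ x) < ε} := by
    intro g hg
    refine ⟨hTs g hg, fun ε hε => ⟨g, Subgroup.subset_closure hg, ?_⟩⟩
    intro x
    rw [dist_self, dist_self]
    exact ⟨hε, hε⟩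
  have hmem := all_mp hcg (all_isM hn hcg (hu _ hcg
    (fun g hg => hsub (by rw [hT]; exact Set.mem_insert_of_mem u hg))
    (hsub (by rw [hT]; exact Set.mem_insert u G)))) g hgmp hgs
  exact hT'2 g h hgh hmem.2

end Pool.Agent.W_d1cfb0_h59
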