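import Pool.Agent.W_d1cfb0_h59.Moser

/-!
# Correction of a diffeomorphism to a measure preserving one by two Moser maps

`e` has compact support `K`, density `ρ`, `e '' X ⊆ Ω₂` is disjoint from `Ω₁` and
`K ⊆ Ω₁ ∪ e '' X`. If `volume X < volume ((Ω₁ ∩ Ω₂) ∪ e '' X)` (a disjoint union) and
`Ω₁ ∩ Ω₂` is not empty then there are `ψ`, `θ` with compact supports in `Ω₁`, `Ω₂` such that
`θ ψ e` is a measure preserving `C^1` diffeomorphism.

Proof. `ρ = 1` off `K` (`Dn.eq_one_off`). Let `Y = K \ Ω₁`, compact, `Y ⊆ e '' X ⊆ Ω₂`. Let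
`μ = ∫ x in Y, (ρ x - 1)`. As `e '' X \ Y = e '' X \ K` (because `e '' X` is disjoint from `Ω₁`)
and `ρ = 1` there, `μ = ∫ x in e '' X, (ρ x - 1) = volume X - volume (e '' X)` (real numbers; use
`(map e volume) (e '' X) = volume X`). So `μ < volume (Ω₁ ∩ Ω₂)` and by inner regularity
(`IsOpen.exists_lt_isCompact`) there is a compact `C ⊆ Ω₁ ∩ Ω₂` with `volume C > μ` and
`volume C > 0` (`Ω₁ ∩ Ω₂` is open and nonempty, so has positive volume; take the union of two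
compact sets). `C` and `Y` are disjoint. Since `volume C - μ > 0` and `ρ` is bounded on a compact
neighbourhood of `Y`, outer regularity gives an open `V ⊇ Y` with compact closure contained in
`Ω₂ \ C` and `∫ x in V \ Y, |ρ x - 1| < volume C - μ`. Let `χ` be smooth with compact support in
`V`, `0 ≤ χ ≤ 1`, `χ = 1` on a neighbourhood of `Y`
(`exists_contMDiffMap_one_nhds_of_subset_interior`, `exists_contDiff_tsupport_subset`, or
`IsCompact` + bump functions), and `ω` smooth with compact support in `Ω₁ ∩ Ω₂`, `0 ≤ ω ≤ 1`,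
`ω = 1` on `C`. Then `m := ∫ (1 - χ) ω ≥ volume C > 0` (`χ = 0` on `C`) and
`a := ∫ χ (ρ - 1) ≤ μ + ∫ x in V \ Y, |ρ x - 1| < volume C ≤ m` (on `Y` we have `χ = 1`). Put
`t = 1 - a / m > 0` and `ρ₃ = χ ρ + (1 - χ) (1 + ω (t - 1))`.
* `ρ₃ > 0`: `1 + ω (t - 1) = (1 - ω) + ω t > 0`, convex combination. `ρ₃` is `C^1`.
* `ρ₃ - 1 = χ (ρ - 1) + (t - 1) (1 - χ) ω` has compact support in `Ω₂`, and its integral is
  `a + (t - 1) m = 0`.
* `ρ₃ - ρ = (1 - χ) (1 - ρ + ω (t - 1))` vanishes near `Y` (there `χ = 1`) and off `K ∪ tsupport ω`;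
  so it has compact support in `Ω₁` (`K \ Y ⊆ Ω₁`). Its integral is
  `∫ (ρ₃ - 1) - ∫ (ρ - 1) = 0`, because `∫ (ρ - 1) = ∫ x in K, (ρ x - 1) =
  volume (e ⁻¹' K) - volume K = 0` (`e ⁻¹' K = K`).
`moser` with `k = 1` gives `ψ` with `CS ψ Ω₁`, `map ψ (dens ρ) = dens ρ₃`, and `θ` with `CS θ Ω₂`,
`map θ (dens ρ₃) = dens 1 = volume`. So `map (θ ψ e) volume = volume`.
-/

namespace Pool.Agent.W_d1cfb0_h59

open MeasureTheory Pool.Agent.W_MP_d1cfb0_an

theorem gs_bump {n : ℕ} {S U : Set (E n)} (hS : IsCompact S) (hU : IsOpen U) (h : S ⊆ U) :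
    ∃ (f : E n → ℝ) (L N : Set (E n)), ContDiff ℝ 1 f ∧ IsCompact L ∧ L ⊆ U ∧ IsOpen N ∧ S ⊆ N ∧
      (∀ x ∈ N, f x = 1) ∧ (∀ x, x ∉ L → f x = 0) ∧ ∀ x, 0 ≤ f x ∧ f x ≤ 1 := by
  obtain ⟨L, hL, h1, h2⟩ := exists_compact_between hS hU h
  obtain ⟨f, hf1, hf2, hf3⟩ := exists_contMDiffMap_one_nhds_of_subset_interior (n := 1)
    (modelWithCornersSelf ℝ (E n)) hS.isClosed h1
  obtain ⟨N, hN, hSN, hN1⟩ := eventually_nhdsSet_iff_exists.1 hf1
  exact ⟨f, L, N, f.contMDiff.contDiff, hL, h2, hN, hSN, hN1, hf2,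
    fun x => ⟨(hf3 x).1, (hf3 x).2⟩⟩

theorem gs_vol {n : ℕ} {e : E n ≃ₜ E n} {K X Ω₁ : Set (E n)} (hK : IsCompact K)
    (heK : SuppIn e K) (hX : IsCompact X) (h₁ : IsOpen Ω₁) (hd : Disjoint (e '' X) Ω₁)
    (hKX : K ⊆ Ω₁ ∪ e '' X) :
    volume X + volume (K \ Ω₁) = volume (e ⁻¹' (K \ Ω₁)) + volume (e '' X) := by
  have hY : MeasurableSet (K \ Ω₁) := hK.measurableSet.diff h₁.measurableSet
  have hZ : MeasurableSet (e '' X \ K) :=
    (hX.image e.continuous).measurableSet.diff hK.measurableSet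
  have h1 : e '' X = (K \ Ω₁) ∪ (e '' X \ K) := by
    ext x
    constructor
    · intro hx
      by_cases hxK : x ∈ K
      · exact Or.inl ⟨hxK, Set.disjoint_left.1 hd hx⟩
      · exact Or.inr ⟨hx, hxK⟩
    · rintro (hx | hx)
      · rcases hKX hx.1 with h2 | h2
        · exact absurd h2 hx.2
        · exact h2
      · exact hx.1
  have hdis : Disjoint (K \ Ω₁) (e '' X \ K) :=
    Set.disjoint_left.2 fun x hx hx' => hx'.2 hx.1
  have h2 : e ⁻¹' (e '' X \ K) = e '' X \ K := by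
    ext x
    constructor
    · intro hx
      have h3 : x ∉ K := fun h4 => hx.2 (heK.mem_of_mem h4)
      have h4 := heK x h3
      have h5 : e x ∈ e '' X \ K := hx
      rwa [h4] at h5
    · intro hx
      change e x ∈ e '' X \ K
      rw [heK x hx.2]
      exact hx
  have h3 : X = e ⁻¹' (K \ Ω₁) ∪ (e '' X \ K) := by
    rw [← h2, ← Set.preimage_union, ← h1]
    exact (Set.preimage_image_eq X e.injective).symm
  have h4 : Disjoint (e ⁻¹' (K \ Ω₁)) (e '' X \ K) := by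
    rw [← h2]
    exact hdis.preimage e
  have h5 : volume X = volume (e ⁻¹' (K \ Ω₁)) + volume (e '' X \ K) := by
    conv_lhs => rw [h3]
    exact measure_union h4 hZ
  have h6 : volume (e '' X) = volume (K \ Ω₁) + volume (e '' X \ K) := by
    conv_lhs => rw [h1]
    exact measure_union hdis hZ
  rw [h5, h6]
  ring

theorem gs_lint {n : ℕ} {k : WithTop ℕ∞} {e : E n ≃ₜ E n} {ρ : E n → ℝ} (he : Dn k e ρ)
    {S : Set (E n)} (hS : MeasurableSet S) :
    ∫⁻ x in S, ENNReal.ofReal (ρ x) = volume (e ⁻¹' S) := by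
  rw [← dens_apply ρ hS, ← he.map, Measure.map_apply e.continuous.measurable hS]

theorem gs_int {n : ℕ} {e : E n ≃ₜ E n} {ρ : E n → ℝ} (he : Dn 1 e ρ) {S : Set (E n)}
    (hS : IsCompact S) : ∫ x in S, ρ x = (volume (e ⁻¹' S)).toReal := by
  rw [integral_eq_lintegral_of_nonneg_ae (Filter.Eventually.of_forall fun x => (he.pos x).le)
    he.d.continuous.aestronglyMeasurable, gs_lint he hS.measurableSet]

theorem gs_zero {n : ℕ} {e : E n ≃ₜ E n} {ρ : E n → ℝ} (he : Dn 1 e ρ) {K : Set (E n)}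
    (hK : IsCompact K) (heK : SuppIn e K) : ∫ x, (ρ x - 1) = 0 := by
  have h1 : ∫ x in K, (ρ x - 1) = ∫ x, (ρ x - 1) :=
    setIntegral_eq_integral_of_forall_compl_eq_zero fun x hx => by
      rw [he.eq_one_off hK.isClosed heK x hx, sub_self]
  have h2 : IntegrableOn ρ K := he.d.continuous.continuousOn.integrableOn_compact hK
  have h3 : IntegrableOn (fun _ : E n => (1 : ℝ)) K :=
    continuous_const.continuousOn.integrableOn_compact hK
  have h4 : e ⁻¹' K = K := by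
    ext x
    exact heK.mem_iff
  rw [← h1, integral_sub h2 h3, gs_int he hK, h4, setIntegral_const, smul_eq_mul, mul_one]
  exact sub_self _

theorem gs_cs {n : ℕ} {f : E n → ℝ} {L : Set (E n)} (hL : IsCompact L)
    (h : ∀ x, x ∉ L → f x = 0) : HasCompactSupport f :=
  HasCompactSupport.intro hL fun {x} hx => h x hx

theorem gs_ts {n : ℕ} {f : E n → ℝ} {L : Set (E n)} (hL : IsClosed L)
    (h : ∀ x, x ∉ L → f x = 0) : tsupport f ⊆ L := by
  refine closure_minimal ?_ hL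
  intro x hx
  by_contra h1
  exact hx (h x h1)

theorem gs_upper {n : ℕ} {e : E n ≃ₜ E n} {ρ : E n → ℝ} (he : Dn 1 e ρ) {Y W L : Set (E n)}
    {χ : E n → ℝ} (hχ : Continuous χ) (hY : IsCompact Y) (hL : IsCompact L)
    (hLW : e ⁻¹' L ⊆ W) (hW : volume W ≠ ⊤) (h1 : ∀ x ∈ Y, χ x = 1)
    (h0 : ∀ x, x ∉ L → χ x = 0) (h01 : ∀ x, 0 ≤ χ x ∧ χ x ≤ 1) :
    ∫ x, χ x * (ρ x - 1) ≤ (volume W).toReal - (volume Y).toReal := by
  have hρ := he.d.continuous
  have i1 : Integrable fun x => χ x * ρ x :=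
    (hχ.mul hρ).integrable_of_hasCompactSupport (gs_cs hL fun x hx => by
      change χ x * ρ x = 0
      rw [h0 x hx, zero_mul])
  have i2 : Integrable χ := hχ.integrable_of_hasCompactSupport (gs_cs hL h0)
  have h2 : ∫ x, χ x * (ρ x - 1) = (∫ x, χ x * ρ x) - ∫ x, χ x := by
    rw [← integral_sub i1 i2]
    refine integral_congr_ae (Filter.Eventually.of_forall fun x => ?_)
    simp only
    ring
  have h3 : ∫ x in L, χ x * ρ x = ∫ x, χ x * ρ x :=
    setIntegral_eq_integral_of_forall_compl_eq_zero fun x hx => by rw [h0 x hx, zero_mul]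
  have h4 : ∫ x in L, χ x * ρ x ≤ ∫ x in L, ρ x := by
    refine setIntegral_mono_on i1.integrableOn (hρ.continuousOn.integrableOn_compact hL)
      hL.measurableSet fun x _ => ?_
    have := (h01 x).2
    have h5 := he.pos x
    nlinarith
  have h5 : (volume (e ⁻¹' L)).toReal ≤ (volume W).toReal :=
    ENNReal.toReal_mono hW (measure_mono hLW)
  rw [gs_int he hL] at h4
  have h6 : ∫ x in Y, χ x ≤ ∫ x, χ x :=
    setIntegral_le_integral i2 (Filter.Eventually.of_forall fun x => (h01 x).1)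
  have h7 : ∫ x in Y, χ x = (volume Y).toReal := by
    have h8 : ∫ x in Y, χ x = ∫ x in Y, (1 : ℝ) :=
      setIntegral_congr_fun hY.measurableSet fun x hx => h1 x hx
    rw [h8, setIntegral_const, smul_eq_mul, mul_one]
    rfl
  rw [h2]
  linarith

theorem gs_lower {n : ℕ} {C L : Set (E n)} {f : E n → ℝ} (hf : Continuous f) (hC : IsCompact C)
    (hL : IsCompact L) (h1 : ∀ x ∈ C, f x = 1) (h0 : ∀ x, x ∉ L → f x = 0) (h01 : ∀ x, 0 ≤ f x) :
    (volume C).toReal ≤ ∫ x, f x := by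
  have i2 : Integrable f := hf.integrable_of_hasCompactSupport (gs_cs hL h0)
  have h6 : ∫ x in C, f x ≤ ∫ x, f x :=
    setIntegral_le_integral i2 (Filter.Eventually.of_forall fun x => h01 x)
  have h7 : ∫ x in C, f x = (volume C).toReal := by
    have h8 : ∫ x in C, f x = ∫ x in C, (1 : ℝ) :=
      setIntegral_congr_fun hC.measurableSet fun x hx => h1 x hx
    rw [h8, setIntegral_const, smul_eq_mul, mul_one]
    rfl
  linarith

/-- the corrected density -/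
theorem gs_density {n : ℕ} {e : E n ≃ₜ E n} {ρ : E n → ℝ} (he : Dn 1 e ρ)
    {K X Ω₁ Ω₂ : Set (E n)} (hK : IsCompact K) (heK : SuppIn e K) (hX : IsCompact X)
    (h₁ : IsOpen Ω₁) (h₂ : IsOpen Ω₂) (hd : Disjoint (e '' X) Ω₁) (hKX : K ⊆ Ω₁ ∪ e '' X)
    (hX₂ : e '' X ⊆ Ω₂) (hne : (Ω₁ ∩ Ω₂).Nonempty)
    (hv : volume X < volume (Ω₁ ∩ Ω₂) + volume (e '' X)) :
    ∃ ρ₃ : E n → ℝ, ContDiff ℝ 1 ρ₃ ∧ (∀ x, 0 < ρ₃ x) ∧
      HasCompactSupport (ρ₃ - ρ) ∧ tsupport (ρ₃ - ρ) ⊆ Ω₁ ∧ ∫ x, (ρ₃ x - ρ x) = 0 ∧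
      HasCompactSupport ((fun _ => (1 : ℝ)) - ρ₃) ∧ tsupport ((fun _ => (1 : ℝ)) - ρ₃) ⊆ Ω₂ ∧
      ∫ x, (1 - ρ₃ x) = 0 := by
  obtain ⟨Y, hYdef⟩ : ∃ Y : Set (E n), Y = K \ Ω₁ := ⟨_, rfl⟩
  have hvol := gs_vol hK heK hX h₁ hd hKX
  rw [← hYdef] at hvol
  have hYc : IsCompact Y := by
    rw [hYdef]
    exact hK.diff h₁
  have hYX : Y ⊆ e '' X := by
    intro x hx
    rw [hYdef] at hx
    rcases hKX hx.1 with h2 | h2
    · exact absurd h2 hx.2
    · exact h2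
  have hYfin : volume Y ≠ ⊤ := hYc.measure_lt_top.ne
  have heXfin : volume (e '' X) ≠ ⊤ := (hX.image e.continuous).measure_lt_top.ne
  have hpre : IsCompact (e ⁻¹' Y) := by
    rw [← e.image_symm]
    exact hYc.image e.symm.continuous
  have hprefin : volume (e ⁻¹' Y) ≠ ⊤ := hpre.measure_lt_top.ne
  have hopen : IsOpen (Ω₁ ∩ Ω₂) := h₁.inter h₂
  have hpos : 0 < volume (Ω₁ ∩ Ω₂) := hopen.measure_pos volume hne
  -- the volume condition
  have hlt : volume (e ⁻¹' Y) < volume (Ω₁ ∩ Ω₂) + volume Y := by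
    have a1 : volume (e ⁻¹' Y) + volume (e '' X) <
        (volume (Ω₁ ∩ Ω₂) + volume Y) + volume (e '' X) := by
      rw [← hvol]
      calc volume X + volume Y < (volume (Ω₁ ∩ Ω₂) + volume (e '' X)) + volume Y :=
            ENNReal.add_lt_add_right hYfin hv
        _ = (volume (Ω₁ ∩ Ω₂) + volume Y) + volume (e '' X) := by ring
    exact lt_of_add_lt_add_right a1
  have hlt2 : volume (e ⁻¹' Y) - volume Y < volume (Ω₁ ∩ Ω₂) := by
    rcases le_total (volume Y) (volume (e ⁻¹' Y)) with h3 | h3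
    · exact ENNReal.sub_lt_of_lt_add h3 hlt
    · rw [tsub_eq_zero_of_le h3]
      exact hpos
  obtain ⟨C, hCsub, hC, hCv⟩ := hopen.exists_lt_isCompact hlt2
  have hlt3 : volume (e ⁻¹' Y) < volume C + volume Y :=
    lt_of_le_of_lt le_tsub_add (ENNReal.add_lt_add_right hYfin hCv)
  have hCfin : volume C ≠ ⊤ := hC.measure_lt_top.ne
  obtain ⟨W, hYW, hW, hWv⟩ := Set.exists_isOpen_lt_of_lt (e ⁻¹' Y) _ hlt3
  have hWfin : volume W ≠ ⊤ := (hWv.trans (ENNReal.add_lt_top.2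
    ⟨hCfin.lt_top, hYfin.lt_top⟩)).ne
  -- the bump functions
  have hYU : Y ⊆ (e '' W) ∩ (Ω₂ ∩ Cᶜ) := by
    intro y hy
    refine ⟨⟨e.symm y, hYW ?_, e.apply_symm_apply y⟩, hX₂ (hYX hy), ?_⟩
    · change e (e.symm y) ∈ Y
      rw [e.apply_symm_apply]
      exact hy
    · intro hyC
      rw [hYdef] at hy
      exact hy.2 (hCsub hyC).1
  obtain ⟨χ, L, N, hχ, hL, hLU, hN, hYN, hχ1, hχ0, hχ01⟩ := gs_bump hYc
    ((e.isOpenMap W hW).inter (h₂.inter hC.isClosed.isOpen_compl)) hYU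
  obtain ⟨ω, L', N', hω, hL', hLU', hN', hCN', hω1, hω0, hω01⟩ := gs_bump hC hopen hCsub
  have hLW : e ⁻¹' L ⊆ W := by
    intro x hx
    obtain ⟨y, hy, hyx⟩ := (hLU hx).1
    rwa [e.injective hyx] at hy
  have hρ := he.d
  have hρ1 := he.eq_one_off hK.isClosed heK
  obtain ⟨a, ha⟩ : ∃ a : ℝ, a = ∫ x, χ x * (ρ x - 1) := ⟨_, rfl⟩
  obtain ⟨m, hm⟩ : ∃ m : ℝ, m = ∫ x, (1 - χ x) * ω x := ⟨_, rfl⟩
  have haC : a < (volume C).toReal := by
    have b1 := gs_upper he hχ.continuous hYc hL hLW hWfin (fun x hx => hχ1 x (hYN hx)) hχ0 hχ01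
    rw [← ha] at b1
    have b2 : (volume W).toReal < (volume C).toReal + (volume Y).toReal := by
      rw [← ENNReal.toReal_add hCfin hYfin]
      exact (ENNReal.toReal_lt_toReal hWfin (ENNReal.add_ne_top.2 ⟨hCfin, hYfin⟩)).2 hWv
    linarith
  have hCm : (volume C).toReal ≤ m := by
    rw [hm]
    refine gs_lower ((continuous_const.sub hχ.continuous).mul hω.continuous) hC hL' ?_ ?_ ?_
    · intro x hx
      have c1 : χ x = 0 := hχ0 x fun h3 => (hLU h3).2.2 hx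
      rw [c1, hω1 x (hCN' hx)]
      norm_num
    · intro x hx
      rw [hω0 x hx, mul_zero]
    · intro x
      exact mul_nonneg (sub_nonneg.2 (hχ01 x).2) (hω01 x).1
  have hCpos : 0 < (volume C).toReal :=
    ENNReal.toReal_pos (lt_of_le_of_lt zero_le hCv).ne' hCfin
  have hmpos : 0 < m := lt_of_lt_of_le hCpos hCm
  obtain ⟨t, ht⟩ : ∃ t : ℝ, t = 1 - a / m := ⟨_, rfl⟩
  have htpos : 0 < t := by
    rw [ht, sub_pos, div_lt_one hmpos]
    exact lt_of_lt_of_le haC hCm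
  have htm : (t - 1) * m = -a := by
    rw [ht]
    field_simp
    ring
  obtain ⟨ρ₃, hρ₃⟩ : ∃ ρ₃ : E n → ℝ, ∀ x, ρ₃ x =
      χ x * ρ x + (1 - χ x) * (1 + ω x * (t - 1)) := ⟨_, fun _ => rfl⟩
  have hρ₃c : ContDiff ℝ 1 ρ₃ := by
    have : ρ₃ = fun x => χ x * ρ x + (1 - χ x) * (1 + ω x * (t - 1)) := funext hρ₃
    rw [this]
    exact (hχ.mul hρ).add ((contDiff_const.sub hχ).mul
      (contDiff_const.add (hω.mul contDiff_const)))
  have i1 : Integrable fun x => χ x * (ρ x - 1) :=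
    (hχ.continuous.mul (hρ.continuous.sub continuous_const)).integrable_of_hasCompactSupport
      (gs_cs hL fun x hx => by
        change χ x * (ρ x - 1) = 0
        rw [hχ0 x hx, zero_mul])
  have i2 : Integrable fun x => (1 - χ x) * ω x :=
    ((continuous_const.sub hχ.continuous).mul hω.continuous).integrable_of_hasCompactSupport
      (gs_cs hL' fun x hx => by
        change (1 - χ x) * ω x = 0
        rw [hω0 x hx, mul_zero])
  have e1 : ∀ x, ρ₃ x - 1 = χ x * (ρ x - 1) + (t - 1) * ((1 - χ x) * ω x) := by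
    intro x
    rw [hρ₃]
    ring
  have hint1 : ∫ x, (ρ₃ x - 1) = 0 := by
    simp only [e1]
    rw [integral_add i1 (i2.const_mul _), integral_const_mul, ← ha, ← hm, htm]
    ring
  have j1 : Integrable fun x => ρ₃ x - 1 := by
    simp only [e1]
    exact i1.add (i2.const_mul _)
  have j2 : Integrable fun x => ρ x - 1 :=
    (hρ.continuous.sub continuous_const).integrable_of_hasCompactSupport
      (gs_cs hK fun x hx => by
        change ρ x - 1 = 0
        rw [hρ1 x hx, sub_self])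
  refine ⟨ρ₃, hρ₃c, ?_, ?_, ?_, ?_, ?_, ?_, ?_⟩
  · intro x
    rw [hρ₃]
    have c1 := hχ01 x
    have c2 := hω01 x
    have c3 := he.pos x
    have c4 : 0 < 1 + ω x * (t - 1) := by
      have c5 : 1 + ω x * (t - 1) = (1 - ω x) + ω x * t := by ring
      rw [c5]
      rcases c2.1.eq_or_lt with c6 | c6
      · rw [← c6]
        norm_num
      · have := mul_pos c6 htpos
        linarith
    rcases c1.1.eq_or_lt with c6 | c6
    · rw [← c6]
      linarith
    · have c7 := mul_pos c6 c3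
      have c8 := mul_nonneg (sub_nonneg.2 c1.2) c4.le
      linarith
  · refine gs_cs (hK.union hL') fun x hx => ?_
    rw [Set.mem_union, not_or] at hx
    change ρ₃ x - ρ x = 0
    rw [hρ₃, hρ1 x hx.1, hω0 x hx.2]
    ring
  · have c1 : tsupport (ρ₃ - ρ) ⊆ (K ∪ L') \ N := by
      refine gs_ts ((hK.union hL').isClosed.sdiff hN) fun x hx => ?_
      change ρ₃ x - ρ x = 0
      by_cases c2 : x ∈ N
      · rw [hρ₃, hχ1 x c2]
        ring
      · have c3 : x ∉ K ∪ L' := fun c4 => hx ⟨c4, c2⟩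
        rw [Set.mem_union, not_or] at c3
        rw [hρ₃, hρ1 x c3.1, hω0 x c3.2]
        ring
    intro x hx
    obtain ⟨c2, c3⟩ := c1 hx
    rcases c2 with c2 | c2
    · by_contra c4
      exact c3 (hYN (by rw [hYdef]; exact ⟨c2, c4⟩))
    · exact (hLU' c2).1
  · have c1 : ∀ x, ρ₃ x - ρ x = (ρ₃ x - 1) - (ρ x - 1) := fun x => by ring
    simp only [c1]
    rw [integral_sub j1 j2, hint1, gs_zero he hK heK, sub_zero]
  · refine gs_cs (hL.union hL') fun x hx => ?_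
    rw [Set.mem_union, not_or] at hx
    change 1 - ρ₃ x = 0
    rw [hρ₃, hχ0 x hx.1, hω0 x hx.2]
    ring
  · refine (gs_ts (hL.union hL').isClosed fun x hx => ?_).trans ?_
    · rw [Set.mem_union, not_or] at hx
      change 1 - ρ₃ x = 0
      rw [hρ₃, hχ0 x hx.1, hω0 x hx.2]
      ring
    · rintro x (hx | hx)
      · exact (hLU hx).2.1
      · exact (hLU' hx).2
  · have c1 : ∀ x, 1 - ρ₃ x = -(ρ₃ x - 1) := fun x => by ring
    simp only [c1]
    rw [integral_neg, hint1, neg_zero]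

theorem gs {n : ℕ} {e : E n ≃ₜ E n} {ρ : E n → ℝ} (he : Dn 1 e ρ) {K X Ω₁ Ω₂ : Set (E n)}
    (hK : IsCompact K) (heK : SuppIn e K) (hX : IsCompact X) (h₁ : IsOpen Ω₁)
    (h₁c : IsPreconnected Ω₁) (h₂ : IsOpen Ω₂) (h₂c : IsPreconnected Ω₂)
    (hd : Disjoint (e '' X) Ω₁) (hKX : K ⊆ Ω₁ ∪ e '' X) (hX₂ : e '' X ⊆ Ω₂)
    (hne : (Ω₁ ∩ Ω₂).Nonempty) (hv : volume X < volume (Ω₁ ∩ Ω₂) + volume (e '' X)) :
    ∃ ψ θ : E n ≃ₜ E n, CS ψ Ω₁ ∧ CS θ Ω₂ ∧ Sm (θ * ψ * e) := by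
  obtain ⟨ρ₃, a1, a2, a3, a4, a5, a6, a7, a8⟩ :=
    gs_density he hK heK hX h₁ h₂ hd hKX hX₂ hne hv
  obtain ⟨ψ, b1, b2, b3, b4⟩ := moser (Or.inr rfl) h₁ h₁c he.d a1 he.pos a2 a3 a4 a5
  obtain ⟨θ, c1, c2, c3, c4⟩ := moser (Or.inr rfl) h₂ h₂c a1 contDiff_const a2
    (fun _ => one_pos) a6 a7 a8
  refine ⟨ψ, θ, b3, c3, ?_, ?_, ?_⟩
  · exact c1.comp (b1.comp he.c)
  · have h1 : (θ * ψ * e : E n ≃ₜ E n)⁻¹ = e⁻¹ * (ψ⁻¹ * θ⁻¹) := by
      rw [mul_inv_rev, mul_inv_rev]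
    rw [h1]
    exact he.c'.comp (b2.comp c2)
  · refine ⟨(θ * ψ * e : E n ≃ₜ E n).continuous.measurable, ?_⟩
    have h1 : Measure.map (θ * ψ * e : E n ≃ₜ E n) volume =
        Measure.map θ (Measure.map ψ (Measure.map e (volume : Measure (E n)))) := by
      rw [Measure.map_map ψ.continuous.measurable e.continuous.measurable,
        Measure.map_map θ.continuous.measurable
          (ψ.continuous.measurable.comp e.continuous.measurable)]
      rfl
    rw [h1, he.map, b4, c4, dens_one]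

end Pool.Agent.W_d1cfb0_h59
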