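import Pool.Agent.W_d1cfb0_h59.StepHomeo
import Pool.Agent.W_d1cfb0_h59.StepMeas

/-!
# Product maps

Proof. Induction over the number `m ≤ n` of coordinates changed: there are `e`, `ρ` with `Dn 0 e ρ`
and `e x l = τ l (x l)` for `l < m`, `e x l = x l` for `l ≥ m`. Step: compose with the map changing
the coordinate `i = m` only, obtained from `step_homeo` (`k = 0`) and `step_measure` with
`A x = τ i (x i)`, `a x = deriv (τ i) (x i)`, `B x = x i`, `b = 1`: `B (ψ x) = A x` gives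
`ψ x i = τ i (x i)`, and `ψ x = upd x i t` gives `ψ x l = x l` for `l ≠ i` (`upd_ne`). The level
equations are solvable because `τ i` is surjective (continuous, tends to `±∞`:
`Continuous.surjective`). `map ψ (dens a) = dens 1 = volume` (`dens_one`), so
`map ψ volume = dens (fun y => (a (ψ⁻¹ y))⁻¹)` (`map_eq_dens_inv`), i.e. `Dn 0 ψ _`
(`contDiff_zero`). Compose by `Dn.mul`.
-/

namespace Pool.Agent.W_d1cfb0_h59

open MeasureTheory Pool.Agent.W_MP_d1cfb0_an

theorem prodmap_step {n : ℕ} (i : Fin n) (τ : ℝ → ℝ) (h1 : ContDiff ℝ 1 τ)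
    (h2 : ∀ t, 0 < deriv τ t) (h3 : Filter.Tendsto τ Filter.atTop Filter.atTop)
    (h4 : Filter.Tendsto τ Filter.atBot Filter.atBot) :
    ∃ (e : E n ≃ₜ E n) (ρ : E n → ℝ), Dn 0 e ρ ∧ (∀ x, e x i = τ (x i)) ∧
      ∀ x l, l ≠ i → e x l = x l := by
  have hc : Continuous τ := h1.continuous
  have hd : Continuous (deriv τ) := h1.continuous_deriv le_rfl
  have hcoord : Continuous fun x : E n => x i := by fun_prop
  have hA : Continuous fun x : E n => τ (x i) := hc.comp hcoord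
  have ha : Continuous fun x : E n => deriv τ (x i) := hd.comp hcoord
  have hAa : HasPart i (fun x : E n => τ (x i)) fun x => deriv τ (x i) := by
    intro x
    simp only [upd_same]
    exact (h1.differentiable (by norm_num) (x i)).hasDerivAt
  have hBb : HasPart i (fun x : E n => x i) fun _ => (1 : ℝ) := hasPart_coord i
  have hsurj : Function.Surjective τ := hc.surjective h3 h4
  obtain ⟨ψ, -, -, hψ, hψi⟩ := step_homeo i (Or.inl rfl) (contDiff_zero.2 hA)
    (contDiff_zero.2 hcoord) hAa hBb ha continuous_const (fun x => h2 _) (fun _ => one_pos)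
    (fun x => ⟨τ (x i), by rw [upd_same]⟩)
    (fun x => by
      obtain ⟨t, ht⟩ := hsurj (x i)
      exact ⟨t, by rw [upd_same]; exact ht⟩)
  have hm : Measure.map ψ (dens fun x : E n => deriv τ (x i)) = volume := by
    rw [step_measure i hA hcoord hAa hBb ha continuous_const (fun x => h2 _) (fun _ => one_pos)
      ψ hψ hψi, dens_one]
  have hmap := map_eq_dens_inv ha (fun x => h2 _) hm
  refine ⟨ψ, fun y => (deriv τ ((ψ⁻¹ y : E n) i))⁻¹, ?_, hψ, ?_⟩
  · constructor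
    · exact contDiff_zero.2 ψ.continuous
    · exact contDiff_zero.2 (ψ⁻¹ : E n ≃ₜ E n).continuous
    · refine contDiff_zero.2 ?_
      exact (ha.comp (ψ⁻¹ : E n ≃ₜ E n).continuous).inv₀ fun y => (h2 _).ne'
    · exact fun x => inv_pos.2 (h2 _)
    · exact hmap
  · intro x l hl
    obtain ⟨t, ht⟩ := hψi x
    rw [ht, upd_ne _ hl]

theorem prodmap_aux {n : ℕ} (τ : Fin n → ℝ → ℝ) (h1 : ∀ i, ContDiff ℝ 1 (τ i))
    (h2 : ∀ i t, 0 < deriv (τ i) t) (h3 : ∀ i, Filter.Tendsto (τ i) Filter.atTop Filter.atTop)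
    (h4 : ∀ i, Filter.Tendsto (τ i) Filter.atBot Filter.atBot) (m : ℕ) :
    ∃ (e : E n ≃ₜ E n) (ρ : E n → ℝ), Dn 0 e ρ ∧
      ∀ x (i : Fin n), (i.1 < m → e x i = τ i (x i)) ∧ (m ≤ i.1 → e x i = x i) := by
  induction m with
  | zero =>
    exact ⟨1, _, dn_one, fun x i => ⟨fun h => absurd h (Nat.not_lt_zero _), fun _ => rfl⟩⟩
  | succ m ih =>
    obtain ⟨e, ρ, hD, he⟩ := ih
    by_cases hm : m < n
    · obtain ⟨f, σ, hD', hf1, hf2⟩ := prodmap_step ⟨m, hm⟩ (τ ⟨m, hm⟩) (h1 _) (h2 _) (h3 _) (h4 _)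
      refine ⟨f * e, _, hD.mul hD', fun x i => ?_⟩
      rw [mul_apply']
      by_cases h : i = ⟨m, hm⟩
      · subst h
        refine ⟨fun _ => ?_, fun h' => ?_⟩
        · rw [hf1, (he x ⟨m, hm⟩).2 le_rfl]
        · exact absurd h' (by simp)
      · have hne : i.1 ≠ m := fun h' => h (Fin.ext h')
        rw [hf2 _ _ h]
        exact ⟨fun h' => (he x i).1 (by omega), fun h' => (he x i).2 (by omega)⟩
    · refine ⟨e, ρ, hD, fun x i => ?_⟩
      have := i.2
      exact ⟨fun _ => (he x i).1 (by omega), fun h' => (he x i).2 (by omega)⟩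

theorem exists_prod_map {n : ℕ} (τ : Fin n → ℝ → ℝ) (h1 : ∀ i, ContDiff ℝ 1 (τ i))
    (h2 : ∀ i t, 0 < deriv (τ i) t) (h3 : ∀ i, Filter.Tendsto (τ i) Filter.atTop Filter.atTop)
    (h4 : ∀ i, Filter.Tendsto (τ i) Filter.atBot Filter.atBot) :
    ∃ (e : E n ≃ₜ E n) (ρ : E n → ℝ), Dn 0 e ρ ∧ ∀ x i, e x i = τ i (x i) := by
  obtain ⟨e, ρ, hD, he⟩ := prodmap_aux τ h1 h2 h3 h4 n
  exact ⟨e, ρ, hD, fun x i => (he x i).1 i.2⟩

end Pool.Agent.W_d1cfb0_h59
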