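import Pool.Agent.W_d1cfb0_h59.Basic2

/-!
# A one-dimensional map which is the identity on an interval and compresses a large interval

Proof. Let `g : ℝ → ℝ` be the continuous even function with `g = 1` on `[0, s]`, decreasing
linearly from `1` to `κ` on `[s, s + κ]`, `g = κ` on `[s + κ, ∞)`, for instance
`g v = max κ (min 1 (1 - (1 - κ) (|v| - s) / κ))`, with small `κ ∈ (0, 1)`. Then
`∫ v in s..L, g v ≤ κ + κ L < r - s` for `κ` small, where `L = R + |c|`. Put
`τ t = c + ∫ v in 0..(t - c), g v`. It has the continuous derivative `g (t - c) ≥ κ > 0`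
(`Continuous.deriv_integral`, `contDiff_one_iff_deriv`), so it tends to `± ∞`
(`τ t ≥ c + κ (t - c)` for `t ≥ c`, `τ t ≤ c + κ (t - c)` for `t ≤ c`). For `|t - c| ≤ s`,
`τ t = t`. For `|t| ≤ R`, `|t - c| ≤ L`, so `|τ t - c| ≤ s + (κ + κ L) < r`.
-/

namespace Pool.Agent.W_d1cfb0_h59

open MeasureTheory Pool.Agent.W_MP_d1cfb0_an

/-- the density -/
noncomputable def tau_g (s κ δ v : ℝ) : ℝ := κ + (1 - κ) * (δ / (max (|v| - s) 0 + δ)) ^ 2

theorem tau_den {s δ : ℝ} (hδ : 0 < δ) (v : ℝ) : 0 < max (|v| - s) 0 + δ := by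
  have := le_max_right (|v| - s) 0
  linarith

theorem tau_g_cont {s κ δ : ℝ} (hδ : 0 < δ) : Continuous (tau_g s κ δ) := by
  unfold tau_g
  have h : Continuous fun v : ℝ => δ / (max (|v| - s) 0 + δ) := by
    refine Continuous.div continuous_const (by fun_prop) fun v => (tau_den hδ v).ne'
  fun_prop

theorem tau_g_ge {s κ δ : ℝ} (hκ1 : κ ≤ 1) (v : ℝ) : κ ≤ tau_g s κ δ v := by
  unfold tau_g
  have h : 0 ≤ (1 - κ) * (δ / (max (|v| - s) 0 + δ)) ^ 2 :=
    mul_nonneg (by linarith) (sq_nonneg _)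
  linarith

theorem tau_g_one {s κ δ : ℝ} (hδ : 0 < δ) {v : ℝ} (hv : |v| ≤ s) : tau_g s κ δ v = 1 := by
  unfold tau_g
  rw [max_eq_right (by linarith), zero_add, div_self hδ.ne']
  ring

theorem tau_g_neg (s κ δ v : ℝ) : tau_g s κ δ (-v) = tau_g s κ δ v := by
  unfold tau_g
  rw [abs_neg]

/-- the primitive -/
noncomputable def tau_G (s κ δ v : ℝ) : ℝ := ∫ x in (0 : ℝ)..v, tau_g s κ δ x

theorem tau_G_deriv {s κ δ : ℝ} (hδ : 0 < δ) (v : ℝ) :
    HasDerivAt (tau_G s κ δ) (tau_g s κ δ v) v :=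
  ((tau_g_cont hδ).integral_hasStrictDerivAt 0 v).hasDerivAt

theorem tau_G_neg (s κ δ v : ℝ) : tau_G s κ δ (-v) = - tau_G s κ δ v := by
  unfold tau_G
  have h := intervalIntegral.integral_comp_neg (fun x => tau_g s κ δ x) (a := 0) (b := v)
  simp only [tau_g_neg, neg_zero] at h
  rw [h, intervalIntegral.integral_symm (-v) 0]

theorem tau_G_id {s κ δ : ℝ} (hδ : 0 < δ) {v : ℝ} (hv : |v| ≤ s) : tau_G s κ δ v = v := by
  unfold tau_G
  have h : ∫ x in (0 : ℝ)..v, tau_g s κ δ x = ∫ x in (0 : ℝ)..v, (1 : ℝ) := by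
    refine intervalIntegral.integral_congr fun x hx => ?_
    refine tau_g_one hδ (le_trans ?_ hv)
    rw [Set.mem_uIcc] at hx
    rcases hx with hx | hx
    · rw [abs_of_nonneg hx.1, abs_of_nonneg (hx.1.trans hx.2)]
      exact hx.2
    · rw [abs_of_nonpos hx.2, abs_of_nonpos (hx.1.trans hx.2)]
      linarith [hx.1]
  rw [h]
  simp

theorem tau_G_ge {s κ δ : ℝ} (hδ : 0 < δ) (hκ1 : κ ≤ 1) {v : ℝ} (hv : 0 ≤ v) :
    κ * v ≤ tau_G s κ δ v := by
  unfold tau_G
  have h : ∫ x in (0 : ℝ)..v, κ ≤ ∫ x in (0 : ℝ)..v, tau_g s κ δ x := by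
    refine intervalIntegral.integral_mono_on hv (by simp)
      ((tau_g_cont hδ).intervalIntegrable _ _) fun x _ => tau_g_ge hκ1 x
  simpa [mul_comm] using h

theorem tau_G_out {s κ δ : ℝ} (hδ : 0 < δ) (hs : 0 < s) (hκ0 : 0 ≤ κ) {v : ℝ}
    (hv : s ≤ v) : tau_G s κ δ v ≤ s + κ * (v - s) + δ := by
  have h1 : tau_G s κ δ v = tau_G s κ δ s + ∫ x in s..v, tau_g s κ δ x := by
    unfold tau_G
    rw [intervalIntegral.integral_add_adjacent_intervals
      ((tau_g_cont hδ).intervalIntegrable _ _) ((tau_g_cont hδ).intervalIntegrable _ _)]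
  have h2 : ∫ x in s..v, tau_g s κ δ x =
      (κ * (v - s) + (1 - κ) * (δ - δ ^ 2 / (v - s + δ))) -
      (κ * (s - s) + (1 - κ) * (δ - δ ^ 2 / (s - s + δ))) := by
    refine intervalIntegral.integral_eq_sub_of_hasDerivAt
      (f := fun x => κ * (x - s) + (1 - κ) * (δ - δ ^ 2 / (x - s + δ))) (fun x hx => ?_)
      ((tau_g_cont hδ).intervalIntegrable _ _)
    rw [Set.uIcc_of_le hv, Set.mem_Icc] at hx
    have hx0 : 0 < x - s + δ := by linarith [hx.1]
    have h3 : HasDerivAt (fun x : ℝ => x - s + δ) 1 x := ((hasDerivAt_id x).sub_const s).add_const δ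
    have h4 : HasDerivAt (fun x : ℝ => δ ^ 2 / (x - s + δ))
        ((0 * (x - s + δ) - δ ^ 2 * 1) / (x - s + δ) ^ 2) x :=
      (hasDerivAt_const x (δ ^ 2)).div h3 hx0.ne'
    have h5 : HasDerivAt (fun x : ℝ => κ * (x - s) + (1 - κ) * (δ - δ ^ 2 / (x - s + δ)))
        (κ * 1 + (1 - κ) * (0 - (0 * (x - s + δ) - δ ^ 2 * 1) / (x - s + δ) ^ 2)) x :=
      (((hasDerivAt_id x).sub_const s).const_mul κ).add
        (((hasDerivAt_const x δ).sub h4).const_mul (1 - κ))
    refine h5.congr_deriv ?_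
    unfold tau_g
    rw [abs_of_nonneg (by linarith [hx.1] : (0 : ℝ) ≤ x), max_eq_left (by linarith [hx.1])]
    field_simp
    ring
  rw [h1, h2, tau_G_id hδ (by rw [abs_of_pos hs])]
  have h6 : 0 ≤ δ ^ 2 / (v - s + δ) := by
    have : 0 < v - s + δ := by linarith
    positivity
  have h7 : δ ^ 2 / (s - s + δ) = δ := by
    rw [sub_self, zero_add]
    field_simp
  rw [h7, sub_self, mul_zero]
  have h8 : (1 - κ) * (δ - δ ^ 2 / (v - s + δ)) ≤ 1 * δ :=
    mul_le_mul (by linarith) (by linarith) (by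
      rw [sub_nonneg, div_le_iff₀ (by linarith)]
      nlinarith) zero_le_one
  linarith

theorem exists_tau {c s r R : ℝ} (hs : 0 < s) (hsr : s < r) (hR : 0 < R) :
    ∃ τ : ℝ → ℝ, ContDiff ℝ 1 τ ∧ (∀ t, 0 < deriv τ t) ∧
      Filter.Tendsto τ Filter.atTop Filter.atTop ∧ Filter.Tendsto τ Filter.atBot Filter.atBot ∧
      (∀ t, |t - c| ≤ s → τ t = t) ∧ ∀ t, |t| ≤ R → |τ t - c| < r := by
  have hL : 0 < R + |c| := by positivity
  obtain ⟨δ, hδdef⟩ : ∃ δ : ℝ, δ = (r - s) / 4 := ⟨_, rfl⟩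
  have hδ : 0 < δ := by rw [hδdef]; linarith
  obtain ⟨κ, hκ0, hκ1, hκL⟩ : ∃ κ : ℝ, 0 < κ ∧ κ ≤ 1 ∧ κ * (R + |c|) ≤ (r - s) / 4 := by
    refine ⟨min 1 ((r - s) / (4 * (R + |c|))), lt_min one_pos (div_pos (by linarith) (by linarith)),
      min_le_left _ _, ?_⟩
    calc min 1 ((r - s) / (4 * (R + |c|))) * (R + |c|) ≤
        (r - s) / (4 * (R + |c|)) * (R + |c|) :=
          mul_le_mul_of_nonneg_right (min_le_right _ _) hL.le
      _ = (r - s) / 4 := by field_simp
  have hder : ∀ t, HasDerivAt (fun t => c + tau_G s κ δ (t - c)) (tau_g s κ δ (t - c)) t := by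
    intro t
    have h1 := (tau_G_deriv (s := s) (κ := κ) hδ (t - c)).comp t ((hasDerivAt_id t).sub_const c)
    rw [mul_one] at h1
    exact h1.const_add c
  have hderiv : deriv (fun t => c + tau_G s κ δ (t - c)) = fun t => tau_g s κ δ (t - c) :=
    funext fun t => (hder t).deriv
  refine ⟨fun t => c + tau_G s κ δ (t - c), ?_, ?_, ?_, ?_, ?_, ?_⟩
  · rw [contDiff_one_iff_deriv]
    refine ⟨fun t => (hder t).differentiableAt, ?_⟩
    rw [hderiv]
    exact (tau_g_cont hδ).comp (continuous_id.sub continuous_const)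
  · intro t
    rw [hderiv]
    exact hκ0.trans_le (tau_g_ge hκ1 _)
  · have h1 : Filter.Tendsto (fun t : ℝ => c + κ * (t - c)) Filter.atTop Filter.atTop := by
      refine Filter.tendsto_atTop_add_const_left _ _ (Filter.Tendsto.const_mul_atTop hκ0 ?_)
      exact Filter.tendsto_atTop_add_const_right _ (-c) Filter.tendsto_id
    refine Filter.tendsto_atTop_mono' _ ?_ h1
    filter_upwards [Filter.eventually_ge_atTop c] with t ht
    have h2 := tau_G_ge (s := s) hδ hκ1 (sub_nonneg.2 ht)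
    linarith
  · have h1 : Filter.Tendsto (fun t : ℝ => c + κ * (t - c)) Filter.atBot Filter.atBot := by
      refine Filter.tendsto_atBot_add_const_left _ _ (Filter.Tendsto.const_mul_atBot hκ0 ?_)
      exact Filter.tendsto_atBot_add_const_right _ (-c) Filter.tendsto_id
    refine Filter.tendsto_atBot_mono' _ ?_ h1
    filter_upwards [Filter.eventually_le_atBot c] with t ht
    have h2 := tau_G_ge (s := s) hδ hκ1 (sub_nonneg.2 ht)
    rw [← neg_sub, tau_G_neg] at h2
    linarith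
  · intro t ht
    change c + tau_G s κ δ (t - c) = t
    rw [tau_G_id hδ ht]
    ring
  · intro t ht
    change |c + tau_G s κ δ (t - c) - c| < r
    have hv : |t - c| ≤ R + |c| := (abs_sub t c).trans (by linarith)
    have key : ∀ v : ℝ, 0 ≤ v → v ≤ R + |c| → |tau_G s κ δ v| < r := by
      intro v hv0 hvL
      rw [abs_of_nonneg ((mul_nonneg hκ0.le hv0).trans (tau_G_ge hδ hκ1 hv0))]
      by_cases hvs : v ≤ s
      · rw [tau_G_id hδ (by rwa [abs_of_nonneg hv0])]
        linarith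
      · push Not at hvs
        have h3 := tau_G_out (κ := κ) hδ hs hκ0.le hvs.le
        have h4 : κ * (v - s) ≤ κ * (R + |c|) := mul_le_mul_of_nonneg_left (by linarith) hκ0.le
        linarith
    rw [add_sub_cancel_left]
    rcases le_total 0 (t - c) with h0 | h0
    · exact key _ h0 (by rwa [abs_of_nonneg h0] at hv)
    · have h5 := key (-(t - c)) (by linarith) (by rwa [abs_of_nonpos h0] at hv)
      rwa [tau_G_neg, abs_neg] at h5

end Pool.Agent.W_d1cfb0_h59
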