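import Pool.Agent.W_d1cfb0_h59.Moser
import Pool.Agent.W_d1cfb0_h59.ProdMap
import Pool.Agent.W_d1cfb0_h59.Tau
import Pool.Agent.W_d1cfb0_h59.Conn

/-!
# Extending the restriction of a measure preserving homeomorphism to a small cube

`H` is in `IsM`, maps `ccub c s` into `cub c r ⊆ O n`. Then there is a measure preserving
homeomorphism `H'` with compact support in `cub c r` which agrees with `H` on `ccub c s`.

Proof. Let `H` have support in `Q n ρ₀` (`IsM.exists_Q`). By continuity and compactness there is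
`s₁` with `s < s₁ < r` and `H '' ccub c s₁ ⊆ cub c r` (otherwise there are points
`x_m ∈ ccub c (s + 1/m)` with `H x_m ∉ cub c r`; take a limit point; or use that
`H ⁻¹' (cub c r)` is an open set containing the compact `ccub c s` together with
`IsCompact.exists_thickening_subset_open` and `dist_le_of_mem_ccub`-type estimates). The set
`H '' ccub c s₁ ∪ ccub c s₁` is compact, so contained in `ccub c s₂` with `s₁ ≤ s₂ < r`
(`exists_ccub_of_compact`). Let `τ i` be from `exists_tau` with `c := c i`, `s := s₂`, `r := r`,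
`R := ρ₀`, and `e`, `ρ_e` from `exists_prod_map`. Then `e = id` on `ccub c s₂` and
`e '' Q n ρ₀ ⊆ cub c r`.
Let `H₁ = e * H * e⁻¹`. It has support in `e '' Q n ρ₀` (`SuppIn.conj`), a compact subset of
`cub c r`. For `x ∈ ccub c s₁`: `e⁻¹ x = x`, `H x ∈ ccub c s₂`, `e (H x) = H x`, so `H₁ x = H x`. By
`Dn.inv`, `dn_zero_of_mp`, `Dn.mul` there is `ρ` with `Dn 0 H₁ ρ`. On the open set
`V = H '' cub c s₁` we have `ρ = 1` (`Dn.eq_one`: for `S ⊆ V`, `H₁ ⁻¹' S = H ⁻¹' S` since
`H₁⁻¹ = H⁻¹` on `V`), and `ρ = 1` off `e '' Q n ρ₀` (`Dn.eq_one_off`).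
Let `Ω = cub c r \ H '' ccub c s`. It is open. It is preconnected: `τ i` is strictly increasing
and onto, so `cub c r = e '' B` with the open box `B = {y | ∀ i, c i - r < τ i (y i) < c i + r}
= obx l u`, `τ i (l i) = c i - r`, `τ i (u i) = c i + r`; by `exists_tau`, `l i < -ρ₀` and
`ρ₀ < u i` (`τ i` maps `[-ρ₀, ρ₀]` into `(c i - r, c i + r)`), so `Q n ρ₀ ⊆ B` and `H '' B = B`
(`SuppIn.image_eq`). The set `H '' ccub c s ⊆ ccub c s₂` is fixed pointwise by `e`. Hence
`Ω = e '' (B \ H '' ccub c s) = e '' (H '' (B \ ccub c s))`, and `B \ ccub c s` is preconnected by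
`conn_box_diff` (`ccub c s = bx (c - s) (c + s)`, and `l i < c i - s` because
`τ i (c i - s) = c i - s > c i - r`; `n ≥ 2` gives two coordinates).
`ρ - 1` vanishes on `V ⊇ H '' ccub c s` (open) and off `e '' Q n ρ₀`, so it has compact support
contained in `Ω`. Its integral is `0`: over the compact set `C = e '' Q n ρ₀`,
`∫ x in C, ρ x = (map H₁ volume) C = volume (H₁ ⁻¹' C) = volume C` (as `H₁ ⁻¹' C = C`).
`moser` with `k = 0`, `ρ₀ := ρ`, `ρ₁ := 1` gives `ψ` with `CS ψ Ω` and `map ψ (dens ρ) = volume`.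
`H' = ψ * H₁` is measure preserving, `CS H' (cub c r)`, and for `x ∈ ccub c s`:
`H₁ x = H x ∈ H '' ccub c s`, which is fixed by `ψ`.
-/

namespace Pool.Agent.W_d1cfb0_h59

open MeasureTheory Pool.Agent.W_MP_d1cfb0_an

theorem LocalExt_s1 {n : ℕ} {c : E n} {s r : ℝ} (hsr : s < r) {U : Set (E n)} (hU : IsOpen U)
    (hsub : ccub c s ⊆ U) : ∃ s₁ : ℝ, s < s₁ ∧ s₁ < r ∧ ccub c s₁ ⊆ U := by
  have : Nonempty {t : ℝ // s < t} := ⟨⟨s + 1, by linarith⟩⟩
  obtain ⟨⟨t, ht⟩, hV⟩ := exists_subset_nhds_of_isCompact (ι := {t : ℝ // s < t})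
    (V := fun t => ccub c t.1) (U := U) (by
      intro t1 t2
      refine ⟨⟨min t1.1 t2.1, lt_min t1.2 t2.2⟩, ?_, ?_⟩
      · exact ccub_mono (min_le_left _ _)
      · exact ccub_mono (min_le_right _ _)) (fun t => isCompact_ccub _ _) (by
      intro x hx
      refine hU.mem_nhds (hsub ?_)
      intro i
      refine le_of_forall_gt_imp_ge_of_dense fun a ha => ?_
      exact (Set.mem_iInter.1 hx ⟨a, ha⟩) i)
  refine ⟨min t ((s + r) / 2), lt_min ht (by linarith),
    lt_of_le_of_lt (min_le_right _ _) (by linarith), ?_⟩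
  exact (ccub_mono (min_le_left _ _)).trans hV

theorem local_ext {n : ℕ} (hn : 2 ≤ n) {c : E n} {s r : ℝ} (hs : 0 < s) (hsr : s < r)
    {H : E n ≃ₜ E n} (hH : IsM H) (hHc : H '' ccub c s ⊆ cub c r) :
    ∃ H' : E n ≃ₜ E n, MeasurePreserving H' volume volume ∧ CS H' (cub c r) ∧
      ∀ x ∈ ccub c s, H' x = H x := by
  classical
  have hr0 : 0 < r := hs.trans hsr
  obtain ⟨ρ₀, hρ0, hρ1, hHQ⟩ := hH.exists_Q
  obtain ⟨s₁, hs1, hs1r, hHs1⟩ := LocalExt_s1 hsr
    (((isOpen_cub c r).preimage H.continuous)) (c := c) (s := s)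
    (fun x hx => hHc ⟨x, hx, rfl⟩)
  have hs10 : 0 < s₁ := hs.trans hs1
  -- `s₂`
  obtain ⟨s₂', _, hs2r', hs2sub'⟩ := exists_ccub_of_compact (c := c)
    ((isCompact_ccub c s₁).image H.continuous) hr0 (by
      rintro _ ⟨x, hx, rfl⟩
      exact hHs1 hx)
  obtain ⟨s₂, hs2⟩ : ∃ s₂ : ℝ, s₂ = max s₁ s₂' := ⟨_, rfl⟩
  have hs12 : s₁ ≤ s₂ := by rw [hs2]; exact le_max_left _ _
  have hs2r : s₂ < r := by rw [hs2]; exact max_lt hs1r hs2r'
  have hHs2 : ∀ x ∈ ccub c s₁, H x ∈ ccub c s₂ := by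
    intro x hx
    have h1 := hs2sub' ⟨x, hx, rfl⟩
    refine ccub_mono ?_ h1
    rw [hs2]
    exact le_max_right _ _
  -- the product map
  have hτ := fun i : Fin n => exists_tau (c := c i) (hs10.trans_le hs12) hs2r hρ0
  choose τ h1 h2 h3 h4 h5 h6 using hτ
  obtain ⟨e, ρe, hDe, he⟩ := exists_prod_map τ h1 h2 h3 h4
  have hmono : ∀ i, StrictMono (τ i) := fun i => strictMono_of_deriv_pos (h2 i)
  have hsurj : ∀ i, Function.Surjective (τ i) := fun i =>
    (h1 i).continuous.surjective (h3 i) (h4 i)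
  have he1 : ∀ x ∈ ccub c s₂, e x = x := by
    intro x hx
    ext i
    rw [he x i]
    exact h5 i _ (hx i)
  have he1' : ∀ x ∈ ccub c s₂, e⁻¹ x = x := by
    intro x hx
    have h := inv_apply_self' e x
    rwa [he1 x hx] at h
  have heQ : e '' Q n ρ₀ ⊆ cub c r := by
    rintro _ ⟨x, hx, rfl⟩ i
    rw [he x i]
    exact h6 i _ (hx i)
  -- `H₁`
  obtain ⟨C, hCdef⟩ : ∃ C : Set (E n), C = e '' Q n ρ₀ := ⟨_, rfl⟩
  have hQc : IsCompact (Q n ρ₀) := by
    rw [Q_eq_ccub]
    exact isCompact_ccub _ _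
  have hC : IsCompact C := by
    rw [hCdef]
    exact hQc.image e.continuous
  have hCr : C ⊆ cub c r := by
    rw [hCdef]
    exact heQ
  obtain ⟨H₁, hH1def⟩ : ∃ H₁ : E n ≃ₜ E n, H₁ = e * H * e⁻¹ := ⟨_, rfl⟩
  have hH1s : SuppIn H₁ C := by
    rw [hH1def, hCdef]
    exact hHQ.conj e
  have hH1e : ∀ x ∈ ccub c s₁, H₁ x = H x := by
    intro x hx
    rw [hH1def, mul_apply', mul_apply', he1' x (ccub_mono hs12 hx), he1 _ (hHs2 x hx)]
  obtain ⟨ρ, hρ⟩ : ∃ ρ : E n → ℝ, Dn 0 H₁ ρ := by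
    have h := (hDe.inv.mul (dn_zero_of_mp hH.1)).mul hDe
    rw [← mul_assoc] at h
    rw [hH1def]
    exact ⟨_, h⟩
  -- `ρ = 1` on `V`
  have hV : ∀ x ∈ H '' cub c s₁, ρ x = 1 := by
    refine hρ.eq_one (H.isOpenMap _ (isOpen_cub _ _)) ?_
    intro S hS hSm
    have hpre : H₁ ⁻¹' S = H ⁻¹' S := by
      ext x
      constructor
      · intro hx
        obtain ⟨y, hy, hyx⟩ := hS hx
        have hy1 := hH1e y (cub_subset_ccub _ _ hy)
        rw [← hy1] at hyx
        have hyx' := H₁.injective hyx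
        have hy2 : H₁ x = H x := by rw [← hyx']; exact hy1
        rw [Set.mem_preimage, ← hy2]
        exact hx
      · intro hx
        obtain ⟨y, hy, hyx⟩ := hS hx
        have hyx' := H.injective hyx
        have hy1 := hH1e y (cub_subset_ccub _ _ hy)
        rw [hyx'] at hy1
        rw [Set.mem_preimage, hy1]
        exact hx
    rw [hpre]
    exact hH.1.measure_preimage hSm.nullMeasurableSet
  have hoff : ∀ x, x ∉ C → ρ x = 1 := hρ.eq_one_off hC.isClosed hH1s
  -- the domain `Ω`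
  have hKs : IsCompact (H '' ccub c s) := (isCompact_ccub c s).image H.continuous
  have hKV : H '' ccub c s ⊆ H '' cub c s₁ := Set.image_mono (ccub_subset_cub hs1)
  obtain ⟨Ω, hΩdef⟩ : ∃ Ω : Set (E n), Ω = cub c r \ (H '' ccub c s) := ⟨_, rfl⟩
  have hΩo : IsOpen Ω := by
    rw [hΩdef]
    exact (isOpen_cub c r).sdiff hKs.isClosed
  have hΩc : IsPreconnected Ω := by
    choose l hl using fun i => hsurj i (c i - r)
    choose u hu using fun i => hsurj i (c i + r)
    have hB : ∀ y : E n, e y ∈ cub c r ↔ y ∈ (obx l u : Set (E n)) := by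
      intro y
      constructor
      · intro hy i
        have hyi := abs_lt.1 (hy i)
        rw [he y i] at hyi
        constructor
        · rw [← (hmono i).lt_iff_lt, hl i]
          linarith [hyi.1]
        · rw [← (hmono i).lt_iff_lt, hu i]
          linarith [hyi.2]
      · intro hy i
        obtain ⟨hy1, hy2⟩ := hy i
        rw [← (hmono i).lt_iff_lt, hl i] at hy1
        rw [← (hmono i).lt_iff_lt, hu i] at hy2
        rw [he y i, abs_lt]
        constructor <;> linarith
    have hQB : Q n ρ₀ ⊆ obx l u := fun y hy => (hB y).1 (heQ ⟨y, hy, rfl⟩)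
    have hHB : ∀ y : E n, H y ∈ (obx l u : Set (E n)) ↔ y ∈ (obx l u : Set (E n)) := fun y =>
      (hHQ.mono hQB).mem_iff
    have hΩe : Ω = e '' (H '' ((obx l u : Set (E n)) \ ccub c s)) := by
      ext x
      rw [hΩdef]
      constructor
      · rintro ⟨hx1, hx2⟩
        have ex : e (e⁻¹ x) = x := apply_inv_self' e x
        have hx3 : e⁻¹ x ∈ (obx l u : Set (E n)) := by
          rw [← hB, ex]
          exact hx1
        have ex2 : H (H⁻¹ (e⁻¹ x)) = e⁻¹ x := apply_inv_self' H _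
        have hx4 : H⁻¹ (e⁻¹ x) ∈ (obx l u : Set (E n)) := by
          rw [← hHB, ex2]
          exact hx3
        refine ⟨e⁻¹ x, ⟨H⁻¹ (e⁻¹ x), ⟨hx4, ?_⟩, ex2⟩, ex⟩
        intro hz
        apply hx2
        refine ⟨H⁻¹ (e⁻¹ x), hz, ?_⟩
        have hz2 := he1 _ (hHs2 _ (ccub_mono hs1.le hz))
        rw [ex2, ex] at hz2
        rw [ex2]
        exact hz2.symm
      · rintro ⟨_, ⟨z, ⟨hz1, hz2⟩, rfl⟩, rfl⟩
        refine ⟨(hB _).2 ((hHB z).2 hz1), ?_⟩
        rintro ⟨z', hz', hzz⟩
        have h := he1 _ (hHs2 _ (ccub_mono hs1.le hz'))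
        rw [← h] at hzz
        have h7 := H.injective (e.injective hzz)
        rw [h7] at hz'
        exact hz2 hz'
    rw [hΩe]
    refine IsPreconnected.image ?_ _ e.continuous.continuousOn
    refine IsPreconnected.image ?_ _ H.continuous.continuousOn
    have hcc : ccub c s = (bx (fun i => c i - s) fun i => c i + s : Set (E n)) := by
      ext x
      constructor
      · intro hx i
        have := abs_le.1 (hx i)
        constructor <;> linarith [this.1, this.2]
      · intro hx i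
        obtain ⟨hx1, hx2⟩ := hx i
        rw [abs_le]
        constructor <;> linarith
    rw [hcc]
    have hla : ∀ i, l i < c i - s := by
      intro i
      rw [← (hmono i).lt_iff_lt, hl i, h5 i (c i - s) (by
        rw [show c i - s - c i = -s by ring, abs_neg, abs_of_pos hs]
        exact hs1.le.trans hs12)]
      linarith
    refine conn_box_diff (i := ⟨0, by omega⟩) (j := ⟨1, by omega⟩) ?_ ?_ (hla _) (hla _)
    · intro h
      rw [Fin.mk.injEq] at h
      exact absurd h (by norm_num)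
    · intro m
      rw [← (hmono m).lt_iff_lt, hl m, hu m]
      linarith
  -- the function `1 - ρ`
  have hsuppf : Function.support ((fun _ : E n => (1 : ℝ)) - ρ) ⊆ C \ (H '' cub c s₁) := by
    intro x hx
    rw [Function.mem_support, Pi.sub_apply] at hx
    constructor
    · by_contra hc
      exact hx (by rw [hoff x hc, sub_self])
    · intro hc
      exact hx (by rw [hV x hc, sub_self])
  have hCV : IsClosed (C \ (H '' cub c s₁)) :=
    hC.isClosed.sdiff (H.isOpenMap _ (isOpen_cub _ _))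
  have hts : tsupport ((fun _ : E n => (1 : ℝ)) - ρ) ⊆ C \ (H '' cub c s₁) :=
    closure_minimal hsuppf hCV
  have hcs : HasCompactSupport ((fun _ : E n => (1 : ℝ)) - ρ) :=
    HasCompactSupport.intro hC fun x hx => by
      rw [Pi.sub_apply, hoff x hx, sub_self]
  have htsub : tsupport ((fun _ : E n => (1 : ℝ)) - ρ) ⊆ Ω := by
    intro x hx
    obtain ⟨hx1, hx2⟩ := hts hx
    rw [hΩdef]
    exact ⟨hCr hx1, fun h => hx2 (hKV h)⟩
  have hint : ∫ x, ((fun _ : E n => (1 : ℝ)) x - ρ x) = 0 := by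
    have hcont : Continuous ρ := hρ.d.continuous
    have e1 : ∫ x, ((fun _ : E n => (1 : ℝ)) x - ρ x) = ∫ x in C, ((1 : ℝ) - ρ x) := by
      symm
      apply setIntegral_eq_integral_of_forall_compl_eq_zero
      intro x hx
      rw [hoff x hx, sub_self]
    have hfin : volume C ≠ ⊤ := hC.measure_lt_top.ne
    have i1 : IntegrableOn (fun _ : E n => (1 : ℝ)) C := by
      rw [integrableOn_const_iff]
      exact Or.inr hC.measure_lt_top
    have i2 : IntegrableOn ρ C := hcont.continuousOn.integrableOn_compact hC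
    have hpre : H₁ ⁻¹' C = C := by
      ext x
      exact hH1s.mem_iff
    have e2 : ∫ x in C, ρ x = (volume C).toReal := by
      rw [integral_eq_lintegral_of_nonneg_ae
        (Filter.Eventually.of_forall fun x => (hρ.pos x).le) hcont.aestronglyMeasurable,
        ← dens_apply ρ hC.measurableSet, ← hρ.map,
        Measure.map_apply H₁.continuous.measurable hC.measurableSet, hpre]
    rw [e1, integral_sub i1 i2, e2, setIntegral_const, smul_eq_mul, mul_one]
    exact sub_self _
  obtain ⟨ψ, _, _, hψ, hψm⟩ := moser (k := 0) (Or.inl rfl) hΩo hΩc hρ.d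
    (contDiff_const (c := (1 : ℝ))) hρ.pos (fun _ => one_pos) hcs htsub hint
  refine ⟨ψ * H₁, ⟨(ψ * H₁ : E n ≃ₜ E n).continuous.measurable, ?_⟩, ?_, ?_⟩
  · have h : Measure.map (ψ * H₁ : E n ≃ₜ E n) volume =
        Measure.map ψ (Measure.map H₁ (volume : Measure (E n))) :=
      (Measure.map_map ψ.continuous.measurable H₁.continuous.measurable).symm
    rw [h, hρ.map, hψm, dens_one]
  · refine CS.mul (hψ.mono ?_) ⟨C, hC, hCr, hH1s⟩
    rw [hΩdef]
    exact Set.sdiff_subset
  · intro x hx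
    rw [mul_apply', hH1e x (ccub_mono hs1.le hx)]
    apply hψ.suppIn
    rw [hΩdef]
    intro h
    exact h.2 ⟨x, hx, rfl⟩

end Pool.Agent.W_d1cfb0_h59
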