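import Pool.Agent.W_d1cfb0_h59.Basic2

/-!
# The coordinate map `ψ` with `B ∘ ψ = A`

`A`, `B` are of class `C^k` (`k = 0` or `1`) with continuous positive partial derivatives `a`, `b`
in the direction `i`; on every line in the direction `i` the functions take the same values. Then
there is a homeomorphism `ψ` changing only the coordinate `i` with `B (ψ x) = A x`, and `ψ`, `ψ⁻¹`
are of class `C^k`.

Proof. On every line `t ↦ A (upd x i t)` and `t ↦ B (upd x i t)` are strictly increasing and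
continuous (`HasPart.line`, `strictMono_of_deriv_pos`). By `h1` choose `τ x` with
`B (upd x i (τ x)) = A x`, and by `h2` choose `σ x` with `A (upd x i (σ x)) = B x`. Put
`ψ x = upd x i (τ x)`, inverse `φ x = upd x i (σ x)`. `φ (ψ x) = x`: `upd_upd` and
`A (φ (ψ x)) = B (ψ x) = A x`, both points are on the line through `x`, use injectivity of `A` on
the line; similarly `ψ (φ x) = x`.
Continuity of `τ` at `x₀`: let `ε > 0`, `t₀ = τ x₀`. `B (upd x₀ i (t₀ - ε)) < A x₀ <
B (upd x₀ i (t₀ + ε))`; by continuity the same inequalities hold for `x` near `x₀` in place of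
`x₀`, and then `t₀ - ε < τ x < t₀ + ε` by monotonicity. Hence `ψ` is continuous, and `φ` by
symmetry (it is best to prove a lemma for one direction and to use it twice).
`C^1` for `k = 1`. Let `F_A x = upd x i (A x)`, `F_B x = upd x i (B x)` (`C^1` maps). They satisfy
`F_B (ψ x) = F_A x`. The derivative of `F_B` at `y` is
`v ↦ v + (DB(y) v - v i) • e_i` with `DB(y) e_i = b y > 0`; it is bijective (inverse
`w ↦ w + ((w i - DB(y) w + b y * w i)/ b y - w i) • e_i`, i.e. `v l = w l` for `l ≠ i` and `v i`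
is determined by `DB(y) v = w i`), so it is a continuous linear equivalence. `F_B` is injective
(two points with the same image are on the same line, `B` injective on it). By the inverse function
theorem (`ContDiffAt.toOpenPartialHomeomorph`, `ContDiffAt.to_localInverse` or
`OpenPartialHomeomorph.contDiffAt_symm`) there is for every `y` a local inverse of `F_B` near
`F_B y`, of class `C^1`; since `ψ` is continuous and `F_B (ψ x) = F_A x`, near any `x₀` the map `ψ`
equals the local inverse of `F_B` (at `ψ x₀`) composed with `F_A`, so `ψ` is `C^1` at `x₀`. The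
same with `A`, `B` exchanged gives `φ`. (Alternatively use the implicit function theorem for
`(x, t) ↦ B (upd x i t) - A x`.)
-/

namespace Pool.Agent.W_d1cfb0_h59

open MeasureTheory Pool.Agent.W_MP_d1cfb0_an

theorem stephomeo_mono {n : ℕ} {i : Fin n} {B b : E n → ℝ} (hBb : HasPart i B b)
    (hb0 : ∀ x, 0 < b x) (x : E n) : StrictMono fun t : ℝ => B (upd x i t) := by
  apply strictMono_of_deriv_pos
  intro t
  rw [(hBb.line x t).deriv]
  exact hb0 _

theorem stephomeo_cont {n : ℕ} {i : Fin n} {A B b : E n → ℝ} (hA : Continuous A)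
    (hB : Continuous B) (hBb : HasPart i B b) (hb0 : ∀ x, 0 < b x) {τ : E n → ℝ}
    (hτ : ∀ x, B (upd x i (τ x)) = A x) : Continuous τ := by
  rw [continuous_iff_continuousAt]
  intro x₀
  have hline : ∀ t : ℝ, Continuous fun x : E n => B (upd x i t) := fun t =>
    hB.comp ((continuous_upd i).comp (continuous_id.prodMk continuous_const))
  refine tendsto_order.2 ⟨fun t ht => ?_, fun t ht => ?_⟩
  · have h1 : B (upd x₀ i t) < A x₀ := by
      rw [← hτ x₀]
      exact stephomeo_mono hBb hb0 x₀ ht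
    have h2 : ∀ᶠ x in nhds x₀, B (upd x i t) < A x :=
      (hline t).continuousAt.eventually_lt hA.continuousAt h1
    filter_upwards [h2] with x hx
    rw [← hτ x] at hx
    exact (stephomeo_mono hBb hb0 x).lt_iff_lt.1 hx
  · have h1 : A x₀ < B (upd x₀ i t) := by
      rw [← hτ x₀]
      exact stephomeo_mono hBb hb0 x₀ ht
    have h2 : ∀ᶠ x in nhds x₀, A x < B (upd x i t) :=
      hA.continuousAt.eventually_lt (hline t).continuousAt h1
    filter_upwards [h2] with x hx
    rw [← hτ x] at hx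
    exact (stephomeo_mono hBb hb0 x).lt_iff_lt.1 hx

theorem stephomeo_smooth {n : ℕ} {i : Fin n} {A B b : E n → ℝ} (hA : ContDiff ℝ 1 A)
    (hB : ContDiff ℝ 1 B) (hBb : HasPart i B b) (hb0 : ∀ x, 0 < b x) {τ : E n → ℝ}
    (hτ : ∀ x, B (upd x i (τ x)) = A x) : ContDiff ℝ 1 τ := by
  have hcont := stephomeo_cont hA.continuous hB.continuous hBb hb0 hτ
  rw [contDiff_iff_contDiffAt]
  intro x₀
  set f : E n × ℝ → ℝ := fun v => B (upd v.1 i v.2) - A v.1 with hf
  have hfc : ContDiff ℝ 1 f := (hB.comp (contDiff_upd i)).sub (hA.comp contDiff_fst)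
  set u : E n × ℝ := (x₀, τ x₀) with hu
  have cdf : ContDiffAt ℝ 1 f u := hfc.contDiffAt
  have hd : HasDerivAt (fun t : ℝ => f (x₀, t)) (b (upd x₀ i (τ x₀))) (τ x₀) := by
    have h1 := (hBb.line x₀ (τ x₀)).sub_const (A x₀)
    exact h1
  have hd' : HasDerivAt (fun t : ℝ => f (x₀, t)) (fderiv ℝ f u ((0 : E n), (1 : ℝ))) (τ x₀) := by
    have h1 : HasFDerivAt f (fderiv ℝ f u) u :=
      (hfc.differentiable (by norm_num) u).hasFDerivAt
    have h2 : HasDerivAt (fun t : ℝ => ((x₀, t) : E n × ℝ)) ((0 : E n), (1 : ℝ)) (τ x₀) :=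
      (hasDerivAt_const _ _).prodMk (hasDerivAt_id _)
    exact h1.comp_hasDerivAt (τ x₀) h2
  have hval : fderiv ℝ f u ((0 : E n), (1 : ℝ)) = b (upd x₀ i (τ x₀)) := hd'.unique hd
  have hinv : (fderiv ℝ f u ∘L ContinuousLinearMap.inr ℝ (E n) ℝ).IsInvertible := by
    refine ⟨ContinuousLinearEquiv.unitsEquivAut ℝ
      (Units.mk0 (b (upd x₀ i (τ x₀))) (hb0 _).ne'), ?_⟩
    ext
    simp [hval]
  have h1 := cdf.contDiffAt_implicitFunction one_ne_zero hinv
  refine h1.congr_of_eventuallyEq ?_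
  have h2 := cdf.eventually_apply_eq_iff_implicitFunction one_ne_zero hinv
  have h3 : Filter.Tendsto (fun x : E n => ((x, τ x) : E n × ℝ)) (nhds x₀) (nhds u) :=
    (continuous_id.prodMk hcont).tendsto x₀
  filter_upwards [h3.eventually h2] with x hx
  have h4 : ∀ y, f (y, τ y) = 0 := by
    intro y
    simp only [hf]
    rw [hτ y, sub_self]
  exact (hx.1 (by rw [h4, hu, h4])).symm

theorem stephomeo_tau {n : ℕ} {i : Fin n} {k : WithTop ℕ∞} (hk : k = 0 ∨ k = 1)
    {A B b : E n → ℝ} (hA : ContDiff ℝ k A) (hB : ContDiff ℝ k B) (hBb : HasPart i B b)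
    (hb0 : ∀ x, 0 < b x) {τ : E n → ℝ} (hτ : ∀ x, B (upd x i (τ x)) = A x) :
    ContDiff ℝ k τ := by
  rcases hk with rfl | rfl
  · exact contDiff_zero.2 (stephomeo_cont hA.continuous hB.continuous hBb hb0 hτ)
  · exact stephomeo_smooth hA hB hBb hb0 hτ

theorem stephomeo_inv {n : ℕ} {i : Fin n} {A B a : E n → ℝ} (hAa : HasPart i A a)
    (ha0 : ∀ x, 0 < a x) {τ σ : E n → ℝ} (hτ : ∀ x, B (upd x i (τ x)) = A x)
    (hσ : ∀ x, A (upd x i (σ x)) = B x) (x : E n) :
    upd (upd x i (τ x)) i (σ (upd x i (τ x))) = x := by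
  have h1 := hσ (upd x i (τ x))
  rw [hτ, upd_upd] at h1
  have h2 : (fun t : ℝ => A (upd x i t)) (σ (upd x i (τ x))) = (fun t : ℝ => A (upd x i t)) (x i) := by
    simp only [upd_self]
    exact h1
  have h3 := (stephomeo_mono hAa ha0 x).injective h2
  rw [upd_upd, h3, upd_self]

theorem step_homeo {n : ℕ} (i : Fin n) {k : WithTop ℕ∞} (hk : k = 0 ∨ k = 1)
    {A B a b : E n → ℝ} (hA : ContDiff ℝ k A) (hB : ContDiff ℝ k B) (hAa : HasPart i A a)
    (hBb : HasPart i B b) (ha : Continuous a) (hb : Continuous b) (ha0 : ∀ x, 0 < a x)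
    (hb0 : ∀ x, 0 < b x) (h1 : ∀ x, ∃ t, B (upd x i t) = A x)
    (h2 : ∀ x, ∃ t, A (upd x i t) = B x) :
    ∃ ψ : E n ≃ₜ E n, ContDiff ℝ k ψ ∧ ContDiff ℝ k (ψ⁻¹ : E n ≃ₜ E n) ∧
      (∀ x, B (ψ x) = A x) ∧ ∀ x, ∃ t, ψ x = upd x i t := by
  choose τ hτ using h1
  choose σ hσ using h2
  have hτc : ContDiff ℝ k τ := stephomeo_tau hk hA hB hBb hb0 hτ
  have hσc : ContDiff ℝ k σ := stephomeo_tau hk hB hA hAa ha0 hσ
  have hψ : ContDiff ℝ k fun x => upd x i (τ x) :=
    (contDiff_upd i).comp (contDiff_id.prodMk hτc)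
  have hφ : ContDiff ℝ k fun x => upd x i (σ x) :=
    (contDiff_upd i).comp (contDiff_id.prodMk hσc)
  refine ⟨{ toFun := fun x => upd x i (τ x)
            invFun := fun x => upd x i (σ x)
            left_inv := fun x => stephomeo_inv hAa ha0 hτ hσ x
            right_inv := fun x => stephomeo_inv hBb hb0 hσ hτ x
            continuous_toFun := hψ.continuous
            continuous_invFun := hφ.continuous }, hψ, hφ, hτ, fun x => ⟨τ x, rfl⟩⟩

end Pool.Agent.W_d1cfb0_h59
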