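import Pool.Agent.W_d1cfb0_h59.ConnDec
import Pool.Agent.W_d1cfb0_h59.StepHomeo
import Pool.Agent.W_d1cfb0_h59.StepMeas
import Pool.Agent.W_d1cfb0_h59.StepLevel
import Pool.Agent.W_d1cfb0_h59.Antideriv

/-!
# Moser's theorem

Proof. `g = ρ₁ - ρ₀` is in `Dec k Ω` by `conn_dec`; let `L` be the list of pieces.
One step (`moser_step`): if `ρ` is positive and `C^k`, `q = ∂_i h` is a piece in `Ω` and `ρ + q` is
positive, then there is `ψ` with the required properties for `ρ`, `ρ + q`: let `A` be an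
antiderivative of `ρ` (`exists_antideriv`), `B = A + h`; `HasPart i B (ρ + q)`; off
`K = tsupport h` we have `A = B`, so `exists_level` applies both ways, `step_homeo` gives `ψ`,
`step_measure` gives the measure, and `SuppIn ψ K`: if `A x = B x` then `B (ψ x) = B x` with
`ψ x = upd x i t`, and `B` is injective on the line, so `ψ x = x`.
Choose a compact `K' ⊆ Ω` off which all `q ∈ L` vanish (`Piece.eq_zero_off`). On `K'` we have
`ρ₀, ρ₁ ≥ m > 0`, and `∑_{q ∈ L} |q| ≤ C`. Let `N ≥ 1` with `C / N < m`. Claim: for `j ≤ N` there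
is `ψ` with the required properties for `ρ₀` and `ρ₀ + (j/N) g`. Induction on `j`: go from
`ρ₀ + (j/N) g` to `ρ₀ + ((j+1)/N) g` by adding the pieces `(1/N) • q`, `q ∈ L`, one after the other
(induction on the list); all intermediate densities are `≥ (1 - j/N) ρ₀ + (j/N) ρ₁ - C/N > 0` on
`K'` and equal to `ρ₀ = ρ₁ > 0` off `K'`. Composition of maps: `CS.mul`, `Measure.map_map`.
-/

namespace Pool.Agent.W_d1cfb0_h59

open MeasureTheory Pool.Agent.W_MP_d1cfb0_an

theorem moser_step {n : ℕ} {k : WithTop ℕ∞} (hk : k = 0 ∨ k = 1) {Ω : Set (E n)}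
    {ρ q : E n → ℝ} (h : ContDiff ℝ k ρ) (hp : ∀ x, 0 < ρ x) (hq : Piece k Ω q)
    (hpq : ∀ x, 0 < ρ x + q x) :
    ∃ ψ : E n ≃ₜ E n, ContDiff ℝ k ψ ∧ ContDiff ℝ k (ψ⁻¹ : E n ≃ₜ E n) ∧ CS ψ Ω ∧
      Measure.map ψ (dens ρ) = dens (ρ + q) := by
  obtain ⟨i, u, hu, hq', hpart, hcs, hsub⟩ := hq
  obtain ⟨A, hA, hAa⟩ := exists_antideriv i hk h
  have hB : ContDiff ℝ k (A + u) := hA.add hu
  have hBb : HasPart i (A + u) (ρ + q) := hAa.add hpart
  have hb0 : ∀ x, 0 < (ρ + q) x := hpq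
  have hbc : Continuous (ρ + q) := h.continuous.add hq'.continuous
  have hAB : ∀ x, x ∉ tsupport u → A x = (A + u) x := by
    intro x hx
    rw [Pi.add_apply, image_eq_zero_of_notMem_tsupport hx, add_zero]
  have hK : IsCompact (tsupport u) := hcs
  obtain ⟨ψ, h1, h2, h3, h4⟩ := step_homeo i hk hA hB hAa hBb h.continuous hbc hp hb0
    (exists_level i hAa hBb hp hK hAB)
    (exists_level i hBb hAa hb0 hK fun x hx => (hAB x hx).symm)
  refine ⟨ψ, h1, h2, ⟨tsupport u, hK, hsub, ?_⟩, step_measure i hA.continuous hB.continuous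
    hAa hBb h.continuous hbc hp hb0 ψ h3 h4⟩
  intro x hx
  obtain ⟨t, ht⟩ := h4 x
  have h5 := h3 x
  rw [hAB x hx, ht] at h5
  have h6 : (fun t : ℝ => (A + u) (upd x i t)) t = (fun t : ℝ => (A + u) (upd x i t)) (x i) := by
    simp only [upd_self]
    exact h5
  rw [ht, (stephomeo_mono hBb hb0 x).injective h6, upd_self]

/-- The property of the pair of densities in the theorem. -/
def moser_P {n : ℕ} (k : WithTop ℕ∞) (Ω : Set (E n)) (ρ ρ' : E n → ℝ) : Prop :=
  ∃ ψ : E n ≃ₜ E n, ContDiff ℝ k ψ ∧ ContDiff ℝ k (ψ⁻¹ : E n ≃ₜ E n) ∧ CS ψ Ω ∧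
      Measure.map ψ (dens ρ) = dens ρ'

theorem moser_refl {n : ℕ} (k : WithTop ℕ∞) (Ω : Set (E n)) (ρ : E n → ℝ) :
    moser_P k Ω ρ ρ :=
  ⟨1, contDiff_id, contDiff_id, cS_one Ω, Measure.map_id⟩

theorem moser_trans {n : ℕ} {k : WithTop ℕ∞} {Ω : Set (E n)} {ρ ρ' ρ'' : E n → ℝ}
    (h : moser_P k Ω ρ ρ') (h' : moser_P k Ω ρ' ρ'') : moser_P k Ω ρ ρ'' := by
  obtain ⟨ψ, h1, h2, h3, h4⟩ := h
  obtain ⟨φ, g1, g2, g3, g4⟩ := h'
  refine ⟨φ * ψ, g1.comp h1, ?_, g3.mul h3, ?_⟩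
  · rw [mul_inv_rev]
    exact h2.comp g2
  · have h5 : Measure.map (φ * ψ : E n ≃ₜ E n) (dens ρ) =
        Measure.map φ (Measure.map ψ (dens ρ)) :=
      (Measure.map_map φ.continuous.measurable ψ.continuous.measurable).symm
    rw [h5, h4, g4]

theorem moser_abs_nonneg {n : ℕ} (L : List (E n → ℝ)) (x : E n) :
    0 ≤ (L.map fun q => |q x|).sum := by
  apply List.sum_nonneg
  intro a ha
  obtain ⟨q, -, rfl⟩ := List.mem_map.1 ha
  exact abs_nonneg _

theorem moser_list {n : ℕ} {k : WithTop ℕ∞} (hk : k = 0 ∨ k = 1) {Ω : Set (E n)}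
    (L : List (E n → ℝ)) : ∀ ρ : E n → ℝ, ContDiff ℝ k ρ → (∀ q ∈ L, Piece k Ω q) →
      (∀ x, (L.map fun q => |q x|).sum < ρ x) → moser_P k Ω ρ (ρ + L.sum) := by
  induction L with
  | nil =>
    intro ρ _ _ _
    rw [List.sum_nil, add_zero]
    exact moser_refl k Ω ρ
  | cons q L ih =>
    intro ρ hρ hL hlt
    have hq : Piece k Ω q := hL q List.mem_cons_self
    have hqc : ContDiff ℝ k q := by
      obtain ⟨_, _, _, h, _⟩ := hq
      exact h
    have h1 : ∀ x, |q x| + (L.map fun q => |q x|).sum < ρ x := by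
      intro x
      have h2 := hlt x
      rwa [List.map_cons, List.sum_cons] at h2
    have h3 : ∀ x, (L.map fun q => |q x|).sum < (ρ + q) x := by
      intro x
      have h4 := h1 x
      have h5 := neg_abs_le (q x)
      rw [Pi.add_apply]
      linarith
    have h6 : ∀ x, 0 < ρ x := fun x =>
      lt_of_le_of_lt (add_nonneg (abs_nonneg _) (moser_abs_nonneg L x)) (h1 x)
    have h7 : ∀ x, 0 < ρ x + q x := fun x => lt_of_le_of_lt (moser_abs_nonneg L x) (h3 x)
    rw [List.sum_cons, ← add_assoc]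
    exact moser_trans (moser_step hk hρ h6 hq h7)
      (ih (ρ + q) (hρ.add hqc) (fun q' hq' => hL q' (List.mem_cons_of_mem _ hq')) h3)

theorem moser_zero_off {n : ℕ} {k : WithTop ℕ∞} {Ω : Set (E n)} (L : List (E n → ℝ))
    (hL : ∀ q ∈ L, Piece k Ω q) : ∃ K : Set (E n), IsCompact K ∧ ∀ q ∈ L, ∀ x, x ∉ K → q x = 0 := by
  induction L with
  | nil => exact ⟨∅, isCompact_empty, fun q hq => absurd hq List.not_mem_nil⟩
  | cons q L ih =>
    obtain ⟨K, hK, h⟩ := ih fun q' hq' => hL q' (List.mem_cons_of_mem _ hq')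
    obtain ⟨K', hK', -, h'⟩ := (hL q List.mem_cons_self).eq_zero_off
    refine ⟨K ∪ K', hK.union hK', ?_⟩
    intro q' hq' x hx
    rcases List.mem_cons.1 hq' with rfl | hq''
    · exact h' x fun hx' => hx (Or.inr hx')
    · exact h q' hq'' x fun hx' => hx (Or.inl hx')

theorem moser_continuous_abs {n : ℕ} (L : List (E n → ℝ)) (hL : ∀ q ∈ L, Continuous q) :
    Continuous fun x => (L.map fun q => |q x|).sum := by
  induction L with
  | nil => exact continuous_const
  | cons q L ih =>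
    simp only [List.map_cons, List.sum_cons]
    exact (hL q List.mem_cons_self).abs.add (ih fun q' hq' => hL q' (List.mem_cons_of_mem _ hq'))

theorem moser_abs_smul {n : ℕ} (L : List (E n → ℝ)) {a : ℝ} (ha : 0 ≤ a) (x : E n) :
    ((L.map fun q => a • q).map fun q => |q x|).sum = a * (L.map fun q => |q x|).sum := by
  induction L with
  | nil => simp
  | cons q L ih =>
    simp only [List.map_cons, List.sum_cons, mul_add] at ih ⊢
    rw [ih, Pi.smul_apply, smul_eq_mul, abs_mul, abs_of_nonneg ha]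

theorem moser_sum_smul {n : ℕ} (L : List (E n → ℝ)) (a : ℝ) :
    (L.map fun q => a • q).sum = a • L.sum := by
  induction L with
  | nil => simp
  | cons q L ih => rw [List.map_cons, List.sum_cons, List.sum_cons, ih, smul_add]

theorem moser {n : ℕ} {k : WithTop ℕ∞} (hk : k = 0 ∨ k = 1) {Ω : Set (E n)} (hΩ : IsOpen Ω)
    (hc : IsPreconnected Ω) {ρ₀ ρ₁ : E n → ℝ} (h₀ : ContDiff ℝ k ρ₀) (h₁ : ContDiff ℝ k ρ₁)
    (hp₀ : ∀ x, 0 < ρ₀ x) (hp₁ : ∀ x, 0 < ρ₁ x) (hcs : HasCompactSupport (ρ₁ - ρ₀))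
    (hsub : tsupport (ρ₁ - ρ₀) ⊆ Ω) (hint : ∫ x, (ρ₁ x - ρ₀ x) = 0) :
    ∃ ψ : E n ≃ₜ E n, ContDiff ℝ k ψ ∧ ContDiff ℝ k (ψ⁻¹ : E n ≃ₜ E n) ∧ CS ψ Ω ∧
      Measure.map ψ (dens ρ₀) = dens ρ₁ := by
  have hg : ContDiff ℝ k (ρ₁ - ρ₀) := h₁.sub h₀
  obtain ⟨L, hL, hLs⟩ := conn_dec hk hΩ hc hg hcs hsub hint
  obtain ⟨K, hK, hKz⟩ := moser_zero_off L hL
  have hLc : ∀ q ∈ L, Continuous q := by
    intro q hq
    obtain ⟨_, _, _, h, _⟩ := hL q hq
    exact h.continuous
  -- bounds on the compact set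
  obtain ⟨m, hm, hmK⟩ : ∃ m : ℝ, 0 < m ∧ ∀ x ∈ K, m ≤ ρ₀ x ∧ m ≤ ρ₁ x := by
    rcases K.eq_empty_or_nonempty with h | h
    · exact ⟨1, one_pos, fun x hx => by rw [h] at hx; exact absurd hx (Set.notMem_empty x)⟩
    · obtain ⟨x0, -, hx0⟩ := hK.exists_isMinOn h
        ((h₀.continuous.min h₁.continuous).continuousOn (s := K))
      refine ⟨min (ρ₀ x0) (ρ₁ x0), lt_min (hp₀ x0) (hp₁ x0), fun x hx => ?_⟩
      have h1 : min (ρ₀ x0) (ρ₁ x0) ≤ min (ρ₀ x) (ρ₁ x) := hx0 hx
      exact ⟨h1.trans (min_le_left _ _), h1.trans (min_le_right _ _)⟩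
  obtain ⟨C, hC⟩ : ∃ C : ℝ, ∀ x ∈ K, (L.map fun q => |q x|).sum ≤ C := by
    rcases K.eq_empty_or_nonempty with h | h
    · exact ⟨0, fun x hx => by rw [h] at hx; exact absurd hx (Set.notMem_empty x)⟩
    · obtain ⟨x0, -, hx0⟩ := hK.exists_isMaxOn h
        ((moser_continuous_abs L hLc).continuousOn (s := K))
      exact ⟨_, fun x hx => hx0 hx⟩
  obtain ⟨N, hN⟩ := exists_nat_gt (C / m)
  obtain ⟨M, hM1, hM2⟩ : ∃ M : ℕ, 0 < M ∧ C / m < M :=
    ⟨N + 1, Nat.succ_pos N, hN.trans (by push_cast; linarith)⟩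
  have hM0 : (0 : ℝ) < M := by exact_mod_cast hM1
  have hCM : 1 / (M : ℝ) * C < m := by
    rw [div_lt_iff₀ hm] at hM2
    rw [one_div, inv_mul_lt_iff₀ hM0]
    linarith
  have key : ∀ j : ℕ, j ≤ M → moser_P k Ω ρ₀ (ρ₀ + ((j : ℝ) / M) • (ρ₁ - ρ₀)) := by
    intro j
    induction j with
    | zero =>
      intro _
      rw [Nat.cast_zero, zero_div, zero_smul, add_zero]
      exact moser_refl k Ω ρ₀
    | succ j ih =>
      intro hj
      have hjM : (j : ℝ) / M ≤ 1 := by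
        rw [div_le_one hM0]
        exact_mod_cast (by omega : j ≤ M)
      have hj0 : (0 : ℝ) ≤ (j : ℝ) / M := by positivity
      have h2 := moser_list hk (L.map fun q => (1 / (M : ℝ)) • q)
        (ρ₀ + ((j : ℝ) / M) • (ρ₁ - ρ₀)) (h₀.add (contDiff_const.smul hg)) (by
          intro q hq
          obtain ⟨q', hq', rfl⟩ := List.mem_map.1 hq
          exact (hL q' hq').smul _) (by
          intro x
          rw [moser_abs_smul L (by positivity) x]
          have h3 : (ρ₀ + ((j : ℝ) / M) • (ρ₁ - ρ₀)) x =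
              (1 - (j : ℝ) / M) * ρ₀ x + (j : ℝ) / M * ρ₁ x := by
            simp only [Pi.add_apply, Pi.smul_apply, Pi.sub_apply, smul_eq_mul]
            ring
          rw [h3]
          by_cases hx : x ∈ K
          · obtain ⟨h4, h5⟩ := hmK x hx
            have h6 : 1 / (M : ℝ) * (L.map fun q => |q x|).sum ≤ 1 / (M : ℝ) * C :=
              mul_le_mul_of_nonneg_left (hC x hx) (by positivity)
            have h7 : m ≤ (1 - (j : ℝ) / M) * ρ₀ x + (j : ℝ) / M * ρ₁ x := by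
              have h8 := mul_le_mul_of_nonneg_left h4 (sub_nonneg.2 hjM)
              have h9 := mul_le_mul_of_nonneg_left h5 hj0
              linarith
            linarith
          · have h4 : (L.map fun q => |q x|).sum = 0 := by
              apply List.sum_eq_zero
              intro a ha
              obtain ⟨q, hq, rfl⟩ := List.mem_map.1 ha
              rw [hKz q hq x hx, abs_zero]
            rw [h4, mul_zero]
            rcases hj0.eq_or_lt with h5 | h5
            · rw [← h5]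
              have := hp₀ x
              linarith
            · have h6 := mul_pos h5 (hp₁ x)
              have h7 := mul_nonneg (sub_nonneg.2 hjM) (hp₀ x).le
              linarith)
      rw [moser_sum_smul, ← hLs, add_assoc, ← add_smul] at h2
      have h10 : (j : ℝ) / M + 1 / M = ((j + 1 : ℕ) : ℝ) / M := by
        push_cast
        ring
      rw [h10] at h2
      exact moser_trans (ih (by omega)) h2
  have hfin := key M le_rfl
  rw [div_self hM0.ne', one_smul, add_sub_cancel] at hfin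
  exact hfin

end Pool.Agent.W_d1cfb0_h59
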