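import Pool.Agent.W_d1cfb0_h59.SF
import Pool.Agent.W_d1cfb0_h59.CGLemmas

/-!
# Translations near a point

A closed group `H` containing all elements of `IsD` contains, for all `x, y ∈ O n`, an element which
is the translation by `y - x` near `x`.

Proof. `Capt H (O n)` holds. By `global_translation` (in `W_MP_d1cfb0_an.GlobalTr`) it is enough to
find for every `x ∈ O n` a `δ > 0` such that for every `v` with `‖v‖ ≤ δ` there is `g ∈ H` with
`g z = z + v` on `closedBall x δ`. Let `r > 0` with `closedBall x (4 * r) ⊆ O n`, `r ≤ 1`. Use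
`local_translation` (in `W_MP_d1cfb0_an.LocalTr`) with `ι = Unit`, `c = x`, `r`: the hypothesis
`r ≤ dist y (zst n)` for `y ∈ closedBall x (2 r)` holds since otherwise
`zst n ∈ closedBall x (3 r) ⊆ O n`, contradicting `zst_notMem`. The flows: `exists_twistFlow` (in
`W_MP_d1cfb0_an.Fam`) with `isShape_ramp` for the one-element family (`IsFam`, all conditions
trivial or from `closedBall x (4 r) ⊆ O n`; the second family has centre `x + (r/8) e_i`). Each
`Φ τ` equals `twist hij c (prof ramp r τ)` (on the ball by `TwistFlow.inside`, off the ball both are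
the identity, `TwistFlow.outside` and `suppIn_twist_prof`), hence is in `H` by
`twist_mem_of_capt`. `δ = r / (64 * (n + 1))`.
-/

namespace Pool.Agent.W_d1cfb0_h59

open MeasureTheory Pool.Agent.W_MP_d1cfb0_an

theorem exists_flow_mem {n : ℕ} {H : Set (E n ≃ₜ E n)} (hH : ClosedGroup n H)
    (hcap : Capt H (O n)) {i j : Fin n} (hij : i ≠ j) (c : E n) {r : ℝ} (hr : 0 < r)
    (hc : Metric.closedBall c r ⊆ O n) :
    ∃ Φ : ℝ → (E n ≃ₜ E n), TwistFlow hij ramp (fun _ : Unit => c) (fun _ => r) Φ ∧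
      ∀ τ, Φ τ ∈ H := by
  have hfam : IsFam (fun _ : Unit => c) (fun _ => r) := by
    refine ⟨fun _ => hr, fun q q' h => absurd (Subsingleton.elim q q') h, fun _ => hc,
      fun ε _ => Set.toFinite _⟩
  obtain ⟨Φ, hΦ⟩ := exists_twistFlow hij isShape_ramp hfam
  refine ⟨Φ, hΦ, fun τ => ?_⟩
  have h1 : Φ τ = twist hij c (prof ramp r τ) := by
    ext1 z
    by_cases hz : z ∈ Metric.closedBall c r
    · exact hΦ.inside τ () z hz
    · rw [hΦ.outside τ z fun _ => hz, suppIn_twist_prof hij c isShape_ramp hr τ z hz]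
  rw [h1]
  exact twist_mem_of_capt hH hcap hij c _ hr (prof_eq_zero isShape_ramp hr τ) hc hc

theorem translations {n : ℕ} (hn : 2 ≤ n) {H : Set (E n ≃ₜ E n)} (hH : ClosedGroup n H)
    (hD : ∀ d, IsD d → d ∈ H) (x y : E n) (hx : x ∈ O n) (hy : y ∈ O n) :
    ∃ g ∈ H, ∃ ρ : ℝ, 0 < ρ ∧ ∀ z ∈ Metric.closedBall x ρ, g z = z + (y - x) := by
  have hcap : Capt H (O n) := fun z hz hz' => hD z ⟨hz, hz'⟩
  refine global_translation hH (fun x hx => ?_) x y hx hy
  obtain ⟨ε, hε, hball⟩ := Metric.nhds_basis_closedBall.mem_iff.1 ((isOpen_O n).mem_nhds hx)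
  set r : ℝ := ε / 4 with hr
  have hr0 : 0 < r := by positivity
  have h4 : Metric.closedBall x (4 * r) ⊆ O n := by
    have : 4 * r = ε := by
      rw [hr]
      ring
    rw [this]
    exact hball
  have hb : ∀ y ∈ Metric.closedBall x (2 * r), r ≤ dist y (zst n) := by
    intro y hy
    by_contra hlt
    rw [not_le] at hlt
    apply zst_notMem (n := n) (by omega)
    apply h4
    rw [Metric.mem_closedBall] at hy ⊢
    have h5 := dist_triangle_left (zst n) x y
    linarith
  have hfl : ∀ (i j : Fin n) (hij : i ≠ j), ∃ Φ₀ Φ₁ : ℝ → (E n ≃ₜ E n),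
      TwistFlow hij ramp (fun _ : Unit => x) (fun _ => r) Φ₀ ∧
      TwistFlow hij ramp (fun _ : Unit => x + (r / 8) • EuclideanSpace.single i (1 : ℝ))
        (fun _ => r) Φ₁ ∧ (∀ τ, Φ₀ τ ∈ H) ∧ ∀ τ, Φ₁ τ ∈ H := by
    intro i j hij
    have hb0 : Metric.closedBall x r ⊆ O n :=
      (Metric.closedBall_subset_closedBall (by linarith)).trans h4
    have hb1 : Metric.closedBall (x + (r / 8) • EuclideanSpace.single i (1 : ℝ)) r ⊆ O n := by
      refine Set.Subset.trans ?_ h4
      intro z hz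
      rw [Metric.mem_closedBall] at hz ⊢
      have h6 : dist (x + (r / 8) • EuclideanSpace.single i (1 : ℝ)) x ≤ r / 8 := by
        rw [dist_eq_norm, add_sub_cancel_left, norm_smul, EuclideanSpace.norm_single,
          Real.norm_eq_abs, abs_of_pos (by positivity), norm_one, mul_one]
      have h7 := dist_triangle z (x + (r / 8) • EuclideanSpace.single i (1 : ℝ)) x
      linarith
    obtain ⟨Φ₀, h0, h0'⟩ := exists_flow_mem hH hcap hij x hr0 hb0
    obtain ⟨Φ₁, h1, h1'⟩ := exists_flow_mem hH hcap hij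
      (x + (r / 8) • EuclideanSpace.single i (1 : ℝ)) hr0 hb1
    exact ⟨Φ₀, Φ₁, h0, h1, h0', h1'⟩
  refine ⟨r / (64 * (n + 1)), by positivity, fun v hv => ?_⟩
  obtain ⟨g, hg, hg1, -⟩ := local_translation hn hH (ι := Unit) (c := fun _ => x)
    (r := fun _ => r) (fun _ => hr0) (fun _ => hb) hfl () x
    (by simp only [dist_self]; positivity) v hv
  exact ⟨g, hg, hg1⟩

end Pool.Agent.W_d1cfb0_h59
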