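import Pool.Agent.W_d1cfb0_h59.Central
import Pool.Agent.W_d1cfb0_h59.Transl

/-!
# A closed group normalized by `IsD` with a nontrivial smooth element contains `IsD`

Proof. We show `HasTwists n N` (in `W_MP_d1cfb0_an.Inner`); then `inner` gives the claim (with
`IsM.exists_Q`). Let `K ⊆ O n` be compact, `κ, ε₀ > 0`. Let `δ` be from `central` for `K`. Choose a
point `c' ∈ O n` with `dist c' (zst n) < κ / 4` (for instance `(1 - t) • zst n` for small `t > 0`:
its coordinates have absolute value `≤ (1 - t) / 2 < 1/2`). For every `x ∈ K` let `g_x ∈ Dbar n`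
(`translations`, `closedGroup_Dbar`, `mem_Dbar_of_isD`) and `ρ_x > 0` with `g_x z = z + (c' - x)` on
`closedBall x ρ_x`; make `ρ_x` smaller so that `ρ_x ≤ κ / 4` and `closedBall x ρ_x ⊆ O n` and
`closedBall (c') (2 ρ_x) ⊆ O n`... (not needed if you argue as follows). Cover `K` by finitely many
balls `ball x (ρ_x / 2)`, and let `e > 0` be smaller than `ε₀`, `δ`, `κ / 4`, all the (finitely
many) `ρ_x / 2`, and such that `closedBall c e ⊆ O n` for all `c ∈ K`
(`IsCompact.exists_cthickening_subset_open`). Let `c ∈ K`, `i ≠ j`, `τ`; `c ∈ ball x (ρ_x / 2)`.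
Put `a = prof bump e τ`, `T = twist hij c a`, `g = g_x`, `w = c' - x`. `closedBall c e ⊆
closedBall x ρ_x`, so `g * T⁻¹ * g⁻¹ = twist hij (c + w) (-a)` =: `y'` by `conj_twist`,
`twist_inv` (`prof_eq_zero isShape_bump`). Claim `T * y' = T * g * T⁻¹ * g⁻¹ ∈ N`: for `η > 0` let
`T'` be the approximation of `T` from `twist_approx`; it is in `IsD` with support in
`closedBall c e ⊆ closedBall c δ`, so `T' * g * T'⁻¹ * g⁻¹ ∈ N` by `central`; as `η → 0` these
converge uniformly, with inverses, to `T * g * T⁻¹ * g⁻¹` (uniform continuity of `T`, `g`,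
`SuppIn.uniformContinuous_of_cube`); use `hN.closed`. Finally `SuppIn y' (ball (zst n) κ)`:
the support is in `closedBall (c + w) e`, and
`dist (c + w) (zst n) ≤ dist c x + dist c' (zst n) < κ / 4 + κ / 4`.
-/

namespace Pool.Agent.W_d1cfb0_h59

open MeasureTheory Pool.Agent.W_MP_d1cfb0_an

theorem normalAll_point {n : ℕ} (hn : 2 ≤ n) {κ : ℝ} (hκ : 0 < κ) :
    ∃ c' ∈ O n, dist c' (zst n) < κ / 4 := by
  have ht0 : 0 < min (1 / 2) (κ / 4) := lt_min (by norm_num) (by positivity)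
  have ht1 : min (1 / 2) (κ / 4) ≤ 1 / 2 := min_le_left _ _
  have ht2 : min (1 / 2) (κ / 4) ≤ κ / 4 := min_le_right _ _
  generalize min (1 / 2) (κ / 4) = t at ht0 ht1 ht2
  refine ⟨(1 - t) • zst n, ?_, ?_⟩
  · intro i
    rw [PiLp.smul_apply, zst_apply, smul_eq_mul]
    split_ifs
    · rw [abs_of_nonneg (by linarith)]
      linarith
    · simp
  · have h1 : (1 - t) • zst n - zst n = (-t) • zst n := by
      rw [sub_smul, one_smul, neg_smul]
      abel
    rw [dist_eq_norm, h1, norm_smul, Real.norm_eq_abs, abs_neg, abs_of_pos ht0, zst_eq,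
      norm_smul, norm_e0 hn, Real.norm_eq_abs, abs_of_pos (by norm_num)]
    linarith

theorem normalAll_twists {n : ℕ} (hn : 2 ≤ n) {N : Set (E n ≃ₜ E n)} (hN : ClosedGroup n N)
    (hnorm : ∀ d, IsD d → ∀ g ∈ N, d * g * d⁻¹ ∈ N) {y : E n ≃ₜ E n} (hy : IsD y) (hy1 : y ≠ 1)
    (hyN : y ∈ N) : HasTwists n N := by
  intro K hK hKO κ ε₀ hκ hε₀
  obtain ⟨δ, hδ, hcen⟩ := central hn hN hnorm hy hy1 hyN hK hKO
  obtain ⟨c', hc'O, hc'd⟩ := normalAll_point hn hκ
  have htr : ∀ x ∈ K, ∃ g ∈ Dbar n, ∃ ρ : ℝ, 0 < ρ ∧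
      ∀ z ∈ Metric.closedBall x ρ, g z = z + (c' - x) := fun x hx =>
    translations hn (closedGroup_Dbar n) (fun d hd => mem_Dbar_of_isD hd) x c' (hKO hx) hc'O
  choose! g hg ρ hρ0 hρ using htr
  have hOo : IsOpen (O n) := by
    rw [O_eq_cub]
    exact isOpen_cub _ _
  obtain ⟨δ₁, hδ₁, hthick⟩ := hK.exists_cthickening_subset_open hOo hKO
  obtain ⟨δ₂, hδ₂, hleb⟩ := lebesgue_number_lemma_of_metric (s := K)
    (c := fun x : K => Metric.ball (x : E n) (min (ρ x) (κ / 4))) hK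
    (fun x => Metric.isOpen_ball) (by
      intro x hx
      exact Set.mem_iUnion.2 ⟨⟨x, hx⟩, Metric.mem_ball_self
        (lt_min (hρ0 x hx) (by positivity))⟩)
  obtain ⟨e, he0, heε, heδ, heκ, heδ₁, heδ₂⟩ : ∃ e : ℝ, 0 < e ∧ e < ε₀ ∧ e ≤ δ ∧ e < κ / 4 ∧
      e ≤ δ₁ ∧ e < δ₂ := by
    have h0 : 0 < min (min ε₀ δ) (min (κ / 4) (min δ₁ δ₂)) :=
      lt_min (lt_min hε₀ hδ) (lt_min (by positivity) (lt_min hδ₁ hδ₂))
    have h1 : min (min ε₀ δ) (min (κ / 4) (min δ₁ δ₂)) ≤ ε₀ :=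
      (min_le_left _ _).trans (min_le_left _ _)
    have h2 : min (min ε₀ δ) (min (κ / 4) (min δ₁ δ₂)) ≤ δ :=
      (min_le_left _ _).trans (min_le_right _ _)
    have h3 : min (min ε₀ δ) (min (κ / 4) (min δ₁ δ₂)) ≤ κ / 4 :=
      (min_le_right _ _).trans (min_le_left _ _)
    have h4 : min (min ε₀ δ) (min (κ / 4) (min δ₁ δ₂)) ≤ δ₁ :=
      (min_le_right _ _).trans ((min_le_right _ _).trans (min_le_left _ _))
    have h5 : min (min ε₀ δ) (min (κ / 4) (min δ₁ δ₂)) ≤ δ₂ :=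
      (min_le_right _ _).trans ((min_le_right _ _).trans (min_le_right _ _))
    generalize min (min ε₀ δ) (min (κ / 4) (min δ₁ δ₂)) = m at h0 h1 h2 h3 h4 h5
    exact ⟨m / 2, by linarith, by linarith, by linarith, by linarith, by linarith, by linarith⟩
  refine ⟨e, he0, heε, fun i j hij c hc τ => ?_⟩
  obtain ⟨⟨x, hx⟩, hxb⟩ := hleb c hc
  have hcx : dist c x < κ / 4 := by
    have h1 : c ∈ Metric.ball x (min (ρ x) (κ / 4)) := hxb (Metric.mem_ball_self hδ₂)
    exact (Metric.mem_ball.1 h1).trans_le (min_le_right _ _)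
  have hcb : Metric.closedBall c e ⊆ Metric.closedBall x (ρ x) := by
    intro q hq
    have h1 : q ∈ Metric.ball c δ₂ := by
      rw [Metric.mem_closedBall] at hq
      rw [Metric.mem_ball]
      linarith
    have h2 := hxb h1
    rw [Metric.mem_ball] at h2
    rw [Metric.mem_closedBall]
    exact (h2.trans_le (min_le_left _ _)).le
  have hcO : Metric.closedBall c e ⊆ O n := by
    refine (Metric.closedBall_subset_cthickening hc e).trans ?_
    exact (Metric.cthickening_mono heδ₁ K).trans hthick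
  have ha : ∀ u, e ≤ u → prof bump e τ u = 0 := prof_eq_zero isShape_bump he0 τ
  have ha' : ∀ u, e ≤ u → (-prof bump e τ) u = 0 := by
    intro u hu
    rw [ContinuousMap.neg_apply, ha u hu, neg_zero]
  have hTs : SuppIn (twist hij c (prof bump e τ)) (Metric.closedBall c e) :=
    suppIn_twist hij c _ ha
  have hTO : SuppIn (twist hij c (prof bump e τ)) (O n) := hTs.mono hcO
  have hgO : SuppIn (g x) (O n) := (closedGroup_Dbar n).supp _ (hg x hx)
  have hconj : g x * (twist hij c (prof bump e τ))⁻¹ * (g x)⁻¹ =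
      twist hij (c + (c' - x)) (-prof bump e τ) := by
    rw [twist_inv]
    exact conj_twist hij c _ ha' (g x) (c' - x) fun z hz => hρ x hx z (hcb hz)
  refine ⟨g x * (twist hij c (prof bump e τ))⁻¹ * (g x)⁻¹, ?_, ?_⟩
  · rw [hconj]
    refine (suppIn_twist hij _ _ ha').mono ?_
    intro q hq
    rw [Metric.mem_closedBall] at hq
    rw [Metric.mem_ball]
    have h1 : dist (c + (c' - x)) (zst n) ≤ dist c x + dist c' (zst n) := by
      rw [dist_eq_norm, dist_eq_norm, dist_eq_norm]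
      have h2 : c + (c' - x) - zst n = (c - x) + (c' - zst n) := by abel
      rw [h2]
      exact norm_add_le _ _
    have h2 := dist_triangle q (c + (c' - x)) (zst n)
    linarith
  · have e1 : twist hij c (prof bump e τ) * (g x * (twist hij c (prof bump e τ))⁻¹ * (g x)⁻¹) =
        twist hij c (prof bump e τ) * g x * (twist hij c (prof bump e τ))⁻¹ * (g x)⁻¹ := by
      group
    rw [e1]
    refine hN.closed _ (((hTO.mul hgO).mul hTO.inv).mul hgO.inv) fun η hη => ?_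
    obtain ⟨η₁, hη₁, h1⟩ := CGLemmas_mul ((hTO.mul hgO).mul hTO.inv) hgO.inv hη
    obtain ⟨η₂, hη₂, h2⟩ := CGLemmas_mul3 hTO hgO hTO.inv hη₁
    obtain ⟨T', hT'1, hT'2, hT'3⟩ := twist_approx hij c (prof bump e τ) he0 ha hη₂
    have hT'D : IsD T' := ⟨hT'1, Metric.closedBall c e, isCompact_closedBall _ _, hcO, hT'2⟩
    have hT'c : CGLemmas_Clo η₂ T' (twist hij c (prof bump e τ)) := hT'3
    refine ⟨T' * g x * T'⁻¹ * (g x)⁻¹, hcen c hc T' hT'D
      (hT'2.mono (Metric.closedBall_subset_closedBall heδ)) (g x) (hg x hx), ?_⟩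
    exact h1 _ _ (h2 T' (g x) T'⁻¹ hT'c (CGLemmas_Clo.refl hη₂ _) hT'c.inv)
      (CGLemmas_Clo.refl hη₁ _)

theorem normal_all {n : ℕ} (hn : 2 ≤ n) {N : Set (E n ≃ₜ E n)} (hN : ClosedGroup n N)
    (hnorm : ∀ d, IsD d → ∀ g ∈ N, d * g * d⁻¹ ∈ N) {y : E n ≃ₜ E n} (hy : IsD y) (hy1 : y ≠ 1)
    (hyN : y ∈ N) : ∀ d, IsD d → d ∈ N := by
  intro d hd
  obtain ⟨ρ, hρ0, hρ1, hdQ⟩ := hd.isM.exists_Q
  exact inner hn hN (normalAll_twists hn hN hnorm hy hy1 hyN) d hd.1.c hd.1.c' hd.1.mp hρ0 hρ1 hdQ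

end Pool.Agent.W_d1cfb0_h59
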