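import Pool.Agent.W_d1cfb0_h59.LocalExt
import Pool.Agent.W_d1cfb0_h59.Squeeze

/-!
# Approximation by homeomorphisms which are diffeomorphisms off a set of small volume

Proof. Let `N ≥ 1` be a large integer, `R = 1 / (2 N)`; the centres
`c_m = (-1/2 + (2 m_l + 1) R)_l`, `m : Fin n → Fin N`, give `N ^ n` pairwise disjoint open cubes
`cub c_m R ⊆ O n`. Choose `r < R` (`r > 0`) with `1 - (r / R) ^ n < v`. The closed cubes `ccub c_m r`
are pairwise disjoint, contained in `cub c_m R`, with total volume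
`N ^ n (2 r) ^ n = (r / R) ^ n`, so `volume (O n \ ⋃ cub c_m r) < v` (`volume_cub`).
Fix `m`. `W = f '' cub c_m R` is open, connected, contained in `O n`, of volume
`(2 R) ^ n > volume (ccub c_m r)`, so `squeeze` (with `conn_O_diff`) gives `σ_m` in `IsD` with
`σ_m '' ccub c_m r ⊆ f '' cub c_m R`. `H_m = f⁻¹ * σ_m` is in `IsM` and maps `ccub c_m r` into
`cub c_m R`. `local_ext` gives `H'_m`, measure preserving, with compact support
`K_m ⊆ cub c_m R`, equal to `H_m` on `ccub c_m r`. `exists_iprod` (finite index type, `B = K_m`,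
pairwise disjoint closed sets) gives `P` equal to `H'_m` on `K_m` and the identity elsewhere. So
`P = H'_m` on `cub c_m R`, in particular `P = H_m` on `ccub c_m r`. Let `f' = f * P`; on
`ccub c_m r` it is `f (f⁻¹ (σ_m x)) = σ_m x`. `P` is the identity off the compact set
`⋃ K_m ⊆ O n`, so `f'` is in `IsM`.
Distance: for `x ∈ cub c_m R`, `P x ∈ cub c_m R`, so `dist (P x) x ≤ 2 n R` (twice
`dist_le_of_mem_ccub`), and `P x = x` elsewhere; the same for `P⁻¹`. `f` is uniformly continuous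
(`SuppIn.uniformContinuous_of_cube`), so `dist (f (P x)) (f x) < ε` for `N` large, and
`f'⁻¹ x = P⁻¹ (f⁻¹ x)` has distance `≤ 2 n R < ε` from `f⁻¹ x`.
Finally number the cubes by `Fin J`, `J = N ^ n`.
-/

namespace Pool.Agent.W_d1cfb0_h59

open MeasureTheory Pool.Agent.W_MP_d1cfb0_an

/-- Centre of a grid cube. -/
noncomputable def psC (n N : ℕ) (m : Fin n → Fin N) : E n :=
  WithLp.toLp 2 fun l => -(1 / 2) + (2 * ((m l : ℕ) : ℝ) + 1) * (1 / (2 * (N : ℝ)))

theorem psC_apply (n N : ℕ) (m : Fin n → Fin N) (l : Fin n) :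
    psC n N m l = -(1 / 2) + (2 * ((m l : ℕ) : ℝ) + 1) * (1 / (2 * (N : ℝ))) := rfl

theorem ps_sub {n N : ℕ} (hN : 0 < N) (m : Fin n → Fin N) :
    cub (psC n N m) (1 / (2 * (N : ℝ))) ⊆ O n := by
  intro x hx l
  have h1 := abs_lt.1 (hx l)
  rw [psC_apply] at h1
  have hN' : (0 : ℝ) < N := by exact_mod_cast hN
  have h2 : ((m l : ℕ) : ℝ) + 1 ≤ N := by exact_mod_cast (m l).2
  have h3 : (0 : ℝ) ≤ ((m l : ℕ) : ℝ) := Nat.cast_nonneg _
  have hR : (0 : ℝ) < 1 / (2 * (N : ℝ)) := by positivity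
  have hRN : 2 * (N : ℝ) * (1 / (2 * (N : ℝ))) = 1 := by field_simp
  set R := 1 / (2 * (N : ℝ)) with hRdef
  rw [abs_lt]
  constructor
  · nlinarith [mul_nonneg h3 hR.le]
  · have h4 : (((m l : ℕ) : ℝ) + 1) * R ≤ N * R := mul_le_mul_of_nonneg_right h2 hR.le
    nlinarith

theorem ps_disj {n N : ℕ} (hN : 0 < N) {m m' : Fin n → Fin N} (h : m ≠ m') :
    Disjoint (cub (psC n N m) (1 / (2 * (N : ℝ)))) (cub (psC n N m') (1 / (2 * (N : ℝ)))) := by
  rw [Set.disjoint_left]
  intro x hx hx'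
  obtain ⟨l, hl⟩ := Function.ne_iff.1 h
  have h1 := abs_lt.1 (hx l)
  have h2 := abs_lt.1 (hx' l)
  rw [psC_apply] at h1 h2
  have hN' : (0 : ℝ) < N := by exact_mod_cast hN
  have hR : (0 : ℝ) < 1 / (2 * (N : ℝ)) := by positivity
  set R := 1 / (2 * (N : ℝ)) with hRdef
  have hl' : ((m l : ℕ)) ≠ (m' l : ℕ) := fun h => hl (Fin.ext h)
  rcases lt_or_gt_of_ne hl' with h3 | h3
  · have h4 : ((m l : ℕ) : ℝ) + 1 ≤ ((m' l : ℕ) : ℝ) := by exact_mod_cast h3
    have h5 := mul_le_mul_of_nonneg_right h4 hR.le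
    nlinarith
  · have h4 : ((m' l : ℕ) : ℝ) + 1 ≤ ((m l : ℕ) : ℝ) := by exact_mod_cast h3
    have h5 := mul_le_mul_of_nonneg_right h4 hR.le
    nlinarith

theorem ps_volume {n N : ℕ} (hN : 0 < N) {r : ℝ} (hr : 0 < r) (hrR : r < 1 / (2 * (N : ℝ)))
    {v : ℝ} (hv : 1 - (2 * r * N) ^ n < v) :
    volume (O n \ ⋃ m : Fin n → Fin N, cub (psC n N m) r) < ENNReal.ofReal v := by
  have hsub : (⋃ m : Fin n → Fin N, cub (psC n N m) r) ⊆ O n :=
    Set.iUnion_subset fun m => (cub_mono hrR.le).trans (ps_sub hN m)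
  have hmeas : MeasurableSet (⋃ m : Fin n → Fin N, cub (psC n N m) r) :=
    MeasurableSet.iUnion fun m => (isOpen_cub _ _).measurableSet
  have hvol : volume (⋃ m : Fin n → Fin N, cub (psC n N m) r) =
      ENNReal.ofReal ((2 * r * N) ^ n) := by
    rw [measure_iUnion]
    · simp only [volume_cub _ hr.le]
      rw [tsum_fintype, Finset.sum_const, Finset.card_univ, Fintype.card_fun, Fintype.card_fin,
        Fintype.card_fin, nsmul_eq_mul, mul_pow (2 * r) (N : ℝ) n, mul_comm,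
        ENNReal.ofReal_mul (by positivity)]
      congr 1
      rw [ENNReal.ofReal_pow (by positivity), ENNReal.ofReal_natCast]
      push_cast
      rfl
    · intro m m' hne
      exact (ps_disj hN hne).mono (cub_mono hrR.le) (cub_mono hrR.le)
    · exact fun m => (isOpen_cub _ _).measurableSet
  have hO : volume (O n) = 1 := by
    rw [O_eq_cub, volume_cub _ (by norm_num)]
    norm_num
  rw [measure_sdiff hsub hmeas.nullMeasurableSet (by rw [hvol]; exact ENNReal.ofReal_ne_top),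
    hvol, hO, ← ENNReal.ofReal_one, ← ENNReal.ofReal_sub _ (by positivity)]
  have hlt1 : (2 * r * N) ^ n ≤ 1 := by
    refine pow_le_one₀ (by positivity) ?_
    have hN' : (0 : ℝ) < N := by exact_mod_cast hN
    rw [lt_div_iff₀ (by positivity)] at hrR
    linarith
  refine (ENNReal.ofReal_lt_ofReal_iff ?_).2 hv
  linarith

/-- One cube. -/
theorem ps_cube {n : ℕ} (hn : 2 ≤ n) {f : E n ≃ₜ E n} (hf : IsM f) {c : E n} {r R : ℝ}
    (hr : 0 < r) (hrR : r < R) (hc : cub c R ⊆ O n) :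
    ∃ σ H' : E n ≃ₜ E n, ∃ K : Set (E n), IsD σ ∧ MeasurePreserving H' volume volume ∧
      IsCompact K ∧ K ⊆ cub c R ∧ SuppIn H' K ∧ ∀ x ∈ ccub c r, f (H' x) = σ x := by
  have hcO : ccub c r ⊆ O n := (ccub_subset_cub hrR).trans hc
  obtain ⟨σ, hσ, hσW⟩ := squeeze hn (isCompact_ccub c r) hcO (conn_O_diff hn hr.le hcO)
    (W := f '' cub c R) (f.isOpenMap _ (isOpen_cub c R))
    (by
      rintro _ ⟨x, hx, rfl⟩
      exact hf.mem_O (hc hx))
    ((convex_cub c R).isPreconnected.image f f.continuous.continuousOn)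
    (by
      rw [mp_volume_image hf.1, volume_ccub _ hr.le, volume_cub _ (hr.trans hrR).le]
      have hR : 0 < R := hr.trans hrR
      refine (ENNReal.ofReal_lt_ofReal_iff (by positivity)).2 ?_
      exact pow_lt_pow_left₀ (by linarith) (by positivity) (by omega))
  have hH : IsM (f⁻¹ * σ) := hf.inv.mul hσ.isM
  obtain ⟨H', hmp, ⟨K, hK, hKs, hKsupp⟩, hH'⟩ := local_ext hn hr hrR hH (by
    rintro _ ⟨x, hx, rfl⟩
    obtain ⟨y, hy, hxy⟩ := hσW ⟨x, hx, rfl⟩
    rw [mul_apply', ← hxy, inv_apply_self']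
    exact hy)
  refine ⟨σ, H', K, hσ, hmp, hK, hKs, hKsupp, fun x hx => ?_⟩
  rw [hH' x hx, mul_apply', apply_inv_self']

theorem partial_smooth {n : ℕ} (hn : 2 ≤ n) {f : E n ≃ₜ E n} (hf : IsM f) {ε : ℝ} (hε : 0 < ε)
    {v : ℝ} (hv : 0 < v) :
    ∃ (f' : E n ≃ₜ E n) (J : ℕ) (c : Fin J → E n) (r : ℝ), IsM f' ∧
      (∀ x, dist (f' x) (f x) < ε ∧ dist (f'⁻¹ x) (f⁻¹ x) < ε) ∧ 0 < r ∧
      (∀ l, ccub (c l) r ⊆ O n) ∧ (∀ l, ∃ σ : E n ≃ₜ E n, IsD σ ∧ ∀ x ∈ ccub (c l) r, f' x = σ x) ∧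
      volume (O n \ ⋃ l, cub (c l) r) < ENNReal.ofReal v := by
  obtain ⟨δ, hδ, hfδ⟩ := Metric.uniformContinuous_iff.1 hf.suppIn.uniformContinuous_of_cube ε hε
  have hn0 : (0 : ℝ) < n := by
    have : 0 < n := by omega
    exact_mod_cast this
  obtain ⟨N, hN⟩ := exists_nat_gt ((n : ℝ) / min δ ε)
  have hmin : 0 < min δ ε := lt_min hδ hε
  have hN' : (0 : ℝ) < N := lt_trans (by positivity) hN
  have hN0 : 0 < N := by exact_mod_cast hN'
  have hnN : (n : ℝ) / N < min δ ε := by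
    rw [div_lt_iff₀ hmin] at hN
    rw [div_lt_iff₀ hN', mul_comm]
    exact hN
  set R : ℝ := 1 / (2 * (N : ℝ)) with hRdef
  have hR : 0 < R := by positivity
  -- the small side
  set s : ℝ := min (1 / 2) (v / (2 * n)) with hs
  have hs0 : 0 < s := lt_min (by norm_num) (by positivity)
  have hs1 : s ≤ 1 / 2 := min_le_left _ _
  have hs2 : n * s ≤ v / 2 := by
    have h1 : s ≤ v / (2 * n) := min_le_right _ _
    calc (n : ℝ) * s ≤ n * (v / (2 * n)) := mul_le_mul_of_nonneg_left h1 hn0.le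
      _ = v / 2 := by field_simp
  set r : ℝ := (1 - s) * R with hrdef
  have hr : 0 < r := mul_pos (by linarith) hR
  have hrR : r < R := by
    rw [hrdef]
    nlinarith
  have hrN : 2 * r * N = 1 - s := by
    rw [hrdef, hRdef]
    field_simp
  have hvv : 1 - (2 * r * N) ^ n < v := by
    rw [hrN]
    have h1 := one_add_mul_le_pow (a := -s) (by linarith) n
    have h2 : (1 : ℝ) + -s = 1 - s := by ring
    rw [h2] at h1
    linarith
  have hcube : ∀ m : Fin n → Fin N, ∃ σ H' : E n ≃ₜ E n, ∃ K : Set (E n), IsD σ ∧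
      MeasurePreserving H' volume volume ∧ IsCompact K ∧ K ⊆ cub (psC n N m) R ∧
      SuppIn H' K ∧ ∀ x ∈ ccub (psC n N m) r, f (H' x) = σ x :=
    fun m => ps_cube hn hf hr hrR (ps_sub hN0 m)
  choose σ H' K hσ hmp hK hKs hKsupp hH' using hcube
  obtain ⟨P, hP1, hP2, hPmp⟩ := exists_iprod H' (fun m => cub (psC n N m) R)
    (fun m => (isOpen_cub _ _).measurableSet) (fun m m' hne => ps_disj hN0 hne)
    (fun m => (hKsupp m).mono (hKs m)) (fun _ _ => Set.toFinite _) hmp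
  have hPsupp : SuppIn P (⋃ m, K m) := by
    intro x hx
    rw [Set.mem_iUnion, not_exists] at hx
    by_cases h : ∃ m, x ∈ cub (psC n N m) R
    · obtain ⟨m, hm⟩ := h
      rw [hP1 m x hm]
      exact hKsupp m x (hx m)
    · exact hP2 x fun m hm => h ⟨m, hm⟩
  have hPM : IsM P := by
    refine ⟨hPmp, ⋃ m, K m, isCompact_iUnion fun m => hK m, ?_, hPsupp⟩
    exact Set.iUnion_subset fun m => (hKs m).trans (ps_sub hN0 m)
  have hPdist : ∀ x, dist (P x) x < min δ ε := by
    intro x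
    by_cases h : ∃ m, x ∈ cub (psC n N m) R
    · obtain ⟨m, hm⟩ := h
      have h1 : P x ∈ cub (psC n N m) R := by
        rw [hP1 m x hm]
        exact ((hKsupp m).mono (hKs m)).mem_of_mem hm
      have h2 := dist_le_of_mem_ccub (cub_subset_ccub _ _ h1) hR.le
      have h3 := dist_le_of_mem_ccub (cub_subset_ccub _ _ hm) hR.le
      have h4 := dist_triangle_right (P x) x (psC n N m)
      have h5 : (n : ℝ) * R + n * R = n / N := by
        rw [hRdef]
        field_simp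
        ring
      linarith
    · rw [hP2 x fun m hm => h ⟨m, hm⟩, dist_self]
      exact hmin
  let e := Fintype.equivFin (Fin n → Fin N)
  refine ⟨f * P, Fintype.card (Fin n → Fin N), fun l => psC n N (e.symm l), r, hf.mul hPM, ?_, hr,
    ?_, ?_, ?_⟩
  · intro x
    constructor
    · rw [mul_apply']
      exact hfδ ((hPdist x).trans_le (min_le_left _ _))
    · rw [mul_inv_rev, mul_apply']
      have h1 := hPdist (P⁻¹ (f⁻¹ x))
      rw [apply_inv_self', dist_comm] at h1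
      exact h1.trans_le (min_le_right _ _)
  · intro l
    exact (ccub_subset_cub hrR).trans (ps_sub hN0 _)
  · intro l
    refine ⟨σ (e.symm l), hσ _, fun x hx => ?_⟩
    rw [mul_apply', hP1 (e.symm l) x (ccub_subset_cub hrR hx)]
    exact hH' _ x hx
  · have h1 : (⋃ l, cub (psC n N (e.symm l)) r) = ⋃ m, cub (psC n N m) r :=
      e.symm.surjective.iUnion_comp fun m => cub (psC n N m) r
    rw [h1]
    exact ps_volume hN0 hr hrR hvv

end Pool.Agent.W_d1cfb0_h59
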