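import Pool.Agent.W_d1cfb0_h59.Shapes

/-!
# Connectedness of the complements

Technique: `isPreconnected_of_forall` with a base point, or: every point of the set is in a
preconnected subset of the set which meets a fixed convex subset (segments in coordinate
directions; `upd x m` of an interval is a segment, image of an interval under a continuous map).

`conn_Xs`: `O n \ Xs i j β a`. It is the union of `O n \ Q n β` and of
`T = {x ∈ O n | β - a < x i, a < x j < 2 a, |x l| < a}`: a point of `O n` not in `Xs` is off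
`Q n β` or in `T`; conversely `T ∩ Xs = ∅`. `O n \ Q n β` is preconnected (`conn_O_diff` type
argument: see the module `Conn`, not needed to import; or directly: it is the union of the convex
sets `{x ∈ O n | x m > β}`, `{x ∈ O n | x m < -β}`; two of these with different coordinates meet).
`T` is convex and meets `O n \ Q n β` (the point with `x i` between `β` and `1/2`,
`x j = 3 a / 2`, other coordinates `0`; `2 a < 1/2`).

`conn_EKL`: `U = O n \ (Eb ∪ Kh ∪ Lb)`. Base: `S = {x ∈ O n | β + r < x i}`, convex, nonempty,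
disjoint from the three boxes. Let `x ∈ U`. (1) If `|x l| > 2 r` for some `l ≠ i`: the segment in
the direction `i` from `x` to a point of `S` stays in `U` (all three boxes have `|x l| ≤ 2 r`,
as `2 a ≤ r`). (2) If `x i < β - 2 r`: choose `l ≠ i`; move `x l` to a value in `(2 r, 1/2)`: the
segment keeps `x i < β - 2 r`, hence stays in `U` (`Kh`, `Eb`, `Lb` have `x i ≥ β - 2 r`); we are
in case (1). (3) Otherwise `x i ≥ β - 2 r`, `|x l| ≤ 2 r` for all `l ≠ i`, and `x ∉ Kh` gives
`x i > β - η / 2`. Move `x i` up to `S`: the segment does not meet `Kh` (`x i > β - η/2`), nor `Eb`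
(a point of `Eb` on it would have `x i ≤ β + r` and the same other coordinates, so `x ∈ Eb` as
`β - η/2 ≤ x i`), nor `Lb` (a point of `Lb` on it has `x i ≤ β`, and `x i > β - η / 2 ≥ β - a`, so
`x ∈ Lb`; `η / 2 ≤ a`).

`conn_KL`: `U = cub 0 β \ (Kh ∪ Lb)`. Base: `S = {x ∈ cub 0 β | x i < β - 2 r}`, convex, nonempty,
disjoint from `Kh`, `Lb` (`a ≤ 2 r`). (1) If `|x l| > 2 r` for some `l ≠ i`: move `x i` down to
`S`. (2) If `x i < β - 2 r`: in `S`. (3) Otherwise `x i > β - η / 2` as before. If `x j < a`: move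
`x j` down to a value in `(-β, -2 r)`: `Kh` is not met (`x i > β - η/2`), `Lb` is not met
(`x j < a`); case (1). If `x j ≥ a` then `x ∉ Lb` and `β - a ≤ x i ≤ β` give `x j > 2 a` or
`|x l| > a` for some `l ≠ i, j`: move `x j` up to a value in `(2 r, β)`, `Lb` is not met; case (1).
-/

namespace Pool.Agent.W_d1cfb0_h59

open MeasureTheory Pool.Agent.W_MP_d1cfb0_an

theorem shapeconn_move {n : ℕ} {U : Set (E n)} {x : E n} {m : Fin n} {t : ℝ}
    (h : ∀ s ∈ Set.uIcc (x m) t, upd x m s ∈ U) : JoinedIn U x (upd x m t) := by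
  refine JoinedIn.ofLine (f := fun θ : ℝ => upd x m (x m + θ * (t - x m))) ?_ ?_ ?_ ?_
  · refine Continuous.continuousOn ?_
    exact (continuous_upd m).comp (continuous_const.prodMk (by fun_prop))
  · simp
  · simp
  · rintro _ ⟨θ, hθ, rfl⟩
    apply h
    rw [Set.mem_uIcc]
    have h0 : 0 ≤ θ := hθ.1
    have h1 : θ ≤ 1 := hθ.2
    rcases le_total (x m) t with h2 | h2
    · left
      constructor <;> nlinarith [mul_nonneg h0 (sub_nonneg.2 h2),
        mul_nonneg (sub_nonneg.2 h1) (sub_nonneg.2 h2)]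
    · right
      constructor <;> nlinarith [mul_nonneg h0 (sub_nonneg.2 h2),
        mul_nonneg (sub_nonneg.2 h1) (sub_nonneg.2 h2)]

theorem shapeconn_abs {a b s c : ℝ} (hs : s ∈ Set.uIcc a b) (ha : |a| < c) (hb : |b| < c) :
    |s| < c := by
  rw [abs_lt] at *
  rw [Set.mem_uIcc] at hs
  rcases hs with ⟨h1, h2⟩ | ⟨h1, h2⟩
  · exact ⟨by linarith [ha.1], by linarith [hb.2]⟩
  · exact ⟨by linarith [hb.1], by linarith [ha.2]⟩

theorem shapeconn_lt {a b s c : ℝ} (hs : s ∈ Set.uIcc a b) (ha : c < a) (hb : c < b) :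
    c < s := by
  rw [Set.mem_uIcc] at hs
  rcases hs with ⟨h1, h2⟩ | ⟨h1, h2⟩
  · exact ha.trans_le h1
  · exact hb.trans_le h1

theorem shapeconn_gt {a b s c : ℝ} (hs : s ∈ Set.uIcc a b) (ha : a < c) (hb : b < c) :
    s < c := by
  rw [Set.mem_uIcc] at hs
  rcases hs with ⟨h1, h2⟩ | ⟨h1, h2⟩
  · exact h2.trans_lt hb
  · exact h2.trans_lt ha

theorem shapeconn_O {n : ℕ} {x : E n} {m : Fin n} {s : ℝ} (hx : x ∈ O n) (hs : |s| < 1 / 2) :
    upd x m s ∈ O n := by
  intro l
  by_cases hl : l = m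
  · subst hl
    rw [upd_same]
    exact hs
  · rw [upd_ne _ hl]
    exact hx l

theorem shapeconn_cub {n : ℕ} {x : E n} {m : Fin n} {s β : ℝ} (hx : x ∈ cub 0 β) (hs : |s| < β) :
    upd x m s ∈ cub 0 β := by
  intro l
  by_cases hl : l = m
  · subst hl
    rw [upd_same]
    simpa using hs
  · rw [upd_ne _ hl]
    exact hx l

theorem shapeconn_zero_O (n : ℕ) : (0 : E n) ∈ O n := by
  intro l
  simp

theorem shapeconn_convex_gt {n : ℕ} {V : Set (E n)} (hV : Convex ℝ V) (i : Fin n) (c : ℝ) :
    Convex ℝ {x : E n | x ∈ V ∧ c < x i} := by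
  intro x hx y hy s t hs ht hst
  refine ⟨hV hx.1 hy.1 hs ht hst, ?_⟩
  have h1 := hx.2
  have h2 := hy.2
  simp only [PiLp.add_apply, PiLp.smul_apply, smul_eq_mul]
  have e1 : s = 1 - t := by linarith
  subst e1
  rcases ht.eq_or_lt with h0 | h0
  · rw [← h0]
    linarith
  · nlinarith [mul_nonneg hs (sub_nonneg.2 h1.le), mul_pos h0 (sub_pos.2 h2)]

theorem shapeconn_convex_lt {n : ℕ} {V : Set (E n)} (hV : Convex ℝ V) (i : Fin n) (c : ℝ) :
    Convex ℝ {x : E n | x ∈ V ∧ x i < c} := by
  intro x hx y hy s t hs ht hst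
  refine ⟨hV hx.1 hy.1 hs ht hst, ?_⟩
  have h1 := hx.2
  have h2 := hy.2
  simp only [PiLp.add_apply, PiLp.smul_apply, smul_eq_mul]
  have e1 : s = 1 - t := by linarith
  subst e1
  rcases ht.eq_or_lt with h0 | h0
  · rw [← h0]
    linarith
  · nlinarith [mul_nonneg hs (sub_nonneg.2 h1.le), mul_pos h0 (sub_pos.2 h2)]

theorem shapeconn_joined {n : ℕ} {U S : Set (E n)} (hS : Convex ℝ S) (hSU : S ⊆ U) {x y : E n}
    (hx : x ∈ S) (hy : y ∈ S) : JoinedIn U x y :=
  ((hS.isPathConnected ⟨x, hx⟩).joinedIn x hx y hy).mono hSU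

theorem shapeconn_of {n : ℕ} {U : Set (E n)} {b : E n} (hb : b ∈ U)
    (h : ∀ x ∈ U, JoinedIn U x b) : IsPreconnected U := by
  have h1 : IsPathConnected U := ⟨b, hb, fun y hy => (h y hy).symm⟩
  exact h1.isConnected.isPreconnected

theorem conn_Xs {n : ℕ} {i j : Fin n} (hij : i ≠ j) {β a : ℝ} (ha : 0 < a) (hβ : 4 * a ≤ β)
    (hβ1 : β < 1 / 2) : IsPreconnected (O n \ Xs i j β a) := by
  have hv1 : β < (β + 1 / 2) / 2 := by linarith
  have hv2 : (β + 1 / 2) / 2 < 1 / 2 := by linarith
  set v : ℝ := (β + 1 / 2) / 2 with hv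
  have hvabs : |v| < 1 / 2 := by
    rw [abs_lt]
    constructor <;> linarith
  set U : Set (E n) := O n \ Xs i j β a with hU
  have hmem1 : ∀ {x : E n} (m : Fin n), x ∈ O n → β < |x m| → x ∈ U := by
    intro x m hx hm
    refine ⟨hx, fun h => ?_⟩
    exact absurd (h.1 m) (not_le.2 hm)
  set S : Set (E n) := {x : E n | x ∈ O n ∧ β < x i} with hS
  have hSU : S ⊆ U := fun x hx => hmem1 i hx.1 (hx.2.trans_le (le_abs_self _))
  have hSc : Convex ℝ S := shapeconn_convex_gt (by rw [O_eq_cub]; exact convex_cub _ _) i β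
  have hb : upd (0 : E n) i v ∈ S :=
    ⟨shapeconn_O (shapeconn_zero_O n) hvabs, by rw [upd_same]; exact hv1⟩
  have hA : ∀ {x : E n} (m : Fin n), m ≠ i → x ∈ O n → β < |x m| →
      JoinedIn U x (upd (0 : E n) i v) := by
    intro x m hm hx hxm
    have h1 : JoinedIn U x (upd x i v) := by
      apply shapeconn_move
      intro s hs
      refine hmem1 m (shapeconn_O hx (shapeconn_abs hs (hx i) hvabs)) ?_
      rw [upd_ne _ hm]
      exact hxm
    refine h1.trans (shapeconn_joined hSc hSU ?_ hb)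
    exact ⟨shapeconn_O hx hvabs, by rw [upd_same]; exact hv1⟩
  refine shapeconn_of (hSU hb) ?_
  intro x hx
  have hxO : x ∈ O n := hx.1
  by_cases hQ : x ∈ Q n β
  · have hT : β - a < x i ∧ (a < x j ∧ x j < 2 * a) ∧ ∀ l, l ≠ i → l ≠ j → |x l| < a := by
      by_contra hcon
      exact hx.2 ⟨hQ, hcon⟩
    have h1 : JoinedIn U x (upd x i v) := by
      apply shapeconn_move
      intro s hs
      refine ⟨shapeconn_O hxO (shapeconn_abs hs (hxO i) hvabs), fun h => ?_⟩
      apply h.2
      refine ⟨?_, ?_, ?_⟩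
      · rw [upd_same]
        exact shapeconn_lt hs hT.1 (by linarith)
      · rw [upd_ne _ hij.symm]
        exact hT.2.1
      · intro l hl hl'
        rw [upd_ne _ hl]
        exact hT.2.2 l hl hl'
    refine h1.trans (shapeconn_joined hSc hSU ?_ hb)
    exact ⟨shapeconn_O hxO hvabs, by rw [upd_same]; exact hv1⟩
  · have h1 : ∃ m, β < |x m| := by
      by_contra hcon
      push Not at hcon
      exact hQ hcon
    obtain ⟨m, hm⟩ := h1
    by_cases hmi : m = i
    · subst hmi
      have h2 : JoinedIn U x (upd x j v) := by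
        apply shapeconn_move
        intro s hs
        refine hmem1 m (shapeconn_O hxO (shapeconn_abs hs (hxO j) hvabs)) ?_
        rw [upd_ne _ hij]
        exact hm
      refine h2.trans (hA j hij.symm (shapeconn_O hxO hvabs) ?_)
      rw [upd_same]
      exact hv1.trans_le (le_abs_self _)
    · exact hA m hmi hxO hm

theorem conn_EKL {n : ℕ} {i j : Fin n} (hij : i ≠ j) {β r η a : ℝ} (hη : 0 < η) (ha : 0 < a)
    (hηa : η ≤ a) (har : 2 * a ≤ r) (hr : 4 * r ≤ β) (hr' : 4 * r ≤ 1 / 2 - β) :
    IsPreconnected (O n \ (Eb i j β r η ∪ Kh i β r η ∪ Lb i j β a)) := by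
  set v : ℝ := (β + r + 1 / 2) / 2 with hv
  have hv1 : β + r < v := by linarith
  have hv2 : v < 1 / 2 := by linarith
  have hvabs : |v| < 1 / 2 := by
    rw [abs_lt]
    constructor <;> linarith
  set u : ℝ := 3 * r with hu
  have huabs : |u| < 1 / 2 := by
    rw [abs_lt]
    constructor <;> linarith
  set U : Set (E n) := O n \ (Eb i j β r η ∪ Kh i β r η ∪ Lb i j β a) with hU
  set S : Set (E n) := {x : E n | x ∈ O n ∧ β + r < x i} with hS
  have hSU : S ⊆ U := by
    rintro x ⟨hx1, hx2⟩
    refine ⟨hx1, ?_⟩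
    rintro ((h | h) | h)
    · linarith [h.1.2]
    · linarith [h.1.2]
    · linarith [h.1.2]
  have hSc : Convex ℝ S := shapeconn_convex_gt (by rw [O_eq_cub]; exact convex_cub _ _) i _
  have hb : upd (0 : E n) i v ∈ S :=
    ⟨shapeconn_O (shapeconn_zero_O n) hvabs, by rw [upd_same]; exact hv1⟩
  have hfin : ∀ {x : E n}, x ∈ O n → JoinedIn U (upd x i v) (upd (0 : E n) i v) := by
    intro x hx
    refine shapeconn_joined hSc hSU ?_ hb
    exact ⟨shapeconn_O hx hvabs, by rw [upd_same]; exact hv1⟩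
  -- a point with a large coordinate
  have hbig : ∀ {x : E n} (l : Fin n), l ≠ i → x ∈ O n → 2 * r < |x l| → x ∈ U := by
    intro x l hl hx hxl
    refine ⟨hx, ?_⟩
    rintro ((h | h) | h)
    · by_cases hlj : l = j
      · subst hlj
        have h1 : |x l| ≤ r := abs_le.2 ⟨by linarith [h.2.1.1], by linarith [h.2.1.2]⟩
        linarith
      · linarith [h.2.2 l hl hlj]
    · linarith [h.2 l hl]
    · by_cases hlj : l = j
      · subst hlj
        have h1 : |x l| ≤ 2 * a := abs_le.2 ⟨by linarith [h.2.1.1], by linarith [h.2.1.2]⟩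
        linarith
      · linarith [h.2.2 l hl hlj]
  have hlow : ∀ {x : E n}, x ∈ O n → x i < β - 2 * r → x ∈ U := by
    intro x hx hxi
    refine ⟨hx, ?_⟩
    rintro ((h | h) | h)
    · linarith [h.1.1]
    · linarith [h.1.1]
    · linarith [h.1.1]
  have h1 : ∀ {x : E n} (l : Fin n), l ≠ i → x ∈ O n → 2 * r < |x l| →
      JoinedIn U x (upd (0 : E n) i v) := by
    intro x l hl hx hxl
    have h2 : JoinedIn U x (upd x i v) := by
      apply shapeconn_move
      intro s hs
      refine hbig l hl (shapeconn_O hx (shapeconn_abs hs (hx i) hvabs)) ?_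
      rw [upd_ne _ hl]
      exact hxl
    exact h2.trans (hfin hx)
  refine shapeconn_of (hSU hb) ?_
  intro x hx
  have hxO : x ∈ O n := hx.1
  by_cases hc1 : ∃ l, l ≠ i ∧ 2 * r < |x l|
  · obtain ⟨l, hl, hxl⟩ := hc1
    exact h1 l hl hxO hxl
  push Not at hc1
  by_cases hc2 : x i < β - 2 * r
  · have h2 : JoinedIn U x (upd x j u) := by
      apply shapeconn_move
      intro s hs
      refine hlow (shapeconn_O hxO (shapeconn_abs hs (hxO j) huabs)) ?_
      rw [upd_ne _ hij]
      exact hc2
    refine h2.trans (h1 j hij.symm (shapeconn_O hxO huabs) ?_)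
    rw [upd_same, abs_of_pos (by linarith)]
    linarith
  rw [not_lt] at hc2
  have hxi : β - η / 2 < x i := by
    by_contra hcon
    rw [not_lt] at hcon
    exact hx.2 (Or.inl (Or.inr ⟨⟨hc2, hcon⟩, hc1⟩))
  have h2 : JoinedIn U x (upd x i v) := by
    apply shapeconn_move
    intro s hs
    refine ⟨shapeconn_O hxO (shapeconn_abs hs (hxO i) hvabs), ?_⟩
    have hs1 : β - η / 2 < s := shapeconn_lt hs hxi (by linarith)
    rintro ((h | h) | h)
    · -- the box `Eb`
      have e1 := h.1.2
      rw [upd_same] at e1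
      have hxs : x i ≤ s := by
        rw [Set.mem_uIcc] at hs
        rcases hs with hs | hs
        · exact hs.1
        · linarith [hs.1]
      apply hx.2
      refine Or.inl (Or.inl ⟨⟨hxi.le, by linarith⟩, ?_, ?_⟩)
      · have e2 := h.2.1
        rw [upd_ne _ hij.symm] at e2
        exact e2
      · intro l hl hl'
        have e2 := h.2.2 l hl hl'
        rw [upd_ne _ hl] at e2
        exact e2
    · have e1 := h.1.2
      rw [upd_same] at e1
      linarith
    · have e1 := h.1.2
      rw [upd_same] at e1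
      have hxs : x i ≤ s := by
        rw [Set.mem_uIcc] at hs
        rcases hs with hs | hs
        · exact hs.1
        · linarith [hs.1]
      apply hx.2
      refine Or.inr ⟨⟨by linarith, by linarith⟩, ?_, ?_⟩
      · have e2 := h.2.1
        rw [upd_ne _ hij.symm] at e2
        exact e2
      · intro l hl hl'
        have e2 := h.2.2 l hl hl'
        rw [upd_ne _ hl] at e2
        exact e2
  exact h2.trans (hfin hxO)

theorem conn_KL {n : ℕ} {i j : Fin n} (hij : i ≠ j) {β r η a : ℝ} (hη : 0 < η) (ha : 0 < a)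
    (hηa : η ≤ a) (har : 2 * a ≤ r) (hr : 4 * r ≤ β) :
    IsPreconnected (cub 0 β \ (Kh i β r η ∪ Lb i j β a)) := by
  have hr0 : 0 < r := by linarith
  have hβ0 : 0 < β := by linarith
  set v : ℝ := 0 with hv
  have hv1 : v < β - 2 * r := by linarith
  have hvabs : |v| < β := by
    rw [hv, abs_zero]
    exact hβ0
  set u : ℝ := 3 * r with hu
  have huabs : |u| < β := by
    rw [abs_lt]
    constructor <;> linarith
  have huabs' : |-u| < β := by
    rw [abs_neg]
    exact huabs
  set U : Set (E n) := cub 0 β \ (Kh i β r η ∪ Lb i j β a) with hU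
  have hcoord : ∀ {x : E n}, x ∈ cub 0 β → ∀ l, |x l| < β := by
    intro x hx l
    have := hx l
    simpa using this
  set S : Set (E n) := {x : E n | x ∈ cub 0 β ∧ x i < β - 2 * r} with hS
  have hSU : S ⊆ U := by
    rintro x ⟨hx1, hx2⟩
    refine ⟨hx1, ?_⟩
    rintro (h | h)
    · linarith [h.1.1]
    · linarith [h.1.1]
  have hSc : Convex ℝ S := shapeconn_convex_lt (convex_cub _ _) i _
  have h0 : (0 : E n) ∈ cub 0 β := mem_cub_self hβ0
  have hb : upd (0 : E n) i v ∈ S :=
    ⟨shapeconn_cub h0 hvabs, by rw [upd_same]; exact hv1⟩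
  have hfin : ∀ {x : E n}, x ∈ cub 0 β → JoinedIn U (upd x i v) (upd (0 : E n) i v) := by
    intro x hx
    refine shapeconn_joined hSc hSU ?_ hb
    exact ⟨shapeconn_cub hx hvabs, by rw [upd_same]; exact hv1⟩
  have hbig : ∀ {x : E n} (l : Fin n), l ≠ i → x ∈ cub 0 β → 2 * r < |x l| → x ∈ U := by
    intro x l hl hx hxl
    refine ⟨hx, ?_⟩
    rintro (h | h)
    · linarith [h.2 l hl]
    · by_cases hlj : l = j
      · subst hlj
        have h1 : |x l| ≤ 2 * a := abs_le.2 ⟨by linarith [h.2.1.1], by linarith [h.2.1.2]⟩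
        linarith
      · linarith [h.2.2 l hl hlj]
  have h1 : ∀ {x : E n} (l : Fin n), l ≠ i → x ∈ cub 0 β → 2 * r < |x l| →
      JoinedIn U x (upd (0 : E n) i v) := by
    intro x l hl hx hxl
    have h2 : JoinedIn U x (upd x i v) := by
      apply shapeconn_move
      intro s hs
      refine hbig l hl (shapeconn_cub hx (shapeconn_abs hs (hcoord hx i) hvabs)) ?_
      rw [upd_ne _ hl]
      exact hxl
    exact h2.trans (hfin hx)
  refine shapeconn_of (hSU hb) ?_
  intro x hx
  have hxO : x ∈ cub 0 β := hx.1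
  by_cases hc1 : ∃ l, l ≠ i ∧ 2 * r < |x l|
  · obtain ⟨l, hl, hxl⟩ := hc1
    exact h1 l hl hxO hxl
  push Not at hc1
  by_cases hc2 : x i < β - 2 * r
  · exact shapeconn_joined hSc hSU ⟨hxO, hc2⟩ hb
  rw [not_lt] at hc2
  have hxi : β - η / 2 < x i := by
    by_contra hcon
    rw [not_lt] at hcon
    exact hx.2 (Or.inl ⟨⟨hc2, hcon⟩, hc1⟩)
  have hxi' : x i < β := (abs_lt.1 (hcoord hxO i)).2
  have hK : ∀ s : ℝ, upd x j s ∉ Kh i β r η := by
    intro s h
    have e1 := h.1.2
    rw [upd_ne _ hij] at e1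
    linarith
  by_cases hc3 : x j < a
  · have h2 : JoinedIn U x (upd x j (-u)) := by
      apply shapeconn_move
      intro s hs
      refine ⟨shapeconn_cub hxO (shapeconn_abs hs (hcoord hxO j) huabs'), ?_⟩
      rintro (h | h)
      · exact hK s h
      · have e1 := h.2.1.1
        rw [upd_same] at e1
        have e2 : s < a := shapeconn_gt hs hc3 (by linarith)
        linarith
    refine h2.trans (h1 j hij.symm (shapeconn_cub hxO huabs') ?_)
    rw [upd_same, abs_neg, abs_of_pos (by linarith)]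
    linarith
  · rw [not_lt] at hc3
    have h2 : JoinedIn U x (upd x j u) := by
      apply shapeconn_move
      intro s hs
      refine ⟨shapeconn_cub hxO (shapeconn_abs hs (hcoord hxO j) huabs), ?_⟩
      have hxj : |x j| ≤ 2 * r := hc1 j hij.symm
      have hxj' := (abs_le.1 hxj).2
      rintro (h | h)
      · exact hK s h
      · have e1 := h.2.1.2
        rw [upd_same] at e1
        have hxs : x j ≤ s := by
          rw [Set.mem_uIcc] at hs
          rcases hs with hs | hs
          · exact hs.1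
          · linarith [hs.1]
        apply hx.2
        refine Or.inr ⟨⟨by linarith, hxi'.le⟩, ⟨hc3, by linarith⟩, ?_⟩
        intro l hl hl'
        have e2 := h.2.2 l hl hl'
        rw [upd_ne _ hl'] at e2
        exact e2
    refine h2.trans (h1 j hij.symm (shapeconn_cub hxO huabs) ?_)
    rw [upd_same, abs_of_pos (by linarith)]
    linarith

end Pool.Agent.W_d1cfb0_h59
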