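import Pool.Agent.W_d1cfb0_h59.Basic2

/-!
# The boxes of the shrinking step

`Ah`: the part of the box `Q n (β - η/2)` near the centre of the face `x i = β - η/2`;
`Kh`: twice as large; `Eb`: a box sticking out of `Q n β`; `Lb`: the box on which the new
homeomorphism will be the identity; `Xs`: the new support.
-/

namespace Pool.Agent.W_d1cfb0_h59

open MeasureTheory Pool.Agent.W_MP_d1cfb0_an

/-- `{β - r ≤ x i ≤ β - η/2, |x l| ≤ r}`. -/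
def Ah {n : ℕ} (i : Fin n) (β r η : ℝ) : Set (E n) :=
  {x | (β - r ≤ x i ∧ x i ≤ β - η / 2) ∧ ∀ l, l ≠ i → |x l| ≤ r}

/-- `{β - 2 r ≤ x i ≤ β - η/2, |x l| ≤ 2 r}`. -/
def Kh {n : ℕ} (i : Fin n) (β r η : ℝ) : Set (E n) :=
  {x | (β - 2 * r ≤ x i ∧ x i ≤ β - η / 2) ∧ ∀ l, l ≠ i → |x l| ≤ 2 * r}

/-- `{β - η/2 ≤ x i ≤ β + r, - r ≤ x j ≤ 0, |x l| ≤ r}`. -/
def Eb {n : ℕ} (i j : Fin n) (β r η : ℝ) : Set (E n) :=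
  {x | (β - η / 2 ≤ x i ∧ x i ≤ β + r) ∧ (-r ≤ x j ∧ x j ≤ 0) ∧
    ∀ l, l ≠ i → l ≠ j → |x l| ≤ r}

/-- `{β - a ≤ x i ≤ β, a ≤ x j ≤ 2 a, |x l| ≤ a}`. -/
def Lb {n : ℕ} (i j : Fin n) (β a : ℝ) : Set (E n) :=
  {x | (β - a ≤ x i ∧ x i ≤ β) ∧ (a ≤ x j ∧ x j ≤ 2 * a) ∧
    ∀ l, l ≠ i → l ≠ j → |x l| ≤ a}

/-- `Q n β` without the box `{β - a < x i, a < x j < 2 a, |x l| < a}`. -/
def Xs {n : ℕ} (i j : Fin n) (β a : ℝ) : Set (E n) :=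
  Q n β \ {x | β - a < x i ∧ (a < x j ∧ x j < 2 * a) ∧ ∀ l, l ≠ i → l ≠ j → |x l| < a}

end Pool.Agent.W_d1cfb0_h59
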