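import Pool.Agent.W_d1cfb0_h59.ShapeConn
import Pool.Agent.W_d1cfb0_h59.GS
import Pool.Agent.W_d1cfb0_h59.BoxSquash

/-!
# Second correction map

There is `R` in `IsD` which fixes `Kh` and `Lb` pointwise and maps `Eb` (which sticks out of
`Q n β`) into `Q n β`.

Proof. Write `Φ = Kh i β r η ∪ Lb i j β a`. Let `e, ρ` be from `box_squash` in the coordinate `i`
with `p' i = β - 3 η / 8`, `q' i = β + 2 r`, `a := β + r`, `a' := β - η / 4`; in the coordinate `j`:
`p' = -2 r`, `p = -r`, `q = a / 4`, `q' = a / 2`; in the other coordinates `p' = -2 r`, `p = -r`,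
`q = r`, `q' = 2 r`. The support box `P = bx p' q'` is compact, contained in `O n`
(`β + 2 r < 1/2`), disjoint from `Kh` (`x i ≤ β - η/2`) and from `Lb` (`x j ≥ a`).
For `x ∈ Eb`: `e x l = x l` for `l ≠ i`, `e x i ≤ β - η / 4`, and `e x i ≥ β - η / 2` (if `x ∈ P`
then `e x ∈ P`, so `e x i ≥ β - 3 η/8`; otherwise `e x = x`).
`X = Eb ∩ {x i ≥ β - 3 η / 8}`, compact. `Ω₁ = O n \ (e '' Eb ∪ Φ)`, open (`Eb`, `Φ` compact); since
`e '' Φ = Φ` (`SuppIn.image_disj`) and `e '' O n = O n`, `Ω₁ = e '' (O n \ (Eb ∪ Φ))`, preconnected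
by `conn_EKL`. `Ω₂ = cub 0 β \ Φ`, open, preconnected by `conn_KL`.
Hypotheses of `gs` with `K = P`: `e '' X ⊆ e '' Eb` is disjoint from `Ω₁`. `P ⊆ Ω₁ ∪ e '' X`: a
point `y ∈ P` not in `Ω₁` is in `e '' Eb` (`P` is disjoint from `Φ`), `y = e x`, `x ∈ Eb ∩ P`, so
`x ∈ X`. `e '' X ⊆ Ω₂`: for `x ∈ X`, `e x i ≥ β - 3 η/8 > β - η/2` (if `x ∈ P` then `e x ∈ P`;
otherwise `e x = x`) so `e x ∉ Kh`; `e x j = x j ≤ 0` so `e x ∉ Lb`; and `e x ∈ cub 0 β`.
Volume: `Ω₁ ∩ Ω₂ = cub 0 β \ (e '' Eb ∪ Φ)` and `e '' Eb ⊆ e '' X ∪ Z'` with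
`Z' = {β - η/2 ≤ x i ≤ β - 3 η / 8, -r ≤ x j ≤ 0, |x l| ≤ r}`. So
`volume (Ω₁ ∩ Ω₂) + volume (e '' X) ≥ (2 β)^n - volume Kh - volume Lb - volume Z'`, where
`volume Kh ≤ 2 r (4 r)^(n-1)`, `volume Lb = a * a * (2 a)^(n-2) ≤ (r/2) (4 r)^(n-1)`,
`volume Z' ≤ r * r * (2 r)^(n-2)`, and `volume X ≤ (r + 3 η / 8) * r * (2 r)^(n-2) ≤
2 r (4 r)^(n-1)`; all of them together are at most `5.5 r (4 r)^(n-1) < (8 r)^n ≤ (2 β)^n`
(`(8 r)^n ≥ 2 * 8 r * (4 r)^(n-1)`). It may be easiest to bound every one of these sets by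
`2 * r * (4 * r)^(n-1)` = volume of the box `{|x i - β| ≤ r, |x l| ≤ 2 r}`-like boxes. `Ω₁ ∩ Ω₂` is
nonempty: the point `(-β/2) e_i`, i.e. `upd 0 i (-β/2)`.
Let `ψ, θ` be from `gs`, `R = θ * ψ * e`: `Sm`, `CS R (O n)`. For `x ∈ Φ`: `e x = x`
(`x ∉ P`), `ψ x = x` (`x ∉ Ω₁`), `θ x = x` (`x ∉ Ω₂`). For `x ∈ Kh`: `R x = x ∈ Q n β`. For
`x ∈ Eb`: `ψ (e x) = e x`, `e x ∈ cub 0 β` (`|e x i| < β`, other coordinates `≤ r < β`), and `θ`
maps `cub 0 β` to itself (support in `Ω₂ ⊆ cub 0 β`), so `R x ∈ cub 0 β ⊆ Q n β`.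
-/

namespace Pool.Agent.W_d1cfb0_h59

open MeasureTheory Pool.Agent.W_MP_d1cfb0_an

/-- The boxes as values of `bx`. -/
theorem shrinkr_Kh {n : ℕ} (i : Fin n) (β r η : ℝ) : Kh i β r η =
    bx (fun l => if l = i then β - 2 * r else -(2 * r))
      (fun l => if l = i then β - η / 2 else 2 * r) := by
  ext x
  simp only [Kh, bx, Set.mem_ofPred_eq]
  constructor
  · rintro ⟨h1, h2⟩ l
    by_cases hl : l = i
    · subst hl
      simpa using h1
    · simp only [if_neg hl]
      exact abs_le.1 (h2 l hl)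
  · intro h
    refine ⟨by simpa using h i, fun l hl => ?_⟩
    have h1 := h l
    simp only [if_neg hl] at h1
    exact abs_le.2 h1

theorem shrinkr_gen {n : ℕ} {i j : Fin n} (hij : i ≠ j) (s t u v w : ℝ) :
    {x : E n | (s ≤ x i ∧ x i ≤ t) ∧ (u ≤ x j ∧ x j ≤ v) ∧ ∀ l, l ≠ i → l ≠ j → |x l| ≤ w} =
    bx (fun l => if l = i then s else if l = j then u else -w)
      (fun l => if l = i then t else if l = j then v else w) := by
  ext x
  simp only [bx, Set.mem_ofPred_eq]
  constructor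
  · rintro ⟨h1, h2, h3⟩ l
    by_cases hl : l = i
    · subst hl
      simpa using h1
    · by_cases hl' : l = j
      · subst hl'
        simp only [if_neg hl, if_true]
        exact h2
      · simp only [if_neg hl, if_neg hl']
        exact abs_le.1 (h3 l hl hl')
  · intro h
    refine ⟨by simpa using h i, ?_, fun l hl hl' => ?_⟩
    · have h1 := h j
      simp only [if_neg hij.symm, if_true] at h1
      exact h1
    · have h1 := h l
      simp only [if_neg hl, if_neg hl'] at h1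
      exact abs_le.2 h1

theorem shrinkr_vol {n : ℕ} (i : Fin n) {r : ℝ} (hr : 0 < r) {lo hi : Fin n → ℝ}
    (h1 : hi i - lo i ≤ 2 * r) (h2 : ∀ l, l ≠ i → hi l - lo l ≤ 4 * r) :
    volume (bx lo hi : Set (E n)) ≤ ENNReal.ofReal (2 * r * (4 * r) ^ (n - 1)) := by
  rw [volume_bx]
  have h3 : ∏ l, ENNReal.ofReal (hi l - lo l) ≤
      ∏ l : Fin n, (if l = i then ENNReal.ofReal (2 * r) else ENNReal.ofReal (4 * r)) := by
    refine Finset.prod_le_prod' fun l _ => ?_
    by_cases hl : l = i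
    · subst hl
      rw [if_pos rfl]
      exact ENNReal.ofReal_le_ofReal h1
    · rw [if_neg hl]
      exact ENNReal.ofReal_le_ofReal (h2 l hl)
  refine h3.trans (le_of_eq ?_)
  rw [← Finset.mul_prod_erase Finset.univ _ (Finset.mem_univ i), if_pos rfl]
  have h4 : ∏ x ∈ Finset.univ.erase i,
      (if x = i then ENNReal.ofReal (2 * r) else ENNReal.ofReal (4 * r)) =
      ENNReal.ofReal (4 * r) ^ (n - 1) := by
    rw [Finset.prod_congr rfl fun x hx => if_neg (Finset.ne_of_mem_erase hx),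
      Finset.prod_const, Finset.card_erase_of_mem (Finset.mem_univ i), Finset.card_univ,
      Fintype.card_fin]
  rw [h4, ← ENNReal.ofReal_pow (by positivity), ← ENNReal.ofReal_mul (by positivity)]

theorem shrinkr_num {n : ℕ} (hn : 2 ≤ n) {β r : ℝ} (hr0 : 0 < r) (hr : 4 * r ≤ β) :
    4 * (2 * r * (4 * r) ^ (n - 1)) < (2 * β) ^ n := by
  obtain ⟨m, rfl⟩ : ∃ m, n = m + 2 := ⟨n - 2, by omega⟩
  have h1 : (8 * r) ^ (m + 2) ≤ (2 * β) ^ (m + 2) :=
    pow_le_pow_left₀ (by positivity) (by linarith) _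
  have h2 : (m + 2) - 1 = m + 1 := by omega
  rw [h2]
  have h3 : (8 * r) ^ (m + 2) = 2 ^ (m + 1) * (4 * (2 * r * (4 * r) ^ (m + 1))) := by
    have : (8 * r) = 2 * (4 * r) := by ring
    rw [this, mul_pow]
    ring
  have h4 : (1 : ℝ) < 2 ^ (m + 1) := one_lt_pow₀ (by norm_num) (by omega)
  have h5 : (0 : ℝ) < 4 * (2 * r * (4 * r) ^ (m + 1)) := by positivity
  nlinarith

theorem shrink_r {n : ℕ} {i j : Fin n} (hij : i ≠ j) {β r η a : ℝ} (hη : 0 < η) (ha : 0 < a)
    (hηa : η ≤ a) (har : 2 * a ≤ r) (hr : 4 * r ≤ β) (hr' : 4 * r ≤ 1 / 2 - β) :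
    ∃ R : E n ≃ₜ E n, IsD R ∧ (∀ x ∈ Kh i β r η ∪ Lb i j β a, R x = x) ∧
      ∀ x ∈ Kh i β r η ∪ Eb i j β r η, R x ∈ Q n β := by
  have hr0 : 0 < r := by linarith
  have hβ0 : 0 < β := by linarith
  have hβ1 : β < 1 / 2 := by linarith
  have hn2 : 2 ≤ n := by
    by_contra hcon
    apply hij
    apply Fin.ext
    have := i.2
    have := j.2
    omega
  obtain ⟨e, ρ, hdn, hsupp, he3, he4⟩ := box_squash i
    (p' := fun l => if l = i then β - 3 * η / 8 else -(2 * r))
    (p := fun _ => -r)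
    (q := fun l => if l = j then a / 4 else r)
    (q' := fun l => if l = i then β + 2 * r else if l = j then a / 2 else 2 * r)
    (a := β + r) (a' := β - η / 4)
    (by
      intro l hl
      simp only [if_neg hl]
      linarith)
    (by
      intro l hl
      by_cases hlj : l = j
      · simp only [if_pos hlj]
        linarith
      · simp only [if_neg hlj]
        linarith)
    (by
      intro l hl
      by_cases hlj : l = j
      · simp only [if_neg hl, if_pos hlj]
        linarith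
      · simp only [if_neg hl, if_neg hlj]
        linarith)
    (by simp only [if_true]; linarith)
    (by simp only [if_true]; linarith)
    (by simp only [if_true]; linarith)
    (by simp only [if_true]; linarith)
  set P : Set (E n) := bx (fun l => if l = i then β - 3 * η / 8 else -(2 * r))
    (fun l => if l = i then β + 2 * r else if l = j then a / 2 else 2 * r) with hP
  have hPi : ∀ x ∈ P, β - 3 * η / 8 ≤ x i ∧ x i ≤ β + 2 * r := by
    intro x hx
    simpa using hx i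
  have hPj : ∀ x ∈ P, x j ≤ a / 2 := by
    intro x hx
    have h1 := (hx j).2
    simp only [if_neg hij.symm, if_true] at h1
    exact h1
  have hPl : ∀ x ∈ P, ∀ l, l ≠ i → |x l| ≤ 2 * r := by
    intro x hx l hl
    have h1 := hx l
    simp only [if_neg hl] at h1
    rw [abs_le]
    refine ⟨h1.1, ?_⟩
    by_cases hlj : l = j
    · rw [if_pos hlj] at h1
      linarith [h1.2]
    · rw [if_neg hlj] at h1
      exact h1.2
  have hPc : IsCompact P := isCompact_bx _ _
  have hPO : P ⊆ O n := by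
    intro x hx l
    by_cases hl : l = i
    · subst hl
      have h1 := hPi x hx
      rw [abs_lt]
      constructor <;> linarith [h1.1, h1.2]
    · have h1 := hPl x hx l hl
      linarith
  set Φ : Set (E n) := Kh i β r η ∪ Lb i j β a with hΦ
  have hPΦ : ∀ x ∈ P, x ∉ Φ := by
    rintro x hx (h1 | h1)
    · have h2 := h1.1.2
      have h3 := (hPi x hx).1
      linarith
    · have h2 := h1.2.1.1
      have h3 := hPj x hx
      linarith
  have hΦP : Disjoint Φ P := Set.disjoint_left.2 fun x hx hx' => hPΦ x hx' hx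
  set B : Set (E n) := Eb i j β r η with hB
  have hEj : ∀ x ∈ B, ∀ l, l ≠ i → (-r ≤ x l ∧ x l ≤ if l = j then a / 4 else r) := by
    intro x hx l hl
    by_cases hlj : l = j
    · subst hlj
      rw [if_pos rfl]
      exact ⟨hx.2.1.1, by linarith [hx.2.1.2]⟩
    · rw [if_neg hlj]
      exact abs_le.1 (hx.2.2 l hl hlj)
  have hEe : ∀ x ∈ B, e x i ≤ β - η / 4 := fun x hx => (he4 x (hEj x hx)).2 hx.1.2
  have hEe2 : ∀ x ∈ B, β - η / 2 ≤ e x i := by
    intro x hx
    by_cases hxP : x ∈ P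
    · have h1 := (hPi _ (hsupp.mem_of_mem hxP)).1
      linarith
    · rw [hsupp x hxP]
      exact hx.1.1
  have hEl : ∀ x ∈ B, ∀ l, l ≠ i → |x l| ≤ r := by
    intro x hx l hl
    have h1 := hEj x hx l hl
    rw [abs_le]
    refine ⟨h1.1, ?_⟩
    by_cases hlj : l = j
    · rw [if_pos hlj] at h1
      linarith [h1.2]
    · rw [if_neg hlj] at h1
      exact h1.2
  have hEcub : ∀ x ∈ B, e x ∈ cub 0 β := by
    intro x hx l
    have h0 : (0 : E n) l = 0 := rfl
    rw [h0, sub_zero]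
    by_cases hl : l = i
    · subst hl
      rw [abs_lt]
      constructor
      · linarith [hEe2 x hx]
      · linarith [hEe x hx]
    · rw [he3 x l hl]
      linarith [hEl x hx l hl]
  -- compactness of the boxes
  have hBc : IsCompact B := by
    have : B = _ := shrinkr_gen hij (β - η / 2) (β + r) (-r) 0 r
    rw [this]
    exact isCompact_bx _ _
  have hKc : IsCompact (Kh i β r η) := by
    rw [shrinkr_Kh]
    exact isCompact_bx _ _
  have hLc : IsCompact (Lb i j β a) := by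
    have : Lb i j β a = _ := shrinkr_gen hij (β - a) β a (2 * a) a
    rw [this]
    exact isCompact_bx _ _
  have hΦc : IsCompact Φ := hKc.union hLc
  set X : Set (E n) := {x : E n | (β - 3 * η / 8 ≤ x i ∧ x i ≤ β + r) ∧ (-r ≤ x j ∧ x j ≤ 0) ∧
    ∀ l, l ≠ i → l ≠ j → |x l| ≤ r} with hX
  set Z : Set (E n) := {x : E n | (β - η / 2 ≤ x i ∧ x i ≤ β - 3 * η / 8) ∧
    (-r ≤ x j ∧ x j ≤ 0) ∧ ∀ l, l ≠ i → l ≠ j → |x l| ≤ r} with hZ
  have hXc : IsCompact X := by
    rw [hX, shrinkr_gen hij]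
    exact isCompact_bx _ _
  have hXB : X ⊆ B := fun x hx => ⟨⟨by linarith [hx.1.1], hx.1.2⟩, hx.2⟩
  have hBX : ∀ x ∈ B, x ∈ P → x ∈ X := fun x hx hxP => ⟨⟨(hPi x hxP).1, hx.1.2⟩, hx.2⟩
  have hXe : ∀ x ∈ X, β - 3 * η / 8 ≤ e x i := by
    intro x hx
    by_cases hxP : x ∈ P
    · exact (hPi _ (hsupp.mem_of_mem hxP)).1
    · rw [hsupp x hxP]
      exact hx.1.1
  -- volumes
  set v : ℝ := 2 * r * (4 * r) ^ (n - 1) with hv
  have hv0 : 0 < v := by positivity
  have hKv : volume (Kh i β r η) ≤ ENNReal.ofReal v := by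
    rw [shrinkr_Kh]
    refine shrinkr_vol i hr0 ?_ fun l hl => ?_
    · simp only [if_true]
      linarith
    · simp only [if_neg hl]
      linarith
  have hgv : ∀ s t u w y : ℝ, t - s ≤ 2 * r → w - u ≤ 4 * r → y - -y ≤ 4 * r →
      volume {x : E n | (s ≤ x i ∧ x i ≤ t) ∧ (u ≤ x j ∧ x j ≤ w) ∧
        ∀ l, l ≠ i → l ≠ j → |x l| ≤ y} ≤ ENNReal.ofReal v := by
    intro s t u w y h1 h2 h3
    rw [shrinkr_gen hij]
    refine shrinkr_vol i hr0 ?_ fun l hl => ?_
    · simp only [if_true]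
      exact h1
    · by_cases hlj : l = j
      · simp only [if_neg hl, if_pos hlj]
        exact h2
      · simp only [if_neg hl, if_neg hlj]
        exact h3
  have hLv : volume (Lb i j β a) ≤ ENNReal.ofReal v :=
    hgv (β - a) β a (2 * a) a (by linarith) (by linarith) (by linarith)
  have hXv : volume X ≤ ENNReal.ofReal v :=
    hgv _ _ _ _ _ (by linarith) (by linarith) (by linarith)
  have hZv : volume Z ≤ ENNReal.ofReal v :=
    hgv _ _ _ _ _ (by linarith) (by linarith) (by linarith)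
  -- the open sets
  set Ω₁ : Set (E n) := O n \ (e '' B ∪ Φ) with hΩ₁
  set Ω₂ : Set (E n) := cub 0 β \ Φ with hΩ₂
  have hcO : cub 0 β ⊆ O n := by
    rw [O_eq_cub]
    exact cub_mono hβ1.le
  have hΩ₂O : Ω₂ ⊆ O n := fun x hx => hcO hx.1
  have hΩ₁O : Ω₁ ⊆ O n := fun x hx => hx.1
  have h₁ : IsOpen Ω₁ := by
    rw [hΩ₁, Set.sdiff_eq]
    refine IsOpen.inter ?_ ((hBc.image e.continuous).union hΦc).isClosed.isOpen_compl
    rw [O_eq_cub]
    exact isOpen_cub _ _
  have h₂ : IsOpen Ω₂ := by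
    rw [hΩ₂, Set.sdiff_eq]
    exact (isOpen_cub _ _).inter hΦc.isClosed.isOpen_compl
  have h₁c : IsPreconnected Ω₁ := by
    have h1 := conn_EKL hij hη ha hηa har hr hr'
    have h2 : Ω₁ = e '' (O n \ (Eb i j β r η ∪ Kh i β r η ∪ Lb i j β a)) := by
      rw [Set.image_sdiff e.injective, SuppIn.image_eq hsupp hPO, Set.union_assoc,
        Set.image_union, ← hΦ, SuppIn.image_disj hsupp hΦP]
    rw [h2]
    exact h1.image _ e.continuous.continuousOn
  have h₂c : IsPreconnected Ω₂ := conn_KL hij hη ha hηa har hr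
  have hd : Disjoint (e '' X) Ω₁ := by
    refine Set.disjoint_left.2 fun y hy hy' => ?_
    exact hy'.2 (Or.inl (Set.image_mono hXB hy))
  have hPX : P ⊆ Ω₁ ∪ e '' X := by
    intro y hy
    by_cases hyB : y ∈ e '' B
    · obtain ⟨x, hx, rfl⟩ := hyB
      exact Or.inr ⟨x, hBX x hx (hsupp.mem_iff.1 hy), rfl⟩
    · refine Or.inl ⟨hPO hy, ?_⟩
      rintro (h1 | h1)
      · exact hyB h1
      · exact hPΦ y hy h1
  have hX₂ : e '' X ⊆ Ω₂ := by
    rintro _ ⟨x, hx, rfl⟩
    refine ⟨hEcub x (hXB hx), ?_⟩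
    rintro (h1 | h1)
    · have h2 := h1.1.2
      have h3 := hXe x hx
      linarith
    · have h2 := h1.2.1.1
      rw [he3 x j hij.symm] at h2
      have h3 := hx.2.1.2
      linarith
  have hne : (Ω₁ ∩ Ω₂).Nonempty := by
    have hz1 : upd (0 : E n) i (-(β / 2)) i = -(β / 2) := upd_same _ _ _
    have hz2 : ∀ l, l ≠ i → upd (0 : E n) i (-(β / 2)) l = 0 := by
      intro l hl
      rw [upd_ne _ hl]
      rfl
    have hzc : upd (0 : E n) i (-(β / 2)) ∈ cub (0 : E n) β := by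
      intro l
      have h0 : (0 : E n) l = 0 := rfl
      rw [h0, sub_zero]
      by_cases hl : l = i
      · subst hl
        rw [hz1, abs_neg, abs_of_pos (by linarith)]
        linarith
      · rw [hz2 l hl, abs_zero]
        exact hβ0
    have hzΦ : upd (0 : E n) i (-(β / 2)) ∉ Φ := by
      rintro (h1 | h1)
      · have h2 := h1.1.1
        rw [hz1] at h2
        linarith
      · have h2 := h1.1.1
        rw [hz1] at h2
        linarith
    refine ⟨upd 0 i (-(β / 2)), ⟨hcO hzc, ?_⟩, hzc, hzΦ⟩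
    rintro (h1 | h1)
    · obtain ⟨x, hx, h2⟩ := h1
      have h3 := hEe2 x hx
      rw [h2, hz1] at h3
      linarith
    · exact hzΦ h1
  have hvol : volume X < volume (Ω₁ ∩ Ω₂) + volume (e '' X) := by
    by_contra hcon
    rw [not_lt] at hcon
    have h1 : cub (0 : E n) β ⊆ (Ω₁ ∩ Ω₂) ∪ e '' X ∪ Kh i β r η ∪ Lb i j β a ∪ Z := by
      intro y hy
      by_cases hyK : y ∈ Kh i β r η
      · exact Or.inl (Or.inl (Or.inr hyK))
      by_cases hyL : y ∈ Lb i j β a
      · exact Or.inl (Or.inr hyL)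
      have hyΦ : y ∉ Φ := fun h => h.elim hyK hyL
      by_cases hyB : y ∈ e '' B
      · obtain ⟨x, hx, rfl⟩ := hyB
        by_cases hxX : x ∈ X
        · exact Or.inl (Or.inl (Or.inl (Or.inr ⟨x, hxX, rfl⟩)))
        · have hxP : x ∉ P := fun h => hxX (hBX x hx h)
          rw [hsupp x hxP]
          refine Or.inr ⟨⟨hx.1.1, ?_⟩, hx.2⟩
          by_contra hc
          exact hxX ⟨⟨(not_le.1 hc).le, hx.1.2⟩, hx.2⟩
      · refine Or.inl (Or.inl (Or.inl (Or.inl ⟨⟨hcO hy, ?_⟩, hy, hyΦ⟩)))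
        rintro (h | h)
        · exact hyB h
        · exact hyΦ h
    have h2 : volume (cub (0 : E n) β) ≤
        volume (Ω₁ ∩ Ω₂) + volume (e '' X) + volume (Kh i β r η) + volume (Lb i j β a) +
          volume Z := by
      refine (measure_mono h1).trans ?_
      refine (measure_union_le _ _).trans (add_le_add ?_ le_rfl)
      refine (measure_union_le _ _).trans (add_le_add ?_ le_rfl)
      refine (measure_union_le _ _).trans (add_le_add ?_ le_rfl)
      exact measure_union_le _ _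
    have h3 : volume (cub (0 : E n) β) ≤ ENNReal.ofReal v + ENNReal.ofReal v +
        ENNReal.ofReal v + ENNReal.ofReal v :=
      h2.trans (add_le_add (add_le_add (add_le_add (hcon.trans hXv) hKv) hLv) hZv)
    rw [volume_cub _ hβ0.le, ← ENNReal.ofReal_add hv0.le hv0.le,
      ← ENNReal.ofReal_add (by positivity) hv0.le, ← ENNReal.ofReal_add (by positivity) hv0.le,
      ENNReal.ofReal_le_ofReal_iff (by positivity)] at h3
    have h4 := shrinkr_num hn2 hr0 hr
    rw [← hv] at h4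
    linarith
  obtain ⟨ψ, θ, hψ, hθ, hSm⟩ := gs hdn hPc hsupp hXc h₁ h₁c h₂ h₂c hd hPX hX₂ hne hvol
  have hψs := hψ.suppIn
  have hθs := hθ.suppIn
  have hfix : ∀ x ∈ Φ, (θ * ψ * e) x = x := by
    intro x hx
    rw [mul_apply', mul_apply', hsupp x fun h => hPΦ x h hx,
      hψs x fun h => h.2 (Or.inr hx), hθs x fun h => h.2 hx]
  refine ⟨θ * ψ * e, ⟨hSm, ?_⟩, hfix, ?_⟩
  · exact ((hθ.mono hΩ₂O).mul (hψ.mono hΩ₁O)).mul ⟨P, hPc, hPO, hsupp⟩
  · rintro x (hx | hx)
    · rw [hfix x (Or.inl hx)]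
      intro l
      by_cases hl : l = i
      · subst hl
        rw [abs_le]
        constructor
        · linarith [hx.1.1]
        · linarith [hx.1.2]
      · linarith [hx.2 l hl]
    · rw [mul_apply', mul_apply', hψs (e x) fun h => h.2 (Or.inl ⟨x, hx, rfl⟩)]
      have h1 : θ (e x) ∈ cub (0 : E n) β :=
        (hθs.mono (B' := cub 0 β) fun y hy => hy.1).mem_of_mem (hEcub x hx)
      rw [Q_eq_ccub]
      exact cub_subset_ccub _ _ h1

end Pool.Agent.W_d1cfb0_h59
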