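import Pool.Agent.W_d1cfb0_h59.ShrinkD
import Pool.Agent.W_d1cfb0_h59.ShrinkR
import Pool.Agent.W_d1cfb0_h59.SF
import Pool.Agent.W_d1cfb0_h59.CGLemmas

/-!
# The shrinking step

`N` is a closed group containing `IsD` and normalized by `IsM`; `f` is measure preserving with
support in `Q n β'`, `β' < β`. Then `f` is congruent modulo `N` to some `f₁` with support in `Xs`.

Proof. Let `a = r / (4 n)`; then `2 a ≤ r` and `2 * a * n ≤ r / 2`. Choose `η > 0` with `η ≤ a`,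
`η ≤ β - β'` (so `η ≤ r`, and `f` has support in `Q n (β - η)`). Let `d` be from `shrink_d`,
`F = d⁻¹ * f` (called `f̃` below): in `IsM`, support in `Q n (β - η/2)`, and
`F⁻¹ x = f⁻¹ (d x) ∈ Kh` for `x ∈ Ah`. Let `R` be from `shrink_r`. Let `c₀ = upd 0 i β` (the centre
of the face) and `P = twist hij c₀ (prof ramp r (π / 2))`. `P ∈ N` by `twist_mem_of_capt`
(`Capt N (O n)`; `closedBall c₀ r ⊆ O n` because `β + r < 1/2`), `P` is measure preserving
(`measurePreserving_twist`), `P` has support in `closedBall c₀ r`.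
Let `G = F⁻¹ * P * F * P⁻¹`; `G ∈ N` (`F⁻¹ P F ∈ N` as `F⁻¹` is in `IsM`, `P⁻¹ ∈ N`).
(1) `SuppIn G (Kh ∪ Eb)`. Let `x ∉ Kh ∪ Eb`. First `F x ∉ closedBall c₀ r` or `F x = x`: if
`F x ≠ x` then `x, F x ∈ Q n (β - η/2)`; if moreover `F x ∈ closedBall c₀ r` then `F x ∈ Ah` (its
coordinates: `F x i ≥ β - r`, `≤ β - η/2`, `|F x l| ≤ r`), so `x = F⁻¹ (F x) ∈ Kh`, a contradiction.
 Case `x ∉ closedBall c₀ r`: `P⁻¹ x = x`, `G x = F⁻¹ (P (F x))`, and `P (F x) = F x` by the remark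
 (`F x ∉ closedBall`, or `F x = x ∉ closedBall`), so `G x = x`.
 Case `x ∈ closedBall c₀ r`: then `x i > β - η/2` (otherwise `x ∈ Ah ⊆ Kh`), so `F x = x` and
 `F⁻¹ x = x`. `P⁻¹ x = c₀ + rot i j (-θ) (x - c₀)` with `θ = (π/2) ramp (‖x - c₀‖ / r) ∈ [0, π/2]`
 (`twist_inv`, `prof_neg`), so with `y = x - c₀`: `(P⁻¹ x) i - β = cos θ * y i + sin θ * y j`. As
 `x ∉ Eb` and `β - η/2 < x i ≤ β + r`, `|x l| ≤ r` we have `x j > 0` (`x j ≥ -r` too), so
 `y j = x j > 0` and `(P⁻¹ x) i - β ≥ cos θ * y i > -η/2` (or `≥ 0`) because `y i > -η/2`,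
 `0 ≤ cos θ ≤ 1`. So `P⁻¹ x ∉ Q n (β - η/2)`, `F (P⁻¹ x) = P⁻¹ x`, `G x = F⁻¹ (P (P⁻¹ x)) =
 F⁻¹ x = x`.
(2) For `x ∈ Lb`: `G x = F⁻¹ x`. Indeed `‖x - c₀‖ ≤ r / 2` (`|y i| ≤ a`, `|y j| ≤ 2 a`,
 `|y l| ≤ a`, so `‖y‖ ≤ n * (2 a) ≤ r / 2`, `dist_le_of_mem_ccub`), so `θ = π/2`
 (`twist_ramp_apply`), `(P⁻¹ x) i = β + x j ≥ β + a > β - η / 2`, so `P⁻¹ x ∉ Q n (β - η/2)`,
 `F (P⁻¹ x) = P⁻¹ x`, `G x = F⁻¹ x`.
(3) Let `f₁ = F * (R * G * R⁻¹)`. `R * G * R⁻¹` has support in `R '' (Kh ∪ Eb) ⊆ Q n β`, `F` too, so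
 `f₁` has support in `Q n β`. For `x ∈ Lb`: `R⁻¹ x = x`, `G x = F⁻¹ x`, and `R (F⁻¹ x) = F⁻¹ x`:
 if `x i > β - η/2` then `F⁻¹ x = x ∈ Lb`; otherwise `x ∈ Ah` (`β - r ≤ β - a ≤ x i`, other
 coordinates `≤ 2 a ≤ r`) and `F⁻¹ x ∈ Kh`. So `f₁ x = F (F⁻¹ x) = x`. A point not in `Xs i j β a`
 is off `Q n β`, or is in `Q n β` with `β - a < x i ≤ β` etc., so in `Lb`. Hence
 `SuppIn f₁ (Xs i j β a)`.
(4) `f₁⁻¹ * f ∈ N`: `f = d * F`, so `f₁⁻¹ * f = (R * G * R⁻¹)⁻¹ * (F⁻¹ * d * F)` with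
 `R * G * R⁻¹ ∈ N`, `F⁻¹ * d * F ∈ N`.
(5) `Xs` is compact (closed in the compact `Q n β`, the removed set is open), contained in `Q n β`,
 with connected complement (`conn_Xs`), and its volume is
 `(2 β)^n - a * a * (2 a)^(n-2) = (2 β)^n - a^n * 2^(n-2)`: the removed part
 `{β - a < x i ≤ β, a < x j < 2 a, |x l| < a}` of `Q n β` contains the open box with sides
 `(β - a, β)`, `(a, 2 a)`, `(-a, a)` (`volume_obx`, `4 a ≤ β`).
-/

namespace Pool.Agent.W_d1cfb0_h59

open MeasureTheory Pool.Agent.W_MP_d1cfb0_an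

theorem shrink_Q_mono {n : ℕ} {ρ ρ' : ℝ} (h : ρ ≤ ρ') : Q n ρ ⊆ Q n ρ' :=
  fun _ hx l => (hx l).trans h

theorem shrink_cen_i {n : ℕ} (i : Fin n) (β : ℝ) : upd (0 : E n) i β i = β := upd_same _ _ _

theorem shrink_cen_ne {n : ℕ} {i l : Fin n} (h : l ≠ i) (β : ℝ) : upd (0 : E n) i β l = 0 := by
  rw [upd_ne _ h]
  rfl

theorem shrink_ball {n : ℕ} {i : Fin n} {β r : ℝ} {x : E n}
    (hx : x ∈ Metric.closedBall (upd (0 : E n) i β) r) :
    |x i - β| ≤ r ∧ ∀ l, l ≠ i → |x l| ≤ r := by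
  have h := closedBall_subset_ccub _ _ hx
  constructor
  · have h1 := h i
    rwa [shrink_cen_i] at h1
  · intro l hl
    have h1 := h l
    rwa [shrink_cen_ne hl, sub_zero] at h1

theorem shrink_twist_i {n : ℕ} {i j : Fin n} (hij : i ≠ j) (β : ℝ) (a : C(ℝ, ℝ)) (x : E n) :
    ((twist hij (upd (0 : E n) i β) a)⁻¹ x) i = β + (Real.cos (a ‖x - upd (0 : E n) i β‖) *
      (x i - β) + Real.sin (a ‖x - upd (0 : E n) i β‖) * x j) := by
  rw [twist_inv, twist_apply, PiLp.add_apply, rot_apply_i, PiLp.sub_apply, PiLp.sub_apply,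
    shrink_cen_i, shrink_cen_ne hij.symm, ContinuousMap.neg_apply, Real.cos_neg, Real.sin_neg]
  ring

/-- points whose `i`-th coordinate is large are fixed -/
theorem shrink_fix {n : ℕ} {i : Fin n} {ρ : ℝ} {F : E n ≃ₜ E n} (hF : SuppIn F (Q n ρ))
    {x : E n} (hx : ρ < x i) : F x = x := by
  refine hF x fun h => ?_
  have h1 := h i
  have h2 := le_abs_self (x i)
  linarith

theorem shrink_ramp_mem (u : ℝ) : 0 ≤ ramp u ∧ ramp u ≤ 1 := by
  constructor
  · show 0 ≤ max (min (2 - 2 * u) 1) 0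
    exact le_max_right _ _
  · show max (min (2 - 2 * u) 1) 0 ≤ 1
    exact max_le (min_le_right _ _) zero_le_one

theorem shrink_G {n : ℕ} {i j : Fin n} (hij : i ≠ j) {β r η : ℝ} (hr0 : 0 < r) (hη : 0 < η)
    {F : E n ≃ₜ E n} (hFs : SuppIn F (Q n (β - η / 2)))
    (hFA : ∀ x ∈ Ah i β r η, F⁻¹ x ∈ Kh i β r η) :
    SuppIn (F⁻¹ * twist hij (upd (0 : E n) i β) (prof ramp r (Real.pi / 2)) * F *
      (twist hij (upd (0 : E n) i β) (prof ramp r (Real.pi / 2)))⁻¹)
      (Kh i β r η ∪ Eb i j β r η) := by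
  set P := twist hij (upd (0 : E n) i β) (prof ramp r (Real.pi / 2)) with hP
  have hPs : SuppIn P (Metric.closedBall (upd (0 : E n) i β) r) :=
    suppIn_twist_prof hij _ isShape_ramp hr0 _
  intro x hx
  have hxK : x ∉ Kh i β r η := fun h => hx (Or.inl h)
  have hxE : x ∉ Eb i j β r η := fun h => hx (Or.inr h)
  show F⁻¹ (P (F (P⁻¹ x))) = x
  by_cases hxb : x ∈ Metric.closedBall (upd (0 : E n) i β) r
  · obtain ⟨h1, h2⟩ := shrink_ball hxb
    rw [abs_le] at h1
    have h3 : β - η / 2 < x i := by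
      by_contra hc
      rw [not_lt] at hc
      exact hxK ⟨⟨by linarith, hc⟩, fun l hl => (h2 l hl).trans (by linarith)⟩
    have h4 : F⁻¹ x = x := shrink_fix hFs.inv h3
    have h5 : 0 < x j := by
      by_contra hc
      rw [not_lt] at hc
      exact hxE ⟨⟨h3.le, by linarith⟩, ⟨(abs_le.1 (h2 j hij.symm)).1, hc⟩,
        fun l hl _ => h2 l hl⟩
    have h6 : β - η / 2 < (P⁻¹ x) i := by
      rw [hP, shrink_twist_i, prof_apply]
      obtain ⟨h7, h8⟩ := shrink_ramp_mem (‖x - upd (0 : E n) i β‖ / r)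
      set s := ramp (‖x - upd (0 : E n) i β‖ / r) with hs
      have hpi := Real.pi_pos
      have h9 : 0 ≤ Real.pi / 2 * s := by positivity
      have h10 : Real.pi / 2 * s ≤ Real.pi / 2 := by nlinarith
      have h11 : 0 ≤ Real.cos (Real.pi / 2 * s) :=
        Real.cos_nonneg_of_mem_Icc ⟨by linarith, h10⟩
      have h12 : 0 ≤ Real.sin (Real.pi / 2 * s) :=
        Real.sin_nonneg_of_nonneg_of_le_pi h9 (by linarith)
      have h13 := Real.cos_le_one (Real.pi / 2 * s)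
      have h14 : 0 ≤ Real.sin (Real.pi / 2 * s) * x j := mul_nonneg h12 h5.le
      have h15 : -(η / 2) < Real.cos (Real.pi / 2 * s) * (x i - β) := by
        rcases le_or_gt 0 (x i - β) with h | h
        · have := mul_nonneg h11 h
          linarith
        · nlinarith
      linarith
    have h7 : F (P⁻¹ x) = P⁻¹ x := shrink_fix hFs h6
    rw [h7, apply_inv_self', h4]
  · have h1 : P⁻¹ x = x := hPs.inv x hxb
    rw [h1]
    have h2 : P (F x) = F x := by
      by_cases hFx : F x = x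
      · rw [hFx, hPs x hxb]
      · refine hPs _ fun hb => ?_
        have h3 : x ∈ Q n (β - η / 2) := by
          by_contra hc
          exact hFx (hFs x hc)
        have h4 : F x ∈ Q n (β - η / 2) := hFs.mem_of_mem h3
        obtain ⟨h5, h6⟩ := shrink_ball hb
        rw [abs_le] at h5
        have h7 : F x ∈ Ah i β r η :=
          ⟨⟨by linarith, (le_abs_self _).trans (h4 i)⟩, h6⟩
        have h8 := hFA _ h7
        rw [inv_apply_self'] at h8
        exact hxK h8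
    rw [h2, inv_apply_self']

theorem shrink_G_Lb {n : ℕ} {i j : Fin n} (hij : i ≠ j) {β r η a : ℝ} (hr0 : 0 < r)
    (hη : 0 < η) (ha : 0 < a) (han : 2 * a * n ≤ r / 2)
    {F : E n ≃ₜ E n} (hFs : SuppIn F (Q n (β - η / 2))) {x : E n} (hx : x ∈ Lb i j β a) :
    (F⁻¹ * twist hij (upd (0 : E n) i β) (prof ramp r (Real.pi / 2)) * F *
      (twist hij (upd (0 : E n) i β) (prof ramp r (Real.pi / 2)))⁻¹) x = F⁻¹ x := by
  set P := twist hij (upd (0 : E n) i β) (prof ramp r (Real.pi / 2)) with hP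
  show F⁻¹ (P (F (P⁻¹ x))) = F⁻¹ x
  obtain ⟨⟨h1, h2⟩, ⟨h3, h4⟩, h5⟩ := hx
  have h6 : x ∈ ccub (upd (0 : E n) i β) (2 * a) := by
    intro l
    by_cases hl : l = i
    · subst hl
      rw [shrink_cen_i, abs_le]
      constructor <;> linarith
    · rw [shrink_cen_ne hl, sub_zero]
      by_cases hl' : l = j
      · subst hl'
        rw [abs_le]
        constructor <;> linarith
      · exact (h5 l hl hl').trans (by linarith)
  have h7 : ‖x - upd (0 : E n) i β‖ ≤ r / 2 := by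
    rw [← dist_eq_norm]
    refine (dist_le_of_mem_ccub h6 (by positivity)).trans ?_
    linarith [mul_comm (2 * a) (n : ℝ)]
  have h8 : β - η / 2 < (P⁻¹ x) i := by
    rw [hP, shrink_twist_i, prof_apply, ramp_eq_one, mul_one, Real.cos_pi_div_two,
      Real.sin_pi_div_two]
    · linarith
    · rw [div_le_iff₀ hr0]
      linarith
  rw [shrink_fix hFs h8, apply_inv_self']

theorem shrink_isCompact_Xs {n : ℕ} (i j : Fin n) (β a : ℝ) : IsCompact (Xs i j β a) := by
  unfold Xs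
  refine IsCompact.diff ?_ ?_
  · rw [Q_eq_ccub]
    exact isCompact_ccub _ _
  · have h : {x : E n | β - a < x i ∧ (a < x j ∧ x j < 2 * a) ∧
        ∀ l, l ≠ i → l ≠ j → |x l| < a} = ({x : E n | β - a < x i} ∩ ({x : E n | a < x j} ∩
        {x : E n | x j < 2 * a})) ∩ ⋂ l : Fin n, {x : E n | l ≠ i → l ≠ j → |x l| < a} := by
      ext x
      simp only [Set.mem_ofPred_eq, Set.mem_inter_iff, Set.mem_iInter]
      tauto
    rw [h]
    refine ((isOpen_lt continuous_const (by fun_prop)).inter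
      ((isOpen_lt continuous_const (by fun_prop)).inter
        (isOpen_lt (by fun_prop) continuous_const))).inter
      (isOpen_iInter_of_finite fun l => ?_)
    by_cases hl : l ≠ i ∧ l ≠ j
    · have h1 : {x : E n | l ≠ i → l ≠ j → |x l| < a} = {x : E n | |x l| < a} := by
        ext x
        exact ⟨fun h => h hl.1 hl.2, fun h _ _ => h⟩
      rw [h1]
      exact isOpen_lt (by fun_prop) continuous_const
    · have h1 : {x : E n | l ≠ i → l ≠ j → |x l| < a} = Set.univ := by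
        ext x
        exact ⟨fun _ => Set.mem_univ _, fun _ h2 h3 => absurd ⟨h2, h3⟩ hl⟩
      rw [h1]
      exact isOpen_univ

theorem shrink_volume_Xs {n : ℕ} {i j : Fin n} (hij : i ≠ j) {β a : ℝ} (ha : 0 < a)
    (hβ : 4 * a ≤ β) :
    volume (Xs i j β a) ≤ ENNReal.ofReal ((2 * β) ^ n - a ^ n * 2 ^ (n - 2)) := by
  set lo : Fin n → ℝ := fun l => if l = i then β - a else if l = j then a else -a with hlo
  set hi : Fin n → ℝ := fun l => if l = i then β else if l = j then 2 * a else a with hhi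
  have h1 : (obx lo hi : Set (E n)) ⊆ Q n β := by
    intro x hx l
    have h2 := hx l
    rw [hlo, hhi] at h2
    simp only at h2
    rw [abs_le]
    by_cases hl : l = i
    · rw [if_pos hl, if_pos hl] at h2
      constructor <;> linarith [h2.1, h2.2]
    · rw [if_neg hl, if_neg hl] at h2
      by_cases hl' : l = j
      · rw [if_pos hl', if_pos hl'] at h2
        constructor <;> linarith [h2.1, h2.2]
      · rw [if_neg hl', if_neg hl'] at h2
        constructor <;> linarith [h2.1, h2.2]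
  have h2 : Xs i j β a ⊆ Q n β \ obx lo hi := by
    rintro x ⟨hx1, hx2⟩
    refine ⟨hx1, fun hx3 => hx2 ?_⟩
    have h3 := hx3 i
    have h4 := hx3 j
    rw [hlo, hhi] at h3 h4
    simp only [if_true] at h3
    simp only [if_neg hij.symm, if_true] at h4
    refine ⟨h3.1, h4, fun l hl hl' => ?_⟩
    have h5 := hx3 l
    rw [hlo, hhi] at h5
    simp only [if_neg hl, if_neg hl'] at h5
    rw [abs_lt]
    exact h5
  have h3 : volume (obx lo hi : Set (E n)) = ENNReal.ofReal (a ^ n * 2 ^ (n - 2)) := by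
    rw [volume_obx]
    have h4 : ∀ l : Fin n, hi l - lo l = if l = i then a else if l = j then a else 2 * a := by
      intro l
      rw [hlo, hhi]
      simp only
      split_ifs <;> ring
    rw [← ENNReal.ofReal_prod_of_nonneg fun l _ => by rw [h4]; split_ifs <;> positivity]
    congr 1
    rw [Finset.prod_congr rfl fun l _ => h4 l,
      ← Finset.mul_prod_erase Finset.univ _ (Finset.mem_univ i),
      ← Finset.mul_prod_erase (Finset.univ.erase i) _
        (Finset.mem_erase.2 ⟨hij.symm, Finset.mem_univ j⟩), if_pos rfl, if_neg hij.symm,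
      if_pos rfl]
    have h5 : ∀ l ∈ (Finset.univ.erase i).erase j,
        (if l = i then a else if l = j then a else 2 * a) = 2 * a := by
      intro l hl
      rw [Finset.mem_erase, Finset.mem_erase] at hl
      rw [if_neg hl.2.1, if_neg hl.1]
    rw [Finset.prod_congr rfl h5, Finset.prod_const, Finset.card_erase_of_mem
      (Finset.mem_erase.2 ⟨hij.symm, Finset.mem_univ j⟩),
      Finset.card_erase_of_mem (Finset.mem_univ i), Finset.card_univ, Fintype.card_fin]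
    have hn : 2 ≤ n := by
      by_contra hc
      apply hij
      have := i.2
      have := j.2
      apply Fin.ext
      omega
    obtain ⟨m, rfl⟩ : ∃ m, n = m + 2 := ⟨n - 2, by omega⟩
    have h6 : m + 2 - 1 - 1 = m := by omega
    have h7 : m + 2 - 2 = m := by omega
    rw [h6, h7]
    ring
  have h8 : volume (Q n β) = ENNReal.ofReal ((2 * β) ^ n) := by
    rw [Q_eq_ccub, volume_ccub _ (by linarith)]
  refine (measure_mono h2).trans ?_
  rw [measure_sdiff h1 (isOpen_obx _ _).measurableSet.nullMeasurableSet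
    (by rw [h3]; exact ENNReal.ofReal_ne_top), h3, h8,
    ENNReal.ofReal_sub _ (by positivity)]

theorem shrink {n : ℕ} {i j : Fin n} (hij : i ≠ j) {β β' r : ℝ} (hr0 : 0 < r) (hr : 4 * r ≤ β)
    (hr' : 4 * r ≤ 1 / 2 - β) (hβ' : β' < β) {N : Set (E n ≃ₜ E n)} (hN : ClosedGroup n N)
    (hD : ∀ d, IsD d → d ∈ N) (hnorm : ∀ f, IsM f → ∀ g ∈ N, f * g * f⁻¹ ∈ N) {f : E n ≃ₜ E n}
    (hf : MeasurePreserving f volume volume) (hfs : SuppIn f (Q n β')) :
    ∃ f₁ : E n ≃ₜ E n, IsM f₁ ∧ f₁⁻¹ * f ∈ N ∧ ∃ X : Set (E n), IsCompact X ∧ X ⊆ O n ∧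
      IsPreconnected (O n \ X) ∧ SuppIn f₁ X ∧
      volume X ≤ ENNReal.ofReal ((2 * β) ^ n - (r / (4 * n)) ^ n * 2 ^ (n - 2)) := by
  have hβ1 : β < 1 / 2 := by linarith
  have hn : 2 ≤ n := by
    by_contra hc
    apply hij
    have := i.2
    have := j.2
    apply Fin.ext
    omega
  have hn' : (2 : ℝ) ≤ n := by exact_mod_cast hn
  set a : ℝ := r / (4 * n) with ha_def
  have ha : 0 < a := by positivity
  have han : 2 * a * n ≤ r / 2 := by
    rw [ha_def]
    apply le_of_eq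
    field_simp
    ring
  have ha8 : a ≤ r / 4 := by
    nlinarith
  have hηpos : 0 < min a (β - β') := lt_min ha (by linarith)
  obtain ⟨η, hη, hηa, hηβ⟩ : ∃ η : ℝ, 0 < η ∧ η ≤ a ∧ η ≤ β - β' :=
    ⟨min a (β - β'), hηpos, min_le_left _ _, min_le_right _ _⟩
  have hfs' : SuppIn f (Q n (β - η)) := hfs.mono (shrink_Q_mono (by linarith))
  obtain ⟨d, hd, hds, hdA⟩ := shrink_d hij hη (by linarith) hr hβ1 hf hfs'
  obtain ⟨R, hR, hRfix, hRmap⟩ := shrink_r hij hη ha hηa (by linarith) hr hr'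
  set P := twist hij (upd (0 : E n) i β) (prof ramp r (Real.pi / 2)) with hP
  have hball : Metric.closedBall (upd (0 : E n) i β) r ⊆ O n := by
    intro x hx l
    obtain ⟨h1, h2⟩ := shrink_ball hx
    by_cases hl : l = i
    · subst hl
      rw [abs_le] at h1
      rw [abs_lt]
      constructor <;> linarith
    · exact (h2 l hl).trans_lt (by linarith)
  have hPN : P ∈ N := twist_mem_of_capt hN (w := O n) (fun z hz hz' => hD z ⟨hz, hz'⟩) hij _ _
    hr0 (prof_eq_zero isShape_ramp hr0 _) hball hball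
  set F : E n ≃ₜ E n := d⁻¹ * f with hF
  have hFmp : MeasurePreserving F volume volume := mp_mul (mp_inv hd.1.mp) hf
  have hFs : SuppIn F (Q n (β - η / 2)) :=
    hds.inv.mul (hfs'.mono (shrink_Q_mono (by linarith)))
  have hFM : IsM F := isM_of_Q (by linarith) hFmp hFs
  have hFA : ∀ x ∈ Ah i β r η, F⁻¹ x ∈ Kh i β r η := by
    intro x hx
    have h1 : F⁻¹ = f⁻¹ * d := by rw [hF, mul_inv_rev, inv_inv]
    rw [h1]
    exact hdA x hx
  have hGs := shrink_G hij hr0 hη hFs hFA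
  have hGL := fun x (hx : x ∈ Lb i j β a) => shrink_G_Lb hij hr0 hη ha han hFs hx
  rw [← hP] at hGs
  simp only [← hP] at hGL
  set G : E n ≃ₜ E n := F⁻¹ * P * F * P⁻¹ with hG
  have hGN : G ∈ N := by
    refine hN.mul_mem _ ?_ _ (hN.inv_mem _ hPN)
    have h1 := hnorm F⁻¹ hFM.inv P hPN
    rwa [inv_inv] at h1
  have hRGN : R * G * R⁻¹ ∈ N := hnorm R hR.isM G hGN
  have hPmp : MeasurePreserving P volume volume := measurePreserving_twist hij _ _
  have hGmp : MeasurePreserving G volume volume :=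
    mp_mul (mp_mul (mp_mul (mp_inv hFmp) hPmp) hFmp) (mp_inv hPmp)
  have hRGmp : MeasurePreserving (R * G * R⁻¹ : E n ≃ₜ E n) volume volume :=
    mp_mul (mp_mul hR.1.mp hGmp) (mp_inv hR.1.mp)
  have hRGs : SuppIn (R * G * R⁻¹) (Q n β) := by
    refine (hGs.conj R).mono ?_
    rintro _ ⟨x, hx, rfl⟩
    exact hRmap x hx
  have hf1s : SuppIn (F * (R * G * R⁻¹)) (Q n β) :=
    (hFs.mono (shrink_Q_mono (by linarith))).mul hRGs
  have hLfix : ∀ x ∈ Lb i j β a, (F * (R * G * R⁻¹)) x = x := by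
    intro x hx
    have h1 : R⁻¹ x = x := by
      have h2 := hRfix x (Or.inr hx)
      calc R⁻¹ x = R⁻¹ (R x) := by rw [h2]
        _ = x := inv_apply_self' R x
    show F (R (G (R⁻¹ x))) = x
    rw [h1, hGL x hx]
    have h3 : R (F⁻¹ x) = F⁻¹ x := by
      rcases lt_or_ge (β - η / 2) (x i) with h | h
      · rw [shrink_fix hFs.inv h]
        exact hRfix x (Or.inr hx)
      · refine hRfix _ (Or.inl (hFA x ?_))
        obtain ⟨⟨h4, h5⟩, ⟨h6, h7⟩, h8⟩ := hx
        refine ⟨⟨by linarith, h⟩, fun l hl => ?_⟩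
        by_cases hl' : l = j
        · subst hl'
          rw [abs_le]
          constructor <;> linarith
        · exact (h8 l hl hl').trans (by linarith)
    rw [h3, apply_inv_self']
  refine ⟨F * (R * G * R⁻¹), isM_of_Q hβ1 (mp_mul hFmp hRGmp) hf1s, ?_, Xs i j β a,
    shrink_isCompact_Xs i j β a, ?_, conn_Xs hij ha (by linarith) hβ1, ?_,
    shrink_volume_Xs hij ha (by linarith)⟩
  · have h1 : (F * (R * G * R⁻¹))⁻¹ * f = (R * G * R⁻¹)⁻¹ * (F⁻¹ * d * F) := by
      have h2 : f = d * F := by rw [hF, mul_inv_cancel_left]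
      rw [mul_inv_rev]
      calc (R * G * R⁻¹)⁻¹ * F⁻¹ * f = (R * G * R⁻¹)⁻¹ * F⁻¹ * (d * F) :=
            congrArg (fun z => (R * G * R⁻¹)⁻¹ * F⁻¹ * z) h2
        _ = (R * G * R⁻¹)⁻¹ * (F⁻¹ * d * F) := by simp only [mul_assoc]
    rw [h1]
    refine hN.mul_mem _ (hN.inv_mem _ hRGN) _ ?_
    have h3 := hnorm F⁻¹ hFM.inv d (hD d hd)
    rwa [inv_inv] at h3
  · exact fun x hx => Q_subset_O hβ1 hx.1
  · intro x hx
    by_cases hxQ : x ∈ Q n β
    · have h1 : x ∈ Lb i j β a := by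
        by_contra hc
        apply hx
        refine ⟨hxQ, fun h2 => hc ?_⟩
        obtain ⟨h3, h4, h5⟩ := h2
        exact ⟨⟨h3.le, (le_abs_self _).trans (hxQ i)⟩, ⟨h4.1.le, h4.2.le⟩,
          fun l hl hl' => (h5 l hl hl').le⟩
      exact hLfix x h1
    · exact hf1s x hxQ

end Pool.Agent.W_d1cfb0_h59
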