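import Pool.Agent.W_d1cfb0_h59.Shapes
import Pool.Agent.W_d1cfb0_h59.GS
import Pool.Agent.W_d1cfb0_h59.BoxSquash
import Pool.Agent.W_d1cfb0_h59.Conn

/-!
# First correction map

`f` is measure preserving with support in `Q n (β - η)`. There is `d` in `IsD` with support in
`Q n (β - η/2)` such that `f⁻¹ (d x) ∈ Kh` for all `x ∈ Ah`.

Proof. Let `lo l = -(β - η/2)` for all `l`, `hi i = β - 5 η / 8`, `hi l = β - η/2` for `l ≠ i`,
`B = obx lo hi`, an open box with `B ⊆ Q n (β - η/2)`. Let `e, ρ` be from `box_squash` in the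
coordinate `i` with `p' i = β - 2 r`, `q' i = β - 3 η / 4`, `a = β - r`, `a' = β - η * (7/8)`
(if `η = r`, choose `a' ` in `(β - η, β - 3 η/4)`, note `β - r ≤ β - η < a'`; `a < q' i` as
`3 η / 4 < r`), and `p' l = -2 r`, `p l = -r`, `q l = r`, `q' l = 2 r` for `l ≠ i`. Its support box
`P = bx p' q'` is compact and contained in `B` (`4 r ≤ β`, `η ≤ r`).
`X = Ah ∩ {x i ≤ β - 3 η/4}` is compact. For `x ∈ X`: `β - 7 η / 8 ≤ e x i ≤ β - 3 η/4` (if
`x ∈ P` then `e x ∈ P`) and `e x l = x l`.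
For `x ∈ Ah` with `x i > β - 3 η / 4`: `e x = x`. So for `x ∈ Ah`, `e x` is in
`Z = {β - 7 η / 8 ≤ x i ≤ β - η/2, |x l| ≤ r for l ≠ i}`.
`Ω₁ = B \ e '' Ah`: open (`Ah` is compact); `= e '' (B \ Ah)` (`SuppIn.image_eq`), and
`B \ Ah = B \ bx a b` with `a i = β - r`, `b i = β - η / 2`, `a l = -r`, `b l = r`, preconnected by
`conn_box_diff` (`lo i < a i`, `lo l < a l`; `n ≥ 2` gives some `l ≠ i`: take `j`).
`Ω₂ = f '' B'`, `B' = {β - 2 r < x i < β - 5 η / 8, |x l| < 2 r for l ≠ i}` an open box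
contained in `B`; `f '' B = B` because the support `Q n (β - η) ⊆ B` (`η > 0`; `SuppIn.image_eq`),
so `Ω₂ ⊆ B`, open and connected.
Hypotheses of `gs` with `K = P`: `e '' X` is disjoint from `Ω₁` (`X ⊆ Ah`). `P ⊆ Ω₁ ∪ e '' X`: a
point `y ∈ P ⊆ B` not in `Ω₁` is `e x` with `x ∈ Ah`; `x ∈ P` (`SuppIn.mem_iff`), so
`x i ≤ β - 3 η/4`, `x ∈ X`. `e '' X ⊆ Ω₂`: `y = e x`, `x ∈ X` satisfies `y i ≥ β - 7 η / 8 > β - η`
so `f y = y` (`y ∉ Q n (β - η)`) and `y ∈ B'`, so `y ∈ f '' B'`. Volume: `Ω₁ ∩ Ω₂ = Ω₂ \ e '' Ah`,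
and `Ω₂ ∩ e '' Ah ⊆ e '' X ∪ Z'` with `Z' = {β - 3 η / 4 ≤ x i ≤ β - 5 η / 8, |x l| ≤ r}`, so
`volume (Ω₁ ∩ Ω₂) + volume (e '' X) ≥ volume Ω₂ - volume Z'
= (2 r - 5 η / 8) (4 r)^(n-1) - (η / 8) (2 r)^(n-1)`, which is larger than
`volume X = (r - 3 η / 4) (2 r)^(n-1)` (`(4 r)^(n-1) ≥ (2 r)^(n-1)`, `η ≤ r`: the difference is at
least `(2 r - 5 η/8 - η/8 - r + 3 η/4) (2 r)^(n-1) = r (2 r)^(n-1)`). `Ω₁ ∩ Ω₂` is nonempty: for
instance since `volume (Ω₂ \ e '' Ah) > 0` by the same computation (`volume (e '' X) ≤` the volume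
of `{β - 7 η/8 ≤ x i ≤ β - 3 η/4, |x l| ≤ r}`), `(2 r - 5 η/8) (4 r)^(n-1) > (3 η / 8) (2 r)^(n-1)`.
Let `ψ, θ` be from `gs`, `d = θ * ψ * e`. It is `Sm`, and `CS d B` (`P`, `Ω₁`, `Ω₂ ⊆ B`), so
`IsD d` (`B ⊆ O n`) and support in `Q n (β - η/2)`. Let `x ∈ Ah`, `y = e x`. `ψ y = y` as
`y ∉ Ω₁`. If `y ∈ Ω₂` then `θ y ∈ Ω₂ = f '' B'`, so `f⁻¹ (θ y) ∈ B' ⊆ Kh` (`β - 5 η/8 < β - η/2`).
If `y ∉ Ω₂` then `θ y = y ∈ Z`, `f⁻¹ y = y` (as `y i > β - η`), and `y ∈ Z ⊆ Kh`.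
-/

namespace Pool.Agent.W_d1cfb0_h59

open MeasureTheory Pool.Agent.W_MP_d1cfb0_an

/-- The closed box `A ≤ x i ≤ B`, `|x l| ≤ w` for `l ≠ i`. -/
def shrinkd_b {n : ℕ} (i : Fin n) (A B w : ℝ) : Set (E n) :=
  {x | (A ≤ x i ∧ x i ≤ B) ∧ ∀ l, l ≠ i → |x l| ≤ w}

/-- The open box `A < x i < B`, `|x l| < w` for `l ≠ i`. -/
def shrinkd_o {n : ℕ} (i : Fin n) (A B w : ℝ) : Set (E n) :=
  {x | (A < x i ∧ x i < B) ∧ ∀ l, l ≠ i → |x l| < w}

theorem shrinkd_b_eq {n : ℕ} (i : Fin n) (A B w : ℝ) : shrinkd_b i A B w =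
    bx (fun l => if l = i then A else -w) (fun l => if l = i then B else w) := by
  ext x
  simp only [shrinkd_b, bx, Set.mem_ofPred_eq]
  constructor
  · rintro ⟨h1, h2⟩ l
    by_cases hl : l = i
    · subst hl
      simpa using h1
    · rw [if_neg hl, if_neg hl]
      exact abs_le.1 (h2 l hl)
  · intro h
    refine ⟨by simpa using h i, fun l hl => ?_⟩
    have h1 := h l
    rw [if_neg hl, if_neg hl] at h1
    exact abs_le.2 h1

theorem shrinkd_o_eq {n : ℕ} (i : Fin n) (A B w : ℝ) : shrinkd_o i A B w =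
    obx (fun l => if l = i then A else -w) (fun l => if l = i then B else w) := by
  ext x
  simp only [shrinkd_o, obx, Set.mem_ofPred_eq]
  constructor
  · rintro ⟨h1, h2⟩ l
    by_cases hl : l = i
    · subst hl
      simpa using h1
    · rw [if_neg hl, if_neg hl]
      exact abs_lt.1 (h2 l hl)
  · intro h
    refine ⟨by simpa using h i, fun l hl => ?_⟩
    have h1 := h l
    rw [if_neg hl, if_neg hl] at h1
    exact abs_lt.2 h1

theorem shrinkd_prod {n : ℕ} (i : Fin n) (A B w : ℝ) :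
    ∏ l : Fin n, ENNReal.ofReal ((if l = i then B else w) - (if l = i then A else -w)) =
      ENNReal.ofReal (B - A) * ENNReal.ofReal (2 * w) ^ (n - 1) := by
  classical
  rw [← Finset.mul_prod_erase Finset.univ _ (Finset.mem_univ i)]
  simp only [if_true]
  congr 1
  have h1 : ∀ l ∈ Finset.univ.erase i,
      ENNReal.ofReal ((if l = i then B else w) - (if l = i then A else -w)) =
        ENNReal.ofReal (2 * w) := by
    intro l hl
    have h2 : l ≠ i := Finset.ne_of_mem_erase hl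
    rw [if_neg h2, if_neg h2]
    congr 1
    ring
  rw [Finset.prod_congr rfl h1, Finset.prod_const, Finset.card_erase_of_mem (Finset.mem_univ i),
    Finset.card_univ, Fintype.card_fin]

theorem shrinkd_volb {n : ℕ} (i : Fin n) (A B w : ℝ) : volume (shrinkd_b i A B w) =
    ENNReal.ofReal (B - A) * ENNReal.ofReal (2 * w) ^ (n - 1) := by
  rw [shrinkd_b_eq, volume_bx, shrinkd_prod]

theorem shrinkd_volo {n : ℕ} (i : Fin n) (A B w : ℝ) : volume (shrinkd_o i A B w) =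
    ENNReal.ofReal (B - A) * ENNReal.ofReal (2 * w) ^ (n - 1) := by
  rw [shrinkd_o_eq, volume_obx, shrinkd_prod]

theorem shrink_d {n : ℕ} {i j : Fin n} (hij : i ≠ j) {β r η : ℝ} (hη : 0 < η) (hηr : η ≤ r)
    (hr : 4 * r ≤ β) (hβ : β < 1 / 2) {f : E n ≃ₜ E n}
    (hf : MeasurePreserving f volume volume) (hfs : SuppIn f (Q n (β - η))) :
    ∃ d : E n ≃ₜ E n, IsD d ∧ SuppIn d (Q n (β - η / 2)) ∧
      ∀ x ∈ Ah i β r η, f⁻¹ (d x) ∈ Kh i β r η := by
  have hr0 : 0 < r := hη.trans_le hηr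
  -- the big box
  set lo : Fin n → ℝ := fun _ => -(β - η / 2) with hlo
  set hi : Fin n → ℝ := fun l => if l = i then β - 5 * η / 8 else β - η / 2 with hhi
  set B : Set (E n) := obx lo hi with hBdef
  have hB1 : ∀ x ∈ B, (-(β - η / 2) < x i ∧ x i < β - 5 * η / 8) ∧
      ∀ l, |x l| ≤ β - η / 2 := by
    intro x hx
    have h1 := hx i
    simp only [hlo, hhi, if_true] at h1
    refine ⟨h1, fun l => ?_⟩
    have h2 := hx l
    simp only [hlo, hhi] at h2
    by_cases hl : l = i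
    · subst hl
      rw [if_pos rfl] at h2
      exact abs_le.2 ⟨h2.1.le, by linarith [h2.2]⟩
    · rw [if_neg hl] at h2
      exact abs_le.2 ⟨h2.1.le, h2.2.le⟩
  have hB2 : ∀ x : E n, (-(β - η / 2) < x i ∧ x i < β - 5 * η / 8) →
      (∀ l, l ≠ i → |x l| < β - η / 2) → x ∈ B := by
    intro x h1 h2 l
    simp only [hlo, hhi]
    by_cases hl : l = i
    · subst hl
      rw [if_pos rfl]
      exact h1
    · rw [if_neg hl]
      exact abs_lt.1 (h2 l hl)
  have hBQ : B ⊆ Q n (β - η / 2) := fun x hx l => (hB1 x hx).2 l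
  have hBO : B ⊆ O n := fun x hx l => ((hB1 x hx).2 l).trans_lt (by linarith)
  have hBo : IsOpen B := isOpen_obx lo hi
  -- the compressing map
  obtain ⟨e, ρ, he, heP', hej, hei⟩ := box_squash (n := n) i
    (p' := fun l => if l = i then β - 2 * r else -(2 * r))
    (p := fun _ => -r) (q := fun _ => r)
    (q' := fun l => if l = i then β - 3 * η / 4 else 2 * r)
    (a := β - r) (a' := β - 7 * η / 8)
    (fun l hl => by simp only [if_neg hl]; linarith)
    (fun l hl => by linarith)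
    (fun l hl => by simp only [if_neg hl]; linarith)
    (by simp only [if_true]; linarith) (by simp only [if_true]; linarith)
    (by simp only [if_true]; linarith) (by simp only [if_true]; linarith)
  rw [← shrinkd_b_eq] at heP'
  set P : Set (E n) := shrinkd_b i (β - 2 * r) (β - 3 * η / 4) (2 * r) with hPdef
  have hPB : P ⊆ B := by
    rintro x ⟨h1, h2⟩
    refine hB2 x ⟨by linarith, by linarith⟩ fun l hl => ?_
    exact (h2 l hl).trans_lt (by linarith)
  have hPc : IsCompact P := by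
    rw [hPdef, shrinkd_b_eq]
    exact isCompact_bx _ _
  set X : Set (E n) := shrinkd_b i (β - r) (β - 3 * η / 4) r with hXdef
  have hXc : IsCompact X := by
    rw [hXdef, shrinkd_b_eq]
    exact isCompact_bx _ _
  have hXP : X ⊆ P := by
    rintro x ⟨h1, h2⟩
    exact ⟨⟨by linarith, h1.2⟩, fun l hl => (h2 l hl).trans (by linarith)⟩
  have hXA : X ⊆ Ah i β r η := by
    rintro x ⟨h1, h2⟩
    exact ⟨⟨h1.1, by linarith⟩, h2⟩
  have hAX : ∀ x ∈ Ah i β r η, x ∈ P → x ∈ X := by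
    rintro x ⟨h1, h2⟩ h3
    exact ⟨⟨h1.1, h3.1.2⟩, h2⟩
  have heX : ∀ x ∈ X, (β - 7 * η / 8 ≤ e x i ∧ e x i ≤ β - 3 * η / 4) ∧
      ∀ l, l ≠ i → |e x l| ≤ r := by
    intro x hx
    have h1 : e x ∈ P := heP'.mem_of_mem (hXP hx)
    have h2 := (hei x fun l hl => abs_le.1 (hx.2 l hl)).1 hx.1.1
    refine ⟨⟨h2, h1.1.2⟩, fun l hl => ?_⟩
    rw [hej x l hl]
    exact hx.2 l hl
  have heA : ∀ x ∈ Ah i β r η, (β - 7 * η / 8 ≤ e x i ∧ e x i ≤ β - η / 2) ∧
      ∀ l, l ≠ i → |e x l| ≤ r := by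
    intro x hx
    by_cases h1 : x ∈ X
    · have h2 := heX x h1
      exact ⟨⟨h2.1.1, by linarith [h2.1.2]⟩, h2.2⟩
    · have h2 : x ∉ P := fun h => h1 (hAX x hx h)
      rw [heP' x h2]
      refine ⟨⟨?_, hx.1.2⟩, hx.2⟩
      by_contra h3
      push Not at h3
      exact h1 ⟨⟨hx.1.1, by linarith⟩, hx.2⟩
  -- the first set
  have hAhb : Ah i β r η = bx (fun l => if l = i then β - r else -r)
      (fun l => if l = i then β - η / 2 else r) := by
    rw [← shrinkd_b_eq]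
    rfl
  have hAc : IsCompact (Ah i β r η) := by
    rw [hAhb]
    exact isCompact_bx _ _
  have heB : e '' B = B := SuppIn.image_eq heP' hPB
  set Ω₁ : Set (E n) := B \ e '' Ah i β r η with hΩ₁
  have hΩ₁o : IsOpen Ω₁ := hBo.sdiff (hAc.image e.continuous).isClosed
  have hΩ₁c : IsPreconnected Ω₁ := by
    have h1 : Ω₁ = e '' (B \ Ah i β r η) := by
      rw [Set.image_sdiff e.injective, heB]
    rw [h1]
    refine IsPreconnected.image ?_ _ e.continuous.continuousOn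
    rw [hAhb, hBdef]
    refine conn_box_diff hij ?_ ?_ ?_
    · intro m
      simp only [hlo, hhi]
      split_ifs <;> linarith
    · simp only [hlo, if_true]
      linarith
    · simp only [hlo, if_neg hij.symm]
      linarith
  -- the second set
  set B' : Set (E n) := shrinkd_o i (β - 2 * r) (β - 5 * η / 8) (2 * r) with hB'def
  have hB'B : B' ⊆ B := by
    rintro x ⟨h1, h2⟩
    refine hB2 x ⟨by linarith, h1.2⟩ fun l hl => ?_
    exact (h2 l hl).trans_le (by linarith)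
  have hQB : Q n (β - η) ⊆ B := by
    intro x hx
    have h1 := abs_le.1 (hx i)
    exact hB2 x ⟨by linarith, by linarith⟩ fun l _ => (hx l).trans_lt (by linarith)
  have hfB : f '' B = B := SuppIn.image_eq hfs hQB
  set Ω₂ : Set (E n) := f '' B' with hΩ₂
  have hB'o : IsOpen B' := by
    rw [hB'def, shrinkd_o_eq]
    exact isOpen_obx _ _
  have hB'c : IsPreconnected B' := by
    rw [hB'def, shrinkd_o_eq]
    exact (convex_obx _ _).isPreconnected
  have hΩ₂o : IsOpen Ω₂ := f.isOpenMap _ hB'o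
  have hΩ₂c : IsPreconnected Ω₂ := hB'c.image _ f.continuous.continuousOn
  have hΩ₂B : Ω₂ ⊆ B := by
    rw [hΩ₂, ← hfB]
    exact Set.image_mono hB'B
  have hfix : ∀ x : E n, β - η < x i → f x = x := by
    intro x hx
    refine hfs x fun h => ?_
    have h1 := (abs_le.1 (h i)).2
    linarith
  have hfix' : ∀ x : E n, β - η < x i → f⁻¹ x = x := by
    intro x hx
    refine hfs.inv x fun h => ?_
    have h1 := (abs_le.1 (h i)).2
    linarith
  -- hypotheses of `gs`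
  have hd : Disjoint (e '' X) Ω₁ := by
    rw [Set.disjoint_left]
    intro y hy hy'
    exact hy'.2 (Set.image_mono hXA hy)
  have hKX : P ⊆ Ω₁ ∪ e '' X := by
    intro y hy
    by_cases h1 : y ∈ e '' Ah i β r η
    · obtain ⟨x, hx, rfl⟩ := h1
      exact Or.inr ⟨x, hAX x hx (heP'.mem_iff.1 hy), rfl⟩
    · exact Or.inl ⟨hPB hy, h1⟩
  have hX₂ : e '' X ⊆ Ω₂ := by
    rintro y ⟨x, hx, rfl⟩
    have h1 := heX x hx
    refine ⟨e x, ⟨⟨by linarith [h1.1.1], by linarith [h1.1.2]⟩, fun l hl => ?_⟩, ?_⟩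
    · exact (h1.2 l hl).trans_lt (by linarith)
    · exact hfix _ (by linarith [h1.1.1])
  have hne : (Ω₁ ∩ Ω₂).Nonempty := by
    set z : E n := upd (upd 0 i (β - 3 * η / 4)) j (3 * r / 2) with hz
    have hzi : z i = β - 3 * η / 4 := by
      rw [hz, upd_ne _ hij, upd_same]
    have hzj : z j = 3 * r / 2 := by
      rw [hz, upd_same]
    have hzl : ∀ l, l ≠ i → |z l| < 2 * r := by
      intro l hl
      by_cases h : l = j
      · rw [h, hzj, abs_of_pos (by linarith)]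
        linarith
      · rw [hz, upd_ne _ h, upd_ne _ hl]
        simpa using hr0
    have hzB' : z ∈ B' := ⟨⟨by rw [hzi]; linarith, by rw [hzi]; linarith⟩, hzl⟩
    refine ⟨z, ⟨hB'B hzB', ?_⟩, z, hzB', hfix z (by rw [hzi]; linarith)⟩
    rintro ⟨x, hx, hxz⟩
    have h1 := (heA x hx).2 j hij.symm
    rw [hxz, hzj, abs_of_pos (by linarith)] at h1
    linarith
  have hv : volume X < volume (Ω₁ ∩ Ω₂) + volume (e '' X) := by
    set Z : Set (E n) := shrinkd_b i (β - 3 * η / 4) (β - 5 * η / 8) r with hZ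
    have h1 : Ω₂ ⊆ (Ω₁ ∩ Ω₂ ∪ e '' X) ∪ Z := by
      intro y hy
      by_cases h2 : y ∈ e '' Ah i β r η
      · obtain ⟨x, hx, rfl⟩ := h2
        by_cases h3 : x ∈ X
        · exact Or.inl (Or.inr ⟨x, h3, rfl⟩)
        · have h4 : x ∉ P := fun h => h3 (hAX x hx h)
          have h5 : e x = x := heP' x h4
          right
          rw [h5] at hy ⊢
          refine ⟨⟨?_, (hB1 x (hΩ₂B hy)).1.2.le⟩, hx.2⟩
          by_contra h6
          push Not at h6
          exact h3 ⟨⟨hx.1.1, h6.le⟩, hx.2⟩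
      · exact Or.inl (Or.inl ⟨⟨hΩ₂B hy, h2⟩, hy⟩)
    have h2 : volume Ω₂ ≤ (volume (Ω₁ ∩ Ω₂) + volume (e '' X)) + volume Z :=
      (measure_mono h1).trans ((measure_union_le _ _).trans
        (add_le_add_left (measure_union_le _ _) _))
    have h3 : volume X + volume Z < volume Ω₂ := by
      rw [hΩ₂, mp_volume_image hf, hB'def, hXdef, hZ, shrinkd_volo, shrinkd_volb, shrinkd_volb,
        ← add_mul, ← ENNReal.ofReal_add (by linarith) (by linarith),
        ← ENNReal.ofReal_pow (by linarith), ← ENNReal.ofReal_pow (by linarith),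
        ← ENNReal.ofReal_mul (by linarith), ← ENNReal.ofReal_mul (by linarith)]
      have h4 : (2 * r) ^ (n - 1) ≤ (2 * (2 * r)) ^ (n - 1) :=
        pow_le_pow_left₀ (by linarith) (by linarith) _
      have h5 : 0 < (2 * (2 * r)) ^ (n - 1) := by positivity
      refine (ENNReal.ofReal_lt_ofReal_iff (mul_pos (by linarith) h5)).2 ?_
      calc (β - 3 * η / 4 - (β - r) + (β - 5 * η / 8 - (β - 3 * η / 4))) * (2 * r) ^ (n - 1)
          ≤ (β - 3 * η / 4 - (β - r) + (β - 5 * η / 8 - (β - 3 * η / 4))) *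
            (2 * (2 * r)) ^ (n - 1) := mul_le_mul_of_nonneg_left h4 (by linarith)
        _ < (β - 5 * η / 8 - (β - 2 * r)) * (2 * (2 * r)) ^ (n - 1) :=
            mul_lt_mul_of_pos_right (by linarith) h5
    exact lt_of_add_lt_add_right (h3.trans_le h2)
  obtain ⟨ψ, θ, hψ, hθ, hsm⟩ := gs he hPc heP' hXc hΩ₁o hΩ₁c hΩ₂o hΩ₂c hd hKX hX₂ hne hv
  have hψs : SuppIn ψ Ω₁ := hψ.suppIn
  have hθs : SuppIn θ Ω₂ := hθ.suppIn
  have heCS : CS e B := ⟨P, hPc, hPB, heP'⟩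
  have hdCS : CS (θ * ψ * e) B :=
    ((hθ.mono hΩ₂B).mul (hψ.mono Set.sdiff_subset)).mul heCS
  refine ⟨θ * ψ * e, ⟨hsm, hdCS.mono hBO⟩, hdCS.suppIn.mono hBQ, ?_⟩
  intro x hx
  have h1 : (θ * ψ * e : E n ≃ₜ E n) x = θ (ψ (e x)) := rfl
  have h2 : ψ (e x) = e x := hψs _ fun h => h.2 ⟨x, hx, rfl⟩
  rw [h1, h2]
  by_cases h3 : e x ∈ Ω₂
  · obtain ⟨z, hz, hzx⟩ := hθs.mem_of_mem h3
    rw [← hzx, inv_apply_self']
    exact ⟨⟨hz.1.1.le, by linarith [hz.1.2]⟩, fun l hl => (hz.2 l hl).le⟩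
  · rw [hθs _ h3]
    have h4 := heA x hx
    rw [hfix' _ (by linarith [h4.1.1])]
    exact ⟨⟨by linarith [h4.1.1], h4.1.2⟩, fun l hl => (h4.2 l hl).trans (by linarith)⟩

end Pool.Agent.W_d1cfb0_h59
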