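import Pool.Agent.W_d1cfb0_h59.StepHomeo
import Pool.Agent.W_d1cfb0_h59.StepMeas
import Pool.Agent.W_d1cfb0_h59.StepLevel

/-!
# A map changing one coordinate with a cut-off in the other coordinates

`e x = upd x i (x i + χ x (f (x i) - x i))` where `f` is a one-dimensional `C^2` diffeomorphism and
`χ` a `C^1` cut-off not depending on the coordinate `i`.

Proof. Let `A x = x i + χ x (f (x i) - x i)`, `B x = x i`, `a x = 1 + χ x (f' (x i) - 1) =
(1 - χ x) + χ x f' (x i) > 0`, `b = 1`. `HasPart i A a` because `χ (upd x i t) = χ x`. `A` and `a`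
are `C^1`. Off `K` we have `A = B`. So `exists_level` (both ways), `step_homeo` with `k = 1` and
`step_measure` give `ψ` with `(ψ x) i = B (ψ x) = A x`, `ψ x = upd x i t`, so `ψ x = upd x i (A x)`,
and `map ψ (dens a) = dens 1 = volume`. Take `e = ψ` and `ρ y = (a (e⁻¹ y))⁻¹`
(`map_eq_dens_inv`), which is `C^1` and positive. `SuppIn e K`: off `K`, `A x = x i`, `upd_self`.
-/

namespace Pool.Agent.W_d1cfb0_h59

open MeasureTheory Pool.Agent.W_MP_d1cfb0_an

theorem exists_squash {n : ℕ} (i : Fin n) {f : ℝ → ℝ} (hf : ContDiff ℝ 2 f)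
    (hf' : ∀ t, 0 < deriv f t) {χ : E n → ℝ} (hχ : ContDiff ℝ 1 χ) (hχ0 : ∀ x, 0 ≤ χ x)
    (hχ1 : ∀ x, χ x ≤ 1) (hχi : ∀ x t, χ (upd x i t) = χ x) {K : Set (E n)} (hK : IsCompact K)
    (hsupp : ∀ x, x ∉ K → χ x = 0 ∨ f (x i) = x i) :
    ∃ (e : E n ≃ₜ E n) (ρ : E n → ℝ), Dn 1 e ρ ∧ SuppIn e K ∧
      ∀ x, e x = upd x i (x i + χ x * (f (x i) - x i)) := by
  obtain ⟨A, hAdef⟩ : ∃ A : E n → ℝ, ∀ x, A x = x i + χ x * (f (x i) - x i) :=
    ⟨_, fun _ => rfl⟩
  obtain ⟨a, hadef⟩ : ∃ a : E n → ℝ, ∀ x, a x = 1 + χ x * (deriv f (x i) - 1) :=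
    ⟨_, fun _ => rfl⟩
  have hf1 : ContDiff ℝ 1 f := hf.of_le (by norm_num)
  have hd1 : ContDiff ℝ 1 (deriv f) := by
    have h := hf
    rw [← one_add_one_eq_two] at h
    exact (contDiff_succ_iff_deriv.1 h).2.2
  have hcoord : ContDiff ℝ 1 (fun x : E n => x i) := by fun_prop
  have hA : ContDiff ℝ 1 A := by
    have h : A = fun x : E n => x i + χ x * (f (x i) - x i) := funext hAdef
    rw [h]
    exact hcoord.add (hχ.mul ((hf1.comp hcoord).sub hcoord))
  have ha : ContDiff ℝ 1 a := by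
    have h : a = fun x : E n => 1 + χ x * (deriv f (x i) - 1) := funext hadef
    rw [h]
    exact contDiff_const.add (hχ.mul ((hd1.comp hcoord).sub contDiff_const))
  have hAa : HasPart i A a := by
    intro x
    have h : (fun t : ℝ => A (upd x i t)) = fun t : ℝ => t + χ x * (f t - t) := by
      funext t
      rw [hAdef, hχi, upd_same]
    rw [h, hadef]
    have h1 : HasDerivAt f (deriv f (x i)) (x i) :=
      (hf1.differentiable (by norm_num) (x i)).hasDerivAt
    exact (hasDerivAt_id (x i)).add ((h1.sub (hasDerivAt_id (x i))).const_mul (χ x))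
  have ha0 : ∀ x, 0 < a x := by
    intro x
    rw [hadef]
    have h1 := hf' (x i)
    rcases (hχ0 x).eq_or_lt with h | h
    · rw [← h]
      norm_num
    · have h2 := mul_pos h h1
      have h3 := hχ1 x
      linarith
  have hAB : ∀ x, x ∉ K → A x = x i := by
    intro x hx
    rw [hAdef]
    rcases hsupp x hx with h | h
    · rw [h, zero_mul, add_zero]
    · rw [h, sub_self, mul_zero, add_zero]
  have hB := hasPart_coord i
  have hl1 : ∀ x : E n, ∃ t, (upd x i t) i = A x := fun x => ⟨A x, upd_same x i (A x)⟩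
  have hl2 : ∀ x : E n, ∃ t, A (upd x i t) = x i := fun x =>
    exists_level i hB hAa (fun _ => one_pos) hK (fun x hx => (hAB x hx).symm) x
  obtain ⟨ψ, hψc, hψc', hψ, hψi⟩ := step_homeo i (Or.inr rfl) hA hcoord hAa hB ha.continuous
    continuous_const ha0 (fun _ => one_pos) hl1 hl2
  have hψx : ∀ x, ψ x = upd x i (A x) := by
    intro x
    obtain ⟨t, ht⟩ := hψi x
    have h1 := hψ x
    rw [ht, upd_same] at h1
    rw [ht, h1]
  have hm := step_measure i hA.continuous hcoord.continuous hAa hB ha.continuous continuous_const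
    ha0 (fun _ => one_pos) ψ hψ hψi
  rw [dens_one] at hm
  refine ⟨ψ, fun y => (a (ψ⁻¹ y))⁻¹, ⟨hψc, hψc', ?_, fun y => inv_pos.2 (ha0 _),
    map_eq_dens_inv ha.continuous ha0 hm⟩, ?_, ?_⟩
  · exact (ha.comp hψc').inv fun y => (ha0 _).ne'
  · intro x hx
    rw [hψx, hAB x hx, upd_self]
  · intro x
    rw [hψx, hAdef]

end Pool.Agent.W_d1cfb0_h59
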