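import Pool.Agent.W_d1cfb0_h59.Squeeze

/-!
# Elements moving a cube off itself, and nontrivial elements

`exists_swap`: `squeeze` with `X = Q n (1/8) = ccub 0 (1/8)` (volume `(1/4)^n`) and
`W = {x ∈ O n | 1/8 < x i}`, `i = 0`, which is the open box with sides `(1/8, 1/2)` in the
coordinate `i` and `(-1/2, 1/2)` in the others (`obx`, `volume_obx`), of volume `3/8 > (1/4)^n`
(`n ≥ 2`), convex.
`exists_nontrivial`: choose `ccub x s ⊆ V`, `s > 0`, and take `sc x s hs d` for the `d` of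
`exists_swap` (`sc_sm`, `sc_cS`, and `sc_injective`, `sc_one`; `d ≠ 1` because `d 0 ≠ 0`).
-/

namespace Pool.Agent.W_d1cfb0_h59

open MeasureTheory Pool.Agent.W_MP_d1cfb0_an

theorem exists_swap {n : ℕ} (hn : 2 ≤ n) :
    ∃ d : E n ≃ₜ E n, IsD d ∧ Disjoint (d '' Q n (1 / 8)) (Q n (1 / 8)) := by
  classical
  have hn0 : 0 < n := by omega
  obtain ⟨i0, hi0⟩ : ∃ i0 : Fin n, i0 = ⟨0, hn0⟩ := ⟨_, rfl⟩
  obtain ⟨lo, hlo⟩ : ∃ lo : Fin n → ℝ, lo = fun j => if j = i0 then 1 / 8 else -(1 / 2) :=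
    ⟨_, rfl⟩
  have hlo0 : lo i0 = 1 / 8 := by rw [hlo]; simp
  have hlo1 : ∀ j, j ≠ i0 → lo j = -(1 / 2) := by
    intro j hj
    rw [hlo]
    simp [hj]
  have hlo2 : ∀ j, -(1 / 2) ≤ lo j := by
    intro j
    by_cases hj : j = i0
    · rw [hj, hlo0]
      norm_num
    · rw [hlo1 j hj]
  have hvX : volume (Q n (1 / 8)) = ENNReal.ofReal ((1 / 4) ^ n) := by
    rw [Q_eq_ccub, volume_ccub _ (by norm_num)]
    norm_num
  have hvW : volume (obx lo fun _ => 1 / 2 : Set (E n)) = ENNReal.ofReal (3 / 8) := by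
    rw [volume_obx, Finset.prod_eq_single i0]
    · rw [hlo0]
      norm_num
    · intro j _ hj
      rw [hlo1 j hj]
      norm_num
    · intro h
      exact absurd (Finset.mem_univ i0) h
  have hWO : (obx lo fun _ => 1 / 2 : Set (E n)) ⊆ O n := by
    intro x hx j
    rw [abs_lt]
    exact ⟨lt_of_le_of_lt (hlo2 j) (hx j).1, (hx j).2⟩
  have hXc : IsPreconnected (O n \ Q n (1 / 8)) := by
    rw [Q_eq_ccub]
    refine conn_O_diff hn (by norm_num) ?_
    rw [← Q_eq_ccub]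
    exact Q_subset_O (by norm_num)
  obtain ⟨d, hd, hdW⟩ := squeeze hn (X := Q n (1 / 8))
    (by rw [Q_eq_ccub]; exact isCompact_ccub _ _) (Q_subset_O (by norm_num)) hXc
    (W := obx lo fun _ => 1 / 2) (isOpen_obx _ _) hWO (convex_obx _ _).isPreconnected (by
      rw [hvX, hvW, ENNReal.ofReal_lt_ofReal_iff (by norm_num)]
      have h1 : ((1 : ℝ) / 4) ^ n ≤ (1 / 4) ^ 2 :=
        pow_le_pow_of_le_one (by norm_num) (by norm_num) hn
      norm_num at h1 ⊢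
      linarith)
  refine ⟨d, hd, ?_⟩
  rw [Set.disjoint_left]
  intro x hx hxQ
  have h1 := (hdW hx i0).1
  rw [hlo0] at h1
  have h2 := (abs_le.1 (hxQ i0)).2
  linarith

theorem exists_nontrivial {n : ℕ} (hn : 2 ≤ n) {V : Set (E n)} (hV : IsOpen V)
    (hne : V.Nonempty) : ∃ y : E n ≃ₜ E n, Sm y ∧ CS y V ∧ y ≠ 1 := by
  obtain ⟨x, hx⟩ := hne
  obtain ⟨s, hs, hsV⟩ := exists_ccub_subset hV hx
  obtain ⟨d, hd, hdd⟩ := exists_swap hn
  refine ⟨sc x s hs d, sc_sm hd.1, (sc_cS hd.2).mono ((cub_subset_ccub x s).trans hsV), ?_⟩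
  intro h
  have h1 : d = 1 := sc_injective x s hs (by rw [h, sc_one])
  rw [Set.disjoint_left] at hdd
  have h0 : (0 : E n) ∈ Q n (1 / 8) := by
    intro i
    simp
  refine hdd ⟨0, h0, ?_⟩ h0
  rw [h1]
  rfl

end Pool.Agent.W_d1cfb0_h59
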