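import Pool.Agent.W_d1cfb0_h59.Basic2

/-!
# Twists are limits of smooth twists with the same support

Proof. Write `T = twist hij c a`. If `b` is another profile vanishing for `u ≥ r` then
`dist (twist hij c a x) (twist hij c b x) ≤ |a u - b u| * u` with `u = ‖x - c‖`
(`twist_inv`, `twist_mul` and `dist_twist_le`: `twist a x = twist (a - b) (twist b x)`, and
`norm_twist_sub`), and the same for the inverses (`twist_inv`). So we need a profile `b` with
`|a u - b u| < ε / (r + 1)` for `0 ≤ u ≤ r`, `b u = 0` for `u ≥ r`, and such that `twist hij c b` is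
smooth. Let `B v = a (√v)` on `[0, r ^ 2]`, continuous with `B (r ^ 2) = 0`. By Weierstrass
(`polynomial_functions_closure_eq_top` / `exists_polynomial_near_of_continuousOn`) there is a
polynomial `P` with `|P - B| < δ` on `[0, r ^ 2]`. Choose `0 < r' < r` such that `|B| < δ` on
`[r' ^ 2, r ^ 2]` and a smooth `χ : ℝ → [0, 1]` with `χ = 1` for `v ≤ r' ^ 2` and `χ = 0` for
`v ≥ r ^ 2` (`Real.smoothTransition`). Then `b u = P (u ^ 2) χ (u ^ 2)` satisfies
`|b - a| ≤ 3 δ` on `[0, r]`: on `[0, r']` it is `|P - B|`; on `[r', r]`, `|b| ≤ |P| ≤ 2 δ`,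
`|a| ≤ δ`.
Smoothness of `twist hij c b`: `twist hij c b x = c + rot i j (g x) (x - c)` with
`g x = P (‖x - c‖ ^ 2) χ (‖x - c‖ ^ 2)` smooth (`contDiff_norm_sq`), and the coordinates of
`rot i j θ y` are `cos θ * y i - sin θ * y j` etc. (unfold `rot`; `contDiff_euclidean` reduces to
coordinates). The inverse is the twist with profile `-b` (`twist_inv`). Measure preserving:
`measurePreserving_twist`. Support: `suppIn_twist`.
-/

namespace Pool.Agent.W_d1cfb0_h59

open MeasureTheory Pool.Agent.W_MP_d1cfb0_an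

theorem twistapprox_profile (a : C(ℝ, ℝ)) {r : ℝ} (hr : 0 < r) (ha : ∀ u, r ≤ u → a u = 0)
    {δ : ℝ} (hδ : 0 < δ) :
    ∃ g : ℝ → ℝ, ContDiff ℝ 1 g ∧ (∀ v, r ^ 2 ≤ v → g v = 0) ∧
      ∀ u, 0 ≤ u → |a u - g (u ^ 2)| < 4 * δ := by
  obtain ⟨P, hP⟩ := exists_polynomial_near_of_continuousOn 0 (r ^ 2) (fun v => a (Real.sqrt v))
    (Continuous.continuousOn (by fun_prop)) δ hδ
  have hcont : Filter.Tendsto (fun u => a u) (nhds r) (nhds (a r)) := a.continuous.tendsto r
  rw [ha r le_rfl] at hcont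
  obtain ⟨η, hη, hη'⟩ := Metric.tendsto_nhds_nhds.1 hcont δ hδ
  set r' : ℝ := max (r / 2) (r - η / 2) with hr'
  have hr'0 : 0 < r' := lt_of_lt_of_le (by positivity) (le_max_left _ _)
  have hr'r : r' < r := max_lt (by linarith) (by linarith)
  have hsmall : ∀ u, r' ≤ u → u ≤ r → |a u| < δ := by
    intro u hu hu'
    have h1 : r - η / 2 ≤ u := (le_max_right _ _).trans hu
    have h2 := hη' (x := u) (by rw [Real.dist_eq, abs_lt]; constructor <;> linarith)
    rwa [Real.dist_eq, sub_zero] at h2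
  have hsq : r' ^ 2 < r ^ 2 := by nlinarith
  have hden : 0 < r ^ 2 - r' ^ 2 := by linarith
  refine ⟨fun v => P.eval v * Real.smoothTransition ((r ^ 2 - v) / (r ^ 2 - r' ^ 2)), ?_, ?_, ?_⟩
  · have h1 : ContDiff ℝ 1 fun v : ℝ => P.eval v := by
      exact P.contDiff_aeval 1
    have h2 : ContDiff ℝ 1 fun v : ℝ => Real.smoothTransition ((r ^ 2 - v) / (r ^ 2 - r' ^ 2)) := by
      have h3 : ContDiff ℝ 1 fun v : ℝ => (r ^ 2 - v) / (r ^ 2 - r' ^ 2) := by fun_prop
      exact (Real.smoothTransition.contDiff (n := 1)).comp h3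
    exact h1.mul h2
  · intro v hv
    have h1 : (r ^ 2 - v) / (r ^ 2 - r' ^ 2) ≤ 0 := div_nonpos_of_nonpos_of_nonneg (by linarith) hden.le
    show P.eval v * _ = 0
    rw [Real.smoothTransition.zero_of_nonpos h1, mul_zero]
  · intro u hu
    show |a u - P.eval (u ^ 2) * Real.smoothTransition ((r ^ 2 - u ^ 2) / (r ^ 2 - r' ^ 2))| < 4 * δ
    rcases le_or_gt r u with hru | hur
    · have h0 : (r ^ 2 - u ^ 2) / (r ^ 2 - r' ^ 2) ≤ 0 :=
        div_nonpos_of_nonpos_of_nonneg (by nlinarith) hden.le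
      rw [Real.smoothTransition.zero_of_nonpos h0, ha u hru, mul_zero, sub_zero, abs_zero]
      positivity
    · have h1 := hP (u ^ 2) ⟨by positivity, by nlinarith⟩
      simp only [Real.sqrt_sq hu] at h1
      rcases le_or_gt u r' with hur' | hur'
      · have h0 : 1 ≤ (r ^ 2 - u ^ 2) / (r ^ 2 - r' ^ 2) := by
          rw [le_div_iff₀ hden]
          nlinarith
        rw [Real.smoothTransition.one_of_one_le h0, mul_one, abs_sub_comm]
        linarith
      · have h2 := hsmall u hur'.le hur.le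
        have h3 := Real.smoothTransition.le_one ((r ^ 2 - u ^ 2) / (r ^ 2 - r' ^ 2))
        have h4 := Real.smoothTransition.nonneg ((r ^ 2 - u ^ 2) / (r ^ 2 - r' ^ 2))
        have h5 : |P.eval (u ^ 2)| < 2 * δ := by
          have h6 : P.eval (u ^ 2) = (P.eval (u ^ 2) - a u) + a u := by ring
          rw [h6]
          calc |P.eval (u ^ 2) - a u + a u| ≤ |P.eval (u ^ 2) - a u| + |a u| := abs_add_le _ _
            _ < 2 * δ := by linarith
        have h6 : |P.eval (u ^ 2) * Real.smoothTransition ((r ^ 2 - u ^ 2) / (r ^ 2 - r' ^ 2))|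
            ≤ 2 * δ := by
          rw [abs_mul, abs_of_nonneg h4]
          calc |P.eval (u ^ 2)| * Real.smoothTransition ((r ^ 2 - u ^ 2) / (r ^ 2 - r' ^ 2))
              ≤ |P.eval (u ^ 2)| * 1 := by gcongr
            _ ≤ 2 * δ := by linarith
        have h7 := abs_sub (a u)
          (P.eval (u ^ 2) * Real.smoothTransition ((r ^ 2 - u ^ 2) / (r ^ 2 - r' ^ 2)))
        linarith

theorem twistapprox_contDiff {n : ℕ} {i j : Fin n} (hij : i ≠ j) (c : E n) {g : ℝ → ℝ}
    (hg : ContDiff ℝ 1 g) :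
    ContDiff ℝ 1 fun x : E n => c + rot i j (g (‖x - c‖ ^ 2)) (x - c) := by
  have hG : ContDiff ℝ 1 fun x : E n => g (‖x - c‖ ^ 2) := by
    have h1 : ContDiff ℝ 1 fun x : E n => ‖x - c‖ ^ 2 := (contDiff_id.sub contDiff_const).norm_sq ℝ
    exact hg.comp h1
  have hcoord : ∀ k : Fin n, ContDiff ℝ 1 fun x : E n => (x - c) k := by
    intro k
    fun_prop
  refine contDiff_const.add ?_
  rw [contDiff_euclidean]
  intro k
  have hc : ContDiff ℝ 1 fun x : E n => Real.cos (g (‖x - c‖ ^ 2)) := Real.contDiff_cos.comp hG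
  have hs : ContDiff ℝ 1 fun x : E n => Real.sin (g (‖x - c‖ ^ 2)) := Real.contDiff_sin.comp hG
  by_cases hi : k = i
  · subst hi
    simp only [rot_apply_i]
    exact (hc.mul (hcoord k)).sub (hs.mul (hcoord j))
  · by_cases hj : k = j
    · subst hj
      simp only [rot_apply_j hij]
      exact (hs.mul (hcoord i)).add (hc.mul (hcoord k))
    · simp only [rot_apply_of_ne hi hj]
      exact hcoord k

theorem twistapprox_dist {n : ℕ} {i j : Fin n} (hij : i ≠ j) (c : E n) (a b : C(ℝ, ℝ)) {r η : ℝ}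
    (hr : 0 < r) (hη : 0 < η) (ha : ∀ u, r ≤ u → a u = 0) (hb : ∀ u, r ≤ u → b u = 0)
    (hab : ∀ u, 0 ≤ u → |a u - b u| < η) (x : E n) :
    dist (twist hij c b x) (twist hij c a x) < η * (r + 1) := by
  have h1 : twist hij c b x = twist hij c (b - a) (twist hij c a x) := by
    rw [← mul_apply', twist_mul, sub_add_cancel]
  rw [h1]
  set y := twist hij c a x with hy
  have h2 := dist_twist_le hij c (b - a) y
  rw [ContinuousMap.sub_apply] at h2
  have h3 := hab ‖y - c‖ (norm_nonneg _)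
  rw [abs_sub_comm] at h3
  rcases le_or_gt r ‖y - c‖ with h | h
  · rw [ha _ h, hb _ h, sub_zero, abs_zero, zero_mul] at h2
    exact h2.trans_lt (by positivity)
  · calc dist (twist hij c (b - a) y) y ≤ |b ‖y - c‖ - a ‖y - c‖| * ‖y - c‖ := h2
      _ ≤ η * r := by
        apply mul_le_mul h3.le h.le (norm_nonneg _) hη.le
      _ < η * (r + 1) := by nlinarith

theorem twist_approx {n : ℕ} {i j : Fin n} (hij : i ≠ j) (c : E n) (a : C(ℝ, ℝ)) {r : ℝ}
    (hr : 0 < r) (ha : ∀ u, r ≤ u → a u = 0) {ε : ℝ} (hε : 0 < ε) :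
    ∃ z : E n ≃ₜ E n, Sm z ∧ SuppIn z (Metric.closedBall c r) ∧
      ∀ x, dist (z x) (twist hij c a x) < ε ∧ dist (z⁻¹ x) ((twist hij c a)⁻¹ x) < ε := by
  obtain ⟨g, hg, hg0, hga⟩ := twistapprox_profile a hr ha (δ := ε / (4 * (r + 1))) (by positivity)
  have hδ : 4 * (ε / (4 * (r + 1))) = ε / (r + 1) := by
    field_simp
  rw [hδ] at hga
  obtain ⟨b, hbu⟩ : ∃ b : C(ℝ, ℝ), ∀ u, b u = g (u ^ 2) :=
    ⟨⟨fun u => g (u ^ 2), hg.continuous.comp (continuous_pow 2)⟩, fun _ => rfl⟩
  have hb0 : ∀ u, r ≤ u → b u = 0 := fun u hu => by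
    rw [hbu]
    exact hg0 _ (by nlinarith)
  have hga' : ∀ u, 0 ≤ u → |a u - b u| < ε / (r + 1) := fun u hu => by
    rw [hbu]
    exact hga u hu
  have hη : 0 < ε / (r + 1) := by positivity
  have hεη : ε / (r + 1) * (r + 1) = ε := by
    field_simp
  have e1 : (fun x => twist hij c b x) = fun x : E n => c + rot i j (g (‖x - c‖ ^ 2)) (x - c) := by
    funext x
    rw [twist_apply, hbu]
  have e2 : (fun x => twist hij c (-b) x) =
      fun x : E n => c + rot i j (-g (‖x - c‖ ^ 2)) (x - c) := by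
    funext x
    rw [twist_apply, ContinuousMap.neg_apply, hbu]
  have hsmooth : ContDiff ℝ 1 (fun x => twist hij c b x) := by
    rw [e1]
    exact twistapprox_contDiff hij c hg
  have hsmooth' : ContDiff ℝ 1 (fun x => twist hij c (-b) x) := by
    rw [e2]
    exact twistapprox_contDiff (g := fun v => -g v) hij c hg.neg
  refine ⟨twist hij c b, ⟨hsmooth, ?_, measurePreserving_twist hij c b⟩,
    suppIn_twist hij c b hb0, ?_⟩
  · rw [twist_inv]
    exact hsmooth'
  · intro x
    constructor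
    · have h1 := twistapprox_dist hij c a b hr hη ha hb0 hga' x
      rwa [hεη] at h1
    · rw [twist_inv, twist_inv]
      have h1 := twistapprox_dist hij c (-a) (-b) hr hη
        (fun u hu => by rw [ContinuousMap.neg_apply, ha u hu, neg_zero])
        (fun u hu => by rw [ContinuousMap.neg_apply, hb0 u hu, neg_zero])
        (fun u hu => by
          rw [ContinuousMap.neg_apply, ContinuousMap.neg_apply, neg_sub_neg, abs_sub_comm]
          exact hga' u hu) x
      rwa [hεη] at h1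

end Pool.Agent.W_d1cfb0_h59
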